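import Mathlib
import Pool.Agent.Work.MP_787500_nt.H67_Defs

/-!
Parity of Selmer groups, `p = 3`: working definitions for all modules of this folder. Do not change.
-/

set_option autoImplicit false

namespace Pool.Agent.Work.MP_787500_nt.P3

open IsDedekindDomain NumberField
open Pool.Agent.Work.MP_787500_nt.OddP (AbsGal IsBase)

/-! ## Groups with a system of normal subgroups of finite index -/

section abstract

/-- a directed system of normal subgroups of finite index -/
structure Sys (G : Type*) [Group G] where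
  mem : Subgroup G → Prop
  ex : ∃ W, mem W
  inf : ∀ {W W' : Subgroup G}, mem W → mem W' → mem (W ⊓ W')
  normal : ∀ {W : Subgroup G}, mem W → W.Normal
  index : ∀ {W : Subgroup G}, mem W → W.index ≠ 0

variable {G : Type*} [Group G] (S : Sys G)

/-- all subgroups of the system have index a power of 3 -/
def Three : Prop := ∀ W, S.mem W → ∃ k : ℕ, W.index = 3 ^ k

/-- `U` contains a member of the system -/
def Opn (U : Subgroup G) : Prop := ∃ W, S.mem W ∧ W ≤ U

/-- `f` is constant on the cosets of some member of the system -/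
def Sm1 {A : Type*} (f : G → A) : Prop := ∃ W, S.mem W ∧ ∀ g, ∀ w ∈ W, f (g * w) = f g

/-- `f` is constant on the cosets of some member of the system, in both variables -/
def Sm2 {A : Type*} (f : G → G → A) : Prop :=
  ∃ W, S.mem W ∧ ∀ g h, ∀ w ∈ W, ∀ w' ∈ W, f (g * w) (h * w') = f g h

/-- the smooth homomorphisms from `U` to `ZMod 3`, extended by zero to `G` -/
def homs (U : Subgroup G) : Submodule (ZMod 3) (G → ZMod 3) where
  carrier := {ψ | Sm1 S ψ ∧ (∀ g ∉ U, ψ g = 0) ∧ ∀ g ∈ U, ∀ h ∈ U, ψ (g * h) = ψ g + ψ h}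
  add_mem' := by
    rintro a b ⟨⟨W, hW, h1⟩, h2, h3⟩ ⟨⟨W', hW', h1'⟩, h2', h3'⟩
    refine ⟨⟨W ⊓ W', S.inf hW hW', ?_⟩, ?_, ?_⟩
    · intro g w hw
      simp only [Pi.add_apply]
      rw [h1 g w hw.1, h1' g w hw.2]
    · intro g hg
      simp only [Pi.add_apply]
      rw [h2 g hg, h2' g hg, add_zero]
    · intro g hg h hh
      simp only [Pi.add_apply]
      rw [h3 g hg h hh, h3' g hg h hh]
      ring
  zero_mem' := by
    obtain ⟨W, hW⟩ := S.ex
    exact ⟨⟨W, hW, fun _ _ _ => rfl⟩, fun _ _ => rfl, fun _ _ _ _ => by simp⟩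
  smul_mem' := by
    rintro c a ⟨⟨W, hW, h1⟩, h2, h3⟩
    refine ⟨⟨W, hW, ?_⟩, ?_, ?_⟩
    · intro g w hw
      simp only [Pi.smul_apply]
      rw [h1 g w hw]
    · intro g hg
      simp only [Pi.smul_apply]
      rw [h2 g hg, smul_zero]
    · intro g hg h hh
      simp only [Pi.smul_apply]
      rw [h3 g hg h hh, smul_add]

/-- `f` restricted to `U` is a smooth 2-cocycle modulo 3 -/
def Coc (U : Subgroup G) (f : G → G → ZMod 3) : Prop :=
  Sm2 S f ∧ ∀ g ∈ U, ∀ h ∈ U, ∀ k ∈ U, f g h + f (g * h) k = f h k + f g (h * k)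

/-- `f` restricted to `U` is the coboundary of a smooth function -/
def Cob (U : Subgroup G) (f : G → G → ZMod 3) : Prop :=
  ∃ z : G → ZMod 3, Sm1 S z ∧ ∀ g ∈ U, ∀ h ∈ U, f g h = z g + z h - z (g * h)

/-- cup product of two homomorphisms -/
def cup (a b : G → ZMod 3) : G → G → ZMod 3 := fun g h => a g * b h

/-- `V` is the kernel in `U` of the homomorphism `χ` of `U`, and `s` is an element of `U` with
`χ s = 1` -/
structure Idx (V U : Subgroup G) (χ : G → ZMod 3) (s : G) : Prop where
  le : V ≤ U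
  opn : Opn S V
  hom : χ ∈ homs S U
  ker : ∀ g ∈ U, (g ∈ V ↔ χ g = 0)
  sU : s ∈ U
  sχ : χ s = 1

open scoped Classical in
/-- the transfer from `V` to `U` of a homomorphism `ψ` of `V`, with the representatives `s ^ j` of the
cosets `V s ^ j`; here `V` is the kernel of `χ` in `U` and `χ s = 1` -/
noncomputable def cor (U : Subgroup G) (χ : G → ZMod 3) (s : G) :
    (G → ZMod 3) →ₗ[ZMod 3] (G → ZMod 3) where
  toFun ψ g := if g ∈ U then ∑ j : ZMod 3, ψ (s ^ j.val * g * (s ^ (j + χ g).val)⁻¹) else 0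
  map_add' a b := by
    funext g
    simp only [Pi.add_apply]
    split_ifs
    · rw [← Finset.sum_add_distrib]
    · rw [add_zero]
  map_smul' c a := by
    funext g
    simp only [Pi.smul_apply, RingHom.id_apply, smul_eq_mul]
    split_ifs
    · rw [Finset.mul_sum]
    · rw [mul_zero]

/-- the number of homomorphisms to `ZMod 3` of each open subgroup `U` is `3 ^ (2 (G : U) + 2)` -/
def Counts : Prop :=
  ∀ U : Subgroup G, Opn S U →
    FiniteDimensional (ZMod 3) (homs S U) ∧ Module.finrank (ZMod 3) (homs S U) = 2 * U.index + 2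

/-- if the cup product of `χ` and `ω` vanishes then `ω` is a transfer from the kernel of `χ` -/
def Hilb : Prop :=
  ∀ (V U : Subgroup G) (χ : G → ZMod 3) (s : G), Idx S V U χ s → ∀ ω ∈ homs S U,
    Cob S U (cup χ ω) → ∃ ψ ∈ homs S V, cor U χ s ψ = ω

/-- The second cohomology modulo 3 is spanned by one class, and the cup product of homomorphisms is
nondegenerate. -/
structure LocalType : Prop where
  nondeg : ∀ χ ∈ homs S ⊤, χ ≠ 0 → ∃ ω ∈ homs S ⊤, ¬ Cob S ⊤ (cup χ ω)
  one : ∀ f f' : G → G → ZMod 3, Coc S ⊤ f → Coc S ⊤ f' → ¬ Cob S ⊤ f →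
    ∃ a : ZMod 3, Cob S ⊤ (fun g h => f' g h - a * f g h)

end abstract

/-! ## 3-adic cochains -/

section adic

variable {G : Type*} [Group G] (S : Sys G)

/-- uniform continuity for the system -/
def C1 (z : G → ℤ_[3]) : Prop :=
  ∀ n : ℕ, ∃ W, S.mem W ∧ ∀ g, ∀ w ∈ W, (3 : ℤ_[3]) ^ n ∣ z (g * w) - z g

/-- uniform continuity for the system, two variables -/
def C2 (f : G → G → ℤ_[3]) : Prop :=
  ∀ n : ℕ, ∃ W, S.mem W ∧ ∀ g h, ∀ w ∈ W, ∀ w' ∈ W, (3 : ℤ_[3]) ^ n ∣ f (g * w) (h * w') - f g h

/-- a continuous character -/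
structure IsChar (χ : G → ℤ_[3]) : Prop where
  one : χ 1 = 1
  mul : ∀ g h, χ (g * h) = χ g * χ h
  cont : C1 S χ

/-- a continuous character which is 1 modulo 3 -/
structure IsChar3 (χ : G → ℤ_[3]) : Prop extends IsChar S χ where
  red : ∀ g, (3 : ℤ_[3]) ∣ χ g - 1

/-- the coboundary of `z`, with values in the 3-adic integers twisted by `χ` -/
noncomputable def dd (χ z : G → ℤ_[3]) : G → G → ℤ_[3] :=
  fun g h => z g + χ g * z h - z (g * h)

/-- continuous 2-cocycles with values in the 3-adic integers twisted by `χ` -/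
def Z2 (χ : G → ℤ_[3]) (f : G → G → ℤ_[3]) : Prop :=
  C2 S f ∧ ∀ g h k, f g h + f (g * h) k = χ g * f h k + f g (h * k)

/-- continuous 2-cocycles modulo `3 ^ n` -/
def CocMod (χ : G → ℤ_[3]) (n : ℕ) (f : G → G → ℤ_[3]) : Prop :=
  (∃ W, S.mem W ∧ ∀ g h, ∀ w ∈ W, ∀ w' ∈ W, (3 : ℤ_[3]) ^ n ∣ f (g * w) (h * w') - f g h) ∧
    ∀ g h k, (3 : ℤ_[3]) ^ n ∣ f g h + f (g * h) k - (χ g * f h k + f g (h * k))

/-- coboundaries modulo `3 ^ n` -/
def CobMod (χ : G → ℤ_[3]) (n : ℕ) (f : G → G → ℤ_[3]) : Prop :=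
  ∃ z : G → ℤ_[3], Sm1 S z ∧ ∀ g h, (3 : ℤ_[3]) ^ n ∣ f g h - dd χ z g h

/-- coboundaries of continuous functions -/
def B2 (χ : G → ℤ_[3]) (f : G → G → ℤ_[3]) : Prop :=
  ∃ z : G → ℤ_[3], C1 S z ∧ f = dd χ z

/-- `κ` is an involution of the group preserving the system and the character -/
structure IsInvol (χ : G → ℤ_[3]) (κ : G → G) : Prop where
  mul : ∀ g h, κ (g * h) = κ g * κ h
  inv : ∀ g, κ (κ g) = g
  sys : ∀ W, S.mem W → ∃ W', S.mem W' ∧ ∀ g ∈ W', κ g ∈ W
  chi : ∀ g, χ (κ g) = χ g

end adic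

/-! ## Cochains with values in a 3-adic field -/

section field

variable {G : Type*} [Group G] (S : Sys G)
variable {E : Type*} [NormedField E] [NormedAlgebra ℚ_[3] E]

/-- uniform continuity for the system, values in a normed group -/
def N1 {A : Type*} [NormedAddCommGroup A] (z : G → A) : Prop :=
  ∀ ε : ℝ, 0 < ε → ∃ W, S.mem W ∧ ∀ g, ∀ w ∈ W, ‖z (g * w) - z g‖ < ε

/-- uniform continuity for the system, two variables, values in a normed group -/
def N2 {A : Type*} [NormedAddCommGroup A] (f : G → G → A) : Prop :=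
  ∀ ε : ℝ, 0 < ε → ∃ W, S.mem W ∧ ∀ g h, ∀ w ∈ W, ∀ w' ∈ W, ‖f (g * w) (h * w') - f g h‖ < ε

/-- the value of a character in a 3-adic field -/
noncomputable def toE (E : Type*) [NormedField E] [NormedAlgebra ℚ_[3] E] (a : ℤ_[3]) : E :=
  algebraMap ℚ_[3] E (a : ℚ_[3])

/-- the coboundary of `z`, with values in `E` twisted by `χ` -/
noncomputable def dE (χ : G → ℤ_[3]) (z : G → E) : G → G → E :=
  fun g h => z g + toE E (χ g) * z h - z (g * h)

/-- continuous 2-cocycles with values in `E` twisted by `χ` -/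
def ZE (χ : G → ℤ_[3]) (f : G → G → E) : Prop :=
  N2 S f ∧ ∀ g h k, f g h + f (g * h) k = toE E (χ g) * f h k + f g (h * k)

/-- coboundaries of continuous functions -/
def BE (χ : G → ℤ_[3]) (f : G → G → E) : Prop := ∃ z : G → E, N1 S z ∧ f = dE χ z

/-- an invariant map for the second cohomology with values in `E` twisted by `χ`, which is invariant
under `κ` -/
structure InvMap (E : Type*) [NormedField E] [NormedAlgebra ℚ_[3] E] (χ : G → ℤ_[3]) (κ : G → G)
    (inv : (G → G → E) → E) : Prop where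
  add : ∀ f f', ZE S χ f → ZE S χ f' → inv (fun g h => f g h + f' g h) = inv f + inv f'
  smul : ∀ (a : E) (f), ZE S χ f → inv (fun g h => a * f g h) = a * inv f
  ker : ∀ f, ZE S χ f → (inv f = 0 ↔ BE S χ f)
  kap : ∀ f, ZE S χ f → inv (fun g h => f (κ g) (κ h)) = inv f

end field

/-! ## The absolute Galois group -/

section galois

universe u

variable (K : Type u) [Field K]

/-- a primitive cube root of unity (in characteristic different from 3) -/
noncomputable def z3 : AlgebraicClosure K :=
  Classical.choose (IsAlgClosed.exists_root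
    (Polynomial.X ^ 2 + Polynomial.X + 1 : Polynomial (AlgebraicClosure K)) (by
      have : (Polynomial.X ^ 2 + Polynomial.X + 1 : Polynomial (AlgebraicClosure K)).degree = 2 := by
        compute_degree!
      rw [this]
      decide))

theorem z3_spec : z3 K ^ 2 + z3 K + 1 = 0 := by
  have h := Classical.choose_spec (IsAlgClosed.exists_root
    (Polynomial.X ^ 2 + Polynomial.X + 1 : Polynomial (AlgebraicClosure K)) (by
      have : (Polynomial.X ^ 2 + Polynomial.X + 1 : Polynomial (AlgebraicClosure K)).degree = 2 := by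
        compute_degree!
      rw [this]
      decide))
  have h2 : Polynomial.eval (z3 K)
      (Polynomial.X ^ 2 + Polynomial.X + 1 : Polynomial (AlgebraicClosure K)) = 0 := h
  simpa using h2

theorem z3_pow_three : z3 K ^ 3 = 1 := by
  have h := z3_spec K
  linear_combination (z3 K - 1) * h

/-- the power of `z3 K` with exponent `j` modulo 3 -/
noncomputable def zp (j : ZMod 3) : AlgebraicClosure K := z3 K ^ j.val

/-- the absolute Galois group of `K (z3 K)`, as a subgroup of the absolute Galois group of `K` -/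
noncomputable def Gp : Subgroup (AbsGal K) where
  carrier := {g | g (z3 K) = z3 K}
  mul_mem' := by
    intro a b ha hb
    show a (b (z3 K)) = z3 K
    rw [show b (z3 K) = z3 K from hb, show a (z3 K) = z3 K from ha]
  one_mem' := rfl
  inv_mem' := by
    intro a ha
    show a.symm (z3 K) = z3 K
    rw [AlgEquiv.symm_apply_eq]
    exact (show a (z3 K) = z3 K from ha).symm

variable {K}

/-- open normal subgroups contained in `Gp K`, with `Gp K / W` a 3-group, which contain the inertia
groups at all primes not above 3 -/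
structure Good (W : Subgroup (AbsGal K)) : Prop where
  normal : W.Normal
  isOpen : IsOpen (W : Set (AbsGal K))
  le : W ≤ Gp K
  pow : ∀ g ∈ Gp K, ∃ k : ℕ, g ^ (3 ^ k) ∈ W
  inertia : ∀ Q : Ideal (𝓞 (AlgebraicClosure K)), Q.IsPrime → (3 : 𝓞 (AlgebraicClosure K)) ∉ Q →
    Q.inertia (AbsGal K) ≤ W

/-- the intersection of all good subgroups -/
noncomputable def core (K : Type u) [Field K] : Subgroup (AbsGal K) := sInf {W | Good W}

/-- the 3-adic cyclotomic character -/
noncomputable def cyc (σ : AbsGal K) : ℤ_[3] :=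
  ((cyclotomicCharacter (AlgebraicClosure K) 3 (σ : AlgebraicClosure K ≃+* AlgebraicClosure K) :
    ℤ_[3]ˣ) : ℤ_[3])

/-- the 3-adic cyclotomic character on `Gp K` -/
noncomputable def cycG (σ : Gp K) : ℤ_[3] := cyc (σ : AbsGal K)

/-- `x` is a unit away from 3 -/
def SU {Ω : Type*} [Field Ω] (x : Ω) : Prop :=
  x ≠ 0 ∧ (∃ N : ℕ, IsIntegral ℤ ((3 : Ω) ^ N * x)) ∧ ∃ N : ℕ, IsIntegral ℤ ((3 : Ω) ^ N * x⁻¹)

/-- `x` is fixed by a good subgroup: it lies in the maximal extension of `K (z3 K)` of exponent a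
power of 3 unramified outside 3 -/
def InM (x : AlgebraicClosure K) : Prop :=
  ∃ W : Subgroup (AbsGal K), Good W ∧ ∀ w ∈ W, w x = x

/-- `c` is an involution of the algebraic closure which is not the identity on `K` -/
structure IsConj (c : AlgebraicClosure K ≃+* AlgebraicClosure K) : Prop where
  sq : ∀ x, c (c x) = x
  ne : ∃ a : K, c (algebraMap K (AlgebraicClosure K) a) ≠ algebraMap K (AlgebraicClosure K) a

open scoped Classical in
/-- the homomorphism from `U` to `ZMod 3` given by the action on `t`, extended by zero -/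
noncomputable def act3 (U : Subgroup (Gp K)) (t : AlgebraicClosure K) (g : Gp K) : ZMod 3 :=
  if g ∈ U then (if (g : AbsGal K) t = zp K 1 * t then 1 else
    if (g : AbsGal K) t = zp K 2 * t then 2 else 0) else 0

/-- `κ` restricted to `Gp K` -/
noncomputable def resG (κ : AbsGal K → AbsGal K) (g : Gp K) : Gp K :=
  open scoped Classical in if h : κ g ∈ Gp K then ⟨κ g, h⟩ else 1

/-- the decomposition group of `P` (its stabilizer) -/
noncomputable def dec (P : Ideal (𝓞 (AlgebraicClosure K))) : Subgroup (AbsGal K) :=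
  open scoped Pointwise in MulAction.stabilizer (AbsGal K) P

/-- the decomposition group of `P` in `Gp K` -/
noncomputable def decG (P : Ideal (𝓞 (AlgebraicClosure K))) : Subgroup (Gp K) :=
  (dec P).subgroupOf (Gp K)

/-- the fixed field of a subgroup of `Gp K` -/
noncomputable def fld (U : Subgroup (Gp K)) : IntermediateField K (AlgebraicClosure K) :=
  IntermediateField.fixedField (U.map (Gp K).subtype)

/-- the place of the number field `F` below the prime `P` containing 3 -/
noncomputable def pl (F : IntermediateField K (AlgebraicClosure K)) [NumberField F]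
    (P : Ideal (𝓞 (AlgebraicClosure K))) [P.IsPrime] (hP : (3 : 𝓞 (AlgebraicClosure K)) ∈ P) :
    HeightOneSpectrum (𝓞 F) where
  asIdeal := P.comap (algebraMap (𝓞 F) (𝓞 (AlgebraicClosure K)))
  isPrime := inferInstance
  ne_bot := by
    intro h
    have h1 : (3 : 𝓞 F) ∈ P.comap (algebraMap (𝓞 F) (𝓞 (AlgebraicClosure K))) := by
      rw [Ideal.mem_comap, map_ofNat]
      exact hP
    rw [h, Ideal.mem_bot] at h1
    exact (by norm_num : (3 : 𝓞 F) ≠ 0) h1

/-- `z` is, up to a relative error smaller than 9, a cube -/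
def LocCb {F Γ : Type*} [Field F] [LinearOrderedCommGroupWithZero Γ] (v : Valuation F Γ) (z : F) :
    Prop :=
  ∃ y : F, v (z - y ^ 3) < v (9 * z)

/-- the ideal of the `t` with `w t ≤ w 3` -/
noncomputable def triIdeal {F : Type*} [Field F] [NumberField F] (w : HeightOneSpectrum (𝓞 F)) :
    Ideal (𝓞 F) where
  carrier := {t | w.valuation F (algebraMap (𝓞 F) F t) ≤ w.valuation F 3}
  add_mem' := by
    intro a b ha hb
    show w.valuation F (algebraMap (𝓞 F) F (a + b)) ≤ _
    rw [map_add]
    exact (Valuation.map_add _ _ _).trans (max_le ha hb)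
  zero_mem' := by
    show w.valuation F (algebraMap (𝓞 F) F 0) ≤ _
    rw [map_zero, map_zero]
    exact zero_le
  smul_mem' := by
    intro c x hx
    show w.valuation F (algebraMap (𝓞 F) F (c * x)) ≤ _
    rw [map_mul, map_mul]
    exact (mul_le_mul' (w.valuation_le_one c) le_rfl).trans (by rw [one_mul]; exact hx)

end galois

end Pool.Agent.Work.MP_787500_nt.P3
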