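import Mathlib
import Pool.Agent.Work.MP_787500_nt.P3.Defs

/-!
The good subgroups of the absolute Galois group form a system; they induce a system on `Gp K` (proved).
-/

set_option autoImplicit false

namespace Pool.Agent.Work.MP_787500_nt.P3

open IsDedekindDomain NumberField
open Pool.Agent.Work.MP_787500_nt.OddP (AbsGal IsBase)

universe u

section basic

variable {K : Type u} [Field K]

theorem z3_ne_zero : z3 K ≠ 0 := by
  intro h
  have := z3_spec K
  rw [h] at this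
  norm_num at this

theorem z3_ne_one [CharZero K] : z3 K ≠ 1 := by
  intro h
  have h1 := z3_spec K
  have : CharZero (AlgebraicClosure K) :=
    charZero_of_injective_algebraMap (algebraMap K (AlgebraicClosure K)).injective
  rw [h] at h1
  norm_num at h1

theorem z3_prim [CharZero K] : IsPrimitiveRoot (z3 K) 3 := by
  have h := orderOf_eq_prime (p := 3) (z3_pow_three K) z3_ne_one
  rw [← h]
  exact IsPrimitiveRoot.orderOf _

/-- the image of `z3 K` under an automorphism -/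
theorem gal_z3 [CharZero K] (g : AbsGal K) : g (z3 K) = z3 K ∨ g (z3 K) = z3 K ^ 2 := by
  have h1 : (g (z3 K)) ^ 3 = 1 := by rw [← map_pow, z3_pow_three, map_one]
  obtain ⟨i, hi, h⟩ := (z3_prim (K := K)).eq_pow_of_pow_eq_one h1
  interval_cases i
  · exfalso
    rw [pow_zero] at h
    exact z3_ne_one (g.injective (by rw [← h, map_one]))
  · left
    rw [← h, pow_one]
  · right
    exact h.symm

theorem mem_Gp {g : AbsGal K} : g ∈ Gp K ↔ g (z3 K) = z3 K := Iff.rfl

theorem Gp_mul_iff [CharZero K] (g h : AbsGal K) : g * h ∈ Gp K ↔ (g ∈ Gp K ↔ h ∈ Gp K) := by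
  have hne : z3 K ≠ z3 K ^ 2 := by
    intro h0
    apply z3_ne_one (K := K)
    have h1 : z3 K * z3 K = z3 K * 1 := by rw [mul_one, ← sq, ← h0]
    exact mul_left_cancel₀ z3_ne_zero h1
  have h4 : (z3 K ^ 2) ^ 2 = z3 K := by
    have := z3_pow_three K
    calc (z3 K ^ 2) ^ 2 = z3 K ^ 3 * z3 K := by ring
      _ = z3 K := by rw [this, one_mul]
  rw [mem_Gp, mem_Gp, mem_Gp, AlgEquiv.mul_apply]
  rcases gal_z3 (K := K) h with hh | hh <;> rcases gal_z3 (K := K) g with hg | hg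
  · simp [hh, hg]
  · rw [hh, hg]
    simp [hne.symm]
  · rw [hh, map_pow, hg]
    simp [hne.symm]
  · rw [hh, map_pow, hg, h4]
    simp [hne.symm]

instance Gp_normal [CharZero K] : (Gp K).Normal := ⟨fun g hg h => by
  rw [Gp_mul_iff, Gp_mul_iff, inv_mem_iff]
  tauto⟩

theorem Gp_isOpen : IsOpen (Gp K : Set (AbsGal K)) := by
  exact stabilizer_isOpen_of_isIntegral (K := K) (z3 K)

end basic

variable {K : Type u} [Field K] [NumberField K]

theorem pow_mem_of_le3 {G : Type*} [Group G] {W : Subgroup G} {g : G} {k l : ℕ} (hkl : k ≤ l)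
    (h : g ^ 3 ^ k ∈ W) : g ^ 3 ^ l ∈ W := by
  obtain ⟨m, rfl⟩ := Nat.exists_eq_add_of_le hkl
  rw [pow_add, pow_mul]
  exact W.pow_mem h _

theorem Good.gp : Good (Gp K) := by
  refine ⟨Gp_normal, Gp_isOpen, le_rfl, fun g hg => ⟨0, by simpa using hg⟩, fun Q hQ hQ3 σ hσ => ?_⟩
  rcases gal_z3 (K := K) σ with h | h
  · exact h
  · exfalso
    have hint : IsIntegral ℤ (z3 K) := by
      refine ⟨Polynomial.X ^ 3 - 1, ?_, ?_⟩
      · exact Polynomial.monic_X_pow_sub_C (1 : ℤ) (by norm_num)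
      · simp [z3_pow_three]
    let Z : 𝓞 (AlgebraicClosure K) := ⟨z3 K, hint⟩
    have hZ : Z ^ 2 + Z + 1 = 0 := by
      apply NumberField.RingOfIntegers.ext
      exact z3_spec K
    have h1 : σ • Z - Z ∈ Q := hσ Z
    have h2 : σ • Z = Z ^ 2 := by
      apply NumberField.RingOfIntegers.ext
      exact h
    rw [h2] at h1
    have h3 : (3 : 𝓞 (AlgebraicClosure K)) ∈ Q := by
      have h4 : (3 : 𝓞 (AlgebraicClosure K)) = -((Z ^ 2 - Z) * (Z ^ 2 - Z)) := by
        linear_combination (Z ^ 2 - 3 * Z + 3) * hZ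
      rw [h4]
      exact Q.neg_mem (Q.mul_mem_left _ h1)
    exact hQ3 h3

omit [NumberField K] in
theorem Good.inf {W W' : Subgroup (AbsGal K)} (h : Good W) (h' : Good W') : Good (W ⊓ W') := by
  have := h.normal
  have := h'.normal
  refine ⟨inferInstance, h.isOpen.inter h'.isOpen, inf_le_left.trans h.le, fun g hg => ?_,
    fun Q hQ hQ2 => le_inf (h.inertia Q hQ hQ2) (h'.inertia Q hQ hQ2)⟩
  obtain ⟨k, hk⟩ := h.pow g hg
  obtain ⟨l, hl⟩ := h'.pow g hg
  exact ⟨max k l, pow_mem_of_le3 (le_max_left k l) hk, pow_mem_of_le3 (le_max_right k l) hl⟩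

theorem Good.index_ne {W : Subgroup (AbsGal K)} (h : Good W) : W.index ≠ 0 := by
  have hfin : Finite (AbsGal K ⧸ W) := Subgroup.quotient_finite_of_isOpen W h.isOpen
  exact Subgroup.index_ne_zero_of_finite

theorem Good.relIndex {W : Subgroup (AbsGal K)} (h : Good W) :
    ∃ k : ℕ, (W.subgroupOf (Gp K)).index = 3 ^ k := by
  have hn := h.normal
  have hfin : Finite (AbsGal K ⧸ W) := Subgroup.quotient_finite_of_isOpen W h.isOpen
  have h0 : (W.subgroupOf (Gp K)).index ≠ 0 := by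
    have h1 := Subgroup.relIndex_mul_index h.le
    intro h2
    have h3 : W.relIndex (Gp K) = 0 := h2
    rw [h3, zero_mul] at h1
    exact h.index_ne h1.symm
  have hfi : (W.subgroupOf (Gp K)).FiniteIndex := ⟨h0⟩
  have hfin' : Finite (Gp K ⧸ W.subgroupOf (Gp K)) := inferInstance
  have : Fact (Nat.Prime 3) := ⟨Nat.prime_three⟩
  have hP : IsPGroup 3 (Gp K ⧸ W.subgroupOf (Gp K)) := by
    intro x
    obtain ⟨g, rfl⟩ := QuotientGroup.mk_surjective x
    obtain ⟨k, hk⟩ := h.pow g g.2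
    exact ⟨k, by rw [← QuotientGroup.mk_pow, QuotientGroup.eq_one_iff]; exact hk⟩
  obtain ⟨m, hm⟩ := IsPGroup.iff_card.1 hP
  exact ⟨m, hm⟩

/-- the system of good subgroups -/
def gSys (K : Type u) [Field K] [NumberField K] : Sys (AbsGal K) where
  mem := Good
  ex := ⟨Gp K, Good.gp⟩
  inf := Good.inf
  normal := Good.normal
  index := Good.index_ne

/-- the system induced on `Gp K` -/
def pSys (K : Type u) [Field K] [NumberField K] : Sys (Gp K) where
  mem W' := ∃ W, Good W ∧ W' = W.subgroupOf (Gp K)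
  ex := ⟨_, Gp K, Good.gp, rfl⟩
  inf := by
    rintro _ _ ⟨W, hW, rfl⟩ ⟨W', hW', rfl⟩
    refine ⟨W ⊓ W', hW.inf hW', ?_⟩
    ext x
    simp [Subgroup.mem_subgroupOf]
  normal := by
    rintro _ ⟨W, hW, rfl⟩
    have := hW.normal
    infer_instance
  index := by
    rintro _ ⟨W, hW, rfl⟩
    obtain ⟨k, hk⟩ := hW.relIndex
    rw [hk]
    positivity

theorem three_pSys : Three (pSys K) := by
  rintro _ ⟨W, hW, rfl⟩
  exact hW.relIndex

theorem pSys_mem {W : Subgroup (AbsGal K)} (hW : Good W) : (pSys K).mem (W.subgroupOf (Gp K)) :=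
  ⟨W, hW, rfl⟩

/-- an open subgroup of `Gp K` contains a good subgroup -/
theorem opn_good {U : Subgroup (Gp K)} (h : Opn (pSys K) U) :
    ∃ W, Good W ∧ W ≤ U.map (Gp K).subtype := by
  obtain ⟨_, ⟨W, hW, rfl⟩, hle⟩ := h
  refine ⟨W, hW, fun w hw => ?_⟩
  exact ⟨⟨w, hW.le hw⟩, hle (Subgroup.mem_subgroupOf.2 hw), rfl⟩

theorem opn_map {U : Subgroup (Gp K)} (h : Opn (pSys K) U) : Opn (gSys K) (U.map (Gp K).subtype) :=
  opn_good h

theorem opn_isOpen {U : Subgroup (AbsGal K)} (h : Opn (gSys K) U) :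
    IsOpen (U : Set (AbsGal K)) := by
  obtain ⟨W, hW, hle⟩ := h
  exact Subgroup.isOpen_mono hle (Good.isOpen hW)

/-- smoothness for the system on `Gp K`, in terms of good subgroups -/
theorem sm1_iff {A : Type*} {f : Gp K → A} :
    Sm1 (pSys K) f ↔ ∃ W, Good W ∧ ∀ g w : Gp K, (w : AbsGal K) ∈ W → f (g * w) = f g := by
  constructor
  · rintro ⟨_, ⟨W, hW, rfl⟩, h⟩
    exact ⟨W, hW, fun g w hw => h g w (Subgroup.mem_subgroupOf.2 hw)⟩
  · rintro ⟨W, hW, h⟩
    exact ⟨_, pSys_mem hW, fun g w hw => h g w (Subgroup.mem_subgroupOf.1 hw)⟩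

/-- members of the system on `Gp K` contain members of the system on the whole group -/
theorem pSys_le {W' : Subgroup (Gp K)} (h : (pSys K).mem W') :
    ∃ W, (gSys K).mem W ∧ W ≤ Gp K ∧ W.subgroupOf (Gp K) ≤ W' := by
  obtain ⟨W, hW, rfl⟩ := h
  exact ⟨W, hW, hW.le, le_rfl⟩

end Pool.Agent.Work.MP_787500_nt.P3
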