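import Mathlib
import Pool.Agent.Work.MP_787500_nt.P3.C_Sys
import Pool.Agent.Work.MP_787500_nt.H67_Hilbert

/-!
# Module C_KUM (size S-M): Kummer theory for closed subgroups of `Gp K`

`H` a closed subgroup of `AbsGal K` inside `Gp K`, `ψ` a homomorphism from `H` to `ZMod 3` vanishing on
`H ⊓ V`, `V` open. `Ω = AlgebraicClosure K` is Galois over `L = fixedField H` with group `H`
(`InfiniteGalois.fixingSubgroup_fixedField`, `IntermediateField.fixingSubgroupEquiv`; `z3 ∈ L`). Apply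
`exists_root_of_cocycle` (`H67_Hilbert.lean`) to `f σ = zp K (ψ σ)` (values in `L`, so a cocycle is a
homomorphism; `zp K (a + b) = zp K a * zp K b` as `z3 ^ 3 = 1`; locally constant: the intersection of an
open subgroup `V` with `H`, as an open subgroup of `Ω ≃ₐ[L] Ω`: the topology of `Ω ≃ₐ[L] Ω` is the
topology induced from `AbsGal K`, or take the fixing subgroup of finitely many generators of a finite
extension whose fixing subgroup is inside `V`).
* `zp_add`, `zp_ne_zero`, `zp_inj`, `gal_zp`, `exists_zp`: calculus of cube roots of unity.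
-/

set_option autoImplicit false

namespace Pool.Agent.Work.MP_787500_nt.P3

open IsDedekindDomain NumberField
open Pool.Agent.Work.MP_787500_nt.OddP (AbsGal IsBase)

universe u

variable {K : Type u} [Field K]

theorem zp_zero : zp K 0 = 1 := by
  show z3 K ^ (0 : ZMod 3).val = 1
  rw [ZMod.val_zero, pow_zero]

private theorem z3_pow_mod (n : ℕ) : z3 K ^ (n % 3) = z3 K ^ n := by
  conv_rhs => rw [← Nat.div_add_mod n 3]
  rw [pow_add, pow_mul, z3_pow_three, one_pow, one_mul]

private theorem zp_natCast (n : ℕ) : zp K (n : ZMod 3) = z3 K ^ n := by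
  show z3 K ^ (n : ZMod 3).val = _
  rw [ZMod.val_natCast, z3_pow_mod]

theorem zp_add (a b : ZMod 3) : zp K (a + b) = zp K a * zp K b := by
  show z3 K ^ (a + b).val = z3 K ^ a.val * z3 K ^ b.val
  rw [← pow_add, ZMod.val_add, z3_pow_mod]

theorem zp_ne_zero (a : ZMod 3) : zp K a ≠ 0 :=
  pow_ne_zero _ z3_ne_zero

theorem zp_pow (a : ZMod 3) (n : ℕ) : zp K a ^ n = zp K (n * a) := by
  have h : ((n * a.val : ℕ) : ZMod 3) = n * a := by
    push_cast
    rw [ZMod.natCast_zmod_val]
  rw [← h, zp_natCast, mul_comm, pow_mul]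
  rfl

theorem zp_pow_three (a : ZMod 3) : zp K a ^ 3 = 1 := by
  rw [zp_pow, show ((3 : ℕ) : ZMod 3) = 0 from rfl, zero_mul, zp_zero]

theorem zp_sum {ι : Type*} (T : Finset ι) (f : ι → ZMod 3) :
    ∏ i ∈ T, zp K (f i) = zp K (∑ i ∈ T, f i) := by
  classical
  induction T using Finset.induction_on with
  | empty => rw [Finset.prod_empty, Finset.sum_empty, zp_zero]
  | insert i T hi ih => rw [Finset.prod_insert hi, Finset.sum_insert hi, zp_add, ih]

theorem gal_zp {g : AbsGal K} (hg : g ∈ Gp K) (a : ZMod 3) : g (zp K a) = zp K a := by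
  show g (z3 K ^ a.val) = z3 K ^ a.val
  rw [map_pow, show g (z3 K) = z3 K from hg]

section zero

variable [CharZero K]

theorem zp_injective : Function.Injective (zp K) := by
  intro a b h
  have h1 := (z3_prim (K := K)).pow_inj (ZMod.val_lt a) (ZMod.val_lt b) h
  exact ZMod.val_injective 3 h1

theorem exists_zp {x y : AlgebraicClosure K} (hy : y ≠ 0) (h : x ^ 3 = y ^ 3) :
    ∃ a : ZMod 3, x = zp K a * y := by
  have h1 : (x / y) ^ 3 = 1 := by
    rw [div_pow, h, div_self (pow_ne_zero 3 hy)]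
  obtain ⟨i, hi, h2⟩ := (z3_prim (K := K)).eq_pow_of_pow_eq_one h1
  refine ⟨(i : ZMod 3), ?_⟩
  rw [zp_natCast, h2, div_mul_cancel₀ _ hy]

end zero

theorem exists_kum {K : Type u} [Field K] [NumberField K] {H : Subgroup (AbsGal K)}
    (hH : IsClosed (H : Set (AbsGal K))) (hle : H ≤ Gp K) (ψ : AbsGal K → ZMod 3)
    (hmul : ∀ g ∈ H, ∀ h ∈ H, ψ (g * h) = ψ g + ψ h)
    (hcont : ∃ V : Subgroup (AbsGal K), IsOpen (V : Set (AbsGal K)) ∧ ∀ g ∈ H ⊓ V, ψ g = 0) :
    ∃ Y : AlgebraicClosure K, Y ≠ 0 ∧ ∀ g ∈ H, g Y = zp K (ψ g) * Y := by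
  classical
  obtain ⟨V, hV, hVψ⟩ := hcont
  let L : IntermediateField K (AlgebraicClosure K) :=
    IntermediateField.fixedField (F := K) (E := AlgebraicClosure K) H
  have hfix : L.fixingSubgroup = H :=
    InfiniteGalois.fixingSubgroup_fixedField (k := K) (K := AlgebraicClosure K) ⟨H, hH⟩
  let r : (AlgebraicClosure K ≃ₐ[L] AlgebraicClosure K) →* AbsGal K :=
    { toFun := fun σ => σ.restrictScalars K
      map_one' := rfl
      map_mul' := fun _ _ => rfl }
  have hrH : ∀ σ, r σ ∈ H := by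
    intro σ
    rw [← hfix, IntermediateField.mem_fixingSubgroup_iff]
    intro x hx
    exact σ.commutes ⟨x, hx⟩
  obtain ⟨E, hE, hEV⟩ := (krullTopology_mem_nhds_one_iff K (AlgebraicClosure K)
    (V : Set (AbsGal K))).1 (hV.mem_nhds V.one_mem)
  let b := Module.finBasis K E
  let V' : Subgroup (AlgebraicClosure K ≃ₐ[L] AlgebraicClosure K) :=
    ⨅ i, MulAction.stabilizer (AlgebraicClosure K ≃ₐ[L] AlgebraicClosure K)
      (b i : AlgebraicClosure K)
  have hV'open : IsOpen (V' : Set (AlgebraicClosure K ≃ₐ[L] AlgebraicClosure K)) := by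
    rw [Subgroup.coe_iInf]
    refine isOpen_iInter_of_finite fun i => ?_
    exact stabilizer_isOpen_of_isIntegral (b i : AlgebraicClosure K)
  have hV'V : ∀ σ ∈ V', r σ ∈ V := by
    intro σ hσ
    rw [Subgroup.mem_iInf] at hσ
    apply hEV
    show r σ ∈ E.fixingSubgroup
    rw [IntermediateField.mem_fixingSubgroup_iff]
    intro x hx
    have h1 : ∀ i, r σ (b i : AlgebraicClosure K) = (b i : AlgebraicClosure K) := fun i => hσ i
    have h3 : x = ∑ i, b.repr ⟨x, hx⟩ i • (b i : AlgebraicClosure K) := by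
      calc x = E.val ⟨x, hx⟩ := rfl
        _ = E.val (∑ i, b.repr ⟨x, hx⟩ i • b i) := by rw [b.sum_repr]
        _ = _ := by rw [map_sum]; rfl
    rw [h3, map_sum]
    refine Finset.sum_congr rfl fun i _ => ?_
    rw [Algebra.smul_def, map_mul, AlgEquiv.commutes, h1]
  obtain ⟨Y, hY0, hY⟩ := Pool.Agent.Work.MP_787500_nt.OddP.exists_root_of_cocycle (K := L)
    (Ω := AlgebraicClosure K) (fun σ => zp K (ψ (r σ))) (fun σ => zp_ne_zero _) (by
      intro σ τ
      show zp K (ψ (r (σ * τ))) = zp K (ψ (r σ)) * r σ (zp K (ψ (r τ)))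
      rw [map_mul, hmul _ (hrH σ) _ (hrH τ), zp_add, gal_zp (hle (hrH σ))])
    ⟨V', hV'open, fun σ v hv => by
      show zp K (ψ (r (σ * v))) = zp K (ψ (r σ))
      rw [map_mul, hmul _ (hrH σ) _ (hrH v), hVψ (r v) ⟨hrH v, hV'V v hv⟩, add_zero]⟩
  refine ⟨Y, hY0, fun g hg => ?_⟩
  have hg' : g ∈ L.fixingSubgroup := by rw [hfix]; exact hg
  have h1 := hY (IntermediateField.fixingSubgroupEquiv L ⟨g, hg'⟩)
  have h2 : r (IntermediateField.fixingSubgroupEquiv L ⟨g, hg'⟩) = g := by
    ext x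
    rfl
  have h3 : (IntermediateField.fixingSubgroupEquiv L ⟨g, hg'⟩) Y = g Y := rfl
  rw [h2, h3] at h1
  rw [h1, div_mul_cancel₀ _ hY0]

end Pool.Agent.Work.MP_787500_nt.P3
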