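import Mathlib
import Pool.Agent.Work.MP_787500_nt.P3.C_Sys
import Pool.Agent.Work.MP_787500_nt.P3.C_SU

/-!
# Module C_ROOT (size M): the maximal 3-extension of `K (z3)` unramified outside 3 and cube roots

(Port of `PA/RootM.lean`.) `InM x`: some good subgroup fixes `x`. Good subgroups are closed under
intersection, so the elements with `InM` form a subfield containing `K` and `z3 K` (`Good.gp`); it is
stable under `AbsGal K` (good subgroups are normal).
* `InM.cbrt`: `y` fixed by the good subgroup `W`, `SU y`, `x ^ 3 = y`. Let `W'` be the set of `g ∈ W` with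
  `g x' = x'` for all conjugates `x' = h x`, `h ∈ AbsGal K`. There are finitely many conjugates, so `W'`
  is open; it is normal, contained in `W ≤ Gp K`. For `g ∈ Gp K`, `g ^ (3 ^ k) ∈ W` implies
  `g ^ (3 ^ (k + 1)) ∈ W'`: an element `w` of `W` fixes `h y` (normality) and `z3`, so `w x' = ζ x'` with
  `ζ ^ 3 = 1`, `w ζ = ζ`, and `w ^ 3 x' = x'`. Inertia: `g ∈ Q.inertia`, `3 ∉ Q`; then `g ∈ W` and
  `g x' = ζ x'`, `ζ ^ 3 = 1`; suppose `ζ ≠ 1`. `SU x'`: `3 ^ N * x'` and `3 ^ N * x'⁻¹` are integral; put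
  `X = 3 ^ N * x' ∈ 𝓞`, `(ζ - 1) X = g X - X ∈ Q`; multiply by `ζ - 1`: `(ζ - 1) ^ 2 = -3 ζ`, so
  `3 X ∈ Q`, `X ∈ Q` (`Q` prime, `3 ∉ Q`), and `3 ^ (2 N) = X * (3 ^ N * x'⁻¹) ∈ Q`: contradiction.
* `InM.root`: the same with `x ^ (3 ^ k) = y` by induction (`SU.of_pow` at each step).
-/

set_option autoImplicit false

namespace Pool.Agent.Work.MP_787500_nt.P3

open IsDedekindDomain NumberField
open Pool.Agent.Work.MP_787500_nt.OddP (AbsGal IsBase)

universe u

variable {K : Type u} [Field K] [NumberField K]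

theorem InM.base (a : K) : InM (algebraMap K (AlgebraicClosure K) a) :=
  ⟨Gp K, Good.gp, fun w _ => w.commutes a⟩

theorem InM.z3 : InM (P3.z3 K) := ⟨Gp K, Good.gp, fun _ hw => hw⟩

omit [NumberField K] in
private theorem rootM_two {x y : AlgebraicClosure K} (hx : InM x) (hy : InM y) :
    ∃ W : Subgroup (AbsGal K), Good W ∧ ∀ w ∈ W, w x = x ∧ w y = y := by
  obtain ⟨W, hW, h1⟩ := hx
  obtain ⟨W', hW', h2⟩ := hy
  exact ⟨W ⊓ W', hW.inf hW', fun w hw => ⟨h1 w hw.1, h2 w hw.2⟩⟩

theorem InM.mul {x y : AlgebraicClosure K} (hx : InM x) (hy : InM y) : InM (x * y) := by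
  obtain ⟨W, hW, h⟩ := rootM_two hx hy
  exact ⟨W, hW, fun w hw => by rw [map_mul, (h w hw).1, (h w hw).2]⟩

theorem InM.add {x y : AlgebraicClosure K} (hx : InM x) (hy : InM y) : InM (x + y) := by
  obtain ⟨W, hW, h⟩ := rootM_two hx hy
  exact ⟨W, hW, fun w hw => by rw [map_add, (h w hw).1, (h w hw).2]⟩

theorem InM.neg {x : AlgebraicClosure K} (hx : InM x) : InM (-x) := by
  obtain ⟨W, hW, h⟩ := hx
  exact ⟨W, hW, fun w hw => by rw [map_neg, h w hw]⟩

theorem InM.inv {x : AlgebraicClosure K} (hx : InM x) : InM x⁻¹ := by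
  obtain ⟨W, hW, h⟩ := hx
  exact ⟨W, hW, fun w hw => by rw [map_inv₀, h w hw]⟩

theorem InM.pow {x : AlgebraicClosure K} (hx : InM x) (n : ℕ) : InM (x ^ n) := by
  obtain ⟨W, hW, h⟩ := hx
  exact ⟨W, hW, fun w hw => by rw [map_pow, h w hw]⟩

theorem InM.prod {ι : Type*} (T : Finset ι) (f : ι → AlgebraicClosure K)
    (h : ∀ i ∈ T, InM (f i)) : InM (∏ i ∈ T, f i) := by
  classical
  induction T using Finset.induction_on with
  | empty =>
    rw [Finset.prod_empty]
    exact ⟨Gp K, Good.gp, fun w _ => map_one w⟩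
  | insert a T ha ih =>
    rw [Finset.prod_insert ha]
    exact (h a (Finset.mem_insert_self _ _)).mul (ih fun i hi => h i (Finset.mem_insert_of_mem hi))

omit [NumberField K] in
private theorem rootM_conj {W : Subgroup (AbsGal K)} (hW : Good W) {x : AlgebraicClosure K}
    (h : ∀ w ∈ W, w x = x) (g : AbsGal K) : ∀ w ∈ W, w (g x) = g x := by
  intro w hw
  have hn := hW.normal
  have h1 : g⁻¹ * w * g ∈ W := by
    have := hn.conj_mem w hw g⁻¹
    rwa [inv_inv] at this
  have h2 := congrArg g (h _ h1)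
  have h3 : g ((g⁻¹ * w * g) x) = w (g x) := by
    have : g * (g⁻¹ * w * g) = w * g := by group
    calc g ((g⁻¹ * w * g) x) = (g * (g⁻¹ * w * g)) x := rfl
      _ = (w * g) x := by rw [this]
      _ = w (g x) := rfl
  rw [← h3]
  exact h2

theorem InM.gal {x : AlgebraicClosure K} (hx : InM x) (g : AbsGal K) : InM (g x) := by
  obtain ⟨W, hW, h⟩ := hx
  exact ⟨W, hW, rootM_conj hW h g⟩

private theorem rootM_core_open (x : AlgebraicClosure K) :
    IsOpen ((MulAction.stabilizer (AbsGal K) x).normalCore : Set (AbsGal K)) := by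
  have h1 : IsOpen (MulAction.stabilizer (AbsGal K) x : Set (AbsGal K)) :=
    stabilizer_isOpen_of_isIntegral x
  have : Finite (AbsGal K ⧸ MulAction.stabilizer (AbsGal K) x) :=
    Subgroup.quotient_finite_of_isOpen _ h1
  have : (MulAction.stabilizer (AbsGal K) x).FiniteIndex :=
    Subgroup.finiteIndex_of_finite_quotient
  have hcl : IsClosed (MulAction.stabilizer (AbsGal K) x : Set (AbsGal K)) :=
    Subgroup.isClosed_of_isOpen _ h1
  apply Subgroup.isOpen_of_isClosed_of_finiteIndex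
  have : ((MulAction.stabilizer (AbsGal K) x).normalCore : Set (AbsGal K)) =
      ⋂ b : AbsGal K, (fun a => b * a * b⁻¹) ⁻¹' (MulAction.stabilizer (AbsGal K) x) := by
    ext a
    simp only [Set.mem_iInter, Set.mem_preimage]
    rfl
  rw [this]
  exact isClosed_iInter fun b => hcl.preimage (by fun_prop)

theorem InM.cbrt {x y : AlgebraicClosure K} (hy : InM y) (hu : SU y) (h : x ^ 3 = y) : InM x := by
  have hx0 : x ≠ 0 := by
    rintro rfl
    rw [zero_pow (by norm_num)] at h
    exact hu.1 h.symm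
  obtain ⟨W, hW, hWy⟩ := hy
  have hmem : ∀ g : AbsGal K, g ∈ (MulAction.stabilizer (AbsGal K) x).normalCore ↔
      ∀ b : AbsGal K, g (b x) = b x := by
    intro g
    constructor
    · intro hg b
      have h1 : (b⁻¹ * g * b⁻¹⁻¹) x = x := hg b⁻¹
      rw [inv_inv] at h1
      have h2 := congrArg b h1
      have h3 : b ((b⁻¹ * g * b) x) = g (b x) := by
        have : b * (b⁻¹ * g * b) = g * b := by group
        calc b ((b⁻¹ * g * b) x) = (b * (b⁻¹ * g * b)) x := rfl
          _ = (g * b) x := by rw [this]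
          _ = g (b x) := rfl
      rw [← h3]
      exact h2
    · intro hg b
      show (b * g * b⁻¹) x = x
      have h1 := congrArg b (hg b⁻¹)
      have h3 : b (b⁻¹ x) = x := by
        have : b * b⁻¹ = 1 := mul_inv_cancel b
        calc b (b⁻¹ x) = (b * b⁻¹) x := rfl
          _ = x := by rw [this]; rfl
      rw [h3] at h1
      exact h1
  have hcb : ∀ b : AbsGal K, (b x) ^ 3 = b y := by
    intro b
    rw [← map_pow, h]
  have hb0 : ∀ b : AbsGal K, b x ≠ 0 := fun b h0 => hx0 (by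
    rwa [map_eq_zero] at h0)
  have hsign : ∀ w ∈ W, ∀ b : AbsGal K, ∃ i < 3, w (b x) = P3.z3 K ^ i * b x := by
    intro w hw b
    have h1 : (w (b x) / b x) ^ 3 = 1 := by
      rw [div_pow, ← map_pow, hcb, rootM_conj hW hWy b w hw, ← hcb, div_self]
      exact pow_ne_zero 3 (hb0 b)
    obtain ⟨i, hi, h2⟩ := (z3_prim (K := K)).eq_pow_of_pow_eq_one h1
    refine ⟨i, hi, ?_⟩
    rw [h2, div_mul_cancel₀ _ (hb0 b)]
  refine ⟨W ⊓ (MulAction.stabilizer (AbsGal K) x).normalCore, ⟨?_, ?_, ?_, ?_, ?_⟩, ?_⟩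
  · have := hW.normal
    infer_instance
  · exact hW.isOpen.inter (rootM_core_open x)
  · exact inf_le_left.trans hW.le
  · intro g hg
    obtain ⟨k, hk⟩ := hW.pow g hg
    refine ⟨k + 1, ?_⟩
    rw [pow_succ, pow_mul]
    refine Subgroup.mem_inf.2 ⟨W.pow_mem hk 3, (hmem _).2 fun b => ?_⟩
    obtain ⟨i, -, h1⟩ := hsign _ hk b
    have hz : (g ^ 3 ^ k) (P3.z3 K) = P3.z3 K := hW.le hk
    have e : ((g ^ 3 ^ k) ^ 3) (b x) = (g ^ 3 ^ k) ((g ^ 3 ^ k) ((g ^ 3 ^ k) (b x))) := by
      rw [pow_succ, pow_two]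
      rfl
    rw [e, h1, map_mul, map_pow, hz, h1, map_mul, map_mul, map_pow, hz, h1]
    have e2 : P3.z3 K ^ i * (P3.z3 K ^ i * (P3.z3 K ^ i * b x)) = (P3.z3 K ^ 3) ^ i * b x := by
      rw [← pow_mul, mul_comm 3 i, pow_mul]
      ring
    rw [e2, z3_pow_three, one_pow, one_mul]
  · intro Q hQ hQ2 g hg
    have hgW := hW.inertia Q hQ hQ2 hg
    refine Subgroup.mem_inf.2 ⟨hgW, (hmem _).2 fun b => ?_⟩
    obtain ⟨i, hi, h1⟩ := hsign _ hgW b
    by_cases hi0 : i = 0
    · rw [h1, hi0, pow_zero, one_mul]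
    · exfalso
      have hζ : (P3.z3 K ^ i) ^ 2 + P3.z3 K ^ i + 1 = 0 := by
        have h2 := z3_spec K
        interval_cases i
        · exact absurd rfl hi0
        · rw [pow_one]
          exact h2
        · linear_combination (P3.z3 K ^ 2 - P3.z3 K + 1) * h2
      have hζint : IsIntegral ℤ (P3.z3 K ^ i) := by
        refine ⟨Polynomial.X ^ 3 - 1, ?_, ?_⟩
        · exact Polynomial.monic_X_pow_sub_C (1 : ℤ) (by norm_num)
        · simp only [Polynomial.eval₂_sub, Polynomial.eval₂_pow, Polynomial.eval₂_X,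
            Polynomial.eval₂_one]
          rw [← pow_mul, mul_comm, pow_mul, z3_pow_three, one_pow, sub_self]
      have hsu : SU (b x) := SU.of_pow (n := 3) (by norm_num) (by
        rw [hcb]
        exact SU.map (b : AlgebraicClosure K →+* AlgebraicClosure K) hu)
      obtain ⟨h0, ⟨N, hN⟩, ⟨M, hM⟩⟩ := hsu
      let X : 𝓞 (AlgebraicClosure K) := ⟨_, hN⟩
      let Y : 𝓞 (AlgebraicClosure K) := ⟨_, hM⟩
      let Z : 𝓞 (AlgebraicClosure K) := ⟨_, hζint⟩
      have hZ : Z ^ 2 + Z + 1 = 0 := by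
        apply RingOfIntegers.ext
        exact hζ
      have hX : g • X = Z * X := by
        apply RingOfIntegers.ext
        show g ((3 : AlgebraicClosure K) ^ N * b x) =
          P3.z3 K ^ i * ((3 : AlgebraicClosure K) ^ N * b x)
        rw [map_mul, map_pow, map_ofNat, h1]
        ring
      have h2 : g • X - X ∈ Q := hg X
      rw [hX] at h2
      have h3 : (3 : 𝓞 (AlgebraicClosure K)) * (Z * X) ∈ Q := by
        have : (3 : 𝓞 (AlgebraicClosure K)) * (Z * X) = -((Z - 1) * (Z * X - X)) := by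
          linear_combination X * hZ
        rw [this]
        exact Q.neg_mem (Q.mul_mem_left _ h2)
      have h4 : Z * X ∈ Q := (hQ.mem_or_mem h3).resolve_left hQ2
      have hZQ : Z ∉ Q := by
        intro h5
        have h6 : (1 : 𝓞 (AlgebraicClosure K)) ∈ Q := by
          have : (1 : 𝓞 (AlgebraicClosure K)) = Z * Z ^ 2 := by
            linear_combination -(Z - 1) * hZ
          rw [this]
          exact Q.mul_mem_right _ h5
        exact hQ.ne_top ((Ideal.eq_top_iff_one Q).2 h6)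
      have h4' : X ∈ Q := (hQ.mem_or_mem h4).resolve_left hZQ
      have h5 : X * Y = 3 ^ (N + M) := by
        apply RingOfIntegers.ext
        show ((3 : AlgebraicClosure K) ^ N * b x) * ((3 : AlgebraicClosure K) ^ M * (b x)⁻¹) =
          algebraMap (𝓞 (AlgebraicClosure K)) (AlgebraicClosure K) (3 ^ (N + M))
        have : ((3 : AlgebraicClosure K) ^ N * b x) * ((3 : AlgebraicClosure K) ^ M * (b x)⁻¹) =
            3 ^ (N + M) * (b x * (b x)⁻¹) := by ring
        rw [this, mul_inv_cancel₀ h0, mul_one, map_pow]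
        congr 1
      have h6 : (3 : 𝓞 (AlgebraicClosure K)) ^ (N + M) ∈ Q := by
        rw [← h5]
        exact Q.mul_mem_right _ h4'
      exact hQ2 (hQ.mem_of_pow_mem _ h6)
  · intro w hw
    exact (hmem w).1 hw.2 1

theorem InM.root {x y : AlgebraicClosure K} {k : ℕ} (hy : InM y) (hu : SU y) (h : x ^ 3 ^ k = y) :
    InM x := by
  induction k generalizing y with
  | zero =>
    rw [pow_zero, pow_one] at h
    rw [h]
    exact hy
  | succ k ih =>
    have h1 : (x ^ 3 ^ k) ^ 3 = y := by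
      rw [← pow_mul, ← pow_succ, h]
    refine ih (y := x ^ 3 ^ k) (InM.cbrt hy hu h1) ?_ rfl
    refine SU.of_pow (n := 3) (by norm_num) ?_
    rw [h1]
    exact hu

/-- an element fixed by an open subgroup -/
theorem InM.of_opn {U : Subgroup (Gp K)} (hU : Opn (pSys K) U) {x : AlgebraicClosure K}
    (h : ∀ g ∈ U, (g : AbsGal K) x = x) : InM x := by
  obtain ⟨W, hW, hle⟩ := opn_good hU
  refine ⟨W, hW, fun w hw => ?_⟩
  obtain ⟨u, hu, rfl⟩ := hle hw
  exact h u hu

end Pool.Agent.Work.MP_787500_nt.P3
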