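import Mathlib
import Pool.Agent.Work.MP_787500_nt.P3.C_Root
import Pool.Agent.Work.MP_787500_nt.P3.C_Kum

/-!
# Module C_ACT (size M): cubic characters and cube roots

(Compare `PA/ActHom.lean`.) `U` an open subgroup of `Gp K` for `pSys K`.
* `act3_spec`: `t ≠ 0`, `U` fixes `t ^ 3`: for `g ∈ U`, `(g t) ^ 3 = t ^ 3`, so `g t = zp a * t`
  (`exists_zp`), and `act3 U t g = a` by definition (`zp_injective`).
* `act3_mem`: if moreover `InM t` then `act3 U t ∈ homs (pSys K) U`: homomorphism on `U` (`gal_zp`), zero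
  off `U`; smooth: intersect the good subgroup fixing `t` with one inside `U` (`opn_good`, `sm1_iff`).
* `act3_mul`, `act3_prod`, `act3_eq_zero_iff`: clear from `act3_spec`.
* `exists_act3`: let `ψ ∈ homs (pSys K) U`. `exists_kum` for `H = U.map (Gp K).subtype` (open, so closed)
  and `ψ` extended to `AbsGal K` by 0; `V` = the good subgroup of smoothness. `InM t`: the good subgroup
  inside the kernel of `ψ` fixes `t`.
-/

set_option autoImplicit false

namespace Pool.Agent.Work.MP_787500_nt.P3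

open IsDedekindDomain NumberField
open Pool.Agent.Work.MP_787500_nt.OddP (AbsGal IsBase)

universe u

variable {K : Type u} [Field K] [NumberField K]

private theorem act3_z3 (a : ZMod 3) : a = 0 ∨ a = 1 ∨ a = 2 := by
  revert a; decide

private theorem act3_eq_aux {U : Subgroup (Gp K)} {t : AlgebraicClosure K} (ht0 : t ≠ 0) {g : Gp K}
    (hg : g ∈ U) {a : ZMod 3} (h : (g : AbsGal K) t = zp K a * t) : act3 U t g = a := by
  classical
  have hinj : ∀ b c : ZMod 3, zp K b * t = zp K c * t → b = c := fun b c hbc =>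
    zp_injective (mul_right_cancel₀ ht0 hbc)
  unfold act3
  rw [if_pos hg]
  rcases act3_z3 a with rfl | rfl | rfl
  · rw [if_neg (fun h1 => absurd (hinj 0 1 (h.symm.trans h1)) (by decide)),
      if_neg (fun h1 => absurd (hinj 0 2 (h.symm.trans h1)) (by decide))]
  · rw [if_pos h]
  · rw [if_neg (fun h1 => absurd (hinj 2 1 (h.symm.trans h1)) (by decide)), if_pos h]

theorem act3_spec {U : Subgroup (Gp K)} {t : AlgebraicClosure K}
    (hfix : ∀ g ∈ U, (g : AbsGal K) (t ^ 3) = t ^ 3) {g : Gp K} (hg : g ∈ U) :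
    (g : AbsGal K) t = zp K (act3 U t g) * t := by
  by_cases ht0 : t = 0
  · rw [ht0, map_zero, mul_zero]
  obtain ⟨a, ha⟩ := exists_zp (K := K) ht0 (x := (g : AbsGal K) t) (by rw [← map_pow, hfix g hg])
  rw [act3_eq_aux ht0 hg ha]
  exact ha

theorem act3_eq {U : Subgroup (Gp K)} {t : AlgebraicClosure K} (ht0 : t ≠ 0) {g : Gp K}
    (hg : g ∈ U) {a : ZMod 3} (h : (g : AbsGal K) t = zp K a * t) : act3 U t g = a :=
  act3_eq_aux ht0 hg h

theorem act3_off {U : Subgroup (Gp K)} {t : AlgebraicClosure K} {g : Gp K} (hg : g ∉ U) :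
    act3 U t g = 0 := by
  classical
  unfold act3
  rw [if_neg hg]

theorem act3_mem {U : Subgroup (Gp K)} (hU : Opn (pSys K) U) {t : AlgebraicClosure K}
    (ht0 : t ≠ 0) (ht : InM t) (hfix : ∀ g ∈ U, (g : AbsGal K) (t ^ 3) = t ^ 3) :
    act3 U t ∈ homs (pSys K) U := by
  obtain ⟨W, hW, hWt⟩ := ht
  obtain ⟨WU, hWU, hle⟩ := opn_good hU
  have hinU : ∀ w : Gp K, (w : AbsGal K) ∈ WU → w ∈ U := by
    intro w hw
    obtain ⟨u, hu, hu2⟩ := hle hw
    have : u = w := Subtype.ext hu2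
    rw [← this]
    exact hu
  refine ⟨sm1_iff.2 ⟨W ⊓ WU, hW.inf hWU, fun g w hw => ?_⟩, fun g hg => act3_off hg,
    fun g hg h hh => ?_⟩
  · have hwU : w ∈ U := hinU w hw.2
    by_cases hg : g ∈ U
    · apply act3_eq ht0 (U.mul_mem hg hwU)
      show (g : AbsGal K) ((w : AbsGal K) t) = _
      rw [hWt _ hw.1]
      exact act3_spec hfix hg
    · have hgw : g * w ∉ U := fun h => hg (by
        have := U.mul_mem h (U.inv_mem hwU)
        rwa [mul_inv_cancel_right] at this)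
      rw [act3_off hg, act3_off hgw]
  · apply act3_eq ht0 (U.mul_mem hg hh)
    show (g : AbsGal K) ((h : AbsGal K) t) = _
    rw [act3_spec hfix hh, map_mul, gal_zp g.2, act3_spec hfix hg, zp_add]
    ring

theorem act3_mul {U : Subgroup (Gp K)} {t t' : AlgebraicClosure K} (ht0 : t ≠ 0) (ht0' : t' ≠ 0)
    (hfix : ∀ g ∈ U, (g : AbsGal K) (t ^ 3) = t ^ 3)
    (hfix' : ∀ g ∈ U, (g : AbsGal K) (t' ^ 3) = t' ^ 3) :
    act3 U (t * t') = act3 U t + act3 U t' := by
  funext g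
  rw [Pi.add_apply]
  by_cases hg : g ∈ U
  · apply act3_eq (mul_ne_zero ht0 ht0') hg
    rw [map_mul, act3_spec hfix hg, act3_spec hfix' hg, zp_add]
    ring
  · rw [act3_off hg, act3_off hg, act3_off hg, add_zero]

theorem act3_prod {U : Subgroup (Gp K)} {ι : Type*} [Fintype ι] {t : ι → AlgebraicClosure K}
    (ht0 : ∀ i, t i ≠ 0) (hfix : ∀ i, ∀ g ∈ U, (g : AbsGal K) (t i ^ 3) = t i ^ 3)
    (n : ι → ZMod 3) :
    act3 U (∏ i, t i ^ (n i).val) = ∑ i, n i • act3 U (t i) := by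
  funext g
  rw [Finset.sum_apply]
  by_cases hg : g ∈ U
  · apply act3_eq (Finset.prod_ne_zero_iff.2 fun i _ => pow_ne_zero _ (ht0 i)) hg
    rw [map_prod, ← zp_sum, ← Finset.prod_mul_distrib]
    refine Finset.prod_congr rfl fun i _ => ?_
    rw [map_pow, act3_spec (hfix i) hg, mul_pow, zp_pow, ZMod.natCast_zmod_val]
    rfl
  · rw [act3_off hg]
    symm
    refine Finset.sum_eq_zero fun i _ => ?_
    rw [Pi.smul_apply, act3_off hg, smul_zero]

theorem act3_eq_zero_iff {U : Subgroup (Gp K)} {t : AlgebraicClosure K} (ht0 : t ≠ 0)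
    (hfix : ∀ g ∈ U, (g : AbsGal K) (t ^ 3) = t ^ 3) :
    act3 U t = 0 ↔ ∀ g ∈ U, (g : AbsGal K) t = t := by
  constructor
  · intro h g hg
    rw [act3_spec hfix hg, h, Pi.zero_apply, zp_zero, one_mul]
  · intro h
    funext g
    by_cases hg : g ∈ U
    · rw [Pi.zero_apply]
      apply act3_eq ht0 hg
      rw [h g hg, zp_zero, one_mul]
    · rw [act3_off hg]
      rfl

theorem exists_act3 {U : Subgroup (Gp K)} (hU : Opn (pSys K) U) {ψ : Gp K → ZMod 3}
    (hψ : ψ ∈ homs (pSys K) U) :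
    ∃ t : AlgebraicClosure K, t ≠ 0 ∧ InM t ∧ (∀ g ∈ U, (g : AbsGal K) (t ^ 3) = t ^ 3) ∧
      ψ = act3 U t := by
  classical
  obtain ⟨hsm, hoff, hmul⟩ := hψ
  obtain ⟨W, hW, hsm⟩ := sm1_iff.1 hsm
  obtain ⟨WU, hWU, hle⟩ := opn_good hU
  have h1 : ψ 1 = 0 := by
    have := hmul 1 U.one_mem 1 U.one_mem
    rw [mul_one] at this
    simpa using this
  let ψ' : AbsGal K → ZMod 3 := fun g => if h : g ∈ Gp K then ψ ⟨g, h⟩ else 0
  have hψ' : ∀ g : Gp K, ψ' (g : AbsGal K) = ψ g := by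
    intro g
    show (if h : (g : AbsGal K) ∈ Gp K then ψ ⟨g, h⟩ else 0) = ψ g
    rw [dif_pos g.2]
  have hopen : IsOpen ((U.map (Gp K).subtype : Subgroup (AbsGal K)) : Set (AbsGal K)) :=
    opn_isOpen (opn_map hU)
  obtain ⟨Y, hY0, hY⟩ := exists_kum (H := U.map (Gp K).subtype)
    (Subgroup.isClosed_of_isOpen _ hopen) (by
      rintro _ ⟨u, _, rfl⟩
      exact u.2) ψ' (by
      rintro _ ⟨u, hu, rfl⟩ _ ⟨v, hv, rfl⟩
      show ψ' ((u * v : Gp K) : AbsGal K) = ψ' (u : AbsGal K) + ψ' (v : AbsGal K)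
      rw [hψ', hψ', hψ']
      exact hmul u hu v hv)
    ⟨W, hW.isOpen, by
      rintro _ ⟨⟨u, hu, rfl⟩, hw⟩
      show ψ' (u : AbsGal K) = 0
      rw [hψ', ← one_mul u, hsm 1 u hw, h1]⟩
  have hY' : ∀ g ∈ U, (g : AbsGal K) Y = zp K (ψ g) * Y := by
    intro g hg
    rw [← hψ' g]
    exact hY _ ⟨g, hg, rfl⟩
  refine ⟨Y, hY0, ⟨W ⊓ WU, hW.inf hWU, ?_⟩, ?_, ?_⟩
  · intro w hw
    obtain ⟨u, hu, hu2⟩ := hle hw.2
    have hu3 : (u : AbsGal K) = w := hu2
    rw [← hu3, hY' u hu, ← one_mul u, hsm 1 u (by rw [hu3]; exact hw.1), h1, zp_zero, one_mul]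
  · intro g hg
    rw [map_pow, hY' g hg, mul_pow, zp_pow_three, one_mul]
  · funext g
    by_cases hg : g ∈ U
    · exact (act3_eq hY0 hg (hY' g hg)).symm
    · rw [hoff g hg, act3_off hg]

end Pool.Agent.Work.MP_787500_nt.P3
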