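import Mathlib
import Pool.Agent.Work.MP_787500_nt.P3.C_Sys
import Pool.Agent.Work.MP_787500_nt.H67_BaseB
import Pool.Agent.Work.MP_787500_nt.H67_Climb

/-!
# Module C_SURJ (size M-L): the decomposition group surjects onto the quotient by the core

`P` a prime of the ring of all algebraic integers, `3 ∈ P`, `D = dec P` its stabilizer; `Ω = AlgebraicClosure
K` is Galois over `K`; the tools are in `H67_BaseB.lean` (`exists_ne_root`, `base_hom`, `base_cyc`, with
`p = 3`, `ζ = z3 K`), `H67_Climb.lean` (`frattini`), `H67_Base.lean` (`base_data`; `exists_place`).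

* `exists_dec_notMem`: `exists_ne_root`. `gp_index`: hence `Gp K ≠ ⊤`, and `Gp_mul_iff` gives index 2.
* `dec_surj_gp`: `W` good, `g ∈ Gp K`: there is `d ∈ D ⊓ Gp K` with `d⁻¹ g ∈ W`. Apply `frattini` in the
  group `Gp K`, with `U = W.subgroupOf (Gp K)`, `D = decG P`. Let `N` be normal of index 3 in `Gp K`,
  containing `W ⊓ Gp K` and `D ⊓ Gp K`; it is the kernel of a homomorphism `f : Gp K → ZMod 3`, `f ≠ 0`.
  Let `τ ∈ D`, `τ ∉ Gp K`. `f' g = f (τ g τ⁻¹)` (`Gp K` is normal) vanishes on `W` (normal in `AbsGal K`)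
  and on `D ⊓ Gp K` (`τ ∈ D`), and `f' (τ g τ⁻¹) = f (τ ^ 2 g τ ^ (-2)) = f g` (`τ ^ 2 ∈ Gp K`).
  (a) `a = f + f'`: put `c g = a g` for `g ∈ Gp K`, `c g = a (g τ⁻¹)` otherwise. Then
      `c (g h) = c g + c h` (four cases; `a (τ g τ⁻¹) = a g`, `a (τ ^ 2) = 0`), `c = 0` on `D`, and on
      `W`, hence on the inertia groups of the primes not containing 3 (`Good.inertia`); locally constant
      (`c (g w) = c g` for `w ∈ W`). `base_hom` gives `c = 0`, so `a = 0`.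
  (b) `b = f - f'`: `b (τ g τ⁻¹) = - b g`; `c g = b g` on `Gp K`, `c g = b (g τ⁻¹)` otherwise; with
      `ω g = 1` on `Gp K`, `ω g = 2` otherwise (`AbsGal K →* ZMod 3`, `g (z3) = z3 ^ (ω g).val`,
      `gal_z3`): `c (g h) = c g + ω g * c h`. `base_cyc` gives `c = 0`, so `b = 0`.
  So `2 f = 0` and `f = 0`: contradiction.
* `dec_mul_good`: for `g ∉ Gp K` apply this to `τ⁻¹ g`.
* `dec_closed`: `{g | g • P = P}` is the intersection over `x ∈ P` of `{g | g x ∈ P}` and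
  `{g | g⁻¹ x ∈ P}`, and these sets are closed (open and closed: they are unions of cosets of the open
  stabilizer of `x`).
* `dec_mul_core`: the sets `D ∩ {d | d⁻¹ g ∈ W}`, `W` good, are closed, nonempty and directed
  (`Good.inf`; good subgroups are open, so closed); `AbsGal K` is compact. (See `PA/DecCl.lean`.)
* `core_normal`, `core_closed`, `inertia_le_core`, `core_le`, `core_le_gp`: clear.
-/

set_option autoImplicit false

namespace Pool.Agent.Work.MP_787500_nt.P3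

open IsDedekindDomain NumberField
open Pool.Agent.Work.MP_787500_nt.OddP (AbsGal IsBase)
open scoped Pointwise

universe u

variable {K : Type u} [Field K] [NumberField K]

theorem core_le {W : Subgroup (AbsGal K)} (hW : Good W) : core K ≤ W :=
  sInf_le hW

theorem core_le_gp : core K ≤ Gp K :=
  core_le Good.gp

theorem core_normal : (core K).Normal := by
  refine ⟨fun n hn g => ?_⟩
  rw [core, Subgroup.mem_sInf] at hn ⊢
  intro W hW
  exact (Good.normal hW).conj_mem n (hn W hW) g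

theorem core_closed : IsClosed (core K : Set (AbsGal K)) := by
  rw [core, Subgroup.coe_sInf]
  refine isClosed_biInter fun W hW => ?_
  exact Subgroup.isClosed_of_isOpen W (Good.isOpen hW)

theorem inertia_le_core {Q : Ideal (𝓞 (AlgebraicClosure K))} (hQ : Q.IsPrime)
    (h2 : (3 : 𝓞 (AlgebraicClosure K)) ∉ Q) : Q.inertia (AbsGal K) ≤ core K :=
  le_sInf fun _ hW => Good.inertia hW Q hQ h2

theorem dec_closed (P : Ideal (𝓞 (AlgebraicClosure K))) :
    IsClosed (dec P : Set (AbsGal K)) := by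
  let _ : TopologicalSpace (𝓞 (AlgebraicClosure K)) := ⊥
  have _ : DiscreteTopology (𝓞 (AlgebraicClosure K)) := ⟨rfl⟩
  have _ := OddP.DEC.cont_smul (K := K) (Ω := AlgebraicClosure K)
  have h : (dec P : Set (AbsGal K)) =
      ⋂ x : 𝓞 (AlgebraicClosure K), {g : AbsGal K | g⁻¹ • x ∈ P ↔ x ∈ P} := by
    ext g
    rw [Set.mem_iInter]
    constructor
    · intro hg x
      have hg' : g • P = P := hg
      show g⁻¹ • x ∈ P ↔ x ∈ P
      rw [← Ideal.mem_pointwise_smul_iff_inv_smul_mem, hg']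
    · intro hg
      show g • P = P
      ext x
      rw [Ideal.mem_pointwise_smul_iff_inv_smul_mem]
      exact hg x
  rw [h]
  refine isClosed_iInter fun x => ?_
  have hc : Continuous (fun g : AbsGal K => g⁻¹ • x) := continuous_inv.smul continuous_const
  exact (isClosed_discrete {y : 𝓞 (AlgebraicClosure K) | y ∈ P ↔ x ∈ P}).preimage hc

private theorem surj_cast {P : Ideal (𝓞 (AlgebraicClosure K))} :
    ((3 : ℕ) : 𝓞 (AlgebraicClosure K)) ∈ P ↔ (3 : 𝓞 (AlgebraicClosure K)) ∈ P := by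
  have : ((3 : ℕ) : 𝓞 (AlgebraicClosure K)) = 3 := by norm_num
  rw [this]

theorem exists_dec_notMem (hK : IsBase 3 K) (P : Ideal (𝓞 (AlgebraicClosure K))) [P.IsPrime]
    (hP : (3 : 𝓞 (AlgebraicClosure K)) ∈ P) : ∃ τ ∈ dec P, τ ∉ Gp K := by
  have h3p : Fact (Nat.Prime 3) := ⟨Nat.prime_three⟩
  obtain ⟨v, hv, hpv⟩ := OddP.exists_place (p := 3) (K := K) P (surj_cast.2 hP)
  obtain ⟨v', hb⟩ := OddP.base_data hK hpv
  obtain ⟨σ, hσ, hne⟩ := OddP.exists_ne_root (p := 3) (K := K) (by norm_num) P hv hb.hpv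
    (z3_prim (K := K))
  exact ⟨σ, hσ, hne⟩

private theorem surj_prime (hK : IsBase 3 K) : ∃ P : Ideal (𝓞 (AlgebraicClosure K)), P.IsPrime ∧
    (3 : 𝓞 (AlgebraicClosure K)) ∈ P := by
  obtain ⟨P₁, P₂, -, -, -, -, hP₁, -, -, hPP, -⟩ := hK.gold
  have h3 : (3 : 𝓞 K) ∈ P₁ := by
    have h1 : ((3 : ℕ) : 𝓞 K) ∈ P₁ * P₂ := by
      rw [hPP]
      exact Ideal.mem_span_singleton_self _
    have h2 := Ideal.mul_le_left h1
    have h4 : ((3 : ℕ) : 𝓞 K) = 3 := by norm_num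
    rwa [h4] at h2
  have hint : Algebra.IsIntegral (𝓞 K) (𝓞 (AlgebraicClosure K)) :=
    ⟨fun x => (RingOfIntegers.isIntegral x).tower_top⟩
  have hinj : Function.Injective (algebraMap (𝓞 K) (𝓞 (AlgebraicClosure K))) :=
    FaithfulSMul.algebraMap_injective _ _
  obtain ⟨P', -, hP'p, hP'v⟩ := Ideal.exists_ideal_over_prime_of_isIntegral P₁
    (⊥ : Ideal (𝓞 (AlgebraicClosure K))) (by
      rw [← RingHom.ker_eq_comap_bot, (RingHom.injective_iff_ker_eq_bot _).1 hinj]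
      exact bot_le)
  refine ⟨P', hP'p, ?_⟩
  have h1 : (3 : 𝓞 K) ∈ P'.comap (algebraMap (𝓞 K) (𝓞 (AlgebraicClosure K))) := by
    rw [hP'v]
    exact h3
  rw [Ideal.mem_comap, map_ofNat] at h1
  exact h1

theorem gp_index (hK : IsBase 3 K) : (Gp K).index = 2 := by
  obtain ⟨P, hPp, hP⟩ := surj_prime hK
  obtain ⟨τ, -, hτ⟩ := exists_dec_notMem hK P hP
  rw [Subgroup.index_eq_two_iff]
  refine ⟨τ, fun b => ?_⟩
  rw [Gp_mul_iff, xor_iff_iff_not]
  tauto

private theorem surj_four : (2 : ZMod 3) * 2 = 1 := by decide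

private theorem surj_three : (3 : ZMod 3) = 0 := by decide

private theorem surj_key (hK : IsBase 3 K) (P : Ideal (𝓞 (AlgebraicClosure K))) [P.IsPrime]
    (hP : (3 : 𝓞 (AlgebraicClosure K)) ∈ P) {W : Subgroup (AbsGal K)} (hW : Good W)
    {τ : AbsGal K} (hτD : τ ∈ dec P) (hτ : τ ∉ Gp K) (a : AbsGal K → ZMod 3)
    (ha : ∀ g ∈ Gp K, ∀ h ∈ Gp K, a (g * h) = a g + a h) (haW : ∀ w ∈ W, a w = 0)
    (haD : ∀ d ∈ dec P, d ∈ Gp K → a d = 0) (s : ZMod 3) (hs : s = 1 ∨ s = 2)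
    (hτa : ∀ g ∈ Gp K, a (τ * g * τ⁻¹) = s * a g) : ∀ g ∈ Gp K, a g = 0 := by
  classical
  have h3p : Fact (Nat.Prime 3) := ⟨Nat.prime_three⟩
  have hτi : τ⁻¹ ∉ Gp K := by rwa [inv_mem_iff]
  have hin : ∀ g, g ∉ Gp K → g * τ⁻¹ ∈ Gp K := fun g hg => by
    rw [Gp_mul_iff]; tauto
  have hconj : ∀ g ∈ Gp K, τ * g * τ⁻¹ ∈ Gp K := fun g hg => Gp_normal.conj_mem g hg τ
  have hττ : τ * τ ∈ Gp K := by rw [Gp_mul_iff]
  have haττ : a (τ * τ) = 0 := haD _ ((dec P).mul_mem hτD hτD) hττ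
  let c : AbsGal K → ZMod 3 := fun g => if g ∈ Gp K then a g else a (g * τ⁻¹)
  have hc1 : ∀ g ∈ Gp K, c g = a g := fun g hg => if_pos hg
  have hc2 : ∀ g, g ∉ Gp K → c g = a (g * τ⁻¹) := fun g hg => if_neg hg
  let o : AbsGal K → ZMod 3 := fun g => if g ∈ Gp K then 1 else s
  have ho1 : ∀ g ∈ Gp K, o g = 1 := fun g hg => if_pos hg
  have ho2 : ∀ g, g ∉ Gp K → o g = s := fun g hg => if_neg hg
  have hmul : ∀ g h, c (g * h) = c g + o g * c h := by
    intro g h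
    by_cases hg : g ∈ Gp K <;> by_cases hh : h ∈ Gp K
    · rw [hc1 _ hg, hc1 _ hh, hc1 _ ((Gp K).mul_mem hg hh), ho1 _ hg, one_mul, ha g hg h hh]
    · have hgh : g * h ∉ Gp K := by rw [Gp_mul_iff]; tauto
      rw [hc1 _ hg, hc2 _ hh, hc2 _ hgh, ho1 _ hg, one_mul, mul_assoc, ha g hg _ (hin h hh)]
    · have hgh : g * h ∉ Gp K := by rw [Gp_mul_iff]; tauto
      rw [hc2 _ hg, hc1 _ hh, hc2 _ hgh, ho2 _ hg,
        show g * h * τ⁻¹ = (g * τ⁻¹) * (τ * h * τ⁻¹) by group, ha _ (hin g hg) _ (hconj h hh),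
        hτa h hh]
    · have hgh : g * h ∈ Gp K := by rw [Gp_mul_iff]; tauto
      rw [hc2 _ hg, hc2 _ hh, hc1 _ hgh, ho2 _ hg,
        show g * h = (g * τ⁻¹) * ((τ * (h * τ⁻¹) * τ⁻¹) * (τ * τ)) by group,
        ha _ (hin g hg) _ ((Gp K).mul_mem (hconj _ (hin h hh)) hττ),
        ha _ (hconj _ (hin h hh)) _ hττ, haττ, hτa _ (hin h hh), add_zero]
  have hcD : ∀ σ ∈ MulAction.stabilizer (AbsGal K) P, c σ = 0 := by
    intro σ hσ
    have hσ' : σ ∈ dec P := hσ
    by_cases hg : σ ∈ Gp K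
    · rw [hc1 _ hg]; exact haD _ hσ' hg
    · rw [hc2 _ hg]
      exact haD _ ((dec P).mul_mem hσ' ((dec P).inv_mem hτD)) (hin _ hg)
  have hcW : ∀ w ∈ W, c w = 0 := fun w hw => by
    rw [hc1 _ (hW.le hw)]; exact haW w hw
  have hcI : ∀ Q : Ideal (𝓞 (AlgebraicClosure K)), Q.IsPrime →
      ((3 : ℕ) : 𝓞 (AlgebraicClosure K)) ∉ Q → ∀ σ ∈ Q.inertia (AbsGal K), c σ = 0 :=
    fun Q hQ hQ3 σ hσ => hcW σ (hW.inertia Q hQ (fun h => hQ3 (surj_cast.2 h)) hσ)
  have hcV : ∃ V : Subgroup (AbsGal K), IsOpen (V : Set (AbsGal K)) ∧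
      ∀ σ, ∀ v ∈ V, c (σ * v) = c σ :=
    ⟨W, hW.isOpen, fun σ v hv => by rw [hmul, hcW v hv, mul_zero, add_zero]⟩
  have hc0 : ∀ σ, c σ = 0 := by
    rcases hs with hs | hs
    · have ho : ∀ g, o g = 1 := fun g => by
        by_cases hg : g ∈ Gp K
        · exact ho1 g hg
        · rw [ho2 g hg, hs]
      exact OddP.base_hom hK P (surj_cast.2 hP) c (fun σ τ => by rw [hmul, ho, one_mul]) hcD hcI hcV
    · have ho' : ∀ g h, o (g * h) = o g * o h := by
        intro g h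
        have h22 : (2 : ZMod 3) * 2 = 1 := surj_four
        by_cases hg : g ∈ Gp K <;> by_cases hh : h ∈ Gp K
        · rw [ho1 _ hg, ho1 _ hh, ho1 _ ((Gp K).mul_mem hg hh), one_mul]
        · rw [ho1 _ hg, ho2 _ hh, ho2 _ (by rw [Gp_mul_iff]; tauto), one_mul]
        · rw [ho2 _ hg, ho1 _ hh, ho2 _ (by rw [Gp_mul_iff]; tauto), mul_one]
        · rw [ho2 _ hg, ho2 _ hh, ho1 _ (by rw [Gp_mul_iff]; tauto), hs, h22]
      let ω : AbsGal K →* ZMod 3 :=
        { toFun := o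
          map_one' := ho1 1 (Gp K).one_mem
          map_mul' := ho' }
      refine OddP.base_cyc hK P (surj_cast.2 hP) (z3_prim (K := K)) ω ?_ c hmul hcD hcI hcV
      intro σ
      show σ (z3 K) = z3 K ^ (o σ).val
      by_cases hg : σ ∈ Gp K
      · rw [ho1 _ hg, show (1 : ZMod 3).val = 1 from rfl, pow_one]
        exact hg
      · rw [ho2 _ hg, hs, show (2 : ZMod 3).val = 2 from rfl]
        exact (gal_z3 σ).resolve_left hg
  intro g hg
  rw [← hc1 g hg]
  exact hc0 g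

theorem dec_surj_gp (hK : IsBase 3 K) (P : Ideal (𝓞 (AlgebraicClosure K))) [P.IsPrime]
    (hP : (3 : 𝓞 (AlgebraicClosure K)) ∈ P) {W : Subgroup (AbsGal K)} (hW : Good W)
    {g : AbsGal K} (hg : g ∈ Gp K) : ∃ d ∈ dec P, d ∈ Gp K ∧ d⁻¹ * g ∈ W := by
  classical
  have h3p : Fact (Nat.Prime 3) := ⟨Nat.prime_three⟩
  obtain ⟨τ, hτD, hτ⟩ := exists_dec_notMem hK P hP
  have hWn := hW.normal
  have hUn : (W.subgroupOf (Gp K)).Normal := inferInstance
  have hfin : Finite (Gp K ⧸ W.subgroupOf (Gp K)) := by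
    obtain ⟨k, hk⟩ := hW.relIndex
    have h0 : (W.subgroupOf (Gp K)).index ≠ 0 := by rw [hk]; positivity
    have _ : (W.subgroupOf (Gp K)).FiniteIndex := ⟨h0⟩
    infer_instance
  obtain ⟨d, hd, hdg⟩ := OddP.frattini (p := 3) (W.subgroupOf (Gp K)) (by
      intro g
      obtain ⟨k, hk⟩ := hW.pow g g.2
      refine ⟨k, ?_⟩
      rw [Subgroup.mem_subgroupOf]
      exact hk) (decG P) (by
      intro N hN hUN hidx hDN
      have hcardN : Nat.card (Gp K ⧸ N) = 3 := hidx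
      have hcardM : Nat.card (Multiplicative (ZMod 3)) = 3 := by
        rw [Nat.card_congr Multiplicative.toAdd, Nat.card_zmod]
      let e : (Gp K ⧸ N) ≃* Multiplicative (ZMod 3) := mulEquivOfPrimeCardEq hcardN hcardM
      let f : AbsGal K → ZMod 3 := fun g => if h : g ∈ Gp K then
        Multiplicative.toAdd (e (QuotientGroup.mk (⟨g, h⟩ : Gp K))) else 0
      have hf : ∀ (g : AbsGal K) (h : g ∈ Gp K),
          f g = Multiplicative.toAdd (e (QuotientGroup.mk (⟨g, h⟩ : Gp K))) := fun g h => dif_pos h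
      have hfm : ∀ g ∈ Gp K, ∀ h ∈ Gp K, f (g * h) = f g + f h := by
        intro g hg h hh
        rw [hf g hg, hf h hh, hf (g * h) ((Gp K).mul_mem hg hh), ← toAdd_mul, ← map_mul]
        rfl
      have hf0 : ∀ (g : AbsGal K) (h : g ∈ Gp K), f g = 0 ↔ (⟨g, h⟩ : Gp K) ∈ N := by
        intro g h
        rw [hf g h, toAdd_eq_zero, MulEquiv.map_eq_one_iff, QuotientGroup.eq_one_iff]
      have hconj : ∀ g ∈ Gp K, τ * g * τ⁻¹ ∈ Gp K := fun g hg => Gp_normal.conj_mem g hg τ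
      have hττ : τ * τ ∈ Gp K := by rw [Gp_mul_iff]
      have hfW : ∀ w ∈ W, f w = 0 := fun w hw =>
        (hf0 w (hW.le hw)).2 (hUN (Subgroup.mem_subgroupOf.2 hw))
      have hfD : ∀ d ∈ dec P, d ∈ Gp K → f d = 0 := fun d hd hd' =>
        (hf0 d hd').2 (hDN (Subgroup.mem_subgroupOf.2 hd))
      have hinv : ∀ g ∈ Gp K, f g⁻¹ = - f g := by
        intro g hg
        have h1 := hfm g hg g⁻¹ ((Gp K).inv_mem hg)
        rw [mul_inv_cancel, hfW 1 W.one_mem] at h1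
        linear_combination -h1
      have hsq : ∀ g ∈ Gp K, f (τ * (τ * g * τ⁻¹) * τ⁻¹) = f g := by
        intro g hg
        rw [show τ * (τ * g * τ⁻¹) * τ⁻¹ = (τ * τ) * (g * (τ * τ)⁻¹) by group,
          hfm _ hττ _ ((Gp K).mul_mem hg ((Gp K).inv_mem hττ)),
          hfm _ hg _ ((Gp K).inv_mem hττ), hinv _ hττ]
        ring
      have hf'm : ∀ g ∈ Gp K, ∀ h ∈ Gp K,
          f (τ * (g * h) * τ⁻¹) = f (τ * g * τ⁻¹) + f (τ * h * τ⁻¹) := by
        intro g hg h hh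
        rw [show τ * (g * h) * τ⁻¹ = (τ * g * τ⁻¹) * (τ * h * τ⁻¹) by group,
          hfm _ (hconj g hg) _ (hconj h hh)]
      have hf'W : ∀ w ∈ W, f (τ * w * τ⁻¹) = 0 := fun w hw => hfW _ (hWn.conj_mem w hw τ)
      have hf'D : ∀ d ∈ dec P, d ∈ Gp K → f (τ * d * τ⁻¹) = 0 := fun d hd hd' =>
        hfD _ ((dec P).mul_mem ((dec P).mul_mem hτD hd) ((dec P).inv_mem hτD)) (hconj d hd')
      have hA := surj_key hK P hP hW hτD hτ (fun g => f g + f (τ * g * τ⁻¹))
        (fun g hg h hh => by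
          show f (g * h) + f (τ * (g * h) * τ⁻¹) =
            (f g + f (τ * g * τ⁻¹)) + (f h + f (τ * h * τ⁻¹))
          rw [hfm g hg h hh, hf'm g hg h hh]
          ring)
        (fun w hw => by
          show f w + f (τ * w * τ⁻¹) = 0
          rw [hfW w hw, hf'W w hw, add_zero])
        (fun d hd hd' => by
          show f d + f (τ * d * τ⁻¹) = 0
          rw [hfD d hd hd', hf'D d hd hd', add_zero]) 1 (Or.inl rfl)
        (fun g hg => by
          show f (τ * g * τ⁻¹) + f (τ * (τ * g * τ⁻¹) * τ⁻¹) = 1 * (f g + f (τ * g * τ⁻¹))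
          rw [hsq g hg]
          ring)
      have hB := surj_key hK P hP hW hτD hτ (fun g => f g - f (τ * g * τ⁻¹))
        (fun g hg h hh => by
          show f (g * h) - f (τ * (g * h) * τ⁻¹) =
            (f g - f (τ * g * τ⁻¹)) + (f h - f (τ * h * τ⁻¹))
          rw [hfm g hg h hh, hf'm g hg h hh]
          ring)
        (fun w hw => by
          show f w - f (τ * w * τ⁻¹) = 0
          rw [hfW w hw, hf'W w hw, sub_zero])
        (fun d hd hd' => by
          show f d - f (τ * d * τ⁻¹) = 0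
          rw [hfD d hd hd', hf'D d hd hd', sub_zero]) 2 (Or.inr rfl)
        (fun g hg => by
          show f (τ * g * τ⁻¹) - f (τ * (τ * g * τ⁻¹) * τ⁻¹) = 2 * (f g - f (τ * g * τ⁻¹))
          rw [hsq g hg]
          linear_combination (f (τ * g * τ⁻¹) - f g) * surj_three)
      have hall : ∀ g ∈ Gp K, f g = 0 := by
        intro g hg
        have h1 := hA g hg
        have h2 := hB g hg
        have h3 : f g + f (τ * g * τ⁻¹) = 0 := h1
        have h4 : f g - f (τ * g * τ⁻¹) = 0 := h2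
        linear_combination -h3 - h4 + f g * surj_three
      have htop : N = ⊤ := by
        rw [eq_top_iff]
        intro x _
        exact (hf0 x x.2).1 (hall x x.2)
      rw [htop, Subgroup.index_top] at hidx
      norm_num at hidx) ⟨g, hg⟩
  refine ⟨d, Subgroup.mem_subgroupOf.1 hd, d.2, ?_⟩
  exact Subgroup.mem_subgroupOf.1 hdg

theorem dec_mul_good (hK : IsBase 3 K) (P : Ideal (𝓞 (AlgebraicClosure K))) [P.IsPrime]
    (hP : (3 : 𝓞 (AlgebraicClosure K)) ∈ P) {W : Subgroup (AbsGal K)} (hW : Good W)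
    (g : AbsGal K) : ∃ d ∈ dec P, d⁻¹ * g ∈ W := by
  by_cases hg : g ∈ Gp K
  · obtain ⟨d, hd, -, h⟩ := dec_surj_gp hK P hP hW hg
    exact ⟨d, hd, h⟩
  · obtain ⟨τ, hτD, hτ⟩ := exists_dec_notMem hK P hP
    have h1 : τ⁻¹ * g ∈ Gp K := by
      rw [Gp_mul_iff, inv_mem_iff]; tauto
    obtain ⟨d, hd, -, h⟩ := dec_surj_gp hK P hP hW h1
    refine ⟨τ * d, (dec P).mul_mem hτD hd, ?_⟩
    rw [mul_inv_rev, mul_assoc]
    exact h

theorem dec_mul_core (hK : IsBase 3 K) (P : Ideal (𝓞 (AlgebraicClosure K))) [P.IsPrime]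
    (hP : (3 : 𝓞 (AlgebraicClosure K)) ∈ P) (g : AbsGal K) :
    ∃ d ∈ dec P, d⁻¹ * g ∈ core K := by
  let t : {W : Subgroup (AbsGal K) // Good W} → Set (AbsGal K) := fun W =>
    (dec P : Set (AbsGal K)) ∩ {d | d⁻¹ * g ∈ W.1}
  have hcl : ∀ W, IsClosed (t W) := by
    intro W
    refine (dec_closed P).inter ?_
    exact (Subgroup.isClosed_of_isOpen W.1 W.2.isOpen).preimage
      (continuous_inv.mul continuous_const)
  have hne : Nonempty {W : Subgroup (AbsGal K) // Good W} := ⟨⟨Gp K, Good.gp⟩⟩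
  have h := IsCompact.nonempty_iInter_of_directed_nonempty_isCompact_isClosed t
    (fun W W' => ⟨⟨W.1 ⊓ W'.1, W.2.inf W'.2⟩, fun d hd => ⟨hd.1, hd.2.1⟩, fun d hd => ⟨hd.1, hd.2.2⟩⟩)
    (fun W => by
      obtain ⟨d, hd, hd'⟩ := dec_mul_good hK P hP W.2 g
      exact ⟨d, hd, hd'⟩)
    (fun W => (hcl W).isCompact) hcl
  obtain ⟨d, hd⟩ := h
  rw [Set.mem_iInter] at hd
  refine ⟨d, (hd ⟨Gp K, Good.gp⟩).1, ?_⟩
  rw [core, Subgroup.mem_sInf]
  intro W hW
  exact (hd ⟨W, hW⟩).2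

end Pool.Agent.Work.MP_787500_nt.P3
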