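import Mathlib
import Pool.Agent.Work.MP_787500_nt.P3.C_Surj

/-!
# Module C_FIX (size S-M): the fixed field of an open subgroup of `Gp K`

`U` an open subgroup of `Gp K` for the system `pSys K`, `U' = U.map (Gp K).subtype` (contains a good
subgroup, `opn_good`, so it is open and closed in `AbsGal K`), `fld U = fixedField U'`.
* `fix_fld`: `(fld U).fixingSubgroup = U'` (`InfiniteGalois.fixingSubgroup_fixedField`);
* finite over `K` (`InfiniteGalois.isOpen_iff_finite`), so a number field
  (`NumberField.of_module_finite`), of degree `U'.index = 2 * U.index`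
  (`IntermediateField.finrank_eq_fixingSubgroup_index`; `gp_index`; `Subgroup.relIndex_mul_index` and
  `Subgroup.index_map_subtype` or similar).
* `z3_mem_fld`: `z3 K` is fixed by `Gp K`. `fld_totallyComplex`: `totallyComplex` in `C_Two.lean` or:
  a real embedding of `fld U` would give a real primitive cube root of unity.
* `mem_fld_iff`: `x ∈ fld U ↔ ∀ g ∈ U, g x = x`.
-/

set_option autoImplicit false

namespace Pool.Agent.Work.MP_787500_nt.P3

open IsDedekindDomain NumberField
open Pool.Agent.Work.MP_787500_nt.OddP (AbsGal IsBase)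

universe u

variable {K : Type u} [Field K] [NumberField K]

theorem mem_fld_iff {U : Subgroup (Gp K)} {x : AlgebraicClosure K} :
    x ∈ fld U ↔ ∀ g ∈ U, (g : AbsGal K) x = x := by
  rw [fld, IntermediateField.mem_fixedField_iff]
  constructor
  · intro h g hg
    exact h _ ⟨g, hg, rfl⟩
  · rintro h _ ⟨g, hg, rfl⟩
    exact h g hg

private theorem fix_open {U : Subgroup (Gp K)} (hU : Opn (pSys K) U) :
    IsOpen ((U.map (Gp K).subtype : Subgroup (AbsGal K)) : Set (AbsGal K)) :=
  opn_isOpen (opn_map hU)

theorem fix_fld {U : Subgroup (Gp K)} (hU : Opn (pSys K) U) :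
    (fld U).fixingSubgroup = U.map (Gp K).subtype :=
  InfiniteGalois.fixingSubgroup_fixedField (k := K) (K := AlgebraicClosure K)
    ⟨U.map (Gp K).subtype, Subgroup.isClosed_of_isOpen _ (fix_open hU)⟩

theorem finite_fld {U : Subgroup (Gp K)} (hU : Opn (pSys K) U) :
    FiniteDimensional K (fld U) := by
  rw [← InfiniteGalois.isOpen_iff_finite, fix_fld hU]
  exact fix_open hU

theorem nf_fld {U : Subgroup (Gp K)} (hU : Opn (pSys K) U) : NumberField (fld U) := by
  have := finite_fld hU
  exact NumberField.of_module_finite K _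

theorem finrank_fld (hK : IsBase 3 K) {U : Subgroup (Gp K)} (hU : Opn (pSys K) U) :
    Module.finrank K (fld U) = 2 * U.index := by
  rw [IntermediateField.finrank_eq_fixingSubgroup_index (AlgebraicClosure K), fix_fld hU]
  have hle : U.map (Gp K).subtype ≤ Gp K := by
    rintro _ ⟨u, -, rfl⟩
    exact u.2
  rw [← Subgroup.relIndex_mul_index hle, gp_index hK, mul_comm, Subgroup.relIndex]
  congr 2
  ext x
  rw [Subgroup.mem_subgroupOf]
  constructor
  · rintro ⟨u, hu, hux⟩
    have : u = x := Subtype.ext hux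
    rw [← this]
    exact hu
  · intro hx
    exact ⟨x, hx, rfl⟩

theorem z3_mem_fld (U : Subgroup (Gp K)) : z3 K ∈ fld U :=
  mem_fld_iff.2 fun g _ => g.2

theorem fld_totallyComplex (U : Subgroup (Gp K)) [NumberField (fld U)] :
    IsTotallyComplex (fld U) := by
  refine ⟨fun v => ?_⟩
  by_contra hv
  rw [InfinitePlace.not_isComplex_iff_isReal] at hv
  let f : fld U →+* ℝ := v.embedding_of_isReal hv
  have h1 : (⟨z3 K, z3_mem_fld U⟩ : fld U) ^ 2 + ⟨z3 K, z3_mem_fld U⟩ + 1 = 0 := by
    apply Subtype.ext
    exact z3_spec K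
  have h2 := congrArg f h1
  rw [map_add, map_add, map_pow, map_one, map_zero] at h2
  nlinarith [sq_nonneg (f ⟨z3 K, z3_mem_fld U⟩ + 1 / 2)]

end Pool.Agent.Work.MP_787500_nt.P3
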