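import Mathlib
import Pool.Agent.Work.MP_787500_nt.P3.Defs

/-!
# Module C_KRAS (size S-M): Krasner's lemma for cube roots, and properties of `LocCb`

* `krasner`: `v` a valuation, `ζ` a primitive cube root of unity, `u ^ 3 = 1 + x`, `v x < v 9`, `g` a ring
  automorphism preserving `v`, `g ζ = ζ`, `g (u ^ 3) = u ^ 3`. Then `g u = u`.
  `v ζ = 1`, `(ζ - 1) ^ 2 = -3 ζ`, so `v (ζ ^ i - ζ ^ j) ^ 2 = v 3` for `i ≠ j`; put `d = v (ζ - 1)`,
  `d ≤ 1`, `d ^ 4 = v 9`. `(u - 1) (u - ζ) (u - ζ ^ 2) = x`. Some `i` has `v (u - ζ ^ i) < d`: otherwise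
  `v x ≥ d ^ 3 ≥ d ^ 4 = v 9`. `g u = ζ ^ k u` (as `(g u) ^ 3 = u ^ 3`; the case `u = 0` is trivial).
  `v (g u - ζ ^ i) = v (g (u - ζ ^ i)) < d` and `v (ζ ^ k u - ζ ^ (k + i)) = v (u - ζ ^ i) < d`, so
  `v (ζ ^ i - ζ ^ (k + i)) < d`, which forces `ζ ^ k = 1`.
  (Characteristic: `3 ≠ 0` follows from `v x < v 9`.)
* `LocCb v z`: there is `y` with `v (z - y ^ 3) < v (9 z)`.
  `LocCb.mul_cube`: `z c ^ 3 - (y c) ^ 3 = (z - y ^ 3) c ^ 3`. `LocCb.of_mul_cube`: the converse.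
  `LocCb.of_cube`: `y ^ 3`. `LocCb.mul`: `z z' - (y y') ^ 3 = z (z' - y' ^ 3) + (z - y ^ 3) y' ^ 3`,
  `v (y' ^ 3) = v z'` (as `v 9 ≤ 1`). `LocCb.one_add`: `v x < v 9` gives `LocCb (1 + x)` (`y = 1`,
  `v (1 + x) = 1`).
-/

set_option autoImplicit false

namespace Pool.Agent.Work.MP_787500_nt.P3

variable {Ω Γ : Type*} [Field Ω] [LinearOrderedCommGroupWithZero Γ] {v : Valuation Ω Γ}

private theorem val_natCast_le (n : ℕ) : v (n : Ω) ≤ 1 := by
  induction n with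
  | zero =>
    rw [Nat.cast_zero, map_zero]
    exact zero_le
  | succ n ih =>
    rw [Nat.cast_succ]
    exact (Valuation.map_add _ _ _).trans (max_le ih (by rw [map_one]))

private theorem val_nine_le : v (9 : Ω) ≤ 1 := by
  have := val_natCast_le (v := v) 9
  simpa using this

private theorem val_three_le : v (3 : Ω) ≤ 1 := by
  have := val_natCast_le (v := v) 3
  simpa using this

private theorem val_eq_one_of_cube {z : Ω} (h : z ^ 3 = 1) : v z = 1 := by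
  have h1 : (v z) ^ 3 = 1 := by rw [← map_pow, h, map_one]
  rcases lt_trichotomy (v z) 1 with h2 | h2 | h2
  · exact absurd h1 (pow_lt_one₀ zero_le h2 (by norm_num)).ne
  · exact h2
  · exact absurd h1 (one_lt_pow₀ h2 (by norm_num)).ne'

theorem krasner {ζ u x : Ω} (hζ : ζ ^ 2 + ζ + 1 = 0) (hu : u ^ 3 = 1 + x) (hx : v x < v 9)
    {g : Ω ≃+* Ω} (hg : ∀ y, v (g y) = v y) (hgζ : g ζ = ζ) (hgu : g (u ^ 3) = u ^ 3) : g u = u := by
  have h90 : v (9 : Ω) ≠ 0 := (zero_le.trans_lt hx).ne'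
  have h30 : (3 : Ω) ≠ 0 := by
    intro h
    apply h90
    rw [show (9 : Ω) = 3 * 3 by norm_num, h, mul_zero, map_zero]
  have hζ3 : ζ ^ 3 = 1 := by linear_combination (ζ - 1) * hζ
  have hζ1 : v ζ = 1 := val_eq_one_of_cube hζ3
  set d := v (ζ - 1) with hd
  have hd2 : d ^ 2 = v (3 : Ω) := by
    have h1 : (ζ - 1) ^ 2 = -(3 * ζ) := by linear_combination hζ
    rw [hd, ← map_pow, h1, Valuation.map_neg, map_mul, hζ1, mul_one]
  have hd1 : d ≤ 1 := by
    by_contra hc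
    push Not at hc
    have h1 : (1 : Γ) < d ^ 2 := one_lt_pow₀ hc (by norm_num)
    rw [hd2] at h1
    exact absurd val_three_le (not_le.2 h1)
  have hd4 : d ^ 3 * d = v (9 : Ω) := by
    rw [show (9 : Ω) = 3 * 3 by norm_num, map_mul, ← hd2, ← pow_succ, ← pow_add]
  have hprod : (u - 1) * (u - ζ) * (u - ζ ^ 2) = x := by
    linear_combination hu - hζ * u ^ 2 + hζ3 * (u - 1) + hζ * u
  have hex : ∃ η : Ω, η ^ 3 = 1 ∧ g η = η ∧ v (u - η) < d := by
    by_contra hc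
    push Not at hc
    have c0 := hc 1 (one_pow 3) (map_one g)
    have c1 := hc ζ hζ3 hgζ
    have c2 := hc (ζ ^ 2) (by rw [← pow_mul, mul_comm, pow_mul, hζ3, one_pow])
      (by rw [map_pow, hgζ])
    have h1 : v x < v x := by
      calc v x < v 9 := hx
        _ = d ^ 3 * d := hd4.symm
        _ ≤ d ^ 3 * 1 := mul_le_mul' le_rfl hd1
        _ = d * d * d := by rw [mul_one, pow_succ, pow_two]
        _ ≤ v (u - 1) * v (u - ζ) * v (u - ζ ^ 2) := mul_le_mul' (mul_le_mul' c0 c1) c2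
        _ = v x := by rw [← map_mul, ← map_mul, hprod]
    exact lt_irrefl _ h1
  obtain ⟨η, hη3, hgη, hη⟩ := hex
  by_cases hu0 : u = 0
  · rw [hu0, map_zero]
  obtain ⟨ξ, hξ, hgu'⟩ : ∃ ξ : Ω, ξ ^ 3 = 1 ∧ g u = ξ * u := by
    refine ⟨g u / u, ?_, (div_mul_cancel₀ _ hu0).symm⟩
    rw [div_pow, ← map_pow, hgu, div_self (pow_ne_zero 3 hu0)]
  have hξ1 : v ξ = 1 := val_eq_one_of_cube hξ
  have hη1 : v η = 1 := val_eq_one_of_cube hη3
  have h1 : v (g u - η) < d := by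
    have : g u - η = g (u - η) := by rw [map_sub, hgη]
    rw [this, hg]
    exact hη
  have h2 : v (ξ * u - ξ * η) < d := by
    rw [← mul_sub, map_mul, hξ1, one_mul]
    exact hη
  have h3 : v (1 - ξ) < d := by
    have h4 : η * (1 - ξ) = (ξ * u - ξ * η) - (g u - η) := by
      rw [hgu']
      ring
    have h5 : v (η * (1 - ξ)) < d := by
      rw [h4]
      exact Valuation.map_sub_lt v h2 h1
    rwa [map_mul, hη1, one_mul] at h5
  have h6 : (ξ - 1) * ((ξ - ζ) * (ξ - ζ ^ 2)) = 0 := by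
    linear_combination hξ - hζ * ξ ^ 2 + hζ3 * (ξ - 1) + hζ * ξ
  rcases mul_eq_zero.1 h6 with h7 | h7
  · rw [hgu', sub_eq_zero.1 h7, one_mul]
  rcases mul_eq_zero.1 h7 with h8 | h8
  · exfalso
    rw [sub_eq_zero.1 h8, ← Valuation.map_neg, neg_sub] at h3
    exact lt_irrefl _ h3
  · exfalso
    rw [sub_eq_zero.1 h8] at h3
    have h9 : (1 - ζ ^ 2 : Ω) = (ζ - 1) * ζ ^ 2 := by
      linear_combination -hζ3
    rw [h9, map_mul, map_pow, hζ1, one_pow, mul_one] at h3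
    exact lt_irrefl _ h3

theorem LocCb.ne_zero {z : Ω} (h : LocCb v z) : z ≠ 0 := by
  obtain ⟨y, hy⟩ := h
  rintro rfl
  rw [mul_zero, map_zero] at hy
  exact absurd hy (not_lt.2 zero_le)

theorem LocCb.mul_cube {z c : Ω} (hc : c ≠ 0) (h : LocCb v z) : LocCb v (z * c ^ 3) := by
  obtain ⟨y, hy⟩ := h
  refine ⟨y * c, ?_⟩
  have h1 : z * c ^ 3 - (y * c) ^ 3 = (z - y ^ 3) * c ^ 3 := by ring
  have h2 : (9 : Ω) * (z * c ^ 3) = 9 * z * c ^ 3 := by ring
  rw [h1, h2, map_mul, map_mul _ _ (c ^ 3)]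
  refine mul_lt_mul_of_pos_right hy ?_
  exact zero_lt_iff.2 ((Valuation.ne_zero_iff _).2 (pow_ne_zero 3 hc))

theorem LocCb.of_mul_cube {z c : Ω} (hc : c ≠ 0) (h : LocCb v (z * c ^ 3)) : LocCb v z := by
  have h1 := h.mul_cube (inv_ne_zero hc)
  have h2 : z * c ^ 3 * c⁻¹ ^ 3 = z := by
    rw [mul_assoc, ← mul_pow, mul_inv_cancel₀ hc, one_pow, mul_one]
  rwa [h2] at h1

theorem LocCb.mul {z z' : Ω} (h : LocCb v z) (h' : LocCb v z') : LocCb v (z * z') := by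
  have hz := h.ne_zero
  have hz' := h'.ne_zero
  obtain ⟨y, hy⟩ := h
  obtain ⟨y', hy'⟩ := h'
  have hvz : 0 < v z := zero_lt_iff.2 ((Valuation.ne_zero_iff _).2 hz)
  have hvz' : 0 < v z' := zero_lt_iff.2 ((Valuation.ne_zero_iff _).2 hz')
  have h1 : v (y' ^ 3) = v z' := by
    have h2 : v (z' - y' ^ 3) < v z' := by
      refine hy'.trans_le ?_
      rw [map_mul]
      calc v 9 * v z' ≤ 1 * v z' := mul_le_mul' val_nine_le le_rfl
        _ = v z' := one_mul _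
    have h3 := Valuation.map_sub_eq_of_lt_left v h2
    rw [sub_sub_cancel] at h3
    exact h3
  refine ⟨y * y', ?_⟩
  have e : z * z' - (y * y') ^ 3 = z * (z' - y' ^ 3) + (z - y ^ 3) * y' ^ 3 := by ring
  rw [e]
  refine Valuation.map_add_lt v ?_ ?_
  · rw [map_mul, show (9 : Ω) * (z * z') = z * (9 * z') by ring, map_mul]
    exact mul_lt_mul_of_pos_left hy' hvz
  · rw [map_mul, h1, show (9 : Ω) * (z * z') = (9 * z) * z' by ring, map_mul _ _ z']
    exact mul_lt_mul_of_pos_right hy hvz'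

theorem LocCb.of_cube {y : Ω} (hy : y ≠ 0) (h9 : v 9 ≠ 0) : LocCb v (y ^ 3) := by
  refine ⟨y, ?_⟩
  rw [sub_self, map_zero, map_mul]
  exact zero_lt_iff.2 (mul_ne_zero h9 ((Valuation.ne_zero_iff _).2 (pow_ne_zero 3 hy)))

theorem LocCb.one_add {x : Ω} (hx : v x < v 9) : LocCb v (1 + x) := by
  refine ⟨1, ?_⟩
  have h1 : v (1 + x) = 1 := by
    have h2 : v x < v 1 := by
      rw [map_one]
      exact hx.trans_le val_nine_le
    rw [add_comm, Valuation.map_add_eq_of_lt_right v h2, map_one]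
  rw [one_pow, add_sub_cancel_left, map_mul, h1, mul_one]
  exact hx

end Pool.Agent.Work.MP_787500_nt.P3
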