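import Mathlib
import Pool.Agent.Work.MP_787500_nt.P3.C_Kras

/-!
# Module C_LOC (size M-L): the number of local cube classes at a place above 3

(Compare `PA/LocClasses.lean`.) `F` a number field with a primitive cube root of unity `ζ`, `w` above 3,
`w 3 = exp (-e)`; `triIdeal w = {t | w t ≤ w 3} = w ^ e`. Claim: a map `c` from `F` to a set with
`9 * card (𝓞 F ⧸ triIdeal w)` elements such that `c a = c b` implies `LocCb w (a * b ^ 2)` (`a, b ≠ 0`).

Direct proof. Choose `π ∈ F` with `w π = exp (-1)`. Let `N = 2 e + 1` and `R = 𝓞 F ⧸ w ^ N`, a finite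
ring. For `a ≠ 0` write `a = π ^ k * u`, `w u = 1`; choose `r ∈ 𝓞 F` with `w (r - u) ≤ exp (-N)`; `r` is a
unit modulo `w ^ N`. `c a = (k mod 3, class of r in Rˣ / (Rˣ) ^ 3)`. If `c a = c b` then
`a * b ^ 2 = π ^ (multiple of 3) * u u' ^ 2` with `u u' ^ 2 = y ^ 3 * (1 + x)`, `w x ≤ exp (-N)`, i.e.
`w x < w 9`, so it is `LocCb` (`LocCb.one_add`, `LocCb.mul_cube`).

The count: `card (Rˣ / cubes) = card {u ∈ Rˣ | u ^ 3 = 1}` (finite commutative group). Let
`u ^ 3 = 1` modulo `w ^ N`: `w (u - 1) * w (u - ζ) * w (u - ζ ^ 2) ≤ exp (-N)`. As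
`(ζ - 1) ^ 2 = -3 ζ`, `w (ζ ^ i - ζ ^ j) ^ 2 = w 3 = exp (-e)` for `i ≠ j`, so `e = 2 f` and
`w (ζ ^ i - ζ ^ j) = exp (-f)`. Let `u - ζ ^ i` be the factor with the smallest valuation; if
`w (u - ζ ^ i) ≥ exp (-f)` then the product is `≥ exp (-3 f) > exp (-N)`; so `w (u - ζ ^ i) < exp (-f)`, the
two other factors have valuation `exp (-f)` and `w (u - ζ ^ i) ≤ exp (-(N - e)) = exp (-(e + 1))`. So `u` is
congruent to one of `1, ζ, ζ ^ 2` modulo `w ^ (e + 1)`: at most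
`3 * card (w ^ (e + 1) / w ^ (2 e + 1)) = 3 * card (𝓞 F ⧸ w ^ e)` solutions. Total: at most `3 * 3 * card`.
-/

set_option autoImplicit false

namespace Pool.Agent.Work.MP_787500_nt.P3

open IsDedekindDomain NumberField

private theorem lc_mem {F : Type*} [Field F] [NumberField F] (w : HeightOneSpectrum (𝓞 F)) (n : ℕ)
    (t : 𝓞 F) : t ∈ w.asIdeal ^ n ↔
      w.valuation F (algebraMap (𝓞 F) F t) ≤ WithZero.exp (-(n : ℤ)) := by
  rw [HeightOneSpectrum.valuation_of_algebraMap, w.intValuation_le_pow_iff_mem]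

private theorem lc_finite {F : Type*} [Field F] [NumberField F] (w : HeightOneSpectrum (𝓞 F))
    (n : ℕ) : Finite (𝓞 F ⧸ w.asIdeal ^ n) := by
  refine Ideal.finiteQuotientOfFreeOfNeBot _ ?_
  exact pow_ne_zero n w.ne_bot

/-- units of the finite quotient -/
private theorem lc_unit {F : Type*} [Field F] [NumberField F] (w : HeightOneSpectrum (𝓞 F)) (n : ℕ)
    {r : 𝓞 F} (hr : w.valuation F (algebraMap (𝓞 F) F r) = 1) :
    IsUnit (Ideal.Quotient.mk (w.asIdeal ^ n) r) := by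
  have := lc_finite w n
  refine IsArtinianRing.isUnit_of_mem_nonZeroDivisors ?_
  rw [mem_nonZeroDivisors_iff_right]
  intro x hx
  obtain ⟨y, rfl⟩ := Ideal.Quotient.mk_surjective x
  rw [← map_mul, Ideal.Quotient.eq_zero_iff_mem, lc_mem, map_mul, map_mul, hr, mul_one] at hx
  rw [Ideal.Quotient.eq_zero_iff_mem, lc_mem]
  exact hx

/-- the kernel of reduction -/
private theorem lc_ker {F : Type*} [Field F] [NumberField F] (w : HeightOneSpectrum (𝓞 F))
    (a b : ℕ) :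
    Nat.card {x : 𝓞 F ⧸ w.asIdeal ^ (a + b) | ∃ t ∈ w.asIdeal ^ b, Ideal.Quotient.mk _ t = x} =
      Nat.card (𝓞 F ⧸ w.asIdeal ^ a) := by
  classical
  have hle : w.asIdeal ^ (a + b) ≤ w.asIdeal ^ b := Ideal.pow_le_pow_right (by omega)
  let f : (𝓞 F ⧸ w.asIdeal ^ (a + b)) →+ (𝓞 F ⧸ w.asIdeal ^ b) :=
    (Ideal.Quotient.factor hle).toAddMonoidHom
  have hsurj : Function.Surjective f := Ideal.Quotient.factor_surjective hle
  have h1 : Nat.card f.ker * f.ker.index = Nat.card (𝓞 F ⧸ w.asIdeal ^ (a + b)) :=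
    f.ker.card_mul_index
  have h2 : f.ker.index = Nat.card (𝓞 F ⧸ w.asIdeal ^ b) := by
    rw [AddSubgroup.index_ker, AddMonoidHom.range_eq_top.2 hsurj]
    exact Nat.card_congr AddSubgroup.topEquiv.toEquiv
  have h3 : ∀ n : ℕ, Nat.card (𝓞 F ⧸ w.asIdeal ^ n) = Ideal.absNorm w.asIdeal ^ n := by
    intro n
    rw [← map_pow]
    rfl
  have h1' : Nat.card f.ker * Ideal.absNorm w.asIdeal ^ b =
      Ideal.absNorm w.asIdeal ^ a * Ideal.absNorm w.asIdeal ^ b := by
    rw [← pow_add, ← h3 (a + b), ← h1, h2, h3 b]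
  have h4 : 0 < Ideal.absNorm w.asIdeal ^ b := by
    apply Nat.pos_of_ne_zero
    rw [← h3]
    have := lc_finite w b
    exact Nat.card_pos.ne'
  have h5 := Nat.eq_of_mul_eq_mul_right h4 h1'
  rw [h3 a, ← h5]
  apply Nat.card_congr
  refine Equiv.subtypeEquivRight fun x => ?_
  constructor
  · rintro ⟨t, ht, rfl⟩
    show Ideal.Quotient.factor hle (Ideal.Quotient.mk _ t) = 0
    rw [Ideal.Quotient.factor_mk, Ideal.Quotient.eq_zero_iff_mem]
    exact ht
  · intro hx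
    obtain ⟨t, rfl⟩ := Ideal.Quotient.mk_surjective x
    have hx' : Ideal.Quotient.factor hle (Ideal.Quotient.mk _ t) = 0 := hx
    rw [Ideal.Quotient.factor_mk, Ideal.Quotient.eq_zero_iff_mem] at hx'
    exact ⟨t, hx', rfl⟩

/-- the number of cube roots of one -/
private theorem lc_roots {F : Type*} [Field F] [NumberField F] (w : HeightOneSpectrum (𝓞 F))
    {e : ℕ} (he : w.valuation F 3 = WithZero.exp (-(e : ℤ))) {Z : 𝓞 F} (hZ : Z ^ 2 + Z + 1 = 0) :
    Nat.card {u : (𝓞 F ⧸ w.asIdeal ^ (e + (e + 1)))ˣ | u ^ 3 = 1} ≤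
      3 * Nat.card (𝓞 F ⧸ w.asIdeal ^ e) := by
  classical
  have := lc_finite w (e + (e + 1))
  let v := w.valuation F
  set S := {x : 𝓞 F ⧸ w.asIdeal ^ (e + (e + 1)) | ∃ t ∈ w.asIdeal ^ (e + 1),
    Ideal.Quotient.mk _ t = x} with hS
  have hint : ∀ t : 𝓞 F, v (algebraMap (𝓞 F) F t) ≤ 1 := fun t =>
    HeightOneSpectrum.valuation_le_one w t
  -- the valuation of `Z - 1`
  set ζ : F := algebraMap (𝓞 F) F Z with hζdef
  have hζ : ζ ^ 2 + ζ + 1 = 0 := by
    have := congrArg (algebraMap (𝓞 F) F) hZ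
    simpa using this
  have hζ3 : ζ ^ 3 = 1 := by linear_combination (ζ - 1) * hζ
  have hvζ : v ζ = 1 := by
    have h1 : (v ζ) ^ 3 = 1 := by rw [← map_pow, hζ3, map_one]
    rcases lt_trichotomy (v ζ) 1 with h2 | h2 | h2
    · exact absurd h1 (pow_lt_one₀ zero_le h2 (by norm_num)).ne
    · exact h2
    · exact absurd h1 (one_lt_pow₀ h2 (by norm_num)).ne'
  have hsq : v (ζ - 1) * v (ζ - 1) = WithZero.exp (-(e : ℤ)) := by
    have h1 : (ζ - 1) * (ζ - 1) = -(3 * ζ) := by linear_combination hζ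
    rw [← map_mul, h1, Valuation.map_neg, map_mul, hvζ, mul_one]
    exact he
  have hne : v (ζ - 1) ≠ 0 := by
    intro h
    rw [h, mul_zero] at hsq
    exact WithZero.exp_ne_zero hsq.symm
  obtain ⟨m, hm⟩ : ∃ m : ℤ, v (ζ - 1) = WithZero.exp m := ⟨_, (WithZero.exp_log hne).symm⟩
  have hme : m + m = -(e : ℤ) := by
    rw [hm, ← WithZero.exp_add] at hsq
    exact WithZero.exp_injective hsq
  have hm1 : m ≤ 0 := by omega
  -- differences of cube roots of one
  have d01 : v (1 - ζ) = WithZero.exp m := by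
    rw [← hm, ← Valuation.map_neg, neg_sub]
  have d12 : v (ζ - ζ ^ 2) = WithZero.exp m := by
    have h1 : ζ - ζ ^ 2 = ζ * (1 - ζ) := by ring
    rw [h1, map_mul, hvζ, one_mul, d01]
  have d02 : v (1 - ζ ^ 2) = WithZero.exp m := by
    have h1 : 1 - ζ ^ 2 = (ζ - 1) * ζ ^ 2 := by linear_combination -hζ3
    rw [h1, map_mul, map_pow, hvζ, one_pow, mul_one, hm]
  have key0 : ∀ a b c : F, v (a - b) = WithZero.exp m → v (a - c) = WithZero.exp m →
      ∀ x : F, v (x - a) < WithZero.exp m →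
      v ((x - a) * ((x - b) * (x - c))) ≤ WithZero.exp (-((e + (e + 1) : ℕ) : ℤ)) →
      v (x - a) ≤ WithZero.exp (-((e + 1 : ℕ) : ℤ)) := by
    intro a b c hab hac x hxa hprod
    have g : ∀ b' : F, v (a - b') = WithZero.exp m → v (x - b') = WithZero.exp m := by
      intro b' hb'
      have h1 : x - b' = (x - a) + (a - b') := by ring
      rw [h1, Valuation.map_add_eq_of_lt_right v (by rw [hb']; exact hxa), hb']
    by_cases h0 : v (x - a) = 0
    · rw [h0]
      exact zero_le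
    obtain ⟨n, hn⟩ : ∃ n : ℤ, v (x - a) = WithZero.exp n := ⟨_, (WithZero.exp_log h0).symm⟩
    rw [map_mul, map_mul, g b hab, g c hac, hn, ← WithZero.exp_add, ← WithZero.exp_add,
      WithZero.exp_le_exp] at hprod
    rw [hn, WithZero.exp_le_exp]
    push_cast at hprod ⊢
    omega
  have key : ∀ u : {u : (𝓞 F ⧸ w.asIdeal ^ (e + (e + 1)))ˣ | u ^ 3 = 1},
      ∃ c : Fin 3 × S, (u : (𝓞 F ⧸ w.asIdeal ^ (e + (e + 1)))ˣ).val =
        c.2.1 + Ideal.Quotient.mk _ (Z ^ (c.1 : ℕ)) := by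
    rintro ⟨u, hu⟩
    obtain ⟨x, hx⟩ := Ideal.Quotient.mk_surjective u.val
    have hu2 : u.val ^ 3 = 1 := by
      have := congrArg Units.val hu
      simpa using this
    have h1 : x ^ 3 - 1 ∈ w.asIdeal ^ (e + (e + 1)) := by
      rw [← Ideal.Quotient.eq_zero_iff_mem, map_sub, map_pow, hx, map_one, hu2, sub_self]
    rw [lc_mem, map_sub, map_pow, map_one] at h1
    set X : F := algebraMap (𝓞 F) F x with hX
    have f0 : X ^ 3 - 1 = (X - 1) * ((X - ζ) * (X - ζ ^ 2)) := by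
      linear_combination hζ * X ^ 2 - hζ3 * (X - 1) - hζ * X
    have f1 : X ^ 3 - 1 = (X - ζ) * ((X - 1) * (X - ζ ^ 2)) := by
      rw [f0]
      ring
    have f2 : X ^ 3 - 1 = (X - ζ ^ 2) * ((X - 1) * (X - ζ)) := by
      rw [f0]
      ring
    have h3 : x - Z ^ 0 ∈ w.asIdeal ^ (e + 1) ∨ x - Z ^ 1 ∈ w.asIdeal ^ (e + 1) ∨
        x - Z ^ 2 ∈ w.asIdeal ^ (e + 1) := by
      have hcm : ∀ i : ℕ, x - Z ^ i ∈ w.asIdeal ^ (e + 1) ↔
          v (X - ζ ^ i) ≤ WithZero.exp (-((e + 1 : ℕ) : ℤ)) := by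
        intro i
        rw [lc_mem, map_sub, map_pow]
      rw [hcm, hcm, hcm, pow_zero, pow_one]
      by_cases c0 : v (X - 1) < WithZero.exp m
      · left
        exact key0 1 ζ (ζ ^ 2) d01 d02 X c0 (by rw [← f0]; exact h1)
      by_cases c1 : v (X - ζ) < WithZero.exp m
      · right
        left
        exact key0 ζ 1 (ζ ^ 2) (by rw [← Valuation.map_neg, neg_sub]; exact d01) d12 X c1
          (by rw [← f1]; exact h1)
      by_cases c2 : v (X - ζ ^ 2) < WithZero.exp m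
      · right
        right
        exact key0 (ζ ^ 2) 1 ζ (by rw [← Valuation.map_neg, neg_sub]; exact d02)
          (by rw [← Valuation.map_neg, neg_sub]; exact d12) X c2 (by rw [← f2]; exact h1)
      exfalso
      push Not at c0 c1 c2
      have h4 : WithZero.exp m * (WithZero.exp m * WithZero.exp m) ≤ v (X ^ 3 - 1) := by
        rw [f0, map_mul, map_mul]
        exact mul_le_mul' c0 (mul_le_mul' c1 c2)
      have h5 := h4.trans h1
      rw [← WithZero.exp_add, ← WithZero.exp_add, WithZero.exp_le_exp] at h5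
      push_cast at h5
      omega
    have h6 : ∀ i : Fin 3, x - Z ^ (i : ℕ) ∈ w.asIdeal ^ (e + 1) → ∃ c : Fin 3 × S,
        u.val = c.2.1 + Ideal.Quotient.mk _ (Z ^ (c.1 : ℕ)) := by
      intro i hi
      refine ⟨(i, ⟨Ideal.Quotient.mk _ (x - Z ^ (i : ℕ)), x - Z ^ (i : ℕ), hi, rfl⟩), ?_⟩
      show u.val = Ideal.Quotient.mk _ (x - Z ^ (i : ℕ)) + Ideal.Quotient.mk _ (Z ^ (i : ℕ))
      rw [map_sub, sub_add_cancel, hx]
    rcases h3 with h3 | h3 | h3
    · exact h6 0 h3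
    · exact h6 1 h3
    · exact h6 2 h3
  choose c hc using key
  have hinj : Function.Injective c := by
    intro u u' h
    apply Subtype.ext
    apply Units.ext
    rw [hc, hc, h]
  have hSfin : Finite S := Subtype.finite
  have h4 := Nat.card_le_card_of_injective c hinj
  rw [Nat.card_prod, hS, lc_ker w e (e + 1)] at h4
  simpa using h4

/-- the index of the cubes -/
private theorem lc_index {F : Type*} [Field F] [NumberField F] (w : HeightOneSpectrum (𝓞 F))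
    {e : ℕ} (he : w.valuation F 3 = WithZero.exp (-(e : ℤ))) {Z : 𝓞 F} (hZ : Z ^ 2 + Z + 1 = 0) :
    Finite ((𝓞 F ⧸ w.asIdeal ^ (e + (e + 1)))ˣ ⧸
      (powMonoidHom 3 : (𝓞 F ⧸ w.asIdeal ^ (e + (e + 1)))ˣ →* _).range) ∧
    Nat.card ((𝓞 F ⧸ w.asIdeal ^ (e + (e + 1)))ˣ ⧸
      (powMonoidHom 3 : (𝓞 F ⧸ w.asIdeal ^ (e + (e + 1)))ˣ →* _).range) ≤
      3 * Nat.card (𝓞 F ⧸ w.asIdeal ^ e) := by
  classical
  have := lc_finite w (e + (e + 1))
  set G := (𝓞 F ⧸ w.asIdeal ^ (e + (e + 1)))ˣ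
  set f : G →* G := powMonoidHom 3
  refine ⟨Quotient.finite _, ?_⟩
  have h1 : Nat.card f.range * f.range.index = Nat.card G := f.range.card_mul_index
  have h2 : Nat.card f.ker * f.ker.index = Nat.card G := f.ker.card_mul_index
  rw [Subgroup.index_ker] at h2
  have h3 : f.range.index = Nat.card f.ker := by
    have h4 : 0 < Nat.card f.range := Nat.card_pos
    apply Nat.eq_of_mul_eq_mul_left h4
    rw [h1, ← h2, mul_comm]
  rw [← Subgroup.index, h3]
  refine le_trans (le_of_eq ?_) (lc_roots w he hZ)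
  exact Nat.card_congr (Equiv.subtypeEquivRight fun u => MonoidHom.mem_ker)

theorem exists_classes {F : Type*} [Field F] [NumberField F] {w : HeightOneSpectrum (𝓞 F)}
    (hw : (3 : 𝓞 F) ∈ w.asIdeal) (hζ : ∃ z : F, z ^ 2 + z + 1 = 0) :
    ∃ c : F → Fin (9 * Nat.card (𝓞 F ⧸ triIdeal w)), ∀ a b : F, a ≠ 0 → b ≠ 0 → c a = c b →
      LocCb (w.valuation F) (a * b ^ 2) := by
  classical
  obtain ⟨z, hz⟩ := hζ
  have hzint : IsIntegral ℤ z := by
    refine ⟨Polynomial.X ^ 3 - 1, ?_, ?_⟩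
    · exact Polynomial.monic_X_pow_sub_C (1 : ℤ) (by norm_num)
    · simp only [Polynomial.eval₂_sub, Polynomial.eval₂_pow, Polynomial.eval₂_X,
        Polynomial.eval₂_one]
      linear_combination (z - 1) * hz
  let Z : 𝓞 F := ⟨z, hzint⟩
  have hZ : Z ^ 2 + Z + 1 = 0 := by
    apply RingOfIntegers.ext
    exact hz
  have h2 : (3 : 𝓞 F) ≠ 0 := by norm_num
  obtain ⟨e, he⟩ : ∃ e : ℕ, w.intValuation (3 : 𝓞 F) = WithZero.exp (-(e : ℤ)) :=
    ⟨_, w.intValuation_if_neg h2⟩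
  have he2 : w.valuation F 3 = WithZero.exp (-(e : ℤ)) := by
    rw [← map_ofNat (algebraMap (𝓞 F) F) 3, HeightOneSpectrum.valuation_of_algebraMap, he]
  have hdy : triIdeal w = w.asIdeal ^ e := by
    ext t
    show w.valuation F (algebraMap (𝓞 F) F t) ≤ w.valuation F 3 ↔ _
    rw [lc_mem, he2]
  obtain ⟨hfin, hcard⟩ := lc_index w he2 hZ
  set N := e + (e + 1) with hN
  set Q := ((𝓞 F ⧸ w.asIdeal ^ N)ˣ ⧸ (powMonoidHom 3 : (𝓞 F ⧸ w.asIdeal ^ N)ˣ →* _).range)
    with hQ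
  have hT : Nat.card (ZMod 3 × Q) ≤ 9 * Nat.card (𝓞 F ⧸ triIdeal w) := by
    rw [hdy, Nat.card_prod, Nat.card_zmod]
    omega
  let g : ZMod 3 × Q → Fin (9 * Nat.card (𝓞 F ⧸ triIdeal w)) := fun t =>
    Fin.castLE hT (Finite.equivFin (ZMod 3 × Q) t)
  have hg : Function.Injective g := (Fin.castLE_injective hT).comp (Finite.equivFin _).injective
  let v := w.valuation F
  obtain ⟨π, hπ⟩ := w.valuation_exists_uniformizer F
  have hπ0 : π ≠ 0 := by
    rintro rfl
    rw [map_zero] at hπ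
    exact WithZero.exp_ne_zero hπ.symm
  -- decomposition of a nonzero element
  have hdec : ∀ a : F, ∃ (k : ℤ) (r : 𝓞 F), a ≠ 0 → v (a * π ^ k) = 1 ∧
      v (algebraMap (𝓞 F) F r - a * π ^ k) ≤ WithZero.exp (-(N : ℤ)) := by
    intro a
    by_cases ha : a = 0
    · exact ⟨0, 0, fun h => absurd ha h⟩
    · have hva : v a ≠ 0 := (Valuation.ne_zero_iff _).2 ha
      obtain ⟨k, hk⟩ : ∃ k : ℤ, v a = WithZero.exp k := ⟨_, (WithZero.exp_log hva).symm⟩
      have h1 : v (a * π ^ k) = 1 := by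
        rw [map_mul, map_zpow₀, hk, hπ, ← WithZero.exp_zsmul, ← WithZero.exp_add]
        simp
      obtain ⟨r, hr⟩ := HeightOneSpectrum.exists_valuation_sub_lt_of_integer w h1.le
        (Units.mk0 (WithZero.exp (-(N : ℤ))) WithZero.exp_ne_zero)
      exact ⟨k, r, fun _ => ⟨h1, hr.le⟩⟩
  choose k r hkr using hdec
  have hNlt : WithZero.exp (-(N : ℤ)) < (1 : WithZero (Multiplicative ℤ)) := by
    rw [← WithZero.exp_zero, WithZero.exp_lt_exp]
    omega
  have hvr : ∀ a, a ≠ 0 → v (algebraMap (𝓞 F) F (r a)) = 1 := by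
    intro a ha
    obtain ⟨h1, h3⟩ := hkr a ha
    have h4 : v (algebraMap (𝓞 F) F (r a) - a * π ^ k a) < v (a * π ^ k a) := by
      rw [h1]
      exact h3.trans_lt hNlt
    have h5 := Valuation.map_add_eq_of_lt_left v h4
    rw [add_sub_cancel] at h5
    rw [h5, h1]
  have hu : ∀ a, ∃ u : (𝓞 F ⧸ w.asIdeal ^ N)ˣ, a ≠ 0 →
      u.val = Ideal.Quotient.mk (w.asIdeal ^ N) (r a) := by
    intro a
    by_cases ha : a = 0
    · exact ⟨1, fun h => absurd ha h⟩
    · obtain ⟨u, hu⟩ := lc_unit w N (hvr a ha)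
      exact ⟨u, fun _ => hu⟩
  choose u hu using hu
  refine ⟨fun a => g ((k a : ZMod 3), QuotientGroup.mk (u a)), ?_⟩
  intro a b ha hb hab
  have h3 := hg hab
  rw [Prod.mk.injEq] at h3
  obtain ⟨h4, h5⟩ := h3
  obtain ⟨y, hy⟩ := QuotientGroup.eq.1 h5
  have hy' : u a * u b ^ 2 = (u a * y ^ 2) ^ 3 := by
    have h6 : y ^ 3 = (u a)⁻¹ * u b := hy
    have h7 : u b = u a * y ^ 3 := by rw [h6, mul_inv_cancel_left]
    rw [h7, mul_pow, mul_pow, ← pow_mul, ← pow_mul, ← mul_assoc, ← pow_succ']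
  obtain ⟨z, hz⟩ := Ideal.Quotient.mk_surjective (u a * y ^ 2).val
  have h6 : r a * r b ^ 2 - z ^ 3 ∈ w.asIdeal ^ N := by
    rw [← Ideal.Quotient.eq_zero_iff_mem, map_sub, map_mul, map_pow, map_pow, hz, ← hu a ha,
      ← hu b hb, ← Units.val_pow_eq_pow_val, ← Units.val_mul, hy', Units.val_pow_eq_pow_val,
      sub_self]
  rw [lc_mem, map_sub, map_mul, map_pow, map_pow] at h6
  set ra := algebraMap (𝓞 F) F (r a) with hra
  set rb := algebraMap (𝓞 F) F (r b) with hrb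
  set zz := algebraMap (𝓞 F) F z with hzz
  obtain ⟨a1, a2⟩ := hkr a ha
  obtain ⟨b1, b2⟩ := hkr b hb
  have hra1 := hvr a ha
  have hrb1 := hvr b hb
  -- the product of the unit parts
  have h7 : v (a * π ^ k a * (b * π ^ k b) ^ 2 - zz ^ 3) ≤ WithZero.exp (-(N : ℤ)) := by
    have e1 : a * π ^ k a * (b * π ^ k b) ^ 2 - zz ^ 3 =
        (ra * rb ^ 2 - zz ^ 3) - (ra - a * π ^ k a) * rb ^ 2 -
          (a * π ^ k a) * ((rb - b * π ^ k b) * (rb + b * π ^ k b)) := by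
      ring
    rw [e1]
    refine (Valuation.map_sub _ _ _).trans (max_le ((Valuation.map_sub _ _ _).trans
      (max_le h6 ?_)) ?_)
    · rw [map_mul, map_pow, hrb1, one_pow, mul_one]
      exact a2
    · rw [map_mul, a1, one_mul, map_mul]
      have h8 : v (rb + b * π ^ k b) ≤ 1 :=
        (Valuation.map_add _ _ _).trans (max_le hrb1.le b1.le)
      calc v (rb - b * π ^ k b) * v (rb + b * π ^ k b) ≤ WithZero.exp (-(N : ℤ)) * 1 :=
            mul_le_mul' b2 h8
        _ = _ := mul_one _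
  have h8 : v zz = 1 := by
    have h9 : v (ra * rb ^ 2) = 1 := by rw [map_mul, map_pow, hra1, hrb1, one_pow, mul_one]
    have h10 : v (ra * rb ^ 2 - zz ^ 3) < v (ra * rb ^ 2) := by
      rw [h9]
      exact h6.trans_lt hNlt
    have h11 : v (zz ^ 3) = 1 := by
      have := Valuation.map_sub_eq_of_lt_left v h10
      rw [sub_sub_cancel] at this
      rw [this, h9]
    rw [map_pow] at h11
    by_contra hne
    have hlt : v zz < 1 := lt_of_le_of_ne (HeightOneSpectrum.valuation_le_one w z) hne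
    exact absurd h11 (pow_lt_one₀ zero_le hlt (by norm_num)).ne
  have hz0 : zz ≠ 0 := by
    intro h
    rw [h, map_zero] at h8
    exact zero_ne_one h8
  have h9v : v (9 : F) = WithZero.exp (-(e : ℤ)) * WithZero.exp (-(e : ℤ)) := by
    rw [show (9 : F) = 3 * 3 by norm_num, map_mul, he2]
  have hx : v ((a * π ^ k a * (b * π ^ k b) ^ 2 - zz ^ 3) / zz ^ 3) < v 9 := by
    rw [map_div₀, map_pow, h8, one_pow, div_one, h9v]
    refine lt_of_le_of_lt h7 ?_
    rw [← WithZero.exp_add, WithZero.exp_lt_exp, hN]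
    push_cast
    omega
  have hloc := LocCb.one_add (v := v) hx
  have e2 : 1 + (a * π ^ k a * (b * π ^ k b) ^ 2 - zz ^ 3) / zz ^ 3 =
      (a * π ^ k a * (b * π ^ k b) ^ 2) * (zz⁻¹) ^ 3 := by
    field_simp
    ring
  rw [e2] at hloc
  have hloc2 := LocCb.of_mul_cube (inv_ne_zero hz0) hloc
  obtain ⟨m, hm⟩ : ∃ m : ℤ, k a + 2 * k b = 3 * m := by
    have h10 : ((k a - k b : ℤ) : ZMod 3) = 0 := by
      push_cast
      rw [h4, sub_self]
    obtain ⟨n, hn⟩ := (ZMod.intCast_zmod_eq_zero_iff_dvd _ 3).1 h10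
    refine ⟨n + k b, ?_⟩
    push_cast at hn
    linarith
  have e3 : a * π ^ k a * (b * π ^ k b) ^ 2 = a * b ^ 2 * (π ^ m) ^ 3 := by
    have h11 : π ^ k a * (π ^ k b) ^ 2 = (π ^ m) ^ 3 := by
      rw [← zpow_natCast (π ^ k b) 2, ← zpow_natCast (π ^ m) 3, ← zpow_mul, ← zpow_mul,
        ← zpow_add₀ hπ0]
      congr 1
      push_cast
      linarith
    linear_combination (a * b ^ 2) * h11
  rw [e3] at hloc2
  exact LocCb.of_mul_cube (zpow_ne_zero _ hπ0) hloc2

end Pool.Agent.Work.MP_787500_nt.P3
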