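import Mathlib
import Pool.Agent.Work.MP_787500_nt.P3.C_Sys
import Pool.Agent.Work.MP_787500_nt.P3.C_Kras
import Pool.Agent.Work.MP_787500_nt.H67_Decomp

/-!
# Module C_PLCB (size M): the valuation at `P` and cube roots

`P` a prime of the ring of all algebraic integers `𝓞 Ω`, `3 ∈ P`; `F` an intermediate field of
`Ω = AlgebraicClosure K` over `K` which is a number field; `pl F P hP` the place of `F` below `P`.
* `exists_val`: for a finite Galois `M` over `K` (inside `Ω`), let `w = pl M P hP`. Every `g ∈ dec P`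
  preserves `w.valuation` on `M`: `g` restricted to `M` is in the stabilizer of `w.asIdeal =
  P.comap ...`, so it preserves the valuation (see `H67_Decomp.lean`, or: `w.valuation M x ≤ 1` and `< 1`
  can be expressed by the ideal; `HeightOneSpectrum` valuations of `x` and `g x` agree because
  `g` maps `w.asIdeal ^ n` onto itself).
* for `F ≤ M` the valuation of `M` at `pl M P hP` restricted to `F` is a power (the ramification index
  `e ≥ 1`) of the valuation of `F` at `pl F P hP` (lemmas on `valuation_comap`, `below`, in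
  `H10_Step.lean`/`H67_ValDiv.lean`, or `IsDedekindDomain.HeightOneSpectrum.valuation_comap`), so
  inequalities between values are preserved: `w_F x < w_F y → w_M x < w_M y`.
* `place_cb`: `z ∈ F`, `LocCb ((pl F P hP).valuation F) z`, so `w_F (z - y ^ 3) < w_F (9 z)` for some
  `y ∈ F`; `t ^ 3 = z`, `g ∈ dec P`, `g z3 = z3`, `g` trivial on `F`. Let `M` be a finite Galois extension of
  `K` in `Ω` containing `F`, `t`, `z3` (normal closure; `FiniteGaloisIntermediateField.adjoin`),
  `w = pl M P hP`, `u = y / t`, `u ^ 3 = y ^ 3 / z = 1 + x`, `w x < w 9`. `krasner` for the restriction of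
  `g` to `M`: `g u = u`, so `g t = t` (`y ≠ 0`: otherwise `w z < w (9 z)`, impossible).
* `approx_cb`: `H` a set of elements of `dec P ⊓ Gp K`; `Y ≠ 0` in `Ω`, `b ∈ F`, `t ^ 3 = b`, all `g ∈ H`
  fix `Y ^ 3` and `F`; for a finite Galois `M` over `K` containing `F`, `Y`, with `w = pl M P hP`:
  `w (b - Y ^ 3) < w (9 Y ^ 3)`. Then `g t / t = g Y / Y` for `g ∈ H`: pass to `M' ⊇ M` containing `t`,
  `z3` and use `krasner` for `u = t / Y`.
-/

set_option autoImplicit false

namespace Pool.Agent.Work.MP_787500_nt.P3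

open IsDedekindDomain NumberField
open Pool.Agent.Work.MP_787500_nt.OddP (AbsGal IsBase)
open scoped Pointwise

universe u

variable {K : Type u} [Field K] [NumberField K]

theorem pl_val_lt (P : Ideal (𝓞 (AlgebraicClosure K))) [P.IsPrime]
    (hP : (3 : 𝓞 (AlgebraicClosure K)) ∈ P) {F M : IntermediateField K (AlgebraicClosure K)}
    [NumberField F] [NumberField M] (hFM : F ≤ M) {x y : F}
    (h : (pl F P hP).valuation F x < (pl F P hP).valuation F y) :
    (pl M P hP).valuation M ⟨x, hFM x.2⟩ < (pl M P hP).valuation M ⟨y, hFM y.2⟩ := by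
  let _ : Algebra F M := (IntermediateField.inclusion hFM).toRingHom.toAlgebra
  obtain ⟨e, he, hev⟩ := exists_valuation_below (K := F) (pl M P hP)
  have hb : below F (pl M P hP) = pl F P hP := by
    apply HeightOneSpectrum.ext
    show ((P.comap (algebraMap (𝓞 M) (𝓞 (AlgebraicClosure K)))).comap
      (algebraMap (𝓞 F) (𝓞 M))) = P.comap (algebraMap (𝓞 F) (𝓞 (AlgebraicClosure K)))
    rw [Ideal.comap_comap]
    rfl
  have hx : (pl M P hP).valuation M ⟨x, hFM x.2⟩ = (pl F P hP).valuation F x ^ e := by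
    rw [← hb, hev x]
    rfl
  have hy : (pl M P hP).valuation M ⟨y, hFM y.2⟩ = (pl F P hP).valuation F y ^ e := by
    rw [← hb, hev y]
    rfl
  rw [hx, hy]
  exact pow_lt_pow_left₀ h zero_le he

theorem pl_val_gal (P : Ideal (𝓞 (AlgebraicClosure K))) [P.IsPrime]
    (hP : (3 : 𝓞 (AlgebraicClosure K)) ∈ P) {M : IntermediateField K (AlgebraicClosure K)}
    [NumberField M] {g : AbsGal K} (hg : g ∈ dec P) (x y : M)
    (hxy : (y : AlgebraicClosure K) = g x) (hM : ∀ z ∈ M, g z ∈ M ∧ g.symm z ∈ M) :
    (pl M P hP).valuation M y = (pl M P hP).valuation M x := by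
  let σ : M ≃+* M :=
    { toFun := fun z => ⟨g z, (hM z z.2).1⟩
      invFun := fun z => ⟨g.symm z, (hM z z.2).2⟩
      left_inv := fun z => Subtype.ext (g.symm_apply_apply z)
      right_inv := fun z => Subtype.ext (g.apply_symm_apply z)
      map_mul' := fun a b => Subtype.ext (map_mul g (a : AlgebraicClosure K) b)
      map_add' := fun a b => Subtype.ext (map_add g (a : AlgebraicClosure K) b) }
  have hg' : g • P = P := hg
  have hc : conjPrime σ (pl M P hP) = pl M P hP := by
    apply HeightOneSpectrum.ext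
    ext z
    rw [mem_conjPrime]
    show algebraMap (𝓞 M) (𝓞 (AlgebraicClosure K)) (RingOfIntegers.mapRingEquiv σ z) ∈ P ↔
      algebraMap (𝓞 M) (𝓞 (AlgebraicClosure K)) z ∈ P
    have h1 : algebraMap (𝓞 M) (𝓞 (AlgebraicClosure K)) (RingOfIntegers.mapRingEquiv σ z) =
        g • algebraMap (𝓞 M) (𝓞 (AlgebraicClosure K)) z := by
      apply RingOfIntegers.ext
      rfl
    rw [h1]
    conv_lhs => rw [← hg']
    rw [Ideal.smul_mem_pointwise_smul_iff]
  have h2 := valuation_conjPrime σ (pl M P hP) x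
  rw [hc] at h2
  rw [h2]
  congr 1
  exact Subtype.ext hxy

private theorem plcb_key (P : Ideal (𝓞 (AlgebraicClosure K))) [P.IsPrime]
    (hP : (3 : 𝓞 (AlgebraicClosure K)) ∈ P) (F : IntermediateField K (AlgebraicClosure K))
    [NumberField F] {a : F}
    (ha : (pl F P hP).valuation F (a - 1) < (pl F P hP).valuation F 9) {u : AlgebraicClosure K}
    (hu : u ^ 3 = (a : AlgebraicClosure K)) {g : AbsGal K} (hg : g ∈ dec P) (hg3 : g ∈ Gp K)
    (hga : g (a : AlgebraicClosure K) = a) : g u = u := by
  have hfF : FiniteDimensional K F := Module.Finite.of_restrictScalars_finite ℚ K F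
  obtain ⟨α, hα⟩ := Field.exists_primitive_element K F
  let L : FiniteGaloisIntermediateField K (AlgebraicClosure K) :=
    FiniteGaloisIntermediateField.adjoin K {(α : AlgebraicClosure K), u, z3 K}
  let M : IntermediateField K (AlgebraicClosure K) := L.toIntermediateField
  have hfd : FiniteDimensional K M := L.finiteDimensional
  have hgal : IsGalois K M := L.isGalois
  have hnf : NumberField M := NumberField.of_module_finite K M
  have hsub : ({(α : AlgebraicClosure K), u, z3 K} : Set (AlgebraicClosure K)) ⊆ M :=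
    FiniteGaloisIntermediateField.subset_adjoin K {(α : AlgebraicClosure K), u, z3 K}
  have hαM : (α : AlgebraicClosure K) ∈ M := hsub (Or.inl rfl)
  have huM : u ∈ M := hsub (Or.inr (Or.inl rfl))
  have hzM : z3 K ∈ M := hsub (Or.inr (Or.inr rfl))
  have hFM : F ≤ M := by
    have h5 : F = IntermediateField.adjoin K {(α : AlgebraicClosure K)} := by
      have := congrArg (IntermediateField.lift) hα
      rw [IntermediateField.lift_adjoin_simple, IntermediateField.lift_top] at this
      exact this.symm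
    rw [h5, IntermediateField.adjoin_simple_le_iff]
    exact hαM
  have hres : ∀ (g : AbsGal K) (z : M), ((AlgEquiv.restrictNormal g M z : M) :
      AlgebraicClosure K) = g z := fun g z => AlgEquiv.restrictNormal_commutes g M z
  have hM : ∀ z ∈ M, g z ∈ M ∧ g.symm z ∈ M := by
    intro z hz
    constructor
    · have := hres g ⟨z, hz⟩
      rw [← show ((AlgEquiv.restrictNormal g M ⟨z, hz⟩ : M) : AlgebraicClosure K) = g z from this]
      exact SetLike.coe_mem _
    · have := hres g.symm ⟨z, hz⟩
      rw [← show ((AlgEquiv.restrictNormal g.symm M ⟨z, hz⟩ : M) : AlgebraicClosure K) =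
        g.symm z from this]
      exact SetLike.coe_mem _
  let σ : M ≃+* M := (AlgEquiv.restrictNormal g M : M ≃ₐ[K] M).toRingEquiv
  have hσ : ∀ z : M, ((σ z : M) : AlgebraicClosure K) = g z := hres g
  have hlt := pl_val_lt P hP hFM ha
  have hkr := krasner (v := (pl M P hP).valuation M) (ζ := (⟨z3 K, hzM⟩ : M))
    (u := (⟨u, huM⟩ : M)) (x := (⟨((a - 1 : F) : AlgebraicClosure K), hFM (a - 1 : F).2⟩ : M))
    (Subtype.ext (z3_spec K)) (Subtype.ext (by
      show u ^ 3 = 1 + ((a : AlgebraicClosure K) - 1)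
      rw [hu]
      ring)) (by
      have h9 : (⟨((9 : F) : AlgebraicClosure K), hFM (9 : F).2⟩ : M) = 9 := Subtype.ext rfl
      rw [h9] at hlt
      exact hlt) (g := σ)
    (fun y => pl_val_gal P hP hg y (σ y) (hσ y) hM) (Subtype.ext (by
      rw [hσ]
      exact hg3)) (Subtype.ext (by
      rw [hσ]
      show g (u ^ 3) = u ^ 3
      rw [hu, hga]))
  have h := congrArg (fun z : M => (z : AlgebraicClosure K)) hkr
  exact (hσ ⟨u, huM⟩).symm.trans h

theorem place_cb (P : Ideal (𝓞 (AlgebraicClosure K))) [P.IsPrime]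
    (hP : (3 : 𝓞 (AlgebraicClosure K)) ∈ P) (F : IntermediateField K (AlgebraicClosure K))
    [NumberField F] {z : F} (hl : LocCb ((pl F P hP).valuation F) z) {t : AlgebraicClosure K}
    (ht : t ^ 3 = (z : AlgebraicClosure K)) {g : AbsGal K} (hg : g ∈ dec P) (hg3 : g ∈ Gp K)
    (hgF : ∀ x : F, g x = x) : g t = t := by
  have hz0 := hl.ne_zero
  obtain ⟨y, hy⟩ := hl
  have hvz : 0 < (pl F P hP).valuation F z := zero_lt_iff.2 ((Valuation.ne_zero_iff _).2 hz0)
  have hz0' : (z : AlgebraicClosure K) ≠ 0 := fun h => hz0 (ZeroMemClass.coe_eq_zero.1 h)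
  have ht0 : t ≠ 0 := by
    rintro rfl
    rw [zero_pow (by norm_num)] at ht
    exact hz0' ht.symm
  have h9 : (pl F P hP).valuation F (9 : F) ≤ 1 := by
    have e9 : algebraMap (𝓞 F) F 9 = 9 := map_ofNat (algebraMap (𝓞 F) F) 9
    rw [← e9]
    exact (pl F P hP).valuation_le_one (K := F) (9 : 𝓞 F)
  have hy0 : y ≠ 0 := by
    rintro rfl
    rw [zero_pow (by norm_num), sub_zero, map_mul] at hy
    have h1 : (pl F P hP).valuation F 9 * (pl F P hP).valuation F z ≤
        1 * (pl F P hP).valuation F z := mul_le_mul' h9 le_rfl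
    rw [one_mul] at h1
    exact absurd hy (not_lt.2 h1)
  have hy0' : (y : AlgebraicClosure K) ≠ 0 := fun h => hy0 (ZeroMemClass.coe_eq_zero.1 h)
  have h1 := plcb_key P hP F (a := y ^ 3 / z) (u := (y : AlgebraicClosure K) / t) (by
    have e : y ^ 3 / z - 1 = -((z - y ^ 3) / z) := by
      field_simp
      ring
    rw [e, Valuation.map_neg, map_div₀, div_lt_iff₀ hvz, ← map_mul]
    exact hy) (by
    rw [div_pow, ht]
    rfl) hg hg3 (hgF _)
  rw [map_div₀, hgF y] at h1
  have hgt0 : g t ≠ 0 := (map_ne_zero g).2 ht0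
  rw [div_eq_div_iff hgt0 ht0] at h1
  exact (mul_left_cancel₀ hy0' h1).symm

theorem approx_cb (P : Ideal (𝓞 (AlgebraicClosure K))) [P.IsPrime]
    (hP : (3 : 𝓞 (AlgebraicClosure K)) ∈ P) (M : IntermediateField K (AlgebraicClosure K))
    [NumberField M] {B b : M} (hB : B ≠ 0)
    (hb : (pl M P hP).valuation M (b - B) < (pl M P hP).valuation M (9 * B))
    {Y t : AlgebraicClosure K} (hY : Y ^ 3 = (B : AlgebraicClosure K))
    (ht : t ^ 3 = (b : AlgebraicClosure K)) {g : AbsGal K} (hg : g ∈ dec P) (hg3 : g ∈ Gp K)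
    (hgB : g (B : AlgebraicClosure K) = B) (hgb : g (b : AlgebraicClosure K) = b) :
    g t * Y = t * g Y := by
  have hvB : 0 < (pl M P hP).valuation M B := zero_lt_iff.2 ((Valuation.ne_zero_iff _).2 hB)
  have hB' : (B : AlgebraicClosure K) ≠ 0 := fun h => hB (ZeroMemClass.coe_eq_zero.1 h)
  have hY0 : Y ≠ 0 := by
    rintro rfl
    rw [zero_pow (by norm_num)] at hY
    exact hB' hY.symm
  have hgY0 : g Y ≠ 0 := (map_ne_zero g).2 hY0
  have h1 := plcb_key P hP M (a := b / B) (u := t / Y) (by
    have e : b / B - 1 = (b - B) / B := by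
      field_simp
    rw [e, map_div₀, div_lt_iff₀ hvB, ← map_mul]
    exact hb) (by
    rw [div_pow, ht, hY]
    rfl) hg hg3 (by
    show g ((b : AlgebraicClosure K) / B) = (b : AlgebraicClosure K) / B
    rw [map_div₀, hgb, hgB])
  rw [map_div₀, div_eq_div_iff hgY0 hY0] at h1
  exact h1

end Pool.Agent.Work.MP_787500_nt.P3
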