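import Mathlib
import Pool.Agent.Work.MP_787500_nt.P3.C_SU

/-!
# Module C_RANK (size L): independent units away from 3 modulo cubes

(Port of `PA/SunitRank.lean`.) `F` totally complex of degree `2 m`, containing a primitive cube root of
unity, two different places above 3. Let `A` be the subgroup `{x | SU x}` of `Fˣ`.
(1) `A` is finitely generated: the map `A → Π_(v above 3) ℤ`, `x ↦ (valuation exponents of x)`, has
    kernel the units of `𝓞 F` (`su_iff`), finitely generated (Dirichlet, in Mathlib), and the image is a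
    subgroup of a finitely generated free group (finitely many `v` contain 3).
(2) the rank of `A` is at least `(m - 1) + 2 = m + 1`: the rank of the units is
    `NumberField.Units.rank F = card (InfinitePlace F) - 1 = m - 1` (totally complex); for the two
    places `v₁, v₂` above 3, with `h` the class number, `v_i ^ h = (π_i)` is principal, `π_i` lies in
    `A`, so the image has rank at least 2. Rank is additive.
(3) for a finitely generated commutative group `A` of rank `r`: `A = ℤ ^ r × T`, `T` finite, and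
    `(A : A ^ 3) = 3 ^ r * card (T / T ^ 3) = 3 ^ r * card {t ∈ A | t ^ 3 = 1}`. (`index_dbl_eq` in
    `H10_Rank.lean` is this for doubling.) The last set contains the three cube roots of unity, so
    `(A : A ^ 3) ≥ 3 ^ (m + 2)`.
(4) `A / A ^ 3` is a finite vector space over `ZMod 3` of dimension at least `m + 2`; take `m + 2`
    linearly independent elements and lift them to `a i`. If `∏ a i ^ n i = y ^ 3` in `F` then `y` is in
    `A` (`SU.of_pow`), so the class is trivial and `n = 0`.
-/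

set_option autoImplicit false

namespace Pool.Agent.Work.MP_787500_nt.P3

open IsDedekindDomain NumberField

namespace SunitRank

/-- tripling -/
abbrev tpl (G : Type*) [AddCommGroup G] : G →+ G := nsmulAddMonoidHom 3

theorem tpl_range_map {G H : Type*} [AddCommGroup G] [AddCommGroup H] (e : G ≃+ H) :
    (tpl G).range.map (e : G →+ H) = (tpl H).range := by
  ext y
  simp only [AddSubgroup.mem_map, AddMonoidHom.mem_range, exists_exists_eq_and]
  constructor
  · rintro ⟨x, rfl⟩
    exact ⟨e x, by simp⟩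
  · rintro ⟨x, rfl⟩
    exact ⟨e.symm x, by simp⟩

theorem index_tpl_congr {G H : Type*} [AddCommGroup G] [AddCommGroup H] (e : G ≃+ H) :
    (tpl G).range.index = (tpl H).range.index := by
  rw [← tpl_range_map e, AddSubgroup.index_map_equiv]

theorem index_tpl_prod (G H : Type*) [AddCommGroup G] [AddCommGroup H] :
    (tpl (G × H)).range.index = (tpl G).range.index * (tpl H).range.index := by
  rw [← AddSubgroup.index_prod]
  congr 1
  ext ⟨x, y⟩
  simp only [AddMonoidHom.mem_range, AddSubgroup.mem_prod]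
  constructor
  · rintro ⟨⟨a, b⟩, h⟩
    simp only [nsmulAddMonoidHom_apply, Prod.smul_mk, Prod.mk.injEq] at h
    exact ⟨⟨a, h.1⟩, ⟨b, h.2⟩⟩
  · rintro ⟨⟨a, ha⟩, ⟨b, hb⟩⟩
    exact ⟨(a, b), Prod.ext ha hb⟩

theorem index_tpl_int_pow (n : ℕ) : (tpl (Fin n → ℤ)).range.index = 3 ^ n := by
  have h : (tpl (Fin n → ℤ)).range = AddSubgroup.pi Set.univ (fun _ : Fin n => (tpl ℤ).range) := by
    ext x
    simp only [AddMonoidHom.mem_range, AddSubgroup.mem_pi, Set.mem_univ, forall_true_left]
    constructor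
    · rintro ⟨a, rfl⟩ i
      exact ⟨a i, rfl⟩
    · intro h
      choose a ha using h
      exact ⟨a, funext ha⟩
  rw [h, AddSubgroup.index_pi, Finset.prod_const, Finset.card_univ, Fintype.card_fin]
  congr 1
  have : (tpl ℤ).range = AddSubgroup.zmultiples 3 := by
    ext x
    simp only [AddMonoidHom.mem_range, AddSubgroup.mem_zmultiples_iff]
    constructor
    · rintro ⟨a, rfl⟩; exact ⟨a, by simp [mul_comm]⟩
    · rintro ⟨a, rfl⟩; exact ⟨a, by simp [mul_comm]⟩
  rw [this, Int.index_zmultiples]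
  rfl

theorem card_ker_congr {G H : Type*} [AddCommGroup G] [AddCommGroup H] (e : G ≃+ H) :
    Nat.card (tpl G).ker = Nat.card (tpl H).ker := by
  refine Nat.card_congr ⟨fun x => ⟨e x.1, ?_⟩, fun x => ⟨e.symm x.1, ?_⟩, ?_, ?_⟩
  · have := x.2
    rw [AddMonoidHom.mem_ker] at this ⊢
    simp only [nsmulAddMonoidHom_apply] at this ⊢
    rw [← map_nsmul, this, map_zero]
  · have := x.2
    rw [AddMonoidHom.mem_ker] at this ⊢
    simp only [nsmulAddMonoidHom_apply] at this ⊢
    rw [← map_nsmul, this, map_zero]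
  · intro x; simp
  · intro x; simp

theorem index_tpl_eq (G : Type*) [AddCommGroup G] [AddGroup.FG G] :
    (tpl G).range.index = 3 ^ Module.finrank ℤ G * Nat.card (tpl G).ker := by
  obtain ⟨n, ι, _, p, hp, e, ⟨f⟩⟩ := AddCommGroup.equiv_free_prod_directSum_zmod G
  have : ∀ i, NeZero (p i ^ e i) := fun i => ⟨pow_ne_zero _ (hp i).ne_zero⟩
  set T := DirectSum ι (fun i => ZMod (p i ^ e i)) with hT
  have hfin : Finite T := Finite.of_equiv _ DFinsupp.equivFunOnFintype.symm
  let g : G ≃+ (Fin n → ℤ) × T :=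
    f.trans (AddEquiv.prodCongr (Finsupp.linearEquivFunOnFinite ℤ ℤ (Fin n)).toAddEquiv
      (AddEquiv.refl T))
  have h1 : (tpl G).range.index = 3 ^ n * Nat.card (tpl T).ker := by
    rw [index_tpl_congr g, index_tpl_prod, index_tpl_int_pow, AddSubgroup.index_range]
  have h2 : Nat.card (tpl G).ker = Nat.card (tpl T).ker := by
    rw [card_ker_congr g]
    refine Nat.card_congr ⟨fun x => ⟨x.1.2, ?_⟩, fun x => ⟨(0, x.1), ?_⟩, ?_, ?_⟩
    · have := x.2
      rw [AddMonoidHom.mem_ker] at this ⊢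
      exact congrArg Prod.snd this
    · have := x.2
      rw [AddMonoidHom.mem_ker] at this ⊢
      refine Prod.ext ?_ this
      simp
    · rintro ⟨⟨a, b⟩, hx⟩
      rw [AddMonoidHom.mem_ker] at hx
      have ha : (3 : ℕ) • a = 0 := congrArg Prod.fst hx
      have : a = 0 := by
        funext i
        have := congrFun ha i
        simpa using this
      simp [this]
    · rintro ⟨b, hb⟩
      rfl
  have h3 : Module.finrank ℤ G = n := by
    have hf : Module.Finite ℤ G := Module.Finite.iff_addGroup_fg.mpr inferInstance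
    let φ : G →ₗ[ℤ] (Fin n → ℤ) := (LinearMap.fst ℤ (Fin n → ℤ) T).comp g.toAddMonoidHom.toIntLinearMap
    have hsurj : Function.Surjective φ := by
      intro y
      exact ⟨g.symm (y, 0), by simp [φ]⟩
    have hk : Module.finrank ℤ (LinearMap.ker φ) = 0 := by
      rw [Module.finrank_eq_zero_iff_isTorsion]
      rintro ⟨x, hx⟩
      obtain ⟨m, hm, hmx⟩ : ∃ m : ℕ, m ≠ 0 ∧ m • (g x).2 = 0 := by
        refine ⟨addOrderOf (g x).2, ?_, addOrderOf_nsmul_eq_zero _⟩
        exact (isOfFinAddOrder_of_finite (g x).2).addOrderOf_pos.ne'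
      refine ⟨⟨(m : ℤ), by simpa using hm⟩, ?_⟩
      have : m • x = 0 := by
        apply g.injective
        rw [map_nsmul, map_zero]
        refine Prod.ext ?_ hmx
        have : (g x).1 = 0 := hx
        show m • (g x).1 = 0
        rw [this, smul_zero]
      apply Subtype.ext
      show ((⟨(m : ℤ), _⟩ : nonZeroDivisors ℤ) : ℤ) • x = 0
      simpa using this
    have := (LinearMap.ker φ).finrank_quotient_add_finrank
    rw [hk, add_zero, (φ.quotKerEquivOfSurjective hsurj).finrank_eq] at this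
    rw [← this]
    simp
  rw [h1, h2, h3]


/-- elements of a finitely generated group that are independent modulo triples -/
theorem exists_indep (G : Type*) [AddCommGroup G] (n : ℕ) (h : 3 ^ n ≤ (tpl G).range.index) :
    ∃ a : Fin n → G, ∀ c : Fin n → ZMod 3, (∃ y, ∑ i, (c i).val • a i = 3 • y) → c = 0 := by
  classical
  have hp3 : Fact (Nat.Prime 3) := ⟨Nat.prime_three⟩
  set Q := G ⧸ (tpl G).range with hQ
  have h0 : (tpl G).range.index ≠ 0 := by
    have : 0 < 3 ^ n := by positivity
    omega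
  have hfin : Finite Q := (AddSubgroup.finiteIndex_iff_finite_quotient).1 ⟨h0⟩
  have h2 : ∀ x : Q, (3 : ℕ) • x = 0 := by
    intro x
    obtain ⟨g, rfl⟩ := QuotientAddGroup.mk_surjective x
    have : ((3 • g : G) : Q) = 0 := (QuotientAddGroup.eq_zero_iff _).2 ⟨g, rfl⟩
    simpa using this
  let _ : Module (ZMod 3) Q := AddCommGroup.zmodModule h2
  have hfd : Module.Finite (ZMod 3) Q := Module.Finite.of_finite
  have hcard : Nat.card Q = 3 ^ Module.finrank (ZMod 3) Q := by
    have := Module.natCard_eq_pow_finrank (K := ZMod 3) (V := Q)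
    simpa using this
  have hn : n ≤ Module.finrank (ZMod 3) Q := by
    have : 3 ^ n ≤ 3 ^ Module.finrank (ZMod 3) Q := by
      rw [← hcard]; exact h
    exact (Nat.pow_le_pow_iff_right (by norm_num)).1 this
  let b := Module.finBasis (ZMod 3) Q
  have hs : ∀ i : Fin n, ∃ g : G, (g : Q) = b (Fin.castLE hn i) := fun i =>
    QuotientAddGroup.mk_surjective _
  choose a ha using hs
  refine ⟨a, fun c ⟨y, hy⟩ => ?_⟩
  have h3 : ∑ i, c i • b (Fin.castLE hn i) = 0 := by
    have h5 : ((∑ i, (c i).val • a i : G) : Q) = 0 := by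
      rw [hy]; exact (QuotientAddGroup.eq_zero_iff _).2 ⟨y, rfl⟩
    have h4 : ((∑ i, (c i).val • a i : G) : Q) = ∑ i, (((c i).val • a i : G) : Q) :=
      map_sum (QuotientAddGroup.mk' (tpl G).range) _ _
    rw [h4] at h5
    rw [← h5]
    refine Finset.sum_congr rfl fun i _ => ?_
    have h6 : (((c i).val • a i : G) : Q) = (c i).val • (a i : Q) :=
      map_nsmul (QuotientAddGroup.mk' (tpl G).range) _ _
    rw [h6, ha]
    nth_rw 1 [← ZMod.natCast_zmod_val (c i)]
    rw [Nat.cast_smul_eq_nsmul]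
  have hli : LinearIndependent (ZMod 3) (fun i : Fin n => b (Fin.castLE hn i)) :=
    b.linearIndependent.comp _ (Fin.castLE_injective hn)
  rw [Fintype.linearIndependent_iff] at hli
  funext i
  exact hli c h3 i

theorem exists_units {F : Type*} [Field F] [NumberField F] [IsTotallyComplex F] {m : ℕ}
    (hm : Module.finrank ℚ F = 2 * m) (hm0 : 0 < m) (hζ : ∃ z : F, z ^ 2 + z + 1 = 0) :
    ∃ a : Fin m → (𝓞 F)ˣ, ∀ c : Fin m → ZMod 3,
      (∃ y : (𝓞 F)ˣ, ∏ i, a i ^ (c i).val = y ^ 3) → c = 0 := by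
  have h1 : Module.finrank ℤ (Additive (𝓞 F)ˣ) = m - 1 := by
    rw [NumberField.Units.finrank_eq, NumberField.Units.rank,
      NumberField.InfinitePlace.card_eq_nrRealPlaces_add_nrComplexPlaces,
      NumberField.IsTotallyComplex.nrRealPlaces_eq_zero]
    have := NumberField.IsTotallyComplex.finrank F
    omega
  -- a primitive cube root of unity in the ring of integers
  obtain ⟨z, hz⟩ := hζ
  have hz3 : z ^ 3 = 1 := by linear_combination (z - 1) * hz
  have hzint : IsIntegral ℤ z := by
    refine ⟨Polynomial.X ^ 3 - 1, ?_, ?_⟩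
    · exact Polynomial.monic_X_pow_sub_C (1 : ℤ) (by norm_num)
    · simp [hz3]
  obtain ⟨Z, hZz⟩ : ∃ Z : 𝓞 F, algebraMap (𝓞 F) F Z = z := ⟨⟨z, hzint⟩, rfl⟩
  have hZ : Z ^ 2 + Z + 1 = 0 := by
    apply FaithfulSMul.algebraMap_injective (𝓞 F) F
    rw [map_add, map_add, map_pow, hZz, map_one, map_zero]
    exact hz
  have hZ3 : Z ^ 3 = 1 := by linear_combination (Z - 1) * hZ
  let U : (𝓞 F)ˣ := ⟨Z, Z ^ 2, by rw [← hZ3]; ring, by rw [← hZ3]; ring⟩
  have hU3 : U ^ 3 = 1 := Units.ext hZ3
  have hU1 : U ≠ 1 := by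
    intro h
    have h2 : Z = 1 := congrArg Units.val h
    rw [h2] at hZ
    norm_num at hZ
  have hker : 3 ≤ Nat.card (tpl (Additive (𝓞 F)ˣ)).ker := by
    have hf : Finite (tpl (Additive (𝓞 F)ˣ)).ker := by
      refine Finite.of_injective (β := ({1, U, U ^ 2} : Set (𝓞 F)ˣ)) (fun x => ⟨x.1.toMul, ?_⟩) ?_
      · have hx := x.2
        rw [AddMonoidHom.mem_ker] at hx
        have : (x.1.toMul) ^ 3 = 1 := hx
        have h2 : ((x.1.toMul : (𝓞 F)ˣ) : 𝓞 F) ^ 3 = 1 := by
          rw [← Units.val_pow_eq_pow_val, this, Units.val_one]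
        set X : 𝓞 F := ((x.1.toMul : (𝓞 F)ˣ) : 𝓞 F) with hX
        have h3 : (X - 1) * ((X - Z) * (X - Z ^ 2)) = 0 := by
          linear_combination h2 - hZ * X ^ 2 + hZ3 * (X - 1) + hZ * X
        rcases mul_eq_zero.1 h3 with h | h
        · left; exact Units.ext (sub_eq_zero.1 h)
        · rcases mul_eq_zero.1 h with h | h
          · right; left; exact Units.ext (sub_eq_zero.1 h)
          · right; right; exact Units.ext (sub_eq_zero.1 h)
      · intro x y hxy
        apply Subtype.ext
        have := congrArg Subtype.val hxy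
        exact this
    let u : (tpl (Additive (𝓞 F)ˣ)).ker := ⟨Additive.ofMul U, by
      rw [AddMonoidHom.mem_ker]
      exact hU3⟩
    have hu3 : (3 : ℕ) • u = 0 := Subtype.ext hU3
    have hu0 : u ≠ 0 := by
      intro h
      exact hU1 (congrArg (fun x => (x.1.toMul : (𝓞 F)ˣ)) h)
    have hp3 : Fact (Nat.Prime 3) := ⟨Nat.prime_three⟩
    have ho : addOrderOf u = 3 := addOrderOf_eq_prime hu3 hu0
    have hd : 3 ∣ Nat.card (tpl (Additive (𝓞 F)ˣ)).ker := by
      rw [← ho]
      exact addOrderOf_dvd_natCard u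
    exact Nat.le_of_dvd Nat.card_pos hd
  have hfg : AddGroup.FG (Additive (𝓞 F)ˣ) := Module.Finite.iff_addGroup_fg.1 inferInstance
  have hidx : 3 ^ m ≤ (tpl (Additive (𝓞 F)ˣ)).range.index := by
    rw [index_tpl_eq, h1]
    calc 3 ^ m = 3 ^ (m - 1) * 3 := by
          rw [← pow_succ]; congr 1; omega
      _ ≤ _ := Nat.mul_le_mul_left _ hker
  obtain ⟨a, ha⟩ := exists_indep _ m hidx
  refine ⟨fun i => (a i).toMul, fun c ⟨y, hy⟩ => ha c ⟨Additive.ofMul y, ?_⟩⟩
  apply Additive.toMul.injective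
  rw [toMul_sum]
  exact hy

/-- exponent of the valuation -/
noncomputable def o {F : Type*} [Field F] [NumberField F] (w : HeightOneSpectrum (𝓞 F)) (x : Fˣ) : ℤ :=
  Multiplicative.toAdd (w.valuationOfNeZero (K := F) x)

theorem o_mul {F : Type*} [Field F] [NumberField F] (w : HeightOneSpectrum (𝓞 F)) (x y : Fˣ) :
    o w (x * y) = o w x + o w y := by
  simp [o]

theorem o_one {F : Type*} [Field F] [NumberField F] (w : HeightOneSpectrum (𝓞 F)) : o w (1 : Fˣ) = 0 := by
  simp [o]

theorem o_pow {F : Type*} [Field F] [NumberField F] (w : HeightOneSpectrum (𝓞 F)) (x : Fˣ) (n : ℤ) :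
    o w (x ^ n) = n * o w x := by
  simp [o]

theorem o_prod {F : Type*} [Field F] [NumberField F] (w : HeightOneSpectrum (𝓞 F)) {ι : Type*} (T : Finset ι)
    (f : ι → Fˣ) : o w (∏ i ∈ T, f i) = ∑ i ∈ T, o w (f i) := by
  classical
  induction T using Finset.induction_on with
  | empty => simp [o_one]
  | insert a T ha ih => rw [Finset.prod_insert ha, Finset.sum_insert ha, o_mul, ih]

theorem o_eq_zero {F : Type*} [Field F] [NumberField F] (w : HeightOneSpectrum (𝓞 F)) (x : Fˣ) :
    o w x = 0 ↔ w.valuation F (x : F) = 1 := by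
  rw [← HeightOneSpectrum.valuationOfNeZero_eq]
  unfold o
  constructor
  · intro h
    have : w.valuationOfNeZero (K := F) x = 1 := h
    rw [this]; rfl
  · intro h
    have : w.valuationOfNeZero (K := F) x = 1 := WithZero.coe_inj.1 h
    rw [this]; rfl

theorem SU_zpow {Ω : Type*} [Field Ω] [CharZero Ω] {x : Ω} (hx : SU x) (n : ℤ) : SU (x ^ n) := by
  rcases Int.eq_nat_or_neg n with ⟨k, rfl | rfl⟩
  · rw [zpow_natCast]; exact hx.pow k
  · rw [zpow_neg, zpow_natCast]; exact (hx.pow k).inv

theorem SU_one {Ω : Type*} [Field Ω] [CharZero Ω] : SU (1 : Ω) := SU.of_root (n := 1) one_ne_zero (by simp)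

/-- the exponents of units away from 2 at two places -/
noncomputable def B {F : Type*} [Field F] [NumberField F] (w w' : HeightOneSpectrum (𝓞 F)) :
    Submodule ℤ (ℤ × ℤ) where
  carrier := {z | ∃ x : Fˣ, SU (x : F) ∧ o w x = z.1 ∧ o w' x = z.2}
  add_mem' := by
    rintro a b ⟨x, hx, h1, h2⟩ ⟨y, hy, h3, h4⟩
    refine ⟨x * y, by rw [Units.val_mul]; exact hx.mul hy, ?_, ?_⟩
    · rw [o_mul, h1, h3]; rfl
    · rw [o_mul, h2, h4]; rfl
  zero_mem' := ⟨1, by rw [Units.val_one]; exact SU_one, by rw [o_one]; rfl, by rw [o_one]; rfl⟩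
  smul_mem' := by
    rintro c a ⟨x, hx, h1, h2⟩
    refine ⟨x ^ c, by rw [Units.val_zpow_eq_zpow_val]; exact SU_zpow hx c, ?_, ?_⟩
    · rw [o_pow, h1]; rfl
    · rw [o_pow, h2]; rfl

/-- an integer whose only prime is `w` -/
theorem exists_gen {F : Type*} [Field F] [NumberField F] {w : HeightOneSpectrum (𝓞 F)}
    (hw : (3 : 𝓞 F) ∈ w.asIdeal) :
    ∃ x : Fˣ, SU (x : F) ∧ o w x ≠ 0 ∧ ∀ w' : HeightOneSpectrum (𝓞 F), w' ≠ w → o w' x = 0 := by
  classical
  let I : nonZeroDivisors (Ideal (𝓞 F)) := ⟨w.asIdeal, mem_nonZeroDivisors_of_ne_zero w.ne_bot⟩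
  set h := Nat.card (ClassGroup (𝓞 F)) with hh
  have hpos : 0 < h := Nat.card_pos
  have h1 : ClassGroup.mk0 (I ^ h) = 1 := by
    rw [map_pow]; exact pow_card_eq_one'
  have h2 : (w.asIdeal ^ h).IsPrincipal := by
    have := (ClassGroup.mk0_eq_one_iff (I ^ h).2).1 h1
    simpa [I] using this
  obtain ⟨g, hg⟩ := h2.principal
  have hg' : w.asIdeal ^ h = Ideal.span {g} := hg
  have hg0 : g ≠ 0 := by
    rintro rfl
    rw [Ideal.span_singleton_zero] at hg'
    exact pow_ne_zero h w.ne_bot hg'
  have hgF : algebraMap (𝓞 F) F g ≠ 0 := by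
    intro h0
    exact hg0 ((FaithfulSMul.algebraMap_injective (𝓞 F) F) (by rw [h0, map_zero]))
  have hgw : g ∈ w.asIdeal := by
    have : g ∈ w.asIdeal ^ h := by rw [hg']; exact Ideal.mem_span_singleton_self g
    exact Ideal.pow_le_self hpos.ne' this
  have hother : ∀ w' : HeightOneSpectrum (𝓞 F), w' ≠ w → w'.valuation F (algebraMap (𝓞 F) F g) = 1 := by
    intro w' hne
    refine le_antisymm (w'.valuation_le_one g) (not_lt.1 fun hlt => hne ?_)
    rw [HeightOneSpectrum.valuation_lt_one_iff_mem] at hlt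
    have hle : w.asIdeal ≤ w'.asIdeal := by
      have : w.asIdeal ^ h ≤ w'.asIdeal := by
        rw [hg', Ideal.span_singleton_le_iff_mem]; exact hlt
      exact w'.isPrime.le_of_pow_le this
    have := w.isMaximal.eq_of_le w'.isPrime.ne_top hle
    exact HeightOneSpectrum.ext this.symm
  refine ⟨Units.mk0 _ hgF, ?_, ?_, fun w' hne => ?_⟩
  · rw [su_iff]
    refine ⟨hgF, fun v hv => ?_⟩
    exact hother v (by rintro rfl; exact hv hw)
  · rw [Ne, o_eq_zero]
    intro h0
    have : w.valuation F (algebraMap (𝓞 F) F g) < 1 := (HeightOneSpectrum.valuation_lt_one_iff_mem _ _).2 hgw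
    exact this.ne h0
  · rw [o_eq_zero]
    exact hother w' hne

theorem B_index {F : Type*} [Field F] [NumberField F] {w w' : HeightOneSpectrum (𝓞 F)}
    (hw : (3 : 𝓞 F) ∈ w.asIdeal) (hw' : (3 : 𝓞 F) ∈ w'.asIdeal) (hne : w ≠ w') :
    3 ^ 2 ≤ (tpl (B w w')).range.index := by
  obtain ⟨x, hx, h1, h2⟩ := exists_gen hw
  obtain ⟨y, hy, h3, h4⟩ := exists_gen hw'
  have hfin : Module.Finite ℤ (B w w') := inferInstance
  have hfg : AddGroup.FG (B w w') := Module.Finite.iff_addGroup_fg.1 hfin
  let bx : B w w' := ⟨(o w x, o w' x), x, hx, rfl, rfl⟩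
  let byy : B w w' := ⟨(o w y, o w' y), y, hy, rfl, rfl⟩
  have hli : LinearIndependent ℤ ![bx, byy] := by
    rw [LinearIndependent.pair_iff]
    intro s t hst
    have e := congrArg Subtype.val hst
    have e1 : s * o w x + t * o w y = 0 := congrArg Prod.fst e
    have e2 : s * o w' x + t * o w' y = 0 := congrArg Prod.snd e
    rw [h2 w' hne.symm] at e2
    rw [h4 w hne] at e1
    simp only [mul_zero, add_zero, zero_add, mul_eq_zero] at e1 e2
    exact ⟨e1.resolve_right h1, e2.resolve_right h3⟩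
  have hrank : 2 ≤ Module.finrank ℤ (B w w') := by
    have := hli.fintype_card_le_finrank
    simpa using this
  rw [index_tpl_eq]
  have hk : 1 ≤ Nat.card (tpl (B w w')).ker := by
    have : Subsingleton (tpl (B w w')).ker := by
      refine ⟨fun a b => ?_⟩
      have key : ∀ a : (tpl (B w w')).ker, a = 0 := by
        rintro ⟨a, ha⟩
        rw [AddMonoidHom.mem_ker] at ha
        have h5 : (3 : ℕ) • a = 0 := ha
        have h6 : (3 : ℕ) • (a : ℤ × ℤ) = 0 := by
          have := congrArg Subtype.val h5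
          simpa using this
        have h7 : (a : ℤ × ℤ) = 0 := by
          refine Prod.ext ?_ ?_
          · have := congrArg Prod.fst h6; simpa using this
          · have := congrArg Prod.snd h6; simpa using this
        exact Subtype.ext (Subtype.ext h7)
      rw [key a, key b]
    rw [Nat.card_eq_one_iff_unique.2 ⟨this, ⟨0⟩⟩]
  calc 3 ^ 2 ≤ 3 ^ Module.finrank ℤ (B w w') := Nat.pow_le_pow_right (by norm_num) hrank
    _ = 3 ^ Module.finrank ℤ (B w w') * 1 := (mul_one _).symm
    _ ≤ _ := Nat.mul_le_mul_left _ hk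

end SunitRank

theorem exists_sunits {F : Type*} [Field F] [NumberField F] [IsTotallyComplex F] {m : ℕ}
    (hm : Module.finrank ℚ F = 2 * m) {w w' : HeightOneSpectrum (𝓞 F)}
    (hw : (3 : 𝓞 F) ∈ w.asIdeal) (hw' : (3 : 𝓞 F) ∈ w'.asIdeal) (hne : w ≠ w')
    (hζ : ∃ z : F, z ^ 2 + z + 1 = 0) :
    ∃ a : Fin (m + 2) → F, (∀ i, SU (a i)) ∧
      ∀ n : Fin (m + 2) → ZMod 3, (∃ y : F, ∏ i, a i ^ (n i).val = y ^ 3) → n = 0 := by
  classical
  have hm0 : 0 < m := by
    have := Module.finrank_pos (R := ℚ) (M := F)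
    omega
  obtain ⟨e, he⟩ := SunitRank.exists_units hm hm0 hζ
  obtain ⟨b, hb⟩ := SunitRank.exists_indep (SunitRank.B w w') 2 (SunitRank.B_index hw hw' hne)
  choose z hz1 hz2 hz3 using fun i => (b i).2
  have hunit : ∀ u : (𝓞 F)ˣ, SU ((u : 𝓞 F) : F) := by
    intro u
    refine ⟨by simp, ⟨0, ?_⟩, ⟨0, ?_⟩⟩
    · rw [pow_zero, one_mul]
      exact RingOfIntegers.isIntegral_coe _
    · rw [pow_zero, one_mul]
      have : (((u : 𝓞 F) : F))⁻¹ = ((u⁻¹ : (𝓞 F)ˣ) : 𝓞 F) := by
        refine inv_eq_of_mul_eq_one_right ?_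
        have := congrArg (algebraMap (𝓞 F) F) (Units.mul_inv u)
        rw [map_mul, map_one] at this
        exact this
      rw [this]
      exact RingOfIntegers.isIntegral_coe _
  let f : Fin m ⊕ Fin 2 → Fˣ := Sum.elim (fun i => Units.map (algebraMap (𝓞 F) F : 𝓞 F →* F) (e i)) z
  have hfSU : ∀ i, SU (f i : F) := by
    rintro (i | i)
    · exact hunit (e i)
    · exact hz1 i
  have key : ∀ c : Fin m ⊕ Fin 2 → ZMod 3, ∀ y : F, ∏ i, (f i : F) ^ (c i).val = y ^ 3 → c = 0 := by
    intro c y hy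
    have hy0 : y ≠ 0 := by
      rintro rfl
      rw [zero_pow (by norm_num), Finset.prod_eq_zero_iff] at hy
      obtain ⟨i, _, hi⟩ := hy
      exact pow_ne_zero _ (f i).ne_zero hi
    have hySU : SU y := by
      refine SU.of_pow (n := 3) (by norm_num) ?_
      rw [← hy]
      exact SU.prod _ _ fun i _ => (hfSU i).pow _
    set yu : Fˣ := Units.mk0 y hy0 with hyu
    have hprod : ∏ i, f i ^ (c i).val = yu ^ 3 := by
      apply Units.ext
      rw [Units.coe_prod, Units.val_pow_eq_pow_val]
      simp only [Units.val_pow_eq_pow_val]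
      rw [hy]
      rfl
    rw [Fintype.prod_sum_type] at hprod
    have hou : ∀ (v : HeightOneSpectrum (𝓞 F)) (i : Fin m), SunitRank.o v (f (Sum.inl i)) = 0 := by
      intro v i
      unfold SunitRank.o
      have : v.valuationOfNeZero (K := F) (f (Sum.inl i)) = 1 := v.valuation_of_unit_eq (e i)
      rw [this]; rfl
    have hopn : ∀ (v : HeightOneSpectrum (𝓞 F)) (x : Fˣ) (n : ℕ),
        SunitRank.o v (x ^ n) = n * SunitRank.o v x := by
      intro v x n
      have := SunitRank.o_pow v x (n : ℤ)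
      rwa [zpow_natCast] at this
    have hT2 : (fun i => c (Sum.inr i)) = 0 := by
      refine hb _ ⟨⟨(SunitRank.o w yu, SunitRank.o w' yu), yu, hySU, rfl, rfl⟩, ?_⟩
      have h1 : ∀ v : HeightOneSpectrum (𝓞 F),
          ∑ i, ((c (Sum.inr i)).val : ℤ) * SunitRank.o v (z i) = 3 * SunitRank.o v yu := by
        intro v
        have := congrArg (SunitRank.o v) hprod
        rw [SunitRank.o_mul, SunitRank.o_prod, SunitRank.o_prod, hopn] at this
        simp only [hopn, hou, mul_zero, Finset.sum_const_zero, zero_add] at this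
        exact_mod_cast this
      apply Subtype.ext
      rw [AddSubmonoidClass.coe_finsetSum]
      refine Prod.ext ?_ ?_
      · rw [Prod.fst_sum]
        have := h1 w
        simp only [hz2] at this
        rw [show (((3 : ℕ) • (⟨(SunitRank.o w yu, SunitRank.o w' yu), yu, hySU, rfl, rfl⟩ :
          SunitRank.B w w') : SunitRank.B w w') : ℤ × ℤ).1 = 3 * SunitRank.o w yu by simp, ← this]
        refine Finset.sum_congr rfl fun i _ => ?_
        simp
      · rw [Prod.snd_sum]
        have := h1 w'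
        simp only [hz3] at this
        rw [show (((3 : ℕ) • (⟨(SunitRank.o w yu, SunitRank.o w' yu), yu, hySU, rfl, rfl⟩ :
          SunitRank.B w w') : SunitRank.B w w') : ℤ × ℤ).2 = 3 * SunitRank.o w' yu by simp, ← this]
        refine Finset.sum_congr rfl fun i _ => ?_
        simp
    have hT2' : ∀ i, c (Sum.inr i) = 0 := fun i => congrFun hT2 i
    have hT1 : (fun i => c (Sum.inl i)) = 0 := by
      have hpr : ∏ i, f (Sum.inr i) ^ (c (Sum.inr i)).val = 1 := by
        refine Finset.prod_eq_one fun i _ => ?_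
        rw [hT2' i]
        exact pow_zero _
      rw [hpr, mul_one] at hprod
      have hsq : algebraMap (𝓞 F) F (∏ i, ((e i : (𝓞 F)ˣ) : 𝓞 F) ^ (c (Sum.inl i)).val) = y ^ 3 := by
        have := congrArg (Units.val) hprod
        have h9 : ∀ i, (f (Sum.inl i) : F) = algebraMap (𝓞 F) F (e i) := fun i => rfl
        rw [Units.coe_prod] at this
        simp only [Units.val_pow_eq_pow_val, h9] at this
        rw [map_prod]
        simp only [map_pow]
        exact this
      have hyint : IsIntegral ℤ y := by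
        refine IsIntegral.of_pow (n := 3) (by norm_num) ?_
        rw [← hsq]
        exact RingOfIntegers.isIntegral_coe _
      obtain ⟨y', hy'⟩ : ∃ y' : 𝓞 F, algebraMap (𝓞 F) F y' = y := ⟨⟨y, hyint⟩, rfl⟩
      have hsq' : ∏ i, ((e i : (𝓞 F)ˣ) : 𝓞 F) ^ (c (Sum.inl i)).val = y' ^ 3 := by
        apply FaithfulSMul.algebraMap_injective (𝓞 F) F
        rw [hsq, map_pow, hy']
      have hprodu : ((∏ i, e i ^ (c (Sum.inl i)).val : (𝓞 F)ˣ) : 𝓞 F) = y' ^ 3 := by
        rw [← hsq', Units.coe_prod]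
        simp
      have hu : IsUnit y' := by
        have : IsUnit (y' ^ 3) := by
          rw [← hprodu]
          exact Units.isUnit _
        exact (isUnit_pow_iff (by norm_num)).1 this
      obtain ⟨y'', rfl⟩ := hu
      refine he _ ⟨y'', ?_⟩
      apply Units.ext
      rw [hprodu, Units.val_pow_eq_pow_val]
    funext i
    rcases i with i | i
    · exact congrFun hT1 i
    · exact hT2' i
  refine ⟨fun i => (f (finSumFinEquiv.symm i) : F), fun i => hfSU _, ?_⟩
  rintro n ⟨y, hy⟩
  have := key (fun j => n (finSumFinEquiv j)) y (by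
    rw [← hy]
    refine Fintype.prod_equiv finSumFinEquiv _ _ fun j => ?_
    show (f j : F) ^ _ = (f (finSumFinEquiv.symm (finSumFinEquiv j)) : F) ^ _
    rw [Equiv.symm_apply_apply])
  funext i
  have h5 := congrFun this (finSumFinEquiv.symm i)
  simpa using h5

end Pool.Agent.Work.MP_787500_nt.P3
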