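import Mathlib
import Pool.Agent.Work.MP_787500_nt.P3.C_Sys
import Pool.Agent.Work.MP_787500_nt.H67_BaseB

/-!
# Module C_TWO (size S-M): the places above 3

* `card_mul_card_le`: (compare `PA/TwoPlaces.lean`) for different places `w, w'` above 3 of a number
  field: the ideals `triIdeal w = w ^ e`, `triIdeal w' = w' ^ e'` are coprime and contain 3, so
  `card (𝓞 F ⧸ triIdeal w) * card (𝓞 F ⧸ triIdeal w') ≤ card (𝓞 F ⧸ (3)) = 3 ^ finrank ℚ F`
  (Chinese remainder theorem; `𝓞 F` is a free `ℤ`-module of rank `finrank ℚ F`).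
* `totallyComplex`: an embedding of `F` in `ℝ` restricts to one of `K`, which is totally complex.
* `exists_other`: `P` a prime of the ring of all algebraic integers containing 3. `K` has two places
  above 3 (`IsBase.gold`: `P₁ ≠ P₂`, `P₁ * P₂ = (3)`, or `base_data` in `H67_Base.lean`); take a prime
  `P'` above the one which is not below `P` (`Ideal.exists_ideal_over_prime_of_isIntegral` or
  `Ideal.exists_ideal_liesOver...`). Then the places of `F` below `P` and `P'` are different (their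
  restrictions to `K` are).
-/

set_option autoImplicit false

namespace Pool.Agent.Work.MP_787500_nt.P3

open IsDedekindDomain NumberField
open Pool.Agent.Work.MP_787500_nt.OddP (AbsGal IsBase)

universe u

theorem mem_triIdeal {F : Type*} [Field F] [NumberField F] (w : HeightOneSpectrum (𝓞 F))
    (t : 𝓞 F) : t ∈ triIdeal w ↔ w.valuation F (algebraMap (𝓞 F) F t) ≤ w.valuation F 3 := Iff.rfl

/-- the ideal of a place above 3 is a power -/
theorem tri_pow {F : Type*} [Field F] [NumberField F] (w : HeightOneSpectrum (𝓞 F)) :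
    ∃ e : ℕ, triIdeal w = w.asIdeal ^ e := by
  have h2 : (3 : 𝓞 F) ≠ 0 := by norm_num
  obtain ⟨e, he⟩ : ∃ e : ℕ, w.intValuation (3 : 𝓞 F) = WithZero.exp (-(e : ℤ)) :=
    ⟨_, w.intValuation_if_neg h2⟩
  refine ⟨e, ?_⟩
  ext t
  rw [mem_triIdeal, ← map_ofNat (algebraMap (𝓞 F) F) 3, HeightOneSpectrum.valuation_of_algebraMap,
    HeightOneSpectrum.valuation_of_algebraMap, he, w.intValuation_le_pow_iff_mem]

private theorem tri_card {F : Type*} [Field F] [NumberField F] (I1 I2 : Ideal (𝓞 F))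
    (hco : IsCoprime I1 I2) (h1 : (3 : 𝓞 F) ∈ I1) (h2 : (3 : 𝓞 F) ∈ I2) :
    Nat.card (𝓞 F ⧸ I1) * Nat.card (𝓞 F ⧸ I2) ≤ 3 ^ Module.finrank ℚ F := by
  rw [← Nat.card_prod, ← Nat.card_congr (Ideal.quotientInfEquivQuotientProd I1 I2 hco).toEquiv]
  have hle : Ideal.span {(3 : 𝓞 F)} ≤ I1 ⊓ I2 := by
    rw [Ideal.span_singleton_le_iff_mem]
    exact ⟨h1, h2⟩
  have hcard : Nat.card (𝓞 F ⧸ Ideal.span {(3 : 𝓞 F)}) = 3 ^ Module.finrank ℚ F := by
    have h3 : Ideal.absNorm (Ideal.span {(3 : 𝓞 F)}) = Nat.card (𝓞 F ⧸ Ideal.span {(3 : 𝓞 F)}) :=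
      Ideal.absNorm_apply _
    rw [← h3, Ideal.absNorm_span_singleton]
    have h4 : Algebra.norm ℤ (3 : 𝓞 F) = 3 ^ Module.finrank ℚ F := by
      have h5 := Algebra.norm_algebraMap_of_basis (RingOfIntegers.basis F) (3 : ℤ)
      rw [map_ofNat] at h5
      rw [h5, ← Module.finrank_eq_card_basis (RingOfIntegers.basis F), RingOfIntegers.rank]
    rw [h4]
    simp [Int.natAbs_pow]
  rw [← hcard]
  have hfin : Finite (𝓞 F ⧸ Ideal.span {(3 : 𝓞 F)}) := by
    apply Nat.finite_of_card_ne_zero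
    rw [hcard]
    positivity
  exact Nat.card_le_card_of_surjective (Ideal.Quotient.factor hle)
    (Ideal.Quotient.factor_surjective hle)

theorem card_mul_card_le {F : Type*} [Field F] [NumberField F] {w w' : HeightOneSpectrum (𝓞 F)}
    (hw : (3 : 𝓞 F) ∈ w.asIdeal) (hw' : (3 : 𝓞 F) ∈ w'.asIdeal) (hne : w ≠ w') :
    Nat.card (𝓞 F ⧸ triIdeal w) * Nat.card (𝓞 F ⧸ triIdeal w') ≤ 3 ^ Module.finrank ℚ F := by
  have hco : IsCoprime w.asIdeal w'.asIdeal := by
    have m1 := w.isMaximal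
    have m2 := w'.isMaximal
    exact Ideal.isCoprime_of_isMaximal fun h => hne (HeightOneSpectrum.ext h)
  have hco' : IsCoprime (triIdeal w) (triIdeal w') := by
    obtain ⟨a, ha⟩ := tri_pow w
    obtain ⟨b, hb⟩ := tri_pow w'
    rw [ha, hb]
    exact hco.pow
  have hmem : ∀ w : HeightOneSpectrum (𝓞 F), (3 : 𝓞 F) ∈ triIdeal w := by
    intro w
    rw [mem_triIdeal, map_ofNat]
  exact tri_card _ _ hco' (hmem w) (hmem w')

theorem totallyComplex {K F : Type*} [Field K] [NumberField K] [Field F] [NumberField F]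
    [Algebra K F] [IsTotallyComplex K] : IsTotallyComplex F := by
  refine ⟨fun v => ?_⟩
  by_contra hv
  rw [InfinitePlace.not_isComplex_iff_isReal] at hv
  have h1 := InfinitePlace.IsReal.comap (algebraMap K F) hv
  have h2 := IsTotallyComplex.isComplex (K := K) (v.comap (algebraMap K F))
  exact (InfinitePlace.not_isReal_iff_isComplex.2 h2) h1

theorem exists_other {K : Type u} [Field K] [NumberField K] (hK : IsBase 3 K)
    (P : Ideal (𝓞 (AlgebraicClosure K))) [P.IsPrime] (hP : (3 : 𝓞 (AlgebraicClosure K)) ∈ P) :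
    ∃ (P' : Ideal (𝓞 (AlgebraicClosure K))) (_ : P'.IsPrime)
      (hP' : (3 : 𝓞 (AlgebraicClosure K)) ∈ P'),
      ∀ (F : IntermediateField K (AlgebraicClosure K)) [NumberField F], pl F P hP ≠ pl F P' hP' := by
  have h3p : Fact (Nat.Prime 3) := ⟨Nat.prime_three⟩
  have hP' : ((3 : ℕ) : 𝓞 (AlgebraicClosure K)) ∈ P := by
    have : ((3 : ℕ) : 𝓞 (AlgebraicClosure K)) = 3 := by norm_num
    rw [this]
    exact hP
  obtain ⟨v, hv, hpv⟩ := OddP.exists_place (p := 3) (K := K) P hP'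
  obtain ⟨v', hb⟩ := OddP.base_data hK hpv
  have hv'3 : (3 : 𝓞 K) ∈ v'.asIdeal := by
    have h1 := hb.hpv'
    have h2 : v'.valuation K (algebraMap (𝓞 K) K 3) < 1 := by
      have e : (algebraMap (𝓞 K) K (3 : 𝓞 K)) = ((3 : ℕ) : K) := by
        rw [map_ofNat]
        norm_num
      rw [e, h1, ← WithZero.exp_zero, WithZero.exp_lt_exp]
      norm_num
    exact (HeightOneSpectrum.valuation_lt_one_iff_mem (K := K) v' (3 : 𝓞 K)).1 h2
  have hint : Algebra.IsIntegral (𝓞 K) (𝓞 (AlgebraicClosure K)) :=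
    ⟨fun x => (RingOfIntegers.isIntegral x).tower_top⟩
  have hinj : Function.Injective (algebraMap (𝓞 K) (𝓞 (AlgebraicClosure K))) :=
    FaithfulSMul.algebraMap_injective _ _
  obtain ⟨P', -, hP'p, hP'v⟩ := Ideal.exists_ideal_over_prime_of_isIntegral v'.asIdeal
    (⊥ : Ideal (𝓞 (AlgebraicClosure K))) (by
      rw [← RingHom.ker_eq_comap_bot, (RingHom.injective_iff_ker_eq_bot _).1 hinj]
      exact bot_le)
  have hP'3 : (3 : 𝓞 (AlgebraicClosure K)) ∈ P' := by
    have h1 : (3 : 𝓞 K) ∈ P'.comap (algebraMap (𝓞 K) (𝓞 (AlgebraicClosure K))) := by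
      rw [hP'v]
      exact hv'3
    rw [Ideal.mem_comap, map_ofNat] at h1
    exact h1
  refine ⟨P', hP'p, hP'3, fun F _ heq => hb.ne ?_⟩
  have h1 : P.comap (algebraMap (𝓞 F) (𝓞 (AlgebraicClosure K))) =
      P'.comap (algebraMap (𝓞 F) (𝓞 (AlgebraicClosure K))) := congrArg HeightOneSpectrum.asIdeal heq
  have hcomp : (algebraMap (𝓞 F) (𝓞 (AlgebraicClosure K))).comp (algebraMap (𝓞 K) (𝓞 F)) =
      algebraMap (𝓞 K) (𝓞 (AlgebraicClosure K)) := by
    ext x
    rfl
  apply HeightOneSpectrum.ext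
  rw [← hv, ← hP'v, ← hcomp, ← Ideal.comap_comap, ← Ideal.comap_comap, h1]

end Pool.Agent.Work.MP_787500_nt.P3
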