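import Mathlib
import Pool.Agent.Work.MP_787500_nt.P3.C_Rank
import Pool.Agent.Work.MP_787500_nt.P3.C_Loc
import Pool.Agent.Work.MP_787500_nt.P3.C_Two
import Pool.Agent.Work.MP_787500_nt.P3.C_Fix
import Pool.Agent.Work.MP_787500_nt.P3.C_PlCb
import Pool.Agent.Work.MP_787500_nt.P3.C_Act

/-!
# Module C_SEL (size M): assembly of the count

`U` open in `Gp K`, `m = U.index`, `F = fld U`, `[F : K] = 2 m`, `[F : ℚ] = 4 m` (`finrank_fld`,
`IsBase.deg`), `F` totally complex, containing `z3 K`. Let `P` be a prime containing 3, `P'` from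
`exists_other`, `w = pl F P hP`, `w' = pl F P' hP'`, `w ≠ w'`, both above 3. `a i`, `i < 2 m + 2`, from
`exists_sunits` (for `w, w'`; choose them once, for one `P₀`; the third claim is for all `P`). For
`n : Fin (2 m + 2) → ZMod 3` let `A n = ∏ a i ^ (n i).val`.

`cube_of_loc`: if `z ∈ F` is of the form `A n`, up to a cube, and `LocCb (w.valuation F) z`, then `z` is a
cube in `F`: let `t ^ 3 = z`; `SU z`, so `InM t` (`InM.of_opn` for `z`, `InM.cbrt`); let `W` be a good subgroup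
inside `U.map (Gp K).subtype` fixing `t`. Let `u ∈ U`. By `dec_surj_gp` there is `d ∈ dec P ⊓ Gp K` with
`d⁻¹ u ∈ W`; so `d ∈ U`, `d` is trivial on `F`, `place_cb` gives `d t = t`, so `u t = d (d⁻¹ u) t = t`. So
`t ∈ F`.

Let `c` be from `exists_classes` for `w`. If `c (A n) = c (A n')` then `LocCb (A n * A n' ^ 2)`, which is
`A (n + 2 n') = A (n - n')` times a cube; so `A (n - n')` is a cube in `F`, so `n = n'`. Hence
`3 ^ (2 m + 2) ≤ 9 * card (𝓞 F ⧸ triIdeal w)`; the same for `w'`. With `card_mul_card_le`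
(`≤ 3 ^ (4 m)`): `card (𝓞 F ⧸ triIdeal w) = 3 ^ (2 m)` and `n ↦ c (A n)` is a bijection onto
`Fin (9 * 3 ^ (2 m))`. For `z ≠ 0` there is `n` with `c (A n) = c z`: `LocCb (z * A n ^ 2)`, and
`A n ^ 2 = A (2 n)` times a cube (`LocCb.of_mul_cube` or `mul_cube`).
-/

set_option autoImplicit false

namespace Pool.Agent.Work.MP_787500_nt.P3

open IsDedekindDomain NumberField
open Pool.Agent.Work.MP_787500_nt.OddP (AbsGal IsBase)

universe u

variable {K : Type u} [Field K] [NumberField K]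

/-- an element `t` with `InM t` which is fixed by the elements of `U` in the decomposition group is
fixed by `U` -/
theorem fixed_of_dec (hK : IsBase 3 K) (P : Ideal (𝓞 (AlgebraicClosure K))) [P.IsPrime]
    (hP : (3 : 𝓞 (AlgebraicClosure K)) ∈ P) {U : Subgroup (Gp K)} (hU : Opn (pSys K) U)
    {t : AlgebraicClosure K} (ht : InM t)
    (h : ∀ g ∈ U, (g : AbsGal K) ∈ dec P → (g : AbsGal K) t = t) :
    ∀ g ∈ U, (g : AbsGal K) t = t := by
  intro u hu
  obtain ⟨W, hW, hWt⟩ := ht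
  obtain ⟨WU, hWU, hle⟩ := opn_good hU
  obtain ⟨d, hd, hdG, hdu⟩ := dec_surj_gp hK P hP (hW.inf hWU) u.2
  have hdU : (⟨d, hdG⟩ : Gp K) ∈ U := by
    obtain ⟨v, hv, hv2⟩ := hle hdu.2
    have hv3 : (v : AbsGal K) = d⁻¹ * u := hv2
    have h1 : (⟨d, hdG⟩ : Gp K) = u * v⁻¹ := by
      apply Subtype.ext
      rw [Subgroup.coe_mul, Subgroup.coe_inv, hv3]
      group
    rw [h1]
    exact U.mul_mem hu (U.inv_mem hv)
  have h1 : d t = t := h ⟨d, hdG⟩ hdU hd
  have h2 : (d⁻¹ * u) t = t := hWt _ hdu.1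
  have h3 : (u : AbsGal K) = d * (d⁻¹ * u) := by group
  rw [h3, AlgEquiv.mul_apply, h2, h1]

/-- a prime above 3 -/
theorem sel_prime (K : Type u) [Field K] [NumberField K] :
    ∃ (P : Ideal (𝓞 (AlgebraicClosure K))) (_ : P.IsPrime),
      (3 : 𝓞 (AlgebraicClosure K)) ∈ P := by
  have h3 : (Ideal.span {(3 : ℤ)}).IsPrime := by
    rw [Ideal.span_singleton_prime (by norm_num)]
    exact Int.prime_three
  have hint : Algebra.IsIntegral ℤ (𝓞 (AlgebraicClosure K)) := inferInstance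
  have hinj : Function.Injective (algebraMap ℤ (𝓞 (AlgebraicClosure K))) :=
    FaithfulSMul.algebraMap_injective _ _
  obtain ⟨P, -, hPp, hPv⟩ := Ideal.exists_ideal_over_prime_of_isIntegral (Ideal.span {(3 : ℤ)})
    (⊥ : Ideal (𝓞 (AlgebraicClosure K))) (by
      rw [← RingHom.ker_eq_comap_bot, (RingHom.injective_iff_ker_eq_bot _).1 hinj]
      exact bot_le)
  refine ⟨P, hPp, ?_⟩
  have h1 : (3 : ℤ) ∈ P.comap (algebraMap ℤ (𝓞 (AlgebraicClosure K))) := by
    rw [hPv]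
    exact Ideal.mem_span_singleton_self _
  rw [Ideal.mem_comap, map_ofNat] at h1
  exact h1

private theorem sel_cube (hK : IsBase 3 K) (P : Ideal (𝓞 (AlgebraicClosure K))) [P.IsPrime]
    (hP : (3 : 𝓞 (AlgebraicClosure K)) ∈ P) {U : Subgroup (Gp K)} (hU : Opn (pSys K) U)
    [NumberField (fld U)] {z : fld U} (hsu : SU z)
    (hl : LocCb ((pl (fld U) P hP).valuation (fld U)) z) : ∃ y : fld U, z = y ^ 3 := by
  obtain ⟨t, ht⟩ := IsAlgClosed.exists_pow_nat_eq (z : AlgebraicClosure K) (n := 3) (by norm_num)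
  have hMz : InM (z : AlgebraicClosure K) := InM.of_opn hU (mem_fld_iff.1 z.2)
  have hMt : InM t := InM.cbrt hMz (hsu.map (algebraMap (fld U) (AlgebraicClosure K))) ht
  have hfix := fixed_of_dec hK P hP hU hMt (fun g hg hgd =>
    place_cb P hP (fld U) hl ht hgd g.2 (fun x => mem_fld_iff.1 x.2 g hg))
  refine ⟨⟨t, mem_fld_iff.2 hfix⟩, ?_⟩
  apply Subtype.ext
  exact ht.symm

private theorem sel_prod {F : Type*} [Field F] {k : ℕ} (a : Fin k → F) (m : Fin k → ℕ) :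
    ∏ i, a i ^ m i = (∏ i, a i ^ (m i : ZMod 3).val) * (∏ i, a i ^ (m i / 3)) ^ 3 := by
  rw [← Finset.prod_pow, ← Finset.prod_mul_distrib]
  refine Finset.prod_congr rfl fun i _ => ?_
  rw [ZMod.val_natCast, ← pow_mul, ← pow_add, mul_comm (m i / 3), Nat.mod_add_div]

theorem sel_count (hK : IsBase 3 K) {U : Subgroup (Gp K)} (hU : Opn (pSys K) U)
    [NumberField (fld U)] :
    ∃ a : Fin (2 * U.index + 2) → fld U, (∀ i, SU (a i)) ∧
      (∀ n : Fin (2 * U.index + 2) → ZMod 3,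
        (∃ y : fld U, ∏ i, a i ^ (n i).val = y ^ 3) → n = 0) ∧
      ∀ (P : Ideal (𝓞 (AlgebraicClosure K))) (_ : P.IsPrime)
        (hP : (3 : 𝓞 (AlgebraicClosure K)) ∈ P), ∀ z : fld U, z ≠ 0 →
        ∃ n : Fin (2 * U.index + 2) → ZMod 3,
          LocCb ((pl (fld U) P hP).valuation (fld U)) (z * ∏ i, a i ^ (n i).val) := by
  classical
  obtain ⟨P₀, hP₀p, hP₀⟩ := sel_prime K
  obtain ⟨P₁, hP₁p, hP₁, hne₀⟩ := exists_other hK P₀ hP₀
  have hdeg : Module.finrank ℚ (fld U) = 2 * (2 * U.index) := by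
    rw [← Module.finrank_mul_finrank ℚ K (fld U), hK.deg, finrank_fld hK hU]
  have htc : IsTotallyComplex (fld U) := fld_totallyComplex U
  have hζ : ∃ z : fld U, z ^ 2 + z + 1 = 0 :=
    ⟨⟨z3 K, z3_mem_fld U⟩, Subtype.ext (z3_spec K)⟩
  have hpl : ∀ (P : Ideal (𝓞 (AlgebraicClosure K))) [P.IsPrime]
      (hP : (3 : 𝓞 (AlgebraicClosure K)) ∈ P), (3 : 𝓞 (fld U)) ∈ (pl (fld U) P hP).asIdeal := by
    intro P _ hP
    show (3 : 𝓞 (fld U)) ∈ P.comap (algebraMap (𝓞 (fld U)) (𝓞 (AlgebraicClosure K)))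
    rw [Ideal.mem_comap, map_ofNat]
    exact hP
  obtain ⟨a, ha1, ha2⟩ := exists_sunits hdeg (hpl P₀ hP₀) (hpl P₁ hP₁) (hne₀ (fld U)) hζ
  have hsu : ∀ m : Fin (2 * U.index + 2) → ℕ, SU (∏ i, a i ^ m i) := fun m =>
    SU.prod Finset.univ (fun i => a i ^ m i) fun i _ => (ha1 i).pow _
  have hmain : ∀ (P : Ideal (𝓞 (AlgebraicClosure K))) (_ : P.IsPrime)
      (hP : (3 : 𝓞 (AlgebraicClosure K)) ∈ P),
      ∃ c : fld U → Fin (9 * Nat.card (𝓞 (fld U) ⧸ triIdeal (pl (fld U) P hP))),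
        (∀ a b : fld U, a ≠ 0 → b ≠ 0 → c a = c b →
          LocCb ((pl (fld U) P hP).valuation (fld U)) (a * b ^ 2)) ∧
        Function.Injective fun n : Fin (2 * U.index + 2) → ZMod 3 => c (∏ i, a i ^ (n i).val) := by
    intro P hPp hP
    obtain ⟨c, hc⟩ := exists_classes (hpl P hP) hζ
    refine ⟨c, hc, fun n n' h => ?_⟩
    have h1 := hc _ _ (hsu fun i => (n i).val).1 (hsu fun i => (n' i).val).1 h
    have e1 : (∏ i, a i ^ (n i).val) * (∏ i, a i ^ (n' i).val) ^ 2 =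
        (∏ i, a i ^ ((n - n') i).val) * (∏ i, a i ^ (((n i).val + 2 * (n' i).val) / 3)) ^ 3 := by
      have h2 : (∏ i, a i ^ (n i).val) * (∏ i, a i ^ (n' i).val) ^ 2 =
          ∏ i, a i ^ ((n i).val + 2 * (n' i).val) := by
        rw [← Finset.prod_pow, ← Finset.prod_mul_distrib]
        refine Finset.prod_congr rfl fun i _ => ?_
        rw [← pow_mul, ← pow_add, mul_comm 2]
      rw [h2, sel_prod]
      congr 1
      refine Finset.prod_congr rfl fun i _ => ?_
      congr 2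
      push_cast
      rw [ZMod.natCast_zmod_val, ZMod.natCast_zmod_val, Pi.sub_apply]
      generalize n i = x
      generalize n' i = y
      revert x y
      decide
    rw [e1] at h1
    have h3 := h1.of_mul_cube (hsu _).1
    obtain ⟨y, hy⟩ := sel_cube hK P hP hU (hsu _) h3
    exact sub_eq_zero.1 (ha2 _ ⟨y, hy⟩)
  have hle : ∀ (P : Ideal (𝓞 (AlgebraicClosure K))) (_ : P.IsPrime)
      (hP : (3 : 𝓞 (AlgebraicClosure K)) ∈ P),
      3 ^ (2 * U.index) ≤ Nat.card (𝓞 (fld U) ⧸ triIdeal (pl (fld U) P hP)) := by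
    intro P hPp hP
    obtain ⟨c, -, hinj⟩ := hmain P hPp hP
    have h1 := Fintype.card_le_of_injective _ hinj
    rw [Fintype.card_fun, ZMod.card, Fintype.card_fin, Fintype.card_fin, pow_add] at h1
    omega
  have hcard : ∀ (P : Ideal (𝓞 (AlgebraicClosure K))) (_ : P.IsPrime)
      (hP : (3 : 𝓞 (AlgebraicClosure K)) ∈ P),
      Nat.card (𝓞 (fld U) ⧸ triIdeal (pl (fld U) P hP)) = 3 ^ (2 * U.index) := by
    intro P hPp hP
    obtain ⟨P', hP'p, hP', hne⟩ := exists_other hK P hP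
    have h1 := card_mul_card_le (hpl P hP) (hpl P' hP') (hne (fld U))
    rw [hdeg, two_mul (2 * U.index), pow_add] at h1
    have h2 := hle P hPp hP
    have h3 := hle P' hP'p hP'
    apply le_antisymm _ h2
    by_contra hc
    push Not at hc
    have h4 : 3 ^ (2 * U.index) * 3 ^ (2 * U.index) <
        Nat.card (𝓞 (fld U) ⧸ triIdeal (pl (fld U) P hP)) *
          Nat.card (𝓞 (fld U) ⧸ triIdeal (pl (fld U) P' hP')) :=
      Nat.mul_lt_mul_of_lt_of_le hc h3 (lt_of_lt_of_le (by positivity) h3)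
    omega
  refine ⟨a, ha1, ha2, ?_⟩
  intro P hPp hP z hz
  obtain ⟨c, hc, hinj⟩ := hmain P hPp hP
  have hbij := (Fintype.bijective_iff_injective_and_card _).2 ⟨hinj, by
    rw [Fintype.card_fun, ZMod.card, Fintype.card_fin, Fintype.card_fin, hcard P hPp hP, pow_add]
    ring⟩
  obtain ⟨n, hn⟩ := hbij.2 (c z)
  have h1 := hc _ _ hz (hsu fun i => (n i).val).1 hn.symm
  refine ⟨fun i => 2 * n i, ?_⟩
  have e1 : z * (∏ i, a i ^ (n i).val) ^ 2 =
      (z * ∏ i, a i ^ (2 * n i).val) * (∏ i, a i ^ ((2 * (n i).val) / 3)) ^ 3 := by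
    have h2 : (∏ i, a i ^ (n i).val) ^ 2 = ∏ i, a i ^ (2 * (n i).val) := by
      rw [← Finset.prod_pow]
      refine Finset.prod_congr rfl fun i _ => ?_
      rw [← pow_mul, mul_comm 2]
    rw [h2, sel_prod, ← mul_assoc]
    have h3 : ∀ i, ((2 * (n i).val : ℕ) : ZMod 3) = 2 * n i := by
      intro i
      push_cast
      rw [ZMod.natCast_zmod_val]
    simp only [h3]
  rw [e1] at h1
  exact h1.of_mul_cube (hsu _).1

end Pool.Agent.Work.MP_787500_nt.P3
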