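import Mathlib
import Pool.Agent.Work.MP_787500_nt.P3.C_Sel

/-!
# Module C_COUNTS (size M): the number of cubic characters

`U` open in `Gp K`, `F = fld U`, `m = U.index`, `a i` from `sel_count`, `t i` in the algebraic closure with
`t i ^ 3 = a i`. `InM (t i)`: `a i ∈ F` (`InM.of_opn`), `SU (a i)` (`SU.map`), `InM.cbrt`. So
`act3 U (t i) ∈ homs` (`act3_mem`). For `n : Fin _ → ZMod 3`,
`Σ n i • act3 U (t i) = act3 U (∏ t i ^ (n i).val)` (`act3_prod`), and it is zero iff `U` fixes the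
product, iff the product lies in `F` (`mem_fld_iff`), which makes `∏ a i ^ (n i).val` a cube in `F`, so
`n = 0`: the `2 m + 2` elements are linearly independent over `ZMod 3`. They span: for `ψ ∈ homs` take `t`
from `exists_act3`, `d = t ^ 3 ∈ F`. Choose a prime `P` of the ring of all algebraic integers containing 3
(it is not a field; or lying over). By `sel_count` there is `n` with `LocCb (d * ∏ a i ^ (n i).val)` at
`pl F P hP`. `t' = t * ∏ t i ^ (n i).val` satisfies `InM t'`, `t' ^ 3 ∈ F`, and by `place_cb` it is fixed by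
the `g ∈ U` with `g ∈ dec P`; by `fixed_of_dec` by all of `U`. So
`0 = act3 U t' = ψ + Σ n i • act3 U (t i)`. Hence `finrank = 2 m + 2`.
`exists_su`: `ψ = act3 U (∏ t i ^ (-n i).val)`, and `SU (∏ t i ^ (-n i).val)`.
-/

set_option autoImplicit false

namespace Pool.Agent.Work.MP_787500_nt.P3

open IsDedekindDomain NumberField
open Pool.Agent.Work.MP_787500_nt.OddP (AbsGal IsBase)

universe u

variable {K : Type u} [Field K] [NumberField K]

theorem exists_prime_three (K : Type u) [Field K] [NumberField K] :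
    ∃ (P : Ideal (𝓞 (AlgebraicClosure K))) (_ : P.IsPrime),
      (3 : 𝓞 (AlgebraicClosure K)) ∈ P := sel_prime K

private theorem counts_main (hK : IsBase 3 K) {U : Subgroup (Gp K)} (hU : Opn (pSys K) U) :
    ∃ t : Fin (2 * U.index + 2) → AlgebraicClosure K, (∀ i, SU (t i)) ∧ (∀ i, InM (t i)) ∧
      (∀ i, ∀ g ∈ U, (g : AbsGal K) (t i ^ 3) = t i ^ 3) ∧
      (∀ n : Fin (2 * U.index + 2) → ZMod 3, ∑ i, n i • act3 U (t i) = 0 → n = 0) ∧
      ∀ ψ ∈ homs (pSys K) U, ∃ n : Fin (2 * U.index + 2) → ZMod 3,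
        ψ = ∑ i, n i • act3 U (t i) := by
  classical
  have hnf : NumberField (fld U) := nf_fld hU
  obtain ⟨a, ha1, ha2, ha3⟩ := sel_count hK hU
  have hroot : ∀ i, ∃ t : AlgebraicClosure K, t ^ 3 = (a i : AlgebraicClosure K) := fun i =>
    IsAlgClosed.exists_pow_nat_eq (a i : AlgebraicClosure K) (n := 3) (by norm_num)
  choose t ht using hroot
  have hsua : ∀ i, SU (a i : AlgebraicClosure K) := fun i =>
    (ha1 i).map (algebraMap (fld U) (AlgebraicClosure K))
  have hsu : ∀ i, SU (t i) := fun i => SU.of_pow (n := 3) (by norm_num) (by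
    rw [ht i]
    exact hsua i)
  have hfixa : ∀ (x : fld U), ∀ g ∈ U, (g : AbsGal K) (x : AlgebraicClosure K) = x := fun x =>
    mem_fld_iff.1 x.2
  have hM : ∀ i, InM (t i) := fun i => InM.cbrt (InM.of_opn hU (hfixa (a i))) (hsua i) (ht i)
  have hfix : ∀ i, ∀ g ∈ U, (g : AbsGal K) (t i ^ 3) = t i ^ 3 := by
    intro i g hg
    rw [ht i]
    exact hfixa (a i) g hg
  have ht0 : ∀ i, t i ≠ 0 := fun i => (hsu i).1
  have hprod : ∀ n : Fin (2 * U.index + 2) → ZMod 3, (∏ i, t i ^ (n i).val) ^ 3 =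
      ((∏ i, a i ^ (n i).val : fld U) : AlgebraicClosure K) := by
    intro n
    have e1 : ((∏ i, a i ^ (n i).val : fld U) : AlgebraicClosure K) =
        ∏ i, (a i : AlgebraicClosure K) ^ (n i).val := by
      have := map_prod (algebraMap (fld U) (AlgebraicClosure K)) (fun i => a i ^ (n i).val)
        Finset.univ
      exact this
    rw [e1, ← Finset.prod_pow]
    refine Finset.prod_congr rfl fun i _ => ?_
    rw [← ht i, ← pow_mul, ← pow_mul, mul_comm]
  have hprod0 : ∀ n : Fin (2 * U.index + 2) → ZMod 3, ∏ i, t i ^ (n i).val ≠ 0 := fun n =>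
    Finset.prod_ne_zero_iff.2 fun i _ => pow_ne_zero _ (ht0 i)
  refine ⟨t, hsu, hM, hfix, ?_, ?_⟩
  · intro n hn
    rw [← act3_prod ht0 hfix, act3_eq_zero_iff (hprod0 n) (by
      intro g hg
      rw [hprod n]
      exact hfixa _ g hg)] at hn
    refine ha2 n ⟨⟨_, mem_fld_iff.2 hn⟩, ?_⟩
    apply Subtype.ext
    exact (hprod n).symm
  · intro ψ hψ
    obtain ⟨s, hs0, hsM, hsfix, rfl⟩ := exists_act3 hU hψ
    let d : fld U := ⟨s ^ 3, mem_fld_iff.2 hsfix⟩
    have hd0 : d ≠ 0 := by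
      intro h
      have h1 : s ^ 3 = 0 := congrArg (fun x : fld U => (x : AlgebraicClosure K)) h
      exact pow_ne_zero 3 hs0 h1
    obtain ⟨P, hPp, hP⟩ := sel_prime K
    obtain ⟨n, hn⟩ := ha3 P hPp hP d hd0
    have hM' : InM (s * ∏ i, t i ^ (n i).val) :=
      hsM.mul (InM.prod Finset.univ (fun i => t i ^ (n i).val) fun i _ => (hM i).pow _)
    have hcube : (s * ∏ i, t i ^ (n i).val) ^ 3 =
        ((d * ∏ i, a i ^ (n i).val : fld U) : AlgebraicClosure K) := by
      rw [mul_pow, hprod n]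
      rfl
    have hfix' := fixed_of_dec hK P hP hU hM' (fun g hg hgd =>
      place_cb P hP (fld U) hn hcube hgd g.2 (fun x => hfixa x g hg))
    have h1 : act3 U (s * ∏ i, t i ^ (n i).val) = 0 :=
      (act3_eq_zero_iff (mul_ne_zero hs0 (hprod0 n)) (by
        intro g hg
        rw [hcube]
        exact hfixa _ g hg)).2 hfix'
    rw [act3_mul hs0 (hprod0 n) hsfix (by
      intro g hg
      rw [hprod n]
      exact hfixa _ g hg), act3_prod ht0 hfix] at h1
    refine ⟨fun i => -n i, ?_⟩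
    rw [eq_neg_of_add_eq_zero_left h1, ← Finset.sum_neg_distrib]
    refine Finset.sum_congr rfl fun i _ => ?_
    rw [neg_smul]

theorem countsK (hK : IsBase 3 K) : Counts (pSys K) := by
  classical
  intro U hU
  obtain ⟨t, hsu, hM, hfix, hind, hspan⟩ := counts_main hK hU
  let v : Fin (2 * U.index + 2) → homs (pSys K) U := fun i =>
    ⟨act3 U (t i), act3_mem hU (hsu i).1 (hM i) (hfix i)⟩
  have hsum : ∀ n : Fin (2 * U.index + 2) → ZMod 3,
      ((∑ i, n i • v i : homs (pSys K) U) : Gp K → ZMod 3) = ∑ i, n i • act3 U (t i) := by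
    intro n
    have := map_sum (homs (pSys K) U).subtype (fun i => n i • v i) Finset.univ
    exact this
  have hli : LinearIndependent (ZMod 3) v := by
    rw [Fintype.linearIndependent_iff]
    intro n hn
    have h1 := hind n (by rw [← hsum n, hn]; rfl)
    intro i
    rw [h1]
    rfl
  have hsp : ⊤ ≤ Submodule.span (ZMod 3) (Set.range v) := by
    rintro ⟨ψ, hψ⟩ -
    obtain ⟨n, hn⟩ := hspan ψ hψ
    have h1 : (⟨ψ, hψ⟩ : homs (pSys K) U) = ∑ i, n i • v i := by
      apply Subtype.ext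
      rw [hsum n]
      exact hn
    rw [h1]
    exact Submodule.sum_mem _ fun i _ => Submodule.smul_mem _ _ (Submodule.subset_span ⟨i, rfl⟩)
  let b := Module.Basis.mk hli hsp
  refine ⟨Module.Basis.finiteDimensional_of_finite b, ?_⟩
  rw [Module.finrank_eq_card_basis b, Fintype.card_fin]

theorem exists_su (hK : IsBase 3 K) {U : Subgroup (Gp K)} (hU : Opn (pSys K) U)
    {ψ : Gp K → ZMod 3} (hψ : ψ ∈ homs (pSys K) U) :
    ∃ t : AlgebraicClosure K, SU t ∧ InM t ∧ (∀ g ∈ U, (g : AbsGal K) (t ^ 3) = t ^ 3) ∧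
      ψ = act3 U t := by
  classical
  obtain ⟨t, hsu, hM, hfix, -, hspan⟩ := counts_main hK hU
  obtain ⟨n, rfl⟩ := hspan ψ hψ
  refine ⟨∏ i, t i ^ (n i).val, SU.prod Finset.univ _ fun i _ => (hsu i).pow _,
    InM.prod Finset.univ _ fun i _ => (hM i).pow _, ?_, ?_⟩
  · intro g hg
    rw [← Finset.prod_pow, map_prod]
    refine Finset.prod_congr rfl fun i _ => ?_
    rw [← pow_mul, mul_comm, pow_mul, map_pow, hfix i g hg]
  · rw [act3_prod (fun i => (hsu i).1) hfix]

end Pool.Agent.Work.MP_787500_nt.P3
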