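import Mathlib
import Pool.Agent.Work.MP_787500_nt.P3.C_PlCb
import Pool.Agent.Work.MP_787500_nt.P3.C_Kum
import Pool.Agent.Work.MP_787500_nt.P3.C_Surj
import Pool.Agent.Work.MP_787500_nt.P3.C_Fix

/-!
# Module C_LOCA (size M-L): local cubic characters come from cube roots of global elements

`P` a prime containing 3, `U` open in `Gp K`, `U' = U.map (Gp K).subtype`, `F = fld U`,
`H = dec P ⊓ U'` (closed: `dec_closed`, `U'` is open so closed). `lam` a homomorphism on `H`, vanishing on
an open subgroup.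
1. `exists_kum`: `Y ≠ 0`, `g Y = zp K (lam g) * Y` for `g ∈ H`; so `Y ^ 3` is fixed by `H`.
2. Let `Ω = AlgebraicClosure K`; it is Galois over `F`, `Gal (Ω / F) = U'` (`fix_fld`). Let `M` be a finite
   Galois extension of `F` in `Ω` containing `Y`; as a number field it has the place `w` below `P`.
   Claim: there is `b ∈ F` with `w (b - Y ^ 3) < w (9 Y ^ 3)`. This is `DEC.approx` (`H67_Decomp.lean`) for
   the extension `M / F` (the base field there is an arbitrary number field; here it is `F`), `β = Y ^ 3`,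
   `δ = w (9 β)`: the elements `τ` of the stabilizer of `w` in `Gal (M / F)` fix `β`: by
   `DEC.lift_stabilizer` (with base field `F`) `τ` is the restriction of some `σ ∈ Gal (Ω / F)` which
   stabilizes `P`; seen in `AbsGal K` it lies in `dec P ⊓ U' = H`, so it fixes `Y ^ 3`.
   (Compare `exists_approx` in `H67_Decomp.lean`, which is the same argument with `z ^ p` in place of `b`
   and without `F`.) `b ≠ 0` since `w (Y ^ 3) ≤ w (9 Y ^ 3)` is false.
3. Let `t ^ 3 = b`; `approx_cb` gives `g t * Y = t * g Y = zp K (lam g) * t * Y` for `g ∈ H`.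
-/

set_option autoImplicit false

namespace Pool.Agent.Work.MP_787500_nt.P3

open IsDedekindDomain NumberField
open Pool.Agent.Work.MP_787500_nt.OddP (AbsGal IsBase)
open scoped Pointwise

universe u

variable {K : Type u} [Field K] [NumberField K]

theorem exists_local_cbrt (P : Ideal (𝓞 (AlgebraicClosure K))) [P.IsPrime]
    (hP : (3 : 𝓞 (AlgebraicClosure K)) ∈ P) {U : Subgroup (Gp K)} (hU : Opn (pSys K) U)
    (lam : AbsGal K → ZMod 3)
    (hmul : ∀ g ∈ dec P ⊓ U.map (Gp K).subtype, ∀ h ∈ dec P ⊓ U.map (Gp K).subtype,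
      lam (g * h) = lam g + lam h)
    (hcont : ∃ U' : Subgroup (AbsGal K), IsOpen (U' : Set (AbsGal K)) ∧
      ∀ g ∈ dec P ⊓ U.map (Gp K).subtype ⊓ U', lam g = 0) :
    ∃ t : AlgebraicClosure K, t ≠ 0 ∧ (∀ g ∈ U, (g : AbsGal K) (t ^ 3) = t ^ 3) ∧
      ∀ g ∈ dec P ⊓ U.map (Gp K).subtype, g t = zp K (lam g) * t := by
  classical
  have hopen : IsOpen ((U.map (Gp K).subtype : Subgroup (AbsGal K)) : Set (AbsGal K)) :=
    opn_isOpen (opn_map hU)
  have hHc : IsClosed ((dec P ⊓ U.map (Gp K).subtype : Subgroup (AbsGal K)) :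
      Set (AbsGal K)) := (dec_closed P).inter (Subgroup.isClosed_of_isOpen _ hopen)
  have hHle : dec P ⊓ U.map (Gp K).subtype ≤ Gp K := by
    rintro _ ⟨-, u, -, rfl⟩
    exact u.2
  obtain ⟨Y, hY0, hY⟩ := exists_kum hHc hHle lam hmul hcont
  have hY3 : ∀ g ∈ dec P ⊓ U.map (Gp K).subtype, g (Y ^ 3) = Y ^ 3 := by
    intro g hg
    rw [map_pow, hY g hg, mul_pow, zp_pow_three, one_mul]
  have hnf : NumberField (fld U) := nf_fld hU
  have hfF : FiniteDimensional K (fld U) := finite_fld hU
  -- the layer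
  obtain ⟨α, hα⟩ := Field.exists_primitive_element K (fld U)
  let L : FiniteGaloisIntermediateField K (AlgebraicClosure K) :=
    FiniteGaloisIntermediateField.adjoin K {(α : AlgebraicClosure K), Y}
  let M : IntermediateField K (AlgebraicClosure K) := L.toIntermediateField
  have hfd : FiniteDimensional K M := L.finiteDimensional
  have hgal : IsGalois K M := L.isGalois
  have hnfM : NumberField M := NumberField.of_module_finite K M
  have hsub : ({(α : AlgebraicClosure K), Y} : Set (AlgebraicClosure K)) ⊆ M :=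
    FiniteGaloisIntermediateField.subset_adjoin K {(α : AlgebraicClosure K), Y}
  have hαM : (α : AlgebraicClosure K) ∈ M := hsub (Or.inl rfl)
  have hYM : Y ∈ M := hsub (Or.inr rfl)
  have hFM : fld U ≤ M := by
    have h5 : fld U = IntermediateField.adjoin K {(α : AlgebraicClosure K)} := by
      have := congrArg (IntermediateField.lift) hα
      rw [IntermediateField.lift_adjoin_simple, IntermediateField.lift_top] at this
      exact this.symm
    rw [h5, IntermediateField.adjoin_simple_le_iff]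
    exact hαM
  let _ : Algebra (fld U) M := (IntermediateField.inclusion hFM).toRingHom.toAlgebra
  have htow : IsScalarTower K (fld U) M := IsScalarTower.of_algebraMap_eq (fun x => rfl)
  have hgalF : IsGalois (fld U) M := IsGalois.tower_top_of_isGalois K (fld U) M
  let w : HeightOneSpectrum (𝓞 M) := pl M P hP
  let B : M := ⟨Y, hYM⟩ ^ 3
  have hB0 : B ≠ 0 := pow_ne_zero 3 fun h => hY0 (congrArg (fun x : M => (x : AlgebraicClosure K)) h)
  have hBY : (B : AlgebraicClosure K) = Y ^ 3 := rfl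
  have hfixB : ∀ τ ∈ MulAction.stabilizer (M ≃ₐ[fld U] M) w.asIdeal, τ B = B := by
    intro τ hτ
    let τ' : M ≃ₐ[K] M := τ.restrictScalars K
    have hτ' : τ' ∈ MulAction.stabilizer (M ≃ₐ[K] M)
        (P.comap (algebraMap (𝓞 M) (𝓞 (AlgebraicClosure K)))) := by
      rw [MulAction.mem_stabilizer_iff] at hτ ⊢
      ext x
      rw [Ideal.mem_pointwise_smul_iff_inv_smul_mem]
      have h1 : τ⁻¹ • x ∈ w.asIdeal ↔ x ∈ w.asIdeal := by
        rw [← Ideal.mem_pointwise_smul_iff_inv_smul_mem, hτ]
      exact h1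
    obtain ⟨σ, hσ, hσ'⟩ := OddP.DEC.lift_stabilizer M P hτ'
    have hσU : σ ∈ U.map (Gp K).subtype := by
      rw [← fix_fld hU, IntermediateField.mem_fixingSubgroup_iff]
      intro x hx
      have h1 := hσ' ⟨x, hFM hx⟩
      have h2 : τ' ⟨x, hFM hx⟩ = ⟨x, hFM hx⟩ := τ.commutes ⟨x, hx⟩
      rw [h2] at h1
      exact h1
    apply Subtype.ext
    have h3 := hσ' B
    have h4 : σ (B : AlgebraicClosure K) = B := by
      rw [hBY]
      exact hY3 σ ⟨hσ, hσU⟩
    exact h3.symm.trans h4
  have h9 : w.valuation M (9 * B) ≠ 0 :=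
    (Valuation.ne_zero_iff _).2 (mul_ne_zero (by norm_num) hB0)
  obtain ⟨b, hb⟩ := OddP.DEC.approx (K := fld U) (M := M) w B hfixB _ h9
  have hb' : w.valuation M (algebraMap (fld U) M b - B) < w.valuation M (9 * B) := by
    rw [Valuation.map_sub_swap]
    exact hb
  have h91 : w.valuation M (9 : M) ≤ 1 := by
    have e9 : algebraMap (𝓞 M) M 9 = 9 := map_ofNat (algebraMap (𝓞 M) M) 9
    rw [← e9]
    exact w.valuation_le_one (K := M) (9 : 𝓞 M)
  have hb0 : b ≠ 0 := by
    rintro rfl
    rw [map_zero, zero_sub, Valuation.map_neg, map_mul] at hb'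
    have h1 : w.valuation M 9 * w.valuation M B ≤ 1 * w.valuation M B := mul_le_mul' h91 le_rfl
    rw [one_mul] at h1
    exact absurd hb' (not_lt.2 h1)
  obtain ⟨t, ht⟩ := IsAlgClosed.exists_pow_nat_eq (b : AlgebraicClosure K) (n := 3) (by norm_num)
  have hbfix : ∀ g ∈ U, (g : AbsGal K) (b : AlgebraicClosure K) = b := mem_fld_iff.1 b.2
  have ht0 : t ≠ 0 := by
    rintro rfl
    rw [zero_pow (by norm_num)] at ht
    exact hb0 (ZeroMemClass.coe_eq_zero.1 ht.symm)
  refine ⟨t, ht0, fun g hg => by rw [ht]; exact hbfix g hg, ?_⟩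
  intro g hg
  have h1 := approx_cb P hP M (B := B) (b := algebraMap (fld U) M b) hB0 hb' (Y := Y) (t := t)
    rfl ht hg.1 (hHle hg) (by
      rw [hBY]
      exact hY3 g hg) (by
      obtain ⟨-, u, hu, rfl⟩ := hg
      exact hbfix u hu)
  rw [hY g hg] at h1
  apply mul_right_cancel₀ hY0
  rw [h1]
  ring

end Pool.Agent.Work.MP_787500_nt.P3
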