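import Mathlib
import Pool.Agent.Work.MP_787500_nt.P3.C_LocA
import Pool.Agent.Work.MP_787500_nt.P3.C_Counts

/-!
# Module C_LG (size S-M): local characters are restrictions of global ones

`F = fld U`, `m = U.index`; `t` from `exists_local_cbrt`, `d = t ^ 3 ∈ F`, `d ≠ 0`. `a i` from `sel_count`,
`t i ^ 3 = a i`; there is `n` with `LocCb (d * ∏ a i ^ (n i).val)` at `pl F P hP`. By `place_cb`
`t * ∏ t i ^ (n i).val` is fixed by all `g ∈ dec P ⊓ U'`. Let `t' = ∏ t i ^ (-n i).val`. Then `InM t'`,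
`SU t'`, `t' ^ 3 ∈ F`, and `t / t'` is fixed by `dec P ⊓ U'` up to: `∏ t i ^ (n i).val * t'` is a product of
`t i ^ 3 ∈ F` and `1`, so it is fixed by `U`. `ψ = act3 U t' ∈ homs` (`act3_mem`); for `g ∈ U`, `g ∈ dec P`:
`zp (ψ g) = g t' / t' = g t / t = zp (lam g)`.
-/

set_option autoImplicit false

namespace Pool.Agent.Work.MP_787500_nt.P3

open IsDedekindDomain NumberField
open Pool.Agent.Work.MP_787500_nt.OddP (AbsGal IsBase)

universe u

variable {K : Type u} [Field K] [NumberField K]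

theorem loc_glob (hK : IsBase 3 K) (P : Ideal (𝓞 (AlgebraicClosure K))) [P.IsPrime]
    (hP : (3 : 𝓞 (AlgebraicClosure K)) ∈ P) {U : Subgroup (Gp K)} (hU : Opn (pSys K) U)
    (lam : AbsGal K → ZMod 3)
    (hmul : ∀ g ∈ dec P ⊓ U.map (Gp K).subtype, ∀ h ∈ dec P ⊓ U.map (Gp K).subtype,
      lam (g * h) = lam g + lam h)
    (hcont : ∃ U' : Subgroup (AbsGal K), IsOpen (U' : Set (AbsGal K)) ∧
      ∀ g ∈ dec P ⊓ U.map (Gp K).subtype ⊓ U', lam g = 0) :
    ∃ ψ ∈ homs (pSys K) U, ∀ g ∈ U, (g : AbsGal K) ∈ dec P → lam g = ψ g := by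
  classical
  have hnf : NumberField (fld U) := nf_fld hU
  obtain ⟨t, ht0, htfix, htl⟩ := exists_local_cbrt P hP hU lam hmul hcont
  obtain ⟨a, ha1, -, ha3⟩ := sel_count hK hU
  have hfixa : ∀ (x : fld U), ∀ g ∈ U, (g : AbsGal K) (x : AlgebraicClosure K) = x := fun x =>
    mem_fld_iff.1 x.2
  let d : fld U := ⟨t ^ 3, mem_fld_iff.2 htfix⟩
  have hd0 : d ≠ 0 := by
    intro h
    have h1 : t ^ 3 = 0 := congrArg (fun x : fld U => (x : AlgebraicClosure K)) h
    exact pow_ne_zero 3 ht0 h1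
  obtain ⟨n, hn⟩ := ha3 P inferInstance hP d hd0
  have hsu : SU (∏ i, a i ^ (n i).val) := SU.prod Finset.univ _ fun i _ => (ha1 i).pow _
  obtain ⟨r, hr⟩ := IsAlgClosed.exists_pow_nat_eq
    ((∏ i, a i ^ (n i).val : fld U) : AlgebraicClosure K) (n := 3) (by norm_num)
  have hsuc : SU ((∏ i, a i ^ (n i).val : fld U) : AlgebraicClosure K) :=
    hsu.map (algebraMap (fld U) (AlgebraicClosure K))
  have hMr : InM r := InM.cbrt (InM.of_opn hU (hfixa _)) hsuc hr
  have hr0 : r ≠ 0 := by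
    rintro rfl
    rw [zero_pow (by norm_num)] at hr
    exact hsuc.1 hr.symm
  have hrfix : ∀ g ∈ U, (g : AbsGal K) (r ^ 3) = r ^ 3 := by
    intro g hg
    rw [hr]
    exact hfixa _ g hg
  refine ⟨-act3 U r, (homs (pSys K) U).neg_mem (act3_mem hU hr0 hMr hrfix), ?_⟩
  intro g hg hgd
  have h1 := place_cb P hP (fld U) hn (t := t * r) (by
    rw [mul_pow, hr]
    rfl) hgd g.2 (fun x => hfixa x g hg)
  rw [map_mul, htl _ ⟨hgd, g, hg, rfl⟩, act3_spec hrfix hg] at h1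
  have h2 : zp K (lam g + act3 U r g) = zp K 0 := by
    rw [zp_add, zp_zero]
    apply mul_right_cancel₀ (mul_ne_zero ht0 hr0)
    rw [one_mul]
    calc zp K (lam g) * zp K (act3 U r g) * (t * r) =
        zp K (lam g) * t * (zp K (act3 U r g) * r) := by ring
      _ = t * r := h1
  have h3 := zp_injective h2
  rw [Pi.neg_apply]
  exact eq_neg_of_add_eq_zero_left h3

end Pool.Agent.Work.MP_787500_nt.P3
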