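import Mathlib
import Pool.Agent.Work.MP_787500_nt.P3.Defs

/-!
# Module A_IDX (size S-M): subgroups of index three and homomorphisms to `ZMod 3`

Pure group theory. `Idx S V U χ s`: `V` is the kernel in `U` of `χ ∈ homs S U`, `s ∈ U`, `χ s = 1`.
`tw s ψ g = ψ (s g s⁻¹) - ψ g`.

* `hom_one`, `hom_inv`, `hom_conj`, `hom_pow`: clear.
* `Idx.conj_mem`: `χ (g v g⁻¹) = χ v = 0`.
* `Idx.dec_mem`: `χ (g (s ^ n)⁻¹) = χ g - n`.
* `Idx.index`: `χ` induces a bijection from `U / V` to `ZMod 3` (`V.relIndex U = 3`: kernel of a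
  surjective homomorphism from `U` to `Multiplicative (ZMod 3)`; `Subgroup.relIndex_mul_index`).
* `exists_idx`: `V = {g ∈ U | χ g = 0}` is a subgroup, open: intersect `W` with `W' ≤ U`; for `w ∈ W`:
  `χ w = χ (1 * w) = χ 1 = 0`. There is `g` with `χ g ≠ 0` (so `g ∈ U`); `s = g` or `s = g ^ 2`.
* `exists_idx_ker`: if `ω ∈ homs S U` is not a multiple of `χ` then `s` can be chosen with `ω s = 0`:
  with `s₀` from `exists_idx` and `v ∈ V` with `ω v ≠ 0` (if `ω = 0` on `V` then `ω = ω s₀ • χ`), take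
  `s = s₀ v ^ k`.
* `opn_index_ne`: an open subgroup has index different from zero.
* `sm1_in`, `sm2_in`: a member of the system inside `V` on whose cosets a smooth function is constant.
* `res_mem`: the restriction of `ω ∈ homs S U` to `V` is in `homs S V`.
-/

set_option autoImplicit false

namespace Pool.Agent.Work.MP_787500_nt.P3

variable {G : Type*} [Group G] {S : Sys G} {V U : Subgroup G} {χ ψ ω : G → ZMod 3} {s g h v : G}

/-- the operator `s - 1` on functions -/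
def tw (s : G) : (G → ZMod 3) →ₗ[ZMod 3] (G → ZMod 3) where
  toFun ψ g := ψ (s * g * s⁻¹) - ψ g
  map_add' a b := by
    funext g
    simp only [Pi.add_apply]
    ring
  map_smul' c a := by
    funext g
    simp only [Pi.smul_apply, RingHom.id_apply, smul_eq_mul]
    ring

theorem hom_one (hψ : ψ ∈ homs S U) : ψ 1 = 0 := by
  have h := hψ.2.2 1 U.one_mem 1 U.one_mem
  rw [mul_one] at h
  simpa using h

theorem hom_inv (hψ : ψ ∈ homs S U) (hg : g ∈ U) : ψ g⁻¹ = -ψ g := by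
  have h := hψ.2.2 g hg g⁻¹ (U.inv_mem hg)
  rw [mul_inv_cancel, hom_one hψ] at h
  exact (neg_eq_of_add_eq_zero_right h.symm).symm

theorem hom_conj (hψ : ψ ∈ homs S U) (hg : g ∈ U) (hh : h ∈ U) : ψ (g * h * g⁻¹) = ψ h := by
  rw [hψ.2.2 _ (U.mul_mem hg hh) _ (U.inv_mem hg), hψ.2.2 _ hg _ hh, hom_inv hψ hg]
  ring

theorem hom_pow (hψ : ψ ∈ homs S U) (hg : g ∈ U) (n : ℕ) : ψ (g ^ n) = n * ψ g := by
  induction n with
  | zero => simp [hom_one hψ]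
  | succ n ih =>
    rw [pow_succ, hψ.2.2 _ (U.pow_mem hg n) _ hg, ih]
    push_cast
    ring

theorem Idx.conj_mem (hi : Idx S V U χ s) (hg : g ∈ U) (hv : v ∈ V) : g * v * g⁻¹ ∈ V := by
  have hvU := hi.le hv
  rw [hi.ker _ (U.mul_mem (U.mul_mem hg hvU) (U.inv_mem hg)), hom_conj hi.hom hg hvU,
    ← hi.ker v hvU]
  exact hv

theorem Idx.dec_mem (hi : Idx S V U χ s) (hg : g ∈ U) : g * (s ^ (χ g).val)⁻¹ ∈ V := by
  have hp := U.pow_mem hi.sU (χ g).val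
  rw [hi.ker _ (U.mul_mem hg (U.inv_mem hp)), hi.hom.2.2 _ hg _ (U.inv_mem hp),
    hom_inv hi.hom hp, hom_pow hi.hom hi.sU, hi.sχ, ZMod.natCast_zmod_val]
  ring

theorem Idx.cube_mem (hi : Idx S V U χ s) : s ^ 3 ∈ V := by
  rw [hi.ker _ (U.pow_mem hi.sU 3), hom_pow hi.hom hi.sU, hi.sχ]
  decide

theorem Idx.index (hi : Idx S V U χ s) : V.index = 3 * U.index := by
  let F : U →* Multiplicative (ZMod 3) :=
    { toFun := fun u => Multiplicative.ofAdd (χ u)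
      map_one' := by
        show Multiplicative.ofAdd (χ 1) = 1
        rw [hom_one hi.hom]
        rfl
      map_mul' := by
        intro a b
        show Multiplicative.ofAdd (χ ((a : G) * b)) = _
        rw [hi.hom.2.2 a a.2 b b.2]
        rfl }
  have hF : Function.Surjective F := by
    intro x
    refine ⟨⟨s ^ (Multiplicative.toAdd x).val, U.pow_mem hi.sU _⟩, ?_⟩
    show Multiplicative.ofAdd (χ (s ^ (Multiplicative.toAdd x).val)) = x
    rw [hom_pow hi.hom hi.sU, hi.sχ, ZMod.natCast_zmod_val, mul_one]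
    rfl
  have hk : V.subgroupOf U = F.ker := by
    ext u
    rw [Subgroup.mem_subgroupOf, MonoidHom.mem_ker, hi.ker u u.2]
    exact Iff.rfl
  have h3 : V.relIndex U = 3 := by
    rw [Subgroup.relIndex, hk, Subgroup.index_ker, MonoidHom.range_eq_top.2 hF]
    rw [Nat.card_congr (Subgroup.topEquiv (G := Multiplicative (ZMod 3))).toEquiv]
    rw [Nat.card_congr Multiplicative.toAdd, Nat.card_zmod]
  rw [← Subgroup.relIndex_mul_index hi.le, h3]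

theorem Idx.opnU (hi : Idx S V U χ s) : Opn S U := by
  obtain ⟨W, hW, h⟩ := hi.opn
  exact ⟨W, hW, h.trans hi.le⟩

private theorem exists_idx_aux (hU : Opn S U) (hχ : χ ∈ homs S U) :
    ∃ V : Subgroup G, V ≤ U ∧ Opn S V ∧ ∀ g ∈ U, (g ∈ V ↔ χ g = 0) := by
  refine ⟨
    { carrier := {g | g ∈ U ∧ χ g = 0}
      mul_mem' := by
        rintro a b ⟨ha, ha'⟩ ⟨hb, hb'⟩
        exact ⟨U.mul_mem ha hb, by rw [hχ.2.2 a ha b hb, ha', hb', add_zero]⟩
      one_mem' := ⟨U.one_mem, hom_one hχ⟩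
      inv_mem' := by
        rintro a ⟨ha, ha'⟩
        exact ⟨U.inv_mem ha, by rw [hom_inv hχ ha, ha', neg_zero]⟩ }, ?_, ?_, ?_⟩
  · intro g hg
    exact hg.1
  · obtain ⟨W, hW, h1⟩ := hχ.1
    obtain ⟨W', hW', hle⟩ := hU
    refine ⟨W ⊓ W', S.inf hW hW', fun w hw => ⟨hle hw.2, ?_⟩⟩
    have := h1 1 w hw.1
    rwa [one_mul, hom_one hχ] at this
  · intro g hg
    exact ⟨fun h => h.2, fun h => ⟨hg, h⟩⟩

private theorem exists_one (hχ : χ ∈ homs S U) (h0 : χ ≠ 0) : ∃ s ∈ U, χ s = 1 := by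
  obtain ⟨a, ha⟩ : ∃ a, χ a ≠ 0 := by
    by_contra hcon
    push Not at hcon
    exact h0 (funext hcon)
  have haU : a ∈ U := by
    by_contra h
    exact ha (hχ.2.1 a h)
  refine ⟨a ^ (χ a)⁻¹.val, U.pow_mem haU _, ?_⟩
  rw [hom_pow hχ haU, ZMod.natCast_zmod_val]
  have : Fact (Nat.Prime 3) := ⟨Nat.prime_three⟩
  exact inv_mul_cancel₀ ha

theorem exists_idx (hU : Opn S U) (hχ : χ ∈ homs S U) (h0 : χ ≠ 0) :
    ∃ (V : Subgroup G) (s : G), Idx S V U χ s := by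
  obtain ⟨V, hle, hopn, hker⟩ := exists_idx_aux hU hχ
  obtain ⟨s, hs, hs1⟩ := exists_one hχ h0
  exact ⟨V, s, hle, hopn, hχ, hker, hs, hs1⟩

theorem exists_idx_ker (hU : Opn S U) (hχ : χ ∈ homs S U) (h0 : χ ≠ 0) (hω : ω ∈ homs S U)
    (hn : ∀ a : ZMod 3, ω ≠ a • χ) : ∃ (V : Subgroup G) (s : G), Idx S V U χ s ∧ ω s = 0 := by
  obtain ⟨V, hle, hopn, hker⟩ := exists_idx_aux hU hχ
  obtain ⟨s, hs, hs1⟩ := exists_one hχ h0
  have : Fact (Nat.Prime 3) := ⟨Nat.prime_three⟩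
  obtain ⟨v, hv, hωv⟩ : ∃ v ∈ V, ω v ≠ 0 := by
    by_contra hcon
    push Not at hcon
    apply hn (ω s)
    funext g
    simp only [Pi.smul_apply, smul_eq_mul]
    by_cases hg : g ∈ U
    · have hp := U.pow_mem hs (χ g).val
      have hm : g * (s ^ (χ g).val)⁻¹ ∈ V := by
        rw [hker _ (U.mul_mem hg (U.inv_mem hp)), hχ.2.2 _ hg _ (U.inv_mem hp),
          hom_inv hχ hp, hom_pow hχ hs, hs1, ZMod.natCast_zmod_val]
        ring
      have h1 := hcon _ hm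
      rw [hω.2.2 _ hg _ (U.inv_mem hp), hom_inv hω hp, hom_pow hω hs,
        ZMod.natCast_zmod_val] at h1
      linear_combination h1
    · rw [hω.2.1 g hg, hχ.2.1 g hg, mul_zero]
  have hvU := hle hv
  set k : ZMod 3 := -(ω s) * (ω v)⁻¹ with hk
  refine ⟨V, s * v ^ k.val, ⟨hle, hopn, hχ, hker, U.mul_mem hs (U.pow_mem hvU _), ?_⟩, ?_⟩
  · rw [hχ.2.2 _ hs _ (U.pow_mem hvU _), hom_pow hχ hvU, (hker v hvU).1 hv, hs1]
    ring
  · rw [hω.2.2 _ hs _ (U.pow_mem hvU _), hom_pow hω hvU, ZMod.natCast_zmod_val, hk]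
    field_simp
    ring

theorem Idx.ext_zero (hi : Idx S V U χ s) (hω : ω ∈ homs S U) (h0 : ∀ v ∈ V, ω v = 0) :
    ω = ω s • χ := by
  funext g
  simp only [Pi.smul_apply, smul_eq_mul]
  by_cases hg : g ∈ U
  · have hp := U.pow_mem hi.sU (χ g).val
    have h1 := h0 _ (hi.dec_mem hg)
    rw [hω.2.2 _ hg _ (U.inv_mem hp), hom_inv hω hp, hom_pow hω hi.sU,
      ZMod.natCast_zmod_val] at h1
    linear_combination h1
  · rw [hω.2.1 g hg, hi.hom.2.1 g hg, mul_zero]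

theorem opn_index_ne (hU : Opn S U) : U.index ≠ 0 := by
  obtain ⟨W, hW, hle⟩ := hU
  intro h
  apply S.index hW
  have h1 := Subgroup.relIndex_mul_index hle
  rw [← h1, h, mul_zero]

theorem sm1_in {A : Type*} {f : G → A} (hf : Sm1 S f) (hV : Opn S V) :
    ∃ W, S.mem W ∧ W ≤ V ∧ W.Normal ∧ ∀ g, ∀ w ∈ W, f (g * w) = f g := by
  obtain ⟨W, hW, h1⟩ := hf
  obtain ⟨W', hW', h2⟩ := hV
  exact ⟨W ⊓ W', S.inf hW hW', inf_le_right.trans h2, S.normal (S.inf hW hW'),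
    fun g w hw => h1 g w hw.1⟩

theorem sm2_in {A : Type*} {f : G → G → A} (hf : Sm2 S f) (hV : Opn S V) :
    ∃ W, S.mem W ∧ W ≤ V ∧ W.Normal ∧ ∀ g h, ∀ w ∈ W, ∀ w' ∈ W, f (g * w) (h * w') = f g h := by
  obtain ⟨W, hW, h1⟩ := hf
  obtain ⟨W', hW', h2⟩ := hV
  exact ⟨W ⊓ W', S.inf hW hW', inf_le_right.trans h2, S.normal (S.inf hW hW'),
    fun g h w hw w' hw' => h1 g h w hw.1 w' hw'.1⟩

open scoped Classical in
theorem res_mem (hi : Idx S V U χ s) (hω : ω ∈ homs S U) :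
    (fun g => if g ∈ V then ω g else 0) ∈ homs S V := by
  obtain ⟨W, hW, hWV, hWn, h1⟩ := sm1_in hω.1 hi.opn
  refine ⟨⟨W, hW, fun g w hw => ?_⟩, fun g hg => if_neg hg, fun g hg h hh => ?_⟩
  · have hm : g * w ∈ V ↔ g ∈ V := Subgroup.mul_mem_cancel_right V (hWV hw)
    simp only [hm, h1 g w hw]
  · simp only [if_pos hg, if_pos hh, if_pos (V.mul_mem hg hh)]
    exact hω.2.2 g (hi.le hg) h (hi.le hh)

theorem tw_mem (hi : Idx S V U χ s) (hψ : ψ ∈ homs S V) : tw s ψ ∈ homs S V := by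
  obtain ⟨W, hW, hWV, hWn, h1⟩ := sm1_in hψ.1 hi.opn
  have hc : ∀ g, s * g * s⁻¹ ∈ V ↔ g ∈ V := fun g => by
    constructor
    · intro h
      have := hi.conj_mem (U.inv_mem hi.sU) h
      rwa [show s⁻¹ * (s * g * s⁻¹) * s⁻¹⁻¹ = g by group] at this
    · exact hi.conj_mem hi.sU
  refine ⟨⟨W, hW, fun g w hw => ?_⟩, fun g hg => ?_, fun g hg h hh => ?_⟩
  · show ψ (s * (g * w) * s⁻¹) - ψ (g * w) = ψ (s * g * s⁻¹) - ψ g
    rw [show s * (g * w) * s⁻¹ = (s * g * s⁻¹) * (s * w * s⁻¹) by group,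
      h1 _ _ (hWn.conj_mem w hw s), h1 _ _ hw]
  · show ψ (s * g * s⁻¹) - ψ g = 0
    rw [hψ.2.1 _ (fun h => hg ((hc g).1 h)), hψ.2.1 _ hg, sub_zero]
  · show ψ (s * (g * h) * s⁻¹) - ψ (g * h) = (ψ (s * g * s⁻¹) - ψ g) + (ψ (s * h * s⁻¹) - ψ h)
    rw [show s * (g * h) * s⁻¹ = (s * g * s⁻¹) * (s * h * s⁻¹) by group,
      hψ.2.2 _ ((hc g).2 hg) _ ((hc h).2 hh), hψ.2.2 _ hg _ hh]
    ring

theorem tw_three (hi : Idx S V U χ s) (hψ : ψ ∈ homs S V) : tw s (tw s (tw s ψ)) = 0 := by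
  funext g
  by_cases hg : g ∈ V
  · show ((ψ (s * (s * (s * g * s⁻¹) * s⁻¹) * s⁻¹) - ψ (s * (s * g * s⁻¹) * s⁻¹)) -
      (ψ (s * (s * g * s⁻¹) * s⁻¹) - ψ (s * g * s⁻¹))) -
      ((ψ (s * (s * g * s⁻¹) * s⁻¹) - ψ (s * g * s⁻¹)) - (ψ (s * g * s⁻¹) - ψ g)) = 0
    have h1 : s * (s * (s * g * s⁻¹) * s⁻¹) * s⁻¹ = s ^ 3 * g * (s ^ 3)⁻¹ := by
      simp only [pow_succ, pow_zero, one_mul, mul_inv_rev, mul_assoc]
    rw [h1, hom_conj hψ hi.cube_mem hg]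
    have h3 : (3 : ZMod 3) = 0 := by decide
    linear_combination (-ψ (s * (s * g * s⁻¹) * s⁻¹) + ψ (s * g * s⁻¹)) * h3
  · exact (tw_mem hi (tw_mem hi (tw_mem hi hψ))).2.1 g hg

theorem tw_cube (ψ : G → ZMod 3) (s : G) : tw s ψ (s ^ 3) = 0 := by
  show ψ (s * s ^ 3 * s⁻¹) - ψ (s ^ 3) = 0
  rw [show s * s ^ 3 * s⁻¹ = s ^ 3 by group, sub_self]

end Pool.Agent.Work.MP_787500_nt.P3
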