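import Mathlib
import Pool.Agent.Work.MP_787500_nt.P3.A_Idx
import Pool.Agent.Work.MP_787500_nt.H67_Climb

/-!
# Module A_CHAIN (size S-M): a proper open subgroup lies in the kernel of a homomorphism

* `exists_hom`: `H ≤ U` open, `H ≠ U`, `Three S`. Let `W ≤ H` be in the system; the image of `H` in
  the finite group `U / W` (order divides `W.index`, a power of three) is a proper subgroup. A proper
  subgroup of a finite 3-group lies in a normal subgroup of index three (maximal subgroups of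
  nilpotent groups are normal, `IsCoatom`, `NormalizerCondition`, or see `frattini` in
  `Pool.Agent.Work.MP_787500_nt.H67_Climb`, or the file `PA/Chain.lean` for the case of index two);
  this gives a homomorphism to `ZMod 3` with the image of `H` in the kernel. Extend by zero off `U`.
* `exists_cob`: a smooth cocycle is a coboundary on some member of the system: choose `W ≤ U` in the
  system with `α (g w) (h w') = α g h`; on `W`, `α w w' = α 1 1`, the coboundary of the constant
  function `α 1 1` (`z + z - z = z`).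
* `relIndex_lt`: `V` the kernel of `χ ≠ 0`, then `W.relIndex V < W.relIndex U` (`Idx.index`).
-/

set_option autoImplicit false

namespace Pool.Agent.Work.MP_787500_nt.P3

variable {G : Type*} [Group G] {S : Sys G} {U : Subgroup G}

theorem exists_hom (h3 : Three S) {H : Subgroup G} (hH : Opn S H) (hle : H ≤ U) (hne : H ≠ U) :
    ∃ χ ∈ homs S U, χ ≠ 0 ∧ ∀ h ∈ H, χ h = 0 := by
  classical
  have h10 : (1 : ZMod 3) ≠ 0 := by decide
  obtain ⟨W, hW, hWH⟩ := hH
  have hWn : W.Normal := S.normal hW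
  have hp3 : Fact (Nat.Prime 3) := ⟨Nat.prime_three⟩
  obtain ⟨m, hm⟩ := h3 W hW
  have hWf : W.FiniteIndex := ⟨S.index hW⟩
  have hfin : Finite (U ⧸ W.subgroupOf U) := Subgroup.finite_quotient_of_finiteIndex
  -- a normal subgroup of index three of `U` containing `H`
  obtain ⟨N, hNn, hWN, hN3, hHN⟩ : ∃ N : Subgroup U, N.Normal ∧ W.subgroupOf U ≤ N ∧
      N.index = 3 ∧ H.subgroupOf U ≤ N := by
    by_contra hcon
    push Not at hcon
    apply hne
    refine le_antisymm hle fun g hg => ?_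
    obtain ⟨d, hd, hdg⟩ := OddP.frattini (p := 3) (W.subgroupOf U)
      (fun x => ⟨m, by
        rw [Subgroup.mem_subgroupOf, Subgroup.coe_pow, ← hm]
        exact Subgroup.pow_index_mem W (x : G)⟩) (H.subgroupOf U)
      (fun N h1 h2 h4 h5 => hcon N h1 h2 h4 h5) ⟨g, hg⟩
    rw [Subgroup.mem_subgroupOf] at hd hdg
    have h6 := H.mul_mem hd (hWH hdg)
    simpa using h6
  have hcard : Nat.card (U ⧸ N) = 3 := hN3
  have hcard' : Nat.card (Multiplicative (ZMod 3)) = 3 := by
    rw [Nat.card_congr Multiplicative.toAdd, Nat.card_zmod]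
  let e : (U ⧸ N) ≃* Multiplicative (ZMod 3) := mulEquivOfPrimeCardEq hcard hcard'
  let φ : U →* Multiplicative (ZMod 3) := e.toMonoidHom.comp (QuotientGroup.mk' N)
  have hφN : ∀ u : U, φ u = 1 ↔ u ∈ N := by
    intro u
    show e (QuotientGroup.mk' N u) = 1 ↔ _
    rw [MulEquiv.map_eq_one_iff]
    exact QuotientGroup.eq_one_iff u
  set χ : G → ZMod 3 := fun g => if hg : g ∈ U then Multiplicative.toAdd (φ ⟨g, hg⟩) else 0
    with hχ
  have hχU : ∀ g (hg : g ∈ U), χ g = Multiplicative.toAdd (φ ⟨g, hg⟩) := fun g hg => dif_pos hg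
  have hχo : ∀ g, g ∉ U → χ g = 0 := fun g hg => dif_neg hg
  have hχN : ∀ g (hg : g ∈ U), (⟨g, hg⟩ : U) ∈ N → χ g = 0 := by
    intro g hg h
    rw [hχU g hg, (hφN _).2 h]
    rfl
  have hadd : ∀ g ∈ U, ∀ h ∈ U, χ (g * h) = χ g + χ h := by
    intro g hg h hh
    rw [hχU g hg, hχU h hh, hχU _ (U.mul_mem hg hh), ← toAdd_mul, ← map_mul]
    rfl
  refine ⟨χ, ⟨⟨W, hW, fun g w hw => ?_⟩, hχo, hadd⟩, ?_, fun h hh => ?_⟩
  · have hwU : w ∈ U := hle (hWH hw)
    have hmem : g * w ∈ U ↔ g ∈ U := Subgroup.mul_mem_cancel_right U hwU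
    by_cases hg : g ∈ U
    · rw [hadd g hg w hwU, hχN w hwU (hWN hw), add_zero]
    · rw [hχo g hg, hχo _ (fun h => hg (hmem.1 h))]
  · intro h0
    have htop : N = ⊤ := by
      rw [eq_top_iff]
      intro u _
      rw [← hφN]
      have h5 : χ u = 0 := by rw [h0]; rfl
      rw [hχU u u.2] at h5
      exact Multiplicative.toAdd.injective (h5.trans toAdd_one.symm)
    rw [htop, Subgroup.index_top] at hN3
    norm_num at hN3
  · exact hχN h (hle hh) (hHN hh)

theorem exists_cob (hU : Opn S U) {α : G → G → ZMod 3} (hα : Coc S U α) :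
    ∃ W, S.mem W ∧ W ≤ U ∧ Cob S W α := by
  obtain ⟨W₁, hW₁, h1⟩ := hU
  obtain ⟨⟨W₂, hW₂, h2⟩, -⟩ := hα
  refine ⟨W₁ ⊓ W₂, S.inf hW₁ hW₂, inf_le_left.trans h1, fun _ => α 1 1, ?_, ?_⟩
  · exact ⟨W₁, hW₁, fun _ _ _ => rfl⟩
  · intro g hg h hh
    have := h2 1 1 g hg.2 h hh.2
    rw [one_mul, one_mul] at this
    rw [this]
    ring

theorem relIndex_lt {W V : Subgroup G} {χ : G → ZMod 3} {s : G} (hi : Idx S V U χ s)
    (hW : S.mem W) (hWV : W ≤ V) : W.relIndex V < W.relIndex U := by
  have h1 := Subgroup.relIndex_mul_relIndex W V U hWV hi.le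
  have h2 := Subgroup.relIndex_mul_index hi.le
  have h3 := Subgroup.relIndex_mul_index hWV
  have h4 : U.index ≠ 0 := opn_index_ne hi.opnU
  have h5 : W.index ≠ 0 := S.index hW
  have h6 : V.relIndex U = 3 := by
    rw [hi.index] at h2
    exact Nat.eq_of_mul_eq_mul_right (Nat.pos_of_ne_zero h4) h2
  have h7 : W.relIndex V ≠ 0 := by
    intro h
    rw [h, zero_mul] at h3
    exact h5 h3.symm
  rw [h6] at h1
  omega

end Pool.Agent.Work.MP_787500_nt.P3
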