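import Mathlib
import Pool.Agent.Work.MP_787500_nt.P3.A_Idx

/-!
# Module A_COR (size S-M): the transfer in degree one

`Idx S V U χ s`, `ψ ∈ homs S V`, `cor U χ s ψ g = Σ_j ψ (a j g)` for `g ∈ U`, where
`a j g = s ^ j * g * (s ^ (j + χ g))⁻¹ ∈ V` (exponents are the representatives `0, 1, 2`).

* `tr_mem`: `χ (a j g) = 0`; `tr_mul`: `a j (g h) = a j g * a (j + χ g) h` (for `g, h ∈ U`).
* `cor_mem`: by `tr_mul` and the substitution `j ↦ j + χ g` in the second sum. Smoothness: take `W`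
  normal in the system, inside `V`, with `ψ` constant on cosets of `W`: `a j (g w) = a j g * (conjugate
  of w)` and `χ (g w) = χ g`; off `U` it is zero (and `g w ∈ U ↔ g ∈ U`).
* `cor_V`: for `g ∈ V` the three terms are `ψ (s ^ j g s ^ (-j))`, and
  `1 + σ + σ ^ 2 = (σ - 1) ^ 2` modulo 3.
* `cor_s`: `a 0 s = 1`, `a 1 s = 1`, `a 2 s = s ^ 3`.
* `cor_zero_iff`: an element of `homs S U` which vanishes on `V` and at `s` is zero.
-/

set_option autoImplicit false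

namespace Pool.Agent.Work.MP_787500_nt.P3

variable {G : Type*} [Group G] {S : Sys G} {V U : Subgroup G} {χ ψ : G → ZMod 3} {s : G}

private theorem val_pow (hi : Idx S V U χ s) (j : ZMod 3) : χ (s ^ j.val) = j := by
  rw [hom_pow hi.hom hi.sU, hi.sχ, ZMod.natCast_zmod_val, mul_one]

theorem tr_mem (hi : Idx S V U χ s) {g : G} (hg : g ∈ U) (j : ZMod 3) :
    s ^ j.val * g * (s ^ (j + χ g).val)⁻¹ ∈ V := by
  have h1 := U.pow_mem hi.sU j.val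
  have h2 := U.pow_mem hi.sU (j + χ g).val
  rw [hi.ker _ (U.mul_mem (U.mul_mem h1 hg) (U.inv_mem h2)),
    hi.hom.2.2 _ (U.mul_mem h1 hg) _ (U.inv_mem h2), hi.hom.2.2 _ h1 _ hg, hom_inv hi.hom h2,
    val_pow hi, val_pow hi]
  ring

theorem tr_mul (hi : Idx S V U χ s) {g h : G} (hg : g ∈ U) (hh : h ∈ U) (j : ZMod 3) :
    s ^ j.val * (g * h) * (s ^ (j + χ (g * h)).val)⁻¹ =
      s ^ j.val * g * (s ^ (j + χ g).val)⁻¹ *
        (s ^ (j + χ g).val * h * (s ^ ((j + χ g) + χ h).val)⁻¹) := by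
  have h1 : j + χ (g * h) = (j + χ g) + χ h := by
    rw [hi.hom.2.2 g hg h hh]
    ring
  rw [h1]
  group

theorem cor_mem (hi : Idx S V U χ s) (hψ : ψ ∈ homs S V) : cor U χ s ψ ∈ homs S U := by
  classical
  have happ : ∀ g ∈ U, cor U χ s ψ g =
      ∑ j : ZMod 3, ψ (s ^ j.val * g * (s ^ (j + χ g).val)⁻¹) := fun g hg => if_pos hg
  have hoff : ∀ g, g ∉ U → cor U χ s ψ g = 0 := fun g hg => if_neg hg
  obtain ⟨W, hW, hWV, hWn, h1⟩ := sm1_in hψ.1 hi.opn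
  obtain ⟨W', hW', h1'⟩ := hi.hom.1
  refine ⟨⟨W ⊓ W', S.inf hW hW', fun g w hw => ?_⟩, hoff, fun g hg h hh => ?_⟩
  · have hm : g * w ∈ U ↔ g ∈ U := Subgroup.mul_mem_cancel_right U (hi.le (hWV hw.1))
    by_cases hg : g ∈ U
    · rw [happ g hg, happ _ (hm.2 hg), h1' g w hw.2]
      refine Finset.sum_congr rfl fun j _ => ?_
      rw [show s ^ j.val * (g * w) * (s ^ (j + χ g).val)⁻¹ =
        (s ^ j.val * g * (s ^ (j + χ g).val)⁻¹) *
          (s ^ (j + χ g).val * w * (s ^ (j + χ g).val)⁻¹) by group]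
      exact h1 _ _ (hWn.conj_mem w hw.1 _)
    · rw [hoff g hg, hoff _ (fun h => hg (hm.1 h))]
  · rw [happ g hg, happ h hh, happ _ (U.mul_mem hg hh)]
    have h2 : ∑ j : ZMod 3, ψ (s ^ j.val * h * (s ^ (j + χ h).val)⁻¹) =
        ∑ j : ZMod 3, ψ (s ^ (j + χ g).val * h * (s ^ ((j + χ g) + χ h).val)⁻¹) :=
      (Equiv.sum_comp (Equiv.addRight (χ g))
        (fun j : ZMod 3 => ψ (s ^ j.val * h * (s ^ (j + χ h).val)⁻¹))).symm
    rw [h2, ← Finset.sum_add_distrib]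
    refine Finset.sum_congr rfl fun j _ => ?_
    rw [tr_mul hi hg hh, hψ.2.2 _ (tr_mem hi hg j) _ (tr_mem hi hh (j + χ g))]

theorem cor_V (hi : Idx S V U χ s) (hψ : ψ ∈ homs S V) {g : G} (hg : g ∈ V) :
    cor U χ s ψ g = tw s (tw s ψ) g := by
  classical
  have happ : cor U χ s ψ g =
      ∑ j : ZMod 3, ψ (s ^ j.val * g * (s ^ (j + χ g).val)⁻¹) := if_pos (hi.le hg)
  rw [happ, (hi.ker g (hi.le hg)).1 hg]
  have h3 : ∀ F : ZMod 3 → ZMod 3, ∑ j : ZMod 3, F j = F 0 + F 1 + F 2 := fun F =>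
    Fin.sum_univ_three F
  rw [h3]
  show ψ (s ^ 0 * g * (s ^ 0)⁻¹) + ψ (s ^ 1 * g * (s ^ 1)⁻¹) + ψ (s ^ 2 * g * (s ^ 2)⁻¹) =
    (ψ (s * (s * g * s⁻¹) * s⁻¹) - ψ (s * g * s⁻¹)) - (ψ (s * g * s⁻¹) - ψ g)
  rw [pow_zero, pow_one, show s ^ 2 * g * (s ^ 2)⁻¹ = s * (s * g * s⁻¹) * s⁻¹ by
    simp only [pow_succ, pow_zero, one_mul, mul_inv_rev, mul_assoc], one_mul, inv_one, mul_one]
  have h3 : (3 : ZMod 3) = 0 := by decide
  linear_combination (ψ (s * g * s⁻¹)) * h3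

theorem cor_s (hi : Idx S V U χ s) (hψ : ψ ∈ homs S V) : cor U χ s ψ s = ψ (s ^ 3) := by
  classical
  have happ : cor U χ s ψ s =
      ∑ j : ZMod 3, ψ (s ^ j.val * s * (s ^ (j + χ s).val)⁻¹) := if_pos hi.sU
  rw [happ, hi.sχ]
  have h3 : ∀ F : ZMod 3 → ZMod 3, ∑ j : ZMod 3, F j = F 0 + F 1 + F 2 := fun F =>
    Fin.sum_univ_three F
  rw [h3]
  show ψ (s ^ 0 * s * (s ^ 1)⁻¹) + ψ (s ^ 1 * s * (s ^ 2)⁻¹) + ψ (s ^ 2 * s * (s ^ 0)⁻¹) = _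
  rw [show s ^ 0 * s * (s ^ 1)⁻¹ = 1 by group, show s ^ 1 * s * (s ^ 2)⁻¹ = 1 by group,
    show s ^ 2 * s * (s ^ 0)⁻¹ = s ^ 3 by group, hom_one hψ]
  ring

end Pool.Agent.Work.MP_787500_nt.P3
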