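import Mathlib
import Pool.Agent.Work.MP_787500_nt.P3.A_Cor

/-!
# Module A_NOTRES (size M): the transfer in degree two (only what is needed)

`Idx S V U χ s`. For `j : ZMod 3` and `g ∈ U` let `a j g = s ^ j g (s ^ (j + χ g))⁻¹ ∈ V` (`tr_mem`);
`a j (g h) = a j g * a (j + χ g) h` (`tr_mul`). For `f : G → G → ZMod 3` put
`T f g h = Σ_j f (a j g) (a (j + χ g) h)`, for `z : G → ZMod 3` put `T z g = Σ_j z (a j g)` (zero off `U`).

1. If `f = δ z` on `V` (`δ z g h = z g + z h - z (g h)`) then `T f = δ (T z)` on `U`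
   (`Σ_j z (a (j + χ g) h) = Σ_j z (a j h)`, `Equiv.sum_comp`).
2. If `α` is a cocycle on `U` then `T α` is a coboundary on `U`: let
   `w j g = α (s ^ j) g - α (a j g) (s ^ (j + χ g))`. Then, for each `j`, with `j' = j + χ g`,
   `α (a j g) (a j' h) = α g h - w j g - w j' h + w j (g h)`
   (the cocycle identity at `(s ^ j, g, h)`, at `(a j g, s ^ j', h)` and at
   `(a j g, a j' h, s ^ (j' + χ h))`, using `a j g * s ^ j' = s ^ j * g`). Sum over `j`:
   `T α = 3 α - δ W = - δ W` with `W g = Σ_j w j g`.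
3. For `ψ ∈ homs S V`, `ω ∈ homs S U` with `ω s = 0`: `ω (a j g) = ω g`, so
   `T (cup ψ ω) g h = (Σ_j ψ (a j g)) ω h = cor U χ s ψ g * ω h`.

So if `cup ψ ω - α = δ z` on `V` then `cup (cor ψ) ω = T (cup ψ ω) = T α + δ (T z)` is a coboundary on
`U`. Smoothness of `T z` and of `W`: choose `W₀` normal in the system inside `V` for which `z`, `α` are
constant on cosets; `χ (g w) = χ g` and `a j (g w) = a j g * (conjugate of w)`.
-/

set_option autoImplicit false

namespace Pool.Agent.Work.MP_787500_nt.P3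

variable {G : Type*} [Group G] {S : Sys G} {V U : Subgroup G} {χ : G → ZMod 3} {s : G}

theorem notres (hi : Idx S V U χ s) {ψ ω : G → ZMod 3} (hψ : ψ ∈ homs S V) (hω : ω ∈ homs S U)
    (hωs : ω s = 0) {α : G → G → ZMod 3} (hα : Coc S U α)
    (hc : Cob S V (fun g h => cup ψ ω g h - α g h)) :
    Cob S U (cup (cor U χ s ψ) ω) := by
  classical
  obtain ⟨z, hz, hc⟩ := hc
  obtain ⟨hα2, hα3⟩ := hα
  have h3 : (3 : ZMod 3) = 0 := by decide
  have hsum : ∀ F : ZMod 3 → ZMod 3, ∑ j : ZMod 3, F j = F 0 + F 1 + F 2 := fun F =>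
    Fin.sum_univ_three F
  set a : ZMod 3 → G → G := fun j g => s ^ j.val * g * (s ^ (j + χ g).val)⁻¹ with ha
  have haV : ∀ j, ∀ g ∈ U, a j g ∈ V := fun j g hg => tr_mem hi hg j
  have hpU : ∀ j : ZMod 3, s ^ j.val ∈ U := fun j => U.pow_mem hi.sU _
  have hmul : ∀ j, ∀ g ∈ U, ∀ h ∈ U, a j (g * h) = a j g * a (j + χ g) h := fun j g hg h hh =>
    tr_mul hi hg hh j
  set w : ZMod 3 → G → ZMod 3 := fun j g => α (s ^ j.val) g - α (a j g) (s ^ (j + χ g).val)
    with hw
  refine ⟨fun g => (∑ j, z (a j g)) - ∑ j, w j g, ?_, fun g hg h hh => ?_⟩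
  · obtain ⟨W, hW, -, -, h1⟩ := sm1_in hz hi.opn
    obtain ⟨W', hW', -, -, h2⟩ := sm2_in hα2 hi.opn
    obtain ⟨W'', hW'', h4⟩ := hi.hom.1
    have hWn := S.normal (S.inf hW (S.inf hW' hW''))
    refine ⟨W ⊓ (W' ⊓ W''), S.inf hW (S.inf hW' hW''), fun g v hv => ?_⟩
    have h5 : ∀ j, a j (g * v) = a j g * (s ^ (j + χ g).val * v * (s ^ (j + χ g).val)⁻¹) := by
      intro j
      simp only [ha]
      rw [h4 g v hv.2.2]
      group
    have h6 : ∀ j : ZMod 3, s ^ (j + χ g).val * v * (s ^ (j + χ g).val)⁻¹ ∈ W ⊓ (W' ⊓ W'') :=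
      fun j => hWn.conj_mem v hv _
    simp only
    congr 1
    · refine Finset.sum_congr rfl fun j _ => ?_
      rw [h5, h1 _ _ (h6 j).1]
    · refine Finset.sum_congr rfl fun j _ => ?_
      simp only [hw]
      rw [h5, h4 g v hv.2.2]
      have h7 := h2 (s ^ j.val) g 1 W'.one_mem v hv.2.1
      have h8 := h2 (a j g) (s ^ (j + χ g).val) _ (h6 j).2.1 1 W'.one_mem
      rw [mul_one] at h7 h8
      rw [h7, h8]
  · -- the identity for each `j`
    have key : ∀ j, ψ (a j g) * ω h =
        α g h - w j g - w (j + χ g) h + w j (g * h) + (z (a j g) + z (a (j + χ g) h) -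
          z (a j (g * h))) := by
      intro j
      have hA := haV j g hg
      have hB := haV (j + χ g) h hh
      have e1 := hα3 (a j g) (hi.le hA) (a (j + χ g) h) (hi.le hB) _ (hpU (j + χ g + χ h))
      have e2 := hα3 (a j g) (hi.le hA) _ (hpU (j + χ g)) h hh
      have e3 := hα3 _ (hpU j) g hg h hh
      have e4 : ψ (a j g) * ω (a (j + χ g) h) - α (a j g) (a (j + χ g) h) =
          z (a j g) + z (a (j + χ g) h) - z (a j g * a (j + χ g) h) := hc _ hA _ hB
      have f1 : a (j + χ g) h * s ^ (j + χ g + χ h).val = s ^ (j + χ g).val * h := by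
        simp only [ha]
        group
      have f2 : a j g * s ^ (j + χ g).val = s ^ j.val * g := by
        simp only [ha]
        group
      have f3 : ω (a (j + χ g) h) = ω h := by
        have hB' : a (j + χ g) h * s ^ (j + χ g + χ h).val = s ^ (j + χ g).val * h := f1
        have k1 := hω.2.2 _ (hi.le hB) _ (hpU (j + χ g + χ h))
        have k2 := hω.2.2 _ (hpU (j + χ g)) h hh
        rw [hB', k2, hom_pow hω hi.sU, hom_pow hω hi.sU, hωs] at k1
        linear_combination -k1
      rw [← hmul j g hg h hh, f1] at e1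
      rw [f2] at e2
      rw [f3, ← hmul j g hg h hh] at e4
      have hχ : j + χ (g * h) = j + χ g + χ h := by
        rw [hi.hom.2.2 g hg h hh]
        ring
      simp only [hw]
      rw [hχ]
      linear_combination e4 + e1 - e2 + e3
    have hs1 : ∑ j, z (a (j + χ g) h) = ∑ j, z (a j h) :=
      Equiv.sum_comp (Equiv.addRight (χ g)) (fun j => z (a j h))
    have hs2 : ∑ j, w (j + χ g) h = ∑ j, w j h :=
      Equiv.sum_comp (Equiv.addRight (χ g)) (fun j => w j h)
    have hcor : cor U χ s ψ g = ∑ j, ψ (a j g) := if_pos hg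
    unfold cup
    rw [hcor, Finset.sum_mul, Finset.sum_congr rfl fun j _ => key j]
    simp only [Finset.sum_add_distrib, Finset.sum_sub_distrib]
    rw [hs1, hs2, Finset.sum_const, Finset.card_univ, ZMod.card, nsmul_eq_mul]
    push_cast
    linear_combination (α g h) * h3

end Pool.Agent.Work.MP_787500_nt.P3
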