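import Mathlib
import Pool.Agent.Work.MP_787500_nt.P3.A_Idx

/-!
# Decomposition `g = v s ^ i` (auxiliary file for the modules A_RES, A_SYMBKER, A_RESKER)
-/

set_option autoImplicit false

namespace Pool.Agent.Work.MP_787500_nt.P3

variable {G : Type*} [Group G] {S : Sys G} {V U : Subgroup G} {χ ψ ω : G → ZMod 3} {s g h : G}

/-- the part in `V` of `g` -/
def vp (χ : G → ZMod 3) (s g : G) : G := g * (s ^ (χ g).val)⁻¹

theorem vp_mem (hi : Idx S V U χ s) (hg : g ∈ U) : vp χ s g ∈ V := hi.dec_mem hg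

theorem vp_of_mem (hi : Idx S V U χ s) (hg : g ∈ V) : vp χ s g = g := by
  unfold vp
  rw [(hi.ker g (hi.le hg)).1 hg]
  show g * (s ^ 0)⁻¹ = g
  rw [pow_zero, inv_one, mul_one]

theorem chi_of_mem (hi : Idx S V U χ s) (hg : g ∈ V) : χ g = 0 := (hi.ker g (hi.le hg)).1 hg

theorem vp_mul_pow (χ : G → ZMod 3) (s g : G) : vp χ s g * s ^ (χ g).val = g := by
  unfold vp
  rw [inv_mul_cancel_right]

theorem chi_pow (hi : Idx S V U χ s) (a : ZMod 3) : χ (s ^ a.val) = a := by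
  rw [hom_pow hi.hom hi.sU, hi.sχ, ZMod.natCast_zmod_val, mul_one]

theorem chi_vp_pow (hi : Idx S V U χ s) {v : G} (hv : v ∈ V) (a : ZMod 3) :
    χ (v * s ^ a.val) = a := by
  rw [hi.hom.2.2 _ (hi.le hv) _ (U.pow_mem hi.sU _), chi_pow hi, chi_of_mem hi hv, zero_add]

theorem vp_pow (hi : Idx S V U χ s) {v : G} (hv : v ∈ V) (a : ZMod 3) :
    vp χ s (v * s ^ a.val) = v := by
  unfold vp
  rw [chi_vp_pow hi hv, mul_inv_cancel_right]

/-- the carry -/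
def cry (a b : ZMod 3) : ZMod 3 := if a.val + b.val < 3 then 0 else 1

theorem pow_carry (s : G) (a b : ZMod 3) :
    s ^ a.val * s ^ b.val * (s ^ (a + b).val)⁻¹ = if a.val + b.val < 3 then 1 else s ^ 3 := by
  have h : a.val + b.val = (a + b).val + (if a.val + b.val < 3 then 0 else 3) := by
    revert a b
    decide
  rw [← pow_add]
  nth_rw 1 [h]
  rw [add_comm, pow_add, mul_inv_cancel_right]
  split_ifs
  · rw [pow_zero]
  · rfl

theorem pow_carry_mem (hi : Idx S V U χ s) (a b : ZMod 3) :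
    s ^ a.val * s ^ b.val * (s ^ (a + b).val)⁻¹ ∈ V := by
  rw [pow_carry]
  split_ifs
  · exact V.one_mem
  · exact hi.cube_mem

theorem hom_carry (hψ : ψ ∈ homs S V) (s : G) (a b : ZMod 3) :
    ψ (s ^ a.val * s ^ b.val * (s ^ (a + b).val)⁻¹) = cry a b * ψ (s ^ 3) := by
  rw [pow_carry]
  unfold cry
  split_ifs
  · rw [hom_one hψ, zero_mul]
  · rw [one_mul]

theorem vp_mul (hi : Idx S V U χ s) (hg : g ∈ U) (hh : h ∈ U) :
    vp χ s (g * h) = vp χ s g * (s ^ (χ g).val * vp χ s h * (s ^ (χ g).val)⁻¹) *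
      (s ^ (χ g).val * s ^ (χ h).val * (s ^ (χ g + χ h).val)⁻¹) := by
  unfold vp
  rw [hi.hom.2.2 g hg h hh]
  group

theorem hom_vp_mul (hi : Idx S V U χ s) (hψ : ψ ∈ homs S V) (hg : g ∈ U) (hh : h ∈ U) :
    ψ (vp χ s (g * h)) = ψ (vp χ s g) + ψ (s ^ (χ g).val * vp χ s h * (s ^ (χ g).val)⁻¹) +
      cry (χ g) (χ h) * ψ (s ^ 3) := by
  have h1 := hi.conj_mem (U.pow_mem hi.sU (χ g).val) (vp_mem hi hh)
  rw [vp_mul hi hg hh, hψ.2.2 _ (V.mul_mem (vp_mem hi hg) h1) _ (pow_carry_mem hi _ _),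
    hψ.2.2 _ (vp_mem hi hg) _ h1, hom_carry hψ]

/-- conjugation by powers of `s` -/
theorem conj_val (ψ : G → ZMod 3) (s v : G) (a : ZMod 3) :
    ψ (s ^ a.val * v * (s ^ a.val)⁻¹) = ψ v + a * tw s ψ v - a * (a - 1) * tw s (tw s ψ) v := by
  have h3 : (3 : ZMod 3) = 0 := by decide
  have h0 : a = 0 ∨ a = 1 ∨ a = 2 := by
    revert a
    decide
  rcases h0 with rfl | rfl | rfl
  · show ψ (s ^ 0 * v * (s ^ 0)⁻¹) = _
    rw [pow_zero, one_mul, inv_one, mul_one]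
    ring
  · show ψ (s ^ 1 * v * (s ^ 1)⁻¹) = _
    rw [pow_one]
    show ψ (s * v * s⁻¹) = ψ v + 1 * (ψ (s * v * s⁻¹) - ψ v) - 1 * (1 - 1) * tw s (tw s ψ) v
    ring
  · show ψ (s ^ 2 * v * (s ^ 2)⁻¹) = ψ v + 2 * (ψ (s * v * s⁻¹) - ψ v) - 2 * (2 - 1) *
      ((ψ (s * (s * v * s⁻¹) * s⁻¹) - ψ (s * v * s⁻¹)) - (ψ (s * v * s⁻¹) - ψ v))
    rw [show s ^ 2 * v * (s ^ 2)⁻¹ = s * (s * v * s⁻¹) * s⁻¹ by
      simp only [pow_succ, pow_zero, one_mul, mul_inv_rev, mul_assoc]]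
    linear_combination (ψ (s * (s * v * s⁻¹) * s⁻¹) + ψ v - 2 * ψ (s * v * s⁻¹)) * h3

theorem sm1_fin {A : Type*} {F : ZMod 3 → G → A} (hF : ∀ a, Sm1 S (F a)) :
    ∃ W, S.mem W ∧ ∀ a g, ∀ w ∈ W, F a (g * w) = F a g := by
  obtain ⟨W, hW, h0⟩ := hF 0
  obtain ⟨W', hW', h1⟩ := hF 1
  obtain ⟨W'', hW'', h2⟩ := hF 2
  refine ⟨W ⊓ (W' ⊓ W''), S.inf hW (S.inf hW' hW''), fun a g w hw => ?_⟩
  have h3 : a = 0 ∨ a = 1 ∨ a = 2 := by
    revert a
    decide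
  rcases h3 with rfl | rfl | rfl
  · exact h0 g w hw.1
  · exact h1 g w hw.2.1
  · exact h2 g w hw.2.2

open scoped Classical in
/-- smoothness of functions defined through the decomposition -/
theorem sm1_vp (hi : Idx S V U χ s) {A : Type*} (F : ZMod 3 → G → A) (hF : ∀ a, Sm1 S (F a))
    (c : A) : Sm1 S (fun g => if g ∈ U then F (χ g) (vp χ s g) else c) := by
  obtain ⟨W, hW, h1⟩ := sm1_fin hF
  obtain ⟨W', hW', hWV, hWn, h2⟩ := sm1_in hi.hom.1 hi.opn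
  refine ⟨W ⊓ W', S.inf hW hW', fun g w hw => ?_⟩
  have hm : g * w ∈ U ↔ g ∈ U := Subgroup.mul_mem_cancel_right U (hi.le (hWV hw.2))
  by_cases hg : g ∈ U
  · simp only
    rw [if_pos hg, if_pos (hm.2 hg), h2 g w hw.2]
    have hn := S.normal (S.inf hW hW')
    have h3 := (hn.conj_mem w hw (s ^ (χ g).val)).1
    have h4 : vp χ s (g * w) = vp χ s g * (s ^ (χ g).val * w * (s ^ (χ g).val)⁻¹) := by
      unfold vp
      rw [h2 g w hw.2]
      group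
    rw [h4, h1 _ _ _ h3]
  · simp only
    rw [if_neg hg, if_neg (fun h => hg (hm.1 h))]

theorem Sm1.map {A B : Type*} {f : G → A} (hf : Sm1 S f) (φ : A → B) : Sm1 S (fun g => φ (f g)) := by
  obtain ⟨W, hW, h⟩ := hf
  exact ⟨W, hW, fun g w hw => by simp only [h g w hw]⟩

theorem Sm1.map₂ {A B C : Type*} {f : G → A} {f' : G → B} (hf : Sm1 S f) (hf' : Sm1 S f')
    (φ : A → B → C) : Sm1 S (fun g => φ (f g) (f' g)) := by
  obtain ⟨W, hW, h⟩ := hf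
  obtain ⟨W', hW', h'⟩ := hf'
  exact ⟨W ⊓ W', S.inf hW hW', fun g w hw => by simp only [h g w hw.1, h' g w hw.2]⟩

theorem Sm1.tr {A : Type*} {f : G → A} (hf : Sm1 S f) (t t' : G) :
    Sm1 S (fun g => f (t * g * t')) := by
  obtain ⟨W, hW, h⟩ := hf
  refine ⟨W, hW, fun g w hw => ?_⟩
  simp only
  rw [show t * (g * w) * t' = (t * g * t') * (t'⁻¹ * w * t') by group]
  have h2 := (S.normal hW).conj_mem w hw t'⁻¹
  rw [inv_inv] at h2
  exact h _ _ h2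

theorem Sm1.lmul {A : Type*} {f : G → A} (hf : Sm1 S f) (t : G) : Sm1 S (fun g => f (t * g)) := by
  obtain ⟨W, hW, h⟩ := hf
  refine ⟨W, hW, fun g w hw => ?_⟩
  simp only
  rw [← mul_assoc]
  exact h _ _ hw

theorem Sm1.const {A : Type*} (c : A) : Sm1 S (fun _ : G => c) := by
  obtain ⟨W, hW⟩ := S.ex
  exact ⟨W, hW, fun _ _ _ => rfl⟩

theorem Sm2.left {A : Type*} {f : G → G → A} (hf : Sm2 S f) (h : G) : Sm1 S (fun g => f g h) := by
  obtain ⟨W, hW, h1⟩ := hf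
  refine ⟨W, hW, fun g w hw => ?_⟩
  have := h1 g h w hw 1 W.one_mem
  rwa [mul_one] at this

theorem Sm2.right {A : Type*} {f : G → G → A} (hf : Sm2 S f) (g : G) : Sm1 S (fun h => f g h) := by
  obtain ⟨W, hW, h1⟩ := hf
  refine ⟨W, hW, fun h w hw => ?_⟩
  have := h1 g h 1 W.one_mem w hw
  rwa [mul_one] at this

open scoped Classical in
/-- smoothness of the extension by zero from `V` -/
theorem sm1_res (hV : Opn S V) {A : Type*} {f : G → A} (hf : Sm1 S f) (c : A) :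
    Sm1 S (fun g => if g ∈ V then f g else c) := by
  obtain ⟨W, hW, hWV, -, h1⟩ := sm1_in hf hV
  refine ⟨W, hW, fun g w hw => ?_⟩
  have hm : g * w ∈ V ↔ g ∈ V := Subgroup.mul_mem_cancel_right V (hWV hw)
  simp only [hm, h1 g w hw]

end Pool.Agent.Work.MP_787500_nt.P3
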