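import Mathlib
import Pool.Agent.Work.MP_787500_nt.P3.A_Idx
import Pool.Agent.Work.MP_787500_nt.P3.A_Dec

/-!
# Module A_RESKER (size M): classes that vanish on a subgroup of index three are cup products

`Idx S V U χ s`, `α` a smooth 2-cocycle on `U` modulo 3, a coboundary on `V`. `hsplit` is the conclusion
of `split` (module A_NONDEG). Then `α - cup χ ω` is a coboundary on `U` for some `ω ∈ homs S U`.

Proof. Everything in `U`. Representatives: `g = v s ^ i` with `i = (χ g).val`, `v ∈ V`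
(`Idx.dec_mem`).
1. We may assume `α = 0` on `V × V` (subtract `δ z`, `z` zero off `V`, smooth by `sm1_in`).
   Let `y (v s ^ i) = - α v (s ^ i)` (zero off `U`, `y = 0` on `V` as `α v 1 = 0`) and
   `f = α - δ y` on `U`, `δ y g h = y g + y h - y (g h)`. Then `f v g = 0` for `v ∈ V`, `g ∈ U`: the
   cocycle identity at `(u, v, s ^ j)` is `α u v + α (u v) (s ^ j) = α v (s ^ j) + α u (v s ^ j)` with
   `α u v = 0`. `f` is a cocycle on `U`; at `(v, g, h)`: `f (v g) h = f g h`.
2. Put `φ k = f s k` (`k ∈ U`), `c 1 = φ s`, `c 2 = φ (s ^ 2)`. Cocycle identity at `(s, h, k)`, `h ∈ V`: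
   `φ h + f (s h) k = f h k + φ (h k)` where `f h k = 0` and `f (s h) k = f ((s h s⁻¹) s) k = φ k`: so
   `φ (h k) = φ h + φ k`. So `ψ = φ` on `V` (zero off `V`) is in `homs S V`. At `(s, s, k)`:
   `f (s ^ 2) k = φ k + φ (s k) - φ s`. At `(s, s ^ 2, k)`, with `f (s ^ 3) k = 0`:
   `0 = φ k + f (s ^ 2) (s k) - f (s ^ 2) s`... explicitly (use the identity at `(s ^ 2, s, k)`:
   `f (s ^ 2) s + f (s ^ 3) k = f s k + f (s ^ 2) (s k)`), so
   `φ k + φ (s k) + φ (s ^ 2 k) = φ s + φ (s ^ 2)` for all `k ∈ U`. With `k = s`: `ψ (s ^ 3) = 0`. With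
   `k ∈ V`: `ψ k + ψ (s k s⁻¹) + ψ (s ^ 2 k s⁻²) = 0`, that is `tw s (tw s ψ) = 0`
   (`φ (s k) = φ (s k s⁻¹) + φ s` etc.; off `V` both sides vanish).
3. `hsplit` with `c = c 1 + c 2`: `ψ g = ω g + η (s g s⁻¹) - η g` on `V`, `η (s ^ 3) = c 1 + c 2`. Let
   `y' (v s ^ i) = - η v + d i`, `d 0 = d 1 = 0`, `d 2 = ω s - c 1`, zero off `U`, and
   `f' = cup χ ω + δ y'`. Then `f' v g = 0` for `v ∈ V`; `f' s v = ω v + d 1 - η v - (d 1 - η (s v s⁻¹))
   = ψ v`, `f' s s = ω s + 2 d 1 - d 2 = c 1`, `f' s (s ^ 2) = 2 ω s + d 1 + d 2 + η (s ^ 3) =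
   3 ω s - c 1 + c 1 + c 2 = c 2`. `f'` is a cocycle on `U` with `f' v g = 0`, so as in 2.,
   `f' s (v k) = f' s v + f' s k`, so `f' s k = φ k` for all `k ∈ U`; and `f' (s ^ 2) k` and
   `f (s ^ 2) k` are given by the same formula; so `f' = f` on `U` and
   `α - cup χ ω = δ (y + y')` on `U`. Smoothness: all functions are built from smooth ones and `W`
   normal in `V` (`g w (s ^ i)⁻¹ = g (s ^ i)⁻¹ * (conjugate of w)`, `χ (g w) = χ g`).
-/

set_option autoImplicit false

namespace Pool.Agent.Work.MP_787500_nt.P3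

variable {G : Type*} [Group G] {S : Sys G} {V U : Subgroup G} {χ : G → ZMod 3} {s : G}

private theorem res_cob_zero (hi : Idx S V U χ s)
    (hsplit : ∀ ψ ∈ homs S V, tw s (tw s ψ) = 0 → ψ (s ^ 3) = 0 → ∀ c : ZMod 3,
      ∃ ω ∈ homs S U, ∃ η ∈ homs S V, η (s ^ 3) = c ∧ ∀ g ∈ V, ψ g = ω g + tw s η g)
    {α : G → G → ZMod 3} (hα : Coc S U α) (h0 : ∀ g ∈ V, ∀ h ∈ V, α g h = 0) :
    ∃ ω ∈ homs S U, Cob S U (fun g h => α g h - cup χ ω g h) := by
  classical
  have h3 : (3 : ZMod 3) = 0 := by decide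
  obtain ⟨hs2, hcoc⟩ := hα
  have hp : ∀ a : ZMod 3, s ^ a.val ∈ U := fun a => U.pow_mem hi.sU _
  set y : G → ZMod 3 := fun g => if g ∈ U then -α (vp χ s g) (s ^ (χ g).val) else 0 with hy
  have hyU : ∀ g ∈ U, y g = -α (vp χ s g) (s ^ (χ g).val) := fun g hg => if_pos hg
  have hys : Sm1 S y :=
    sm1_vp hi (fun a v => -α v (s ^ a.val)) (fun a => (hs2.left _).map fun x => -x) 0
  have hyV : ∀ g ∈ V, y g = 0 := by
    intro g hg
    rw [hyU g (hi.le hg), vp_of_mem hi hg, chi_of_mem hi hg]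
    show -α g (s ^ 0) = 0
    rw [pow_zero, h0 g hg 1 V.one_mem, neg_zero]
  set f : G → G → ZMod 3 := fun g h => α g h - (y g + y h - y (g * h)) with hf
  have fcoc : ∀ g ∈ U, ∀ h ∈ U, ∀ k ∈ U, f g h + f (g * h) k = f h k + f g (h * k) := by
    intro g hg h hh k hk
    have h4 := hcoc g hg h hh k hk
    simp only [hf]
    rw [mul_assoc g h k]
    linear_combination h4
  have f0 : ∀ v ∈ V, ∀ g ∈ U, f v g = 0 := by
    intro v hv g hg
    have e1 : vp χ s (v * g) = v * vp χ s g := by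
      unfold vp
      rw [hi.hom.2.2 v (hi.le hv) g hg, chi_of_mem hi hv, zero_add, mul_assoc]
    have e2 : χ (v * g) = χ g := by
      rw [hi.hom.2.2 v (hi.le hv) g hg, chi_of_mem hi hv, zero_add]
    have e3 := hcoc v (hi.le hv) (vp χ s g) (hi.le (vp_mem hi hg)) _ (hp (χ g))
    rw [vp_mul_pow, h0 v hv _ (vp_mem hi hg)] at e3
    simp only [hf]
    rw [hyV v hv, hyU g hg, hyU _ (U.mul_mem (hi.le hv) hg), e1, e2]
    linear_combination -e3
  have f1 : ∀ v ∈ V, ∀ g ∈ U, ∀ h ∈ U, f (v * g) h = f g h := by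
    intro v hv g hg h hh
    have e := fcoc v (hi.le hv) g hg h hh
    rw [f0 v hv g hg, f0 v hv _ (U.mul_mem hg hh)] at e
    linear_combination e
  set φ : G → ZMod 3 := fun k => f s k with hφ
  have hφf : ∀ k, f s k = φ k := fun _ => rfl
  have hφs : Sm1 S φ := by
    have := (hs2.right s).map₂ (hys.map₂ (hys.lmul s) fun a b => y s + a - b) fun a b => a - b
    exact this
  have φ1 : ∀ h ∈ V, ∀ k ∈ U, φ (h * k) = φ h + φ k := by
    intro h hh k hk
    have e := fcoc s hi.sU h (hi.le hh) k hk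
    have e2 := f1 _ (hi.conj_mem hi.sU hh) s hi.sU k hk
    rw [inv_mul_cancel_right] at e2
    rw [e2, f0 h hh k hk, hφf, hφf, hφf] at e
    linear_combination -e
  have f2 : ∀ k ∈ U, f (s * s) k = φ k + φ (s * k) - φ s := by
    intro k hk
    have e := fcoc s hi.sU s hi.sU k hk
    rw [hφf, hφf, hφf] at e
    linear_combination e
  have hss : s * s ∈ U := U.mul_mem hi.sU hi.sU
  have hs3e : s * s * s = s ^ 3 := by rw [pow_succ, pow_two]
  have hs3 : s * s * s ∈ V := by
    rw [hs3e]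
    exact hi.cube_mem
  have φ2 : ∀ k ∈ U, φ k + φ (s * k) + φ (s * (s * k)) = φ s + φ (s * s) := by
    intro k hk
    have e := fcoc (s * s) hss s hi.sU k hk
    rw [f0 _ hs3 k hk, f2 s hi.sU, f2 (s * k) (U.mul_mem hi.sU hk), hφf] at e
    linear_combination -e
  have φ3 : φ (s ^ 3) = 0 := by
    have e := φ2 s hi.sU
    rw [← mul_assoc s s s, hs3e] at e
    linear_combination e
  have φone : φ 1 = 0 := by
    have e := φ1 1 V.one_mem 1 U.one_mem
    rw [mul_one] at e
    linear_combination -e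
  set ψ : G → ZMod 3 := fun g => if g ∈ V then φ g else 0 with hψdef
  have hψV : ∀ g ∈ V, ψ g = φ g := fun g hg => if_pos hg
  have hψ : ψ ∈ homs S V := ⟨sm1_res hi.opn hφs 0, fun g hg => if_neg hg, fun g hg h hh => by
      rw [hψV g hg, hψV h hh, hψV _ (V.mul_mem hg hh)]
      exact φ1 g hg h (hi.le hh)⟩
  have htt : tw s (tw s ψ) = 0 := by
    funext g
    by_cases hg : g ∈ V
    · have hg1 := hi.conj_mem hi.sU hg
      have hg2 := hi.conj_mem hi.sU hg1
      show (ψ (s * (s * g * s⁻¹) * s⁻¹) - ψ (s * g * s⁻¹)) - (ψ (s * g * s⁻¹) - ψ g) = 0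
      rw [hψV _ hg, hψV _ hg1, hψV _ hg2]
      have e := φ2 g (hi.le hg)
      have e1 := φ1 _ hg1 s hi.sU
      rw [inv_mul_cancel_right] at e1
      have e2 := φ1 _ hg2 (s * s) hss
      rw [show s * (s * g * s⁻¹) * s⁻¹ * (s * s) = s * (s * g) by simp [mul_assoc]] at e2
      rw [e1, e2] at e
      linear_combination e - (φ (s * g * s⁻¹)) * h3
    · exact (tw_mem hi (tw_mem hi hψ)).2.1 g hg
  obtain ⟨ω, hω, η, hη, hη3, hψη⟩ := hsplit ψ hψ htt (by rw [hψV _ hi.cube_mem, φ3])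
    (φ s + φ (s * s))
  -- values of `f`
  have hφU : ∀ h ∈ U, φ h = ψ (vp χ s h) + φ (s ^ (χ h).val) := by
    intro h hh
    have e := φ1 _ (vp_mem hi hh) _ (hp (χ h))
    rw [vp_mul_pow, ← hψV _ (vp_mem hi hh)] at e
    exact e
  have hφsU : ∀ h ∈ U, φ (s * h) = ψ (s * vp χ s h * s⁻¹) + φ (s * s ^ (χ h).val) := by
    intro h hh
    have hc := hi.conj_mem hi.sU (vp_mem hi hh)
    have e := φ1 _ hc _ (U.mul_mem hi.sU (hp (χ h)))
    rw [← hψV _ hc] at e
    rw [← e]
    congr 1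
    nth_rw 1 [← vp_mul_pow χ s h]
    simp only [mul_assoc, inv_mul_cancel_left]
  have htw : ∀ v ∈ V, tw s ψ v = tw s (tw s η) v := by
    intro v hv
    have hv1 := hi.conj_mem hi.sU hv
    show ψ (s * v * s⁻¹) - ψ v = tw s η (s * v * s⁻¹) - tw s η v
    rw [hψη _ hv, hψη _ hv1, hom_conj hω hi.sU (hi.le hv)]
    ring
  have htw' : ∀ v ∈ V, ψ (s * v * s⁻¹) = ψ v + tw s (tw s η) v := by
    intro v hv
    have e := htw v hv
    have e2 : tw s ψ v = ψ (s * v * s⁻¹) - ψ v := rfl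
    rw [e2] at e
    linear_combination e
  have hz : ∀ x : ZMod 3, x = 0 ∨ x = 1 ∨ x = 2 := by decide
  refine ⟨ω, hω, fun g => y g + (if g ∈ U then -η (vp χ s g) -
    (ω s - φ s) * (χ g * (χ g - 1)) else 0), ?_, ?_⟩
  · have h4 := sm1_vp hi (fun a v => -η v - (ω s - φ s) * (a * (a - 1)))
      (fun a => hη.1.map fun x => -x - (ω s - φ s) * (a * (a - 1))) 0
    exact hys.map₂ h4 fun a b => a + b
  · intro g hg h hh
    have hv := vp_mem hi hh
    simp only
    rw [if_pos hg, if_pos hh, if_pos (U.mul_mem hg hh), hom_vp_mul hi hη hg hh, hη3,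
      conj_val η s _ _, hi.hom.2.2 g hg h hh]
    have hωh : ω h = ω (vp χ s h) + χ h * ω s := by
      have h5 := hω.2.2 _ (hi.le hv) _ (hp (χ h))
      rw [vp_mul_pow, hom_pow hω hi.sU, ZMod.natCast_zmod_val] at h5
      exact h5
    have hψh := hψη _ hv
    have hψh' := htw' _ hv
    have hφh := hφU h hh
    have hφh' := hφsU h hh
    -- the value of `f g h`
    have hfα : f g h = α g h - (y g + y h - y (g * h)) := rfl
    suffices hgoal : f g h = χ g * ω h + (-η (vp χ s g) - (ω s - φ s) * (χ g * (χ g - 1))) +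
        (-η (vp χ s h) - (ω s - φ s) * (χ h * (χ h - 1))) -
        (-(η (vp χ s g) + (η (vp χ s h) + χ g * tw s η (vp χ s h) -
          χ g * (χ g - 1) * tw s (tw s η) (vp χ s h)) + cry (χ g) (χ h) * (φ s + φ (s * s))) -
          (ω s - φ s) * ((χ g + χ h) * (χ g + χ h - 1))) by
      unfold cup
      rw [hfα] at hgoal
      linear_combination hgoal
    rw [hωh]
    have hgd : vp χ s g * s ^ (χ g).val = g := vp_mul_pow χ s g
    rcases hz (χ g) with hg0 | hg0 | hg0
    · have e1 : f g h = 0 := f0 g ((hi.ker g hg).2 hg0) h hh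
      have e2 : cry (0 : ZMod 3) (χ h) = 0 := by
        generalize χ h = a
        revert a
        decide
      rw [e1, hg0, e2]
      ring
    · have e1 : f g h = φ h := by
        rw [hg0] at hgd
        have e3 : vp χ s g * s = g := by
          rw [show ((1 : ZMod 3)).val = 1 from rfl, pow_one] at hgd
          exact hgd
        rw [← e3]
        exact f1 _ (vp_mem hi hg) s hi.sU h hh
      rw [e1, hg0, hφh, hψh]
      rcases hz (χ h) with hh0 | hh0 | hh0
      · rw [hh0, show s ^ ((0 : ZMod 3)).val = 1 from pow_zero s, φone,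
          show cry (1 : ZMod 3) 0 = 0 by decide]
        ring
      · rw [hh0, show s ^ ((1 : ZMod 3)).val = s from pow_one s,
          show cry (1 : ZMod 3) 1 = 0 by decide]
        linear_combination (φ s - ω s) * h3
      · rw [hh0, show s ^ ((2 : ZMod 3)).val = s * s from pow_two s,
          show cry (1 : ZMod 3) 2 = 1 by decide]
        linear_combination (φ s - 2 * ω s) * h3
    · have e1 : f g h = φ h + φ (s * h) - φ s := by
        have e3 : vp χ s g * (s * s) = g := by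
          rw [hg0] at hgd
          rw [show ((2 : ZMod 3)).val = 2 from rfl, pow_two] at hgd
          exact hgd
        rw [← e3, f1 _ (vp_mem hi hg) (s * s) hss h hh]
        exact f2 h hh
      rw [e1, hg0, hφh, hφh', hψh', hψh]
      rcases hz (χ h) with hh0 | hh0 | hh0
      · rw [hh0, show s ^ ((0 : ZMod 3)).val = 1 from pow_zero s, φone, mul_one,
          show cry (2 : ZMod 3) 0 = 0 by decide]
        linear_combination (tw s (tw s η) (vp χ s h)) * h3
      · rw [hh0, show s ^ ((1 : ZMod 3)).val = s from pow_one s,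
          show cry (2 : ZMod 3) 1 = 1 by decide]
        linear_combination (tw s (tw s η) (vp χ s h) + φ s - 2 * ω s) * h3
      · rw [hh0, show s ^ ((2 : ZMod 3)).val = s * s from pow_two s, ← mul_assoc, hs3e, φ3,
          show cry (2 : ZMod 3) 2 = 1 by decide]
        linear_combination (tw s (tw s η) (vp χ s h) + 2 * φ s - 4 * ω s) * h3

theorem res_cob (hi : Idx S V U χ s)
    (hsplit : ∀ ψ ∈ homs S V, tw s (tw s ψ) = 0 → ψ (s ^ 3) = 0 → ∀ c : ZMod 3,
      ∃ ω ∈ homs S U, ∃ η ∈ homs S V, η (s ^ 3) = c ∧ ∀ g ∈ V, ψ g = ω g + tw s η g)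
    {α : G → G → ZMod 3} (hα : Coc S U α) (hc : Cob S V α) :
    ∃ ω ∈ homs S U, Cob S U (fun g h => α g h - cup χ ω g h) := by
  classical
  obtain ⟨z, hz, hc⟩ := hc
  obtain ⟨hs2, hcoc⟩ := hα
  set z' : G → ZMod 3 := fun g => if g ∈ V then z g else 0 with hz'
  have hz's : Sm1 S z' := sm1_res hi.opn hz 0
  have hzV : ∀ g ∈ V, z' g = z g := fun g hg => if_pos hg
  set β : G → G → ZMod 3 := fun g h => α g h - (z' g + z' h - z' (g * h)) with hβ
  have hβc : Coc S U β := by
    constructor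
    · obtain ⟨W, hW, h3⟩ := hs2
      obtain ⟨W', hW', h4⟩ := hz's
      have hWn := S.normal (S.inf hW hW')
      refine ⟨W ⊓ W', S.inf hW hW', fun g h w hw w' hw' => ?_⟩
      simp only [hβ]
      rw [h3 g h w hw.1 w' hw'.1, h4 g w hw.2, h4 h w' hw'.2]
      have e : g * w * (h * w') = (g * h) * ((h⁻¹ * w * h) * w') := by group
      have h5 := hWn.conj_mem w hw h⁻¹
      rw [inv_inv] at h5
      rw [e, h4 (g * h) _ (W'.mul_mem h5.2 hw'.2)]
    · intro g hg h hh k hk
      have h3 := hcoc g hg h hh k hk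
      simp only [hβ]
      rw [mul_assoc g h k]
      linear_combination h3
  have hβ0 : ∀ g ∈ V, ∀ h ∈ V, β g h = 0 := by
    intro g hg h hh
    simp only [hβ]
    rw [hc g hg h hh, hzV g hg, hzV h hh, hzV _ (V.mul_mem hg hh), sub_self]
  obtain ⟨ω, hω, y, hy, h3⟩ := res_cob_zero hi hsplit hβc hβ0
  refine ⟨ω, hω, fun g => y g + z' g, hy.map₂ hz's fun a b => a + b, fun g hg h hh => ?_⟩
  have h4 := h3 g hg h hh
  simp only [hβ] at h4
  simp only
  linear_combination h4

end Pool.Agent.Work.MP_787500_nt.P3
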