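import Mathlib

/-!
# Module A_LIN (size M): linear algebra of a nilpotent operator

`A` a vector space of dimension `3 e + 2` over `ZMod 3`, `T ^ 3 = 0`, `θ` a linear form with
`θ (T x) = 0`, `R = ker T ⊓ ker θ` of dimension `e + 1`. Let `n = rank (T ^ 2)` and
`N = ker (T ^ 2) ⊓ ker θ`. `K = T N` is the set of the `r ∈ R` of the form `T x` with `θ x = 0`.

1. `n ≤ e`: `im (T ^ 2) ≤ ker T` and `im (T ^ 2) ≤ ker T ⊓ im T`, so
   `3 e + 2 = dim ker T + rank T = dim ker T + dim (ker T ⊓ im T) + rank (T ^ 2) ≥ 3 n`.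
2. `θ` is not zero on `ker (T ^ 2)` (`h0`), so `dim N = (3 e + 2 - n) - 1`.
3. The kernel of `T` on `N` is `R`, so `dim K = dim N - (e + 1) = 2 e - n`.
4. `hK` says `K ≤ im (T ^ 2)`, so `2 e - n ≤ n`, hence `n = e`, `dim K = e`, `K = im (T ^ 2)`,
   `dim N = 2 e + 1`. This gives (a). As `dim R = e + 1`, `K` is a subspace of `R` of codimension one:
   (b) and (c).
5. (d): the linear map `R × A → N × ZMod 3`, `(r, η) ↦ (r + T η, θ η)` is well defined; its kernel is
   isomorphic to `{η | T η ∈ R, θ η = 0} = N`; so its rank is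
   `(e + 1) + (3 e + 2) - (2 e + 1) = 2 e + 2 = dim (N × ZMod 3)`: it is surjective.
-/

set_option autoImplicit false

namespace Pool.Agent.Work.MP_787500_nt.P3

open Module

private theorem lin3_aux {k A : Type*} [Field k] [AddCommGroup A] [Module k A]
    [FiniteDimensional k A]
    (T : A →ₗ[k] A) (θ : A →ₗ[k] k) (e : ℕ) (hT : ∀ x, T (T (T x)) = 0)
    (hθ : ∀ x, θ (T x) = 0) (hA : finrank k A = 3 * e + 2)
    (hR : finrank k (LinearMap.ker T ⊓ LinearMap.ker θ : Submodule k A) = e + 1)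
    (h0 : ∃ x, T (T x) = 0 ∧ θ x ≠ 0)
    (hK : ∀ x, T (T x) = 0 → θ x = 0 → ∃ y, T x = T (T y)) :
    (∀ y, ∃ x, θ x = 0 ∧ T x = T (T y)) ∧
    (∃ r, T r = 0 ∧ θ r = 0 ∧ ∀ x, T x = r → θ x ≠ 0) ∧
    (∀ r r', T r = 0 → θ r = 0 → T r' = 0 → θ r' = 0 → (∀ x, T x = r → θ x ≠ 0) →
      ∃ (a : k) (x : A), θ x = 0 ∧ T x = r' - a • r) ∧
    (∀ ψ, T (T ψ) = 0 → θ ψ = 0 → ∀ c : k, ∃ r η, T r = 0 ∧ θ r = 0 ∧ ψ = r + T η ∧
      θ η = c) := by
  -- ranks
  have e1 := LinearMap.finrank_range_add_finrank_ker T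
  have e2 := LinearMap.finrank_range_add_finrank_ker (T ∘ₗ T)
  rw [hA] at e1 e2
  set n := finrank k (LinearMap.range (T ∘ₗ T)) with hn
  have hle1 : LinearMap.range (T ∘ₗ T) ≤ LinearMap.ker T := by
    rintro _ ⟨x, rfl⟩
    exact hT x
  have e3 := LinearMap.finrank_range_add_finrank_ker (T.domRestrict (LinearMap.range T))
  have e4 : LinearMap.range (T.domRestrict (LinearMap.range T)) = LinearMap.range (T ∘ₗ T) := by
    ext x
    constructor
    · rintro ⟨⟨_, ⟨y, rfl⟩⟩, rfl⟩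
      exact ⟨y, rfl⟩
    · rintro ⟨y, rfl⟩
      exact ⟨⟨T y, ⟨y, rfl⟩⟩, rfl⟩
  rw [e4, ← hn] at e3
  have e5 : n ≤ finrank k (LinearMap.ker (T.domRestrict (LinearMap.range T))) := by
    refine LinearMap.finrank_le_finrank_of_injective
      (f := LinearMap.codRestrict _ (LinearMap.codRestrict (LinearMap.range T)
        (LinearMap.range (T ∘ₗ T)).subtype ?_) ?_) ?_
    · rintro ⟨_, ⟨y, rfl⟩⟩
      exact ⟨T y, rfl⟩
    · rintro ⟨_, ⟨y, rfl⟩⟩
      exact hT y
    · intro a b hab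
      exact Subtype.ext (congrArg (fun z => ((z : LinearMap.range T) : A)) (congrArg Subtype.val hab))
  have e6 : n ≤ finrank k (LinearMap.ker T) := Submodule.finrank_mono hle1
  have hne : n ≤ e := by omega
  set N : Submodule k A := LinearMap.ker (T ∘ₗ T) ⊓ LinearMap.ker θ with hN
  set R : Submodule k A := LinearMap.ker T ⊓ LinearMap.ker θ with hRdef
  have hNm : ∀ x, x ∈ N ↔ T (T x) = 0 ∧ θ x = 0 := fun x => Iff.rfl
  have hRm : ∀ x, x ∈ R ↔ T x = 0 ∧ θ x = 0 := fun x => Iff.rfl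
  -- dimension of `N`
  have e7 : finrank k N + 1 = finrank k (LinearMap.ker (T ∘ₗ T)) := by
    have h1 := LinearMap.finrank_range_add_finrank_ker (θ.domRestrict (LinearMap.ker (T ∘ₗ T)))
    have h2 : LinearMap.range (θ.domRestrict (LinearMap.ker (T ∘ₗ T))) = ⊤ := by
      rw [LinearMap.range_eq_top]
      obtain ⟨x, hx1, hx2⟩ := h0
      intro c
      refine ⟨(c * (θ x)⁻¹) • ⟨x, hx1⟩, ?_⟩
      rw [map_smul]
      show (c * (θ x)⁻¹) * θ x = c
      field_simp
    rw [h2, finrank_top, Module.finrank_self] at h1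
    have h3 : finrank k (LinearMap.ker (θ.domRestrict (LinearMap.ker (T ∘ₗ T)))) =
        finrank k N := by
      refine LinearEquiv.finrank_eq (LinearEquiv.ofBijective
        (LinearMap.codRestrict N ((LinearMap.ker (T ∘ₗ T)).subtype ∘ₗ
          (LinearMap.ker (θ.domRestrict (LinearMap.ker (T ∘ₗ T)))).subtype) ?_) ⟨?_, ?_⟩)
      · rintro ⟨⟨x, hx⟩, hx'⟩
        exact ⟨hx, hx'⟩
      · intro a b hab
        exact Subtype.ext (Subtype.ext (congrArg (fun z : N => (z : A)) hab))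
      · rintro ⟨x, hx⟩
        exact ⟨⟨⟨x, hx.1⟩, hx.2⟩, rfl⟩
    omega
  -- dimension of the image of `N`
  have e8 := LinearMap.finrank_range_add_finrank_ker (T.domRestrict N)
  have e9 : finrank k (LinearMap.ker (T.domRestrict N)) = finrank k R := by
    refine LinearEquiv.finrank_eq (LinearEquiv.ofBijective
        (LinearMap.codRestrict R (N.subtype ∘ₗ (LinearMap.ker (T.domRestrict N)).subtype) ?_)
          ⟨?_, ?_⟩)
    · rintro ⟨⟨x, hx⟩, hx'⟩
      exact ⟨hx', hx.2⟩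
    · intro a b hab
      exact Subtype.ext (Subtype.ext (congrArg (fun z : R => (z : A)) hab))
    · rintro ⟨x, hx⟩
      refine ⟨⟨⟨x, ?_⟩, hx.1⟩, rfl⟩
      refine ⟨?_, hx.2⟩
      show T (T x) = 0
      rw [show T x = 0 from hx.1, map_zero]
  rw [e9, hR] at e8
  set K : Submodule k A := LinearMap.range (T.domRestrict N) with hKdef
  have hKm : ∀ y, y ∈ K ↔ ∃ x, T (T x) = 0 ∧ θ x = 0 ∧ T x = y := by
    intro y
    constructor
    · rintro ⟨⟨x, hx⟩, rfl⟩
      exact ⟨x, hx.1, hx.2, rfl⟩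
    · rintro ⟨x, h1, h2, rfl⟩
      exact ⟨⟨x, h1, h2⟩, rfl⟩
  have hKle : K ≤ LinearMap.range (T ∘ₗ T) := by
    intro y hy
    obtain ⟨x, h1, h2, rfl⟩ := (hKm y).1 hy
    obtain ⟨z, hz⟩ := hK x h1 h2
    exact ⟨z, hz.symm⟩
  have e10 := Submodule.finrank_mono hKle
  rw [← hn] at e10
  have hne' : n = e := by omega
  have hKe : K = LinearMap.range (T ∘ₗ T) := Submodule.eq_of_le_of_finrank_eq hKle (by omega)
  have hKR : K ≤ R := by
    intro y hy
    obtain ⟨x, h1, h2, rfl⟩ := (hKm y).1 hy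
    exact ⟨h1, hθ x⟩
  have hKd : finrank k K = e := by omega
  have hnot : ∀ r, T r = 0 → ((∀ x, T x = r → θ x ≠ 0) ↔ r ∉ K) := by
    intro r hr
    rw [hKm]
    constructor
    · rintro h ⟨x, h1, h2, h3⟩
      exact h x h3 h2
    · intro h x hx h2
      exact h ⟨x, by rw [hx, hr], h2, hx⟩
  refine ⟨fun y => ?_, ?_, ?_, ?_⟩
  · have : T (T y) ∈ K := by
      rw [hKe]
      exact ⟨y, rfl⟩
    obtain ⟨x, h1, h2, h3⟩ := (hKm _).1 this
    exact ⟨x, h2, h3⟩
  · have : ∃ r ∈ R, r ∉ K := by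
      by_contra hcon
      push Not at hcon
      have : R ≤ K := hcon
      have := Submodule.finrank_mono this
      omega
    obtain ⟨r, hr, hrK⟩ := this
    exact ⟨r, hr.1, hr.2, (hnot r hr.1).2 hrK⟩
  · intro r r' hr1 hr2 hr1' hr2' h
    have hrK := (hnot r hr1).1 h
    have hle : K ⊔ Submodule.span k {r} ≤ R :=
      sup_le hKR ((Submodule.span_singleton_le_iff_mem _ _).2 ⟨hr1, hr2⟩)
    have hlt : K < K ⊔ Submodule.span k {r} := by
      refine lt_of_le_of_ne le_sup_left fun h => hrK ?_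
      rw [h]
      exact (le_sup_right : _ ≤ K ⊔ Submodule.span k {r}) (Submodule.mem_span_singleton_self r)
    have h1 := Submodule.finrank_lt_finrank_of_lt hlt
    have h2 := Submodule.finrank_mono hle
    have he : K ⊔ Submodule.span k {r} = R := Submodule.eq_of_le_of_finrank_eq hle (by omega)
    have h3 : r' ∈ K ⊔ Submodule.span k {r} := by
      rw [he]
      exact ⟨hr1', hr2'⟩
    obtain ⟨m, hm, y, hy, hmy⟩ := Submodule.mem_sup.1 h3
    obtain ⟨a, rfl⟩ := Submodule.mem_span_singleton.1 hy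
    obtain ⟨x, -, h4, h5⟩ := (hKm m).1 hm
    exact ⟨a, x, h4, by rw [h5, ← hmy, add_sub_cancel_right]⟩
  · intro ψ hψ1 hψ2 c
    let Φ : (R × A) →ₗ[k] (N × k) := LinearMap.prod
      (LinearMap.codRestrict N (LinearMap.coprod R.subtype T) (by
        rintro ⟨⟨r, hr⟩, η⟩
        refine ⟨?_, ?_⟩
        · show T (T (r + T η)) = 0
          rw [map_add, map_add, hT, show T r = 0 from hr.1, map_zero, add_zero]
        · show θ (r + T η) = 0
          rw [map_add, hθ, show θ r = 0 from hr.2, add_zero]))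
      (θ ∘ₗ LinearMap.snd k R A)
    have hΦ : ∀ (r : R) (η : A), Φ (r, η) = (⟨(r : A) + T η, by
        refine ⟨?_, ?_⟩
        · show T (T (r + T η)) = 0
          rw [map_add, map_add, hT, show T r = 0 from r.2.1, map_zero, add_zero]
        · show θ (r + T η) = 0
          rw [map_add, hθ, show θ r = 0 from r.2.2, add_zero]⟩, θ η) := fun r η => rfl
    have f1 := LinearMap.finrank_range_add_finrank_ker Φ
    rw [Module.finrank_prod, hA, hR] at f1
    have f2 : finrank k (LinearMap.ker Φ) ≤ finrank k N := by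
      refine LinearMap.finrank_le_finrank_of_injective
        (f := LinearMap.codRestrict N (LinearMap.snd k R A ∘ₗ (LinearMap.ker Φ).subtype) ?_) ?_
      · rintro ⟨⟨r, η⟩, h⟩
        have h1 : (r : A) + T η = 0 := congrArg (fun z : N × k => (z.1 : A)) h
        have h2 : θ η = 0 := congrArg Prod.snd h
        refine ⟨?_, h2⟩
        show T (T η) = 0
        have h3 : T η = -(r : A) := by rw [eq_neg_iff_add_eq_zero, add_comm]; exact h1
        rw [h3, map_neg, show T (r : A) = 0 from r.2.1, neg_zero]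
      · rintro ⟨⟨r, η⟩, h⟩ ⟨⟨r', η'⟩, h'⟩ hab
        have h4 : η = η' := congrArg Subtype.val hab
        subst h4
        have h1 : (r : A) + T η = 0 := congrArg (fun z : N × k => (z.1 : A)) h
        have h1' : (r' : A) + T η = 0 := congrArg (fun z : N × k => (z.1 : A)) h'
        have h5 : r = r' := Subtype.ext (add_right_cancel (h1.trans h1'.symm))
        subst h5
        rfl
    have f3 : finrank k (N × k) = finrank k N + 1 := by
      rw [Module.finrank_prod, Module.finrank_self]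
    have f4 : LinearMap.range Φ = ⊤ := by
      refine Submodule.eq_top_of_finrank_eq (le_antisymm (Submodule.finrank_le _) ?_)
      rw [f3]
      omega
    obtain ⟨⟨r, η⟩, h⟩ := LinearMap.range_eq_top.1 f4 (⟨ψ, hψ1, hψ2⟩, c)
    have h1 : (r : A) + T η = ψ := congrArg (fun z : N × k => (z.1 : A)) h
    have h2 : θ η = c := congrArg Prod.snd h
    exact ⟨r, η, r.2.1, r.2.2, h1.symm, h2⟩

theorem lin3 {A : Type*} [AddCommGroup A] [Module (ZMod 3) A] [FiniteDimensional (ZMod 3) A]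
    (T : A →ₗ[ZMod 3] A) (θ : A →ₗ[ZMod 3] ZMod 3) (e : ℕ) (hT : ∀ x, T (T (T x)) = 0)
    (hθ : ∀ x, θ (T x) = 0) (hA : finrank (ZMod 3) A = 3 * e + 2)
    (hR : finrank (ZMod 3) (LinearMap.ker T ⊓ LinearMap.ker θ : Submodule (ZMod 3) A) = e + 1)
    (h0 : ∃ x, T (T x) = 0 ∧ θ x ≠ 0)
    (hK : ∀ x, T (T x) = 0 → θ x = 0 → ∃ y, T x = T (T y)) :
    (∀ y, ∃ x, θ x = 0 ∧ T x = T (T y)) ∧
    (∃ r, T r = 0 ∧ θ r = 0 ∧ ∀ x, T x = r → θ x ≠ 0) ∧
    (∀ r r', T r = 0 → θ r = 0 → T r' = 0 → θ r' = 0 → (∀ x, T x = r → θ x ≠ 0) →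
      ∃ (a : ZMod 3) (x : A), θ x = 0 ∧ T x = r' - a • r) ∧
    (∀ ψ, T (T ψ) = 0 → θ ψ = 0 → ∀ c : ZMod 3, ∃ r η, T r = 0 ∧ θ r = 0 ∧ ψ = r + T η ∧
      θ η = c) := by
  have : Fact (Nat.Prime 3) := ⟨Nat.prime_three⟩
  exact lin3_aux T θ e hT hθ hA hR h0 hK

end Pool.Agent.Work.MP_787500_nt.P3
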