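import Mathlib
import Pool.Agent.Work.MP_787500_nt.P3.A_Idx
import Pool.Agent.Work.MP_787500_nt.P3.A_Dec

/-!
# Module A_RES (size M): the homomorphisms of `V` which extend to `U`

`Idx S V U χ s`.

* `exists_ext`: let `ψ ∈ homs S V`, `ψ (s g s⁻¹) = ψ g` for all `g` (that is `tw s ψ = 0`) and
  `ψ (s ^ 3) = 0`. Put `ω g = ψ (g (s ^ (χ g).val)⁻¹)` for `g ∈ U` (`Idx.dec_mem`), zero off `U`; that
  is `ω (v s ^ i) = ψ v`. For `g = v s ^ i`, `h = v' s ^ j`, `0 ≤ i, j ≤ 2`:
  `g h = v (s ^ i v' s ^ (-i)) s ^ (i + j)` and `s ^ (i + j) = s ^ k` or `s ^ 3 s ^ k`, so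
  `ω (g h) = ψ v + ψ v'`. Smoothness: `g w (s ^ i)⁻¹ = g (s ^ i)⁻¹ * (conjugate of w)`, `W` normal,
  inside `V`, `ψ` constant on cosets of `W`. On `V`: `ω = ψ`.
* `finrank_R`: the linear map `homs S U → (G → ZMod 3)`, `ω ↦ (g ↦ if g ∈ V then ω g else 0)` has
  kernel spanned by `χ ≠ 0` (`Idx.ext_zero`) and image `R = homs S V ⊓ ker (tw s) ⊓ {ψ (s ^ 3) = 0}`
  (`res_mem`, `hom_conj`, `hom_pow` for one inclusion, `exists_ext` for the other). Rank-nullity.
-/

set_option autoImplicit false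

namespace Pool.Agent.Work.MP_787500_nt.P3

variable {G : Type*} [Group G] {S : Sys G} {V U : Subgroup G} {χ ψ : G → ZMod 3} {s : G}

theorem exists_ext (hi : Idx S V U χ s) (hψ : ψ ∈ homs S V) (h1 : tw s ψ = 0)
    (h2 : ψ (s ^ 3) = 0) : ∃ ω ∈ homs S U, ∀ g ∈ V, ω g = ψ g := by
  classical
  have hconj : ∀ (a : ZMod 3) (v : G), ψ (s ^ a.val * v * (s ^ a.val)⁻¹) = ψ v := by
    intro a v
    have e1 : tw s ψ v = 0 := congrFun h1 v
    have e2 : tw s (tw s ψ) v = 0 := by
      rw [h1, map_zero]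
      rfl
    rw [conj_val ψ s v a, e1, e2]
    ring
  refine ⟨fun g => if g ∈ U then ψ (vp χ s g) else 0, ⟨?_, ?_, ?_⟩, ?_⟩
  · exact sm1_vp hi (fun _ => ψ) (fun _ => hψ.1) 0
  · intro g hg
    exact if_neg hg
  · intro g hg h hh
    simp only
    rw [if_pos hg, if_pos hh, if_pos (U.mul_mem hg hh), hom_vp_mul hi hψ hg hh, h2, hconj]
    ring
  · intro g hg
    simp only
    rw [if_pos (hi.le hg), vp_of_mem hi hg]

theorem finrank_R (hi : Idx S V U χ s) (hf : FiniteDimensional (ZMod 3) (homs S U)) :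
    Module.finrank (ZMod 3) (homs S V ⊓ LinearMap.ker (tw s) ⊓
      LinearMap.ker (LinearMap.proj (s ^ 3)) : Submodule (ZMod 3) (G → ZMod 3)) + 1 =
      Module.finrank (ZMod 3) (homs S U) := by
  classical
  let F : homs S U →ₗ[ZMod 3] (G → ZMod 3) :=
    { toFun := fun ω g => if g ∈ V then (ω : G → ZMod 3) g else 0
      map_add' := by
        intro a b
        funext g
        show (if g ∈ V then ((a + b : homs S U) : G → ZMod 3) g else 0) =
          (if g ∈ V then (a : G → ZMod 3) g else 0) + (if g ∈ V then (b : G → ZMod 3) g else 0)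
        split_ifs
        · rfl
        · rw [add_zero]
      map_smul' := by
        intro c a
        funext g
        show (if g ∈ V then ((c • a : homs S U) : G → ZMod 3) g else 0) =
          c * (if g ∈ V then (a : G → ZMod 3) g else 0)
        split_ifs
        · rfl
        · rw [mul_zero] }
  have hFm : ∀ (ω : homs S U) (g : G), g ∈ V → F ω g = (ω : G → ZMod 3) g :=
    fun ω g hg => if_pos hg
  have hFo : ∀ (ω : homs S U) (g : G), g ∉ V → F ω g = 0 := fun ω g hg => if_neg hg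
  have h10 : (1 : ZMod 3) ≠ 0 := by decide
  have h30 : ((3 : ℕ) : ZMod 3) = 0 := by decide
  have h3 : Fact (Nat.Prime 3) := ⟨Nat.prime_three⟩
  have hχ0 : (⟨χ, hi.hom⟩ : homs S U) ≠ 0 := by
    intro h
    have h4 : χ s = 0 := congrFun (congrArg Subtype.val h) s
    rw [hi.sχ] at h4
    exact h10 h4
  have hker : LinearMap.ker F = Submodule.span (ZMod 3) {⟨χ, hi.hom⟩} := by
    ext ω
    rw [LinearMap.mem_ker, Submodule.mem_span_singleton]
    constructor
    · intro h
      refine ⟨(ω : G → ZMod 3) s, Subtype.ext ?_⟩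
      refine (hi.ext_zero ω.2 fun v hv => ?_).symm
      rw [← hFm ω v hv, h]
      rfl
    · rintro ⟨a, rfl⟩
      funext g
      by_cases hg : g ∈ V
      · rw [hFm _ g hg]
        show a * χ g = 0
        rw [chi_of_mem hi hg, mul_zero]
      · rw [hFo _ g hg]
        rfl
  have hrange : LinearMap.range F = homs S V ⊓ LinearMap.ker (tw s) ⊓
      LinearMap.ker (LinearMap.proj (s ^ 3)) := by
    ext ψ
    constructor
    · rintro ⟨ω, rfl⟩
      refine ⟨⟨res_mem hi ω.2, ?_⟩, ?_⟩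
      · show tw s (F ω) = 0
        funext g
        show F ω (s * g * s⁻¹) - F ω g = 0
        by_cases hg : g ∈ V
        · rw [hFm _ _ hg, hFm _ _ (hi.conj_mem hi.sU hg), hom_conj ω.2 hi.sU (hi.le hg), sub_self]
        · have hg' : s * g * s⁻¹ ∉ V := by
            intro h
            have := hi.conj_mem (U.inv_mem hi.sU) h
            rw [show s⁻¹ * (s * g * s⁻¹) * s⁻¹⁻¹ = g by group] at this
            exact hg this
          rw [hFo _ _ hg, hFo _ _ hg', sub_self]
      · show F ω (s ^ 3) = 0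
        rw [hFm _ _ hi.cube_mem, hom_pow ω.2 hi.sU]
        rw [h30, zero_mul]
    · rintro ⟨⟨h1, h2⟩, h4⟩
      obtain ⟨ω, hω, h5⟩ := exists_ext hi h1 h2 h4
      refine ⟨⟨ω, hω⟩, ?_⟩
      funext g
      by_cases hg : g ∈ V
      · rw [hFm _ _ hg]
        exact h5 g hg
      · rw [hFo _ _ hg]
        exact (h1.2.1 g hg).symm
  have h5 := LinearMap.finrank_range_add_finrank_ker F
  rw [hker, finrank_span_singleton hχ0, hrange] at h5
  exact h5

end Pool.Agent.Work.MP_787500_nt.P3
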