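import Mathlib
import Pool.Agent.Work.MP_787500_nt.P3.A_Idx
import Pool.Agent.Work.MP_787500_nt.P3.A_Dec

/-!
# Module A_SYMBKER (size M): when a cup product with `χ` vanishes

`Idx S V U χ s`, `ω ∈ homs S U`. All identities in `ZMod 3`.

(⇒) Let `χ g * ω h = z g + z h - z (g h)` for `g, h ∈ U`, `z` smooth. Put
`ψ g = if g ∈ V then - z g else 0`; it lies in `homs S V`, since `χ = 0` on `V`. For `g ∈ V`:
`ω g = χ s * ω g = z s + z g - z (s g)` and `0 = χ (s g s⁻¹) * ω s = z (s g s⁻¹) + z s - z (s g)`, so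
`ω g = z g - z (s g s⁻¹) = ψ (s g s⁻¹) - ψ g`. Moreover `ω s = 2 z s - z (s ^ 2)`,
`2 ω s = χ (s ^ 2) * ω s = z (s ^ 2) + z s - z (s ^ 3)`; the sum is `0 = 3 ω s = - z (s ^ 3)`.

(⇐) Let `ψ ∈ homs S V`, `ψ (s ^ 3) = 0`, `ω g = ψ (s g s⁻¹) - ψ g` on `V`. Put `b = ω s` and
`z (v s ^ i) = - ψ v + d i` (`v ∈ V`, `i = 0, 1, 2`; `z g = - ψ (g (s ^ (χ g).val)⁻¹) + d (χ g)`), zero off
`U`, with `d 0 = 0`, `d 1 = 0`, `d 2 = - b`. Check `i * ω h = z g + z h - z (g h)` for `g = u s ^ i`,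
`h = v s ^ j`: `g h = u (s ^ i v s ^ (-i)) s ^ (i + j)`, and
`ψ (s ^ i v s ^ (-i)) - ψ v = i * ω v` (as `ω` is invariant under conjugation by `s`: for `i = 2`,
`ψ (s s v s⁻¹ s⁻¹) - ψ v = ω (s v s⁻¹) + ω v = 2 ω v`), `s ^ (i + j) = s ^ 3 s ^ k` or `s ^ k` with
`ψ (s ^ 3) = 0`. What remains is `i * j * b = d i + d j - d (i + j)` in `ZMod 3`, `i, j ∈ ZMod 3`; with
`d i = - b * i * (i - 1) / 2`, that is `d 0 = 0`, `d 1 = 0`, `d 2 = - b`: check all cases with
`decide`. Smoothness as in `exists_ext`.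

`cup_self`: `χ g * χ h = z g + z h - z (g h)` with `z g = χ g ^ 2` (since `- 2 = 1`).
-/

set_option autoImplicit false

namespace Pool.Agent.Work.MP_787500_nt.P3

variable {G : Type*} [Group G] {S : Sys G} {V U : Subgroup G} {χ ω : G → ZMod 3} {s : G}

theorem cup_iff (hi : Idx S V U χ s) (hω : ω ∈ homs S U) :
    Cob S U (cup χ ω) ↔ ∃ ψ ∈ homs S V, ψ (s ^ 3) = 0 ∧ ∀ g ∈ V, tw s ψ g = ω g := by
  classical
  have h3 : (3 : ZMod 3) = 0 := by decide
  constructor
  · rintro ⟨z, hz, hc⟩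
    have hcV : ∀ g ∈ V, ∀ h ∈ U, 0 = z g + z h - z (g * h) := by
      intro g hg h hh
      have h1 := hc g (hi.le hg) h hh
      unfold cup at h1
      rwa [chi_of_mem hi hg, zero_mul] at h1
    refine ⟨fun g => if g ∈ V then -z g else 0, ⟨?_, ?_, ?_⟩, ?_, ?_⟩
    · exact sm1_res hi.opn (hz.map fun x => -x) 0
    · intro g hg
      exact if_neg hg
    · intro g hg h hh
      simp only
      rw [if_pos hg, if_pos hh, if_pos (V.mul_mem hg hh)]
      linear_combination -(hcV g hg h (hi.le hh))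
    · simp only
      rw [if_pos hi.cube_mem]
      have h4 := hc s hi.sU s hi.sU
      have h5 := hc (s ^ 2) (U.pow_mem hi.sU 2) s hi.sU
      unfold cup at h4 h5
      rw [hi.sχ, one_mul, ← pow_two] at h4
      rw [hom_pow hi.hom hi.sU, hi.sχ, ← pow_succ] at h5
      push_cast at h5
      linear_combination -h4 - h5 + (ω s - z s) * h3
    · intro g hg
      show (if s * g * s⁻¹ ∈ V then -z (s * g * s⁻¹) else 0) - (if g ∈ V then -z g else 0) = ω g
      rw [if_pos hg, if_pos (hi.conj_mem hi.sU hg)]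
      have h4 := hc s hi.sU g (hi.le hg)
      have h5 := hcV _ (hi.conj_mem hi.sU hg) s hi.sU
      unfold cup at h4
      rw [hi.sχ, one_mul] at h4
      rw [show s * g * s⁻¹ * s = s * g by group] at h5
      linear_combination -h4 + h5
  · rintro ⟨ψ, hψ, hψ3, hψt⟩
    set b := ω s with hb
    have htt : ∀ v ∈ V, tw s (tw s ψ) v = 0 := by
      intro v hv
      show tw s ψ (s * v * s⁻¹) - tw s ψ v = 0
      rw [hψt _ (hi.conj_mem hi.sU hv), hψt _ hv, hom_conj hω hi.sU (hi.le hv), sub_self]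
    refine ⟨fun g => if g ∈ U then -ψ (vp χ s g) + b * χ g * (χ g - 1) else 0, ?_, ?_⟩
    · exact sm1_vp hi (fun a v => -ψ v + b * a * (a - 1))
        (fun a => hψ.1.map fun x => -x + b * a * (a - 1)) 0
    · intro g hg h hh
      have hv := vp_mem hi hh
      simp only
      rw [if_pos hg, if_pos hh, if_pos (U.mul_mem hg hh), hom_vp_mul hi hψ hg hh, hψ3, conj_val ψ s _ _,
        hψt _ hv, htt _ hv, hi.hom.2.2 g hg h hh]
      have h4 : ω h = ω (vp χ s h) + χ h * b := by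
        have h5 := hω.2.2 _ (hi.le hv) _ (U.pow_mem hi.sU (χ h).val)
        rw [vp_mul_pow, hom_pow hω hi.sU, ZMod.natCast_zmod_val] at h5
        exact h5
      unfold cup
      rw [h4]
      linear_combination (χ g * χ h * b) * h3

theorem cup_self (hχ : χ ∈ homs S U) : Cob S U (cup χ χ) := by
  have h3 : (3 : ZMod 3) = 0 := by decide
  refine ⟨fun g => χ g ^ 2, hχ.1.map fun x => x ^ 2, fun g hg h hh => ?_⟩
  simp only [cup]
  rw [hχ.2.2 g hg h hh]
  linear_combination (χ g * χ h) * h3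

end Pool.Agent.Work.MP_787500_nt.P3
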