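import Mathlib
import Pool.Agent.Work.MP_787500_nt.P3.A_Idx
import Pool.Agent.Work.MP_787500_nt.P3.A_Lin
import Pool.Agent.Work.MP_787500_nt.P3.A_Cor
import Pool.Agent.Work.MP_787500_nt.P3.A_Res
import Pool.Agent.Work.MP_787500_nt.P3.A_SymbKer

/-!
# Module A_NONDEG (size M): nondegeneracy by counting

`Counts S`, `Hilb S`, `Idx S V U χ s`. Let `k = U.index` (positive, `opn_index_ne`). Apply `lin3` with
`A = homs S V` (as a type), `T` the restriction of `tw s` (`tw_mem`, `LinearMap.restrict`),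
`θ ψ = ψ (s ^ 3)` and `e = 2 k`:
* `T ^ 3 = 0` (`tw_three`), `θ T = 0` (`tw_cube`);
* `dim A = 2 V.index + 2 = 6 k + 2` (`Counts`, `Idx.index`);
* `dim (ker T ⊓ ker θ) = e + 1`: transport `finrank_R` (`dim homs S U = 2 k + 2`) from
  `homs S V ⊓ ker (tw s) ⊓ …` to the submodule of the subtype (`Submodule.finrank_map_subtype_eq` or a
  linear equivalence);
* `h0`: `Cob S U (cup χ χ)` (`cup_self`), so `Hilb` gives `ψ` with `cor U χ s ψ = χ`; then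
  `T (T ψ) = 0` on `V` (`cor_V`, as `χ = 0` on `V`; off `V` everything in `homs S V` is zero) and
  `ψ (s ^ 3) = χ s = 1` (`cor_s`);
* `hK`: let `T (T x) = 0`, `θ x = 0`. Then `T x ∈ ker T ⊓ ker θ` extends to `ω ∈ homs S U`
  (`exists_ext`), `Cob S U (cup χ ω)` by `cup_iff`, so `ω = cor U χ s y` (`Hilb`), hence
  `T x = T (T y)` by `cor_V`.

The four conclusions of `lin3` give, with `cup_iff`, `exists_ext`:
* `cor_cob`: `ω = cor U χ s ψ` restricts to `T (T ψ) = T x` with `θ x = 0`;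
* `exists_not_cob`: extend the `r` of the second conclusion to `ω` (`exists_ext`);
* `cob_codim`: restrict `ω`, `ω'` to `V` (`res_mem`; they are in `ker T ⊓ ker θ` by `hom_conj`,
  `hom_pow`);
* `split`: `r` extends to `ω`.
-/

set_option autoImplicit false

namespace Pool.Agent.Work.MP_787500_nt.P3

variable {G : Type*} [Group G] {S : Sys G} {V U : Subgroup G} {χ ψ ω : G → ZMod 3} {s : G}

private theorem ext_homs {a b : G → ZMod 3} (ha : a ∈ homs S V) (hb : b ∈ homs S V)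
    (h : ∀ g ∈ V, a g = b g) : a = b := by
  funext g
  by_cases hg : g ∈ V
  · exact h g hg
  · rw [ha.2.1 g hg, hb.2.1 g hg]

private theorem nd_main (hS : Counts S) (hH : Hilb S) (hi : Idx S V U χ s) :
    (∀ y ∈ homs S V, ∃ x ∈ homs S V, x (s ^ 3) = 0 ∧ tw s x = tw s (tw s y)) ∧
    (∃ r ∈ homs S V, tw s r = 0 ∧ r (s ^ 3) = 0 ∧ ∀ x ∈ homs S V, tw s x = r → x (s ^ 3) ≠ 0) ∧
    (∀ r ∈ homs S V, ∀ r' ∈ homs S V, tw s r = 0 → r (s ^ 3) = 0 → tw s r' = 0 →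
      r' (s ^ 3) = 0 → (∀ x ∈ homs S V, tw s x = r → x (s ^ 3) ≠ 0) →
      ∃ a : ZMod 3, ∃ x ∈ homs S V, x (s ^ 3) = 0 ∧ tw s x = r' - a • r) ∧
    (∀ ψ ∈ homs S V, tw s (tw s ψ) = 0 → ψ (s ^ 3) = 0 → ∀ c : ZMod 3,
      ∃ r ∈ homs S V, ∃ η ∈ homs S V, tw s r = 0 ∧ r (s ^ 3) = 0 ∧ ψ = r + tw s η ∧
      η (s ^ 3) = c) := by
  have h10 : (1 : ZMod 3) ≠ 0 := by decide
  obtain ⟨fV, rV⟩ := hS V hi.opn
  obtain ⟨fU, rU⟩ := hS U hi.opnU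
  let T : homs S V →ₗ[ZMod 3] homs S V := (tw s).restrict (fun ψ hψ => tw_mem hi hψ)
  let θ : homs S V →ₗ[ZMod 3] ZMod 3 := LinearMap.proj (s ^ 3) ∘ₗ (homs S V).subtype
  have hTv : ∀ x : homs S V, ((T x : homs S V) : G → ZMod 3) = tw s x := fun x => rfl
  have hθv : ∀ x : homs S V, θ x = (x : G → ZMod 3) (s ^ 3) := fun x => rfl
  have hmap : (LinearMap.ker T ⊓ LinearMap.ker θ : Submodule (ZMod 3) (homs S V)).map
      (homs S V).subtype = homs S V ⊓ LinearMap.ker (tw s) ⊓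
        LinearMap.ker (LinearMap.proj (s ^ 3)) := by
    ext ψ
    constructor
    · rintro ⟨⟨x, hx⟩, ⟨h1, h2⟩, rfl⟩
      exact ⟨⟨hx, congrArg Subtype.val (show T ⟨x, hx⟩ = 0 from h1)⟩, h2⟩
    · rintro ⟨⟨hx, h1⟩, h2⟩
      exact ⟨⟨ψ, hx⟩, ⟨show T ⟨ψ, hx⟩ = 0 from Subtype.ext h1, h2⟩, rfl⟩
  have hR := finrank_R hi fU
  rw [← hmap, Submodule.finrank_map_subtype_eq, rU] at hR
  have hχ1 : ∃ x, T (T x) = 0 ∧ θ x ≠ 0 := by
    obtain ⟨ψ, hψ, hc⟩ := hH V U χ s hi χ hi.hom (cup_self hi.hom)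
    refine ⟨⟨ψ, hψ⟩, Subtype.ext (ext_homs (tw_mem hi (tw_mem hi hψ)) (homs S V).zero_mem
      fun g hg => ?_), ?_⟩
    · show tw s (tw s ψ) g = 0
      rw [← cor_V hi hψ hg, hc, chi_of_mem hi hg]
    · show ψ (s ^ 3) ≠ 0
      rw [← cor_s hi hψ, hc, hi.sχ]
      exact h10
  have hK : ∀ x, T (T x) = 0 → θ x = 0 → ∃ y, T x = T (T y) := by
    rintro ⟨x, hx⟩ h1 h2
    obtain ⟨ω, hω, h3⟩ := exists_ext hi (tw_mem hi hx) (congrArg Subtype.val h1) (tw_cube x s)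
    have h4 : Cob S U (cup χ ω) := (cup_iff hi hω).2 ⟨x, hx, h2, fun g hg => (h3 g hg).symm⟩
    obtain ⟨y, hy, h5⟩ := hH V U χ s hi ω hω h4
    refine ⟨⟨y, hy⟩, Subtype.ext (ext_homs (tw_mem hi hx) (tw_mem hi (tw_mem hi hy))
      fun g hg => ?_)⟩
    show tw s x g = tw s (tw s y) g
    rw [← cor_V hi hy hg, h5, h3 g hg]
  obtain ⟨a1, a2, a3, a4⟩ := lin3 T θ (2 * U.index) (fun x => Subtype.ext (tw_three hi x.2))
    (fun x => tw_cube (x : G → ZMod 3) s) (by rw [rV, hi.index]; ring) (by omega) hχ1 hK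
  refine ⟨fun y hy => ?_, ?_, ?_, ?_⟩
  · obtain ⟨x, h1, h2⟩ := a1 ⟨y, hy⟩
    exact ⟨x, x.2, h1, congrArg Subtype.val h2⟩
  · obtain ⟨r, h1, h2, h3⟩ := a2
    exact ⟨r, r.2, congrArg Subtype.val h1, h2, fun x hx hxr => h3 ⟨x, hx⟩ (Subtype.ext hxr)⟩
  · intro r hr r' hr' h1 h2 h1' h2' h3
    obtain ⟨a, x, h4, h5⟩ := a3 ⟨r, hr⟩ ⟨r', hr'⟩ (Subtype.ext h1) h2 (Subtype.ext h1') h2'
      (fun x hx => h3 x x.2 (congrArg Subtype.val hx))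
    exact ⟨a, x, x.2, h4, congrArg Subtype.val h5⟩
  · intro ψ hψ h1 h2 c
    obtain ⟨r, η, h3, h4, h5, h6⟩ := a4 ⟨ψ, hψ⟩ (Subtype.ext h1) h2 c
    exact ⟨r, r.2, η, η.2, congrArg Subtype.val h3, h4, congrArg Subtype.val h5, h6⟩

theorem cor_cob (hS : Counts S) (hH : Hilb S) (hi : Idx S V U χ s) (hψ : ψ ∈ homs S V) :
    Cob S U (cup χ (cor U χ s ψ)) := by
  obtain ⟨x, hx, h1, h2⟩ := (nd_main hS hH hi).1 ψ hψ
  refine (cup_iff hi (cor_mem hi hψ)).2 ⟨x, hx, h1, fun g hg => ?_⟩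
  rw [h2, cor_V hi hψ hg]

theorem exists_not_cob (hS : Counts S) (hH : Hilb S) (hU : Opn S U) (hχ : χ ∈ homs S U)
    (h0 : χ ≠ 0) : ∃ ω ∈ homs S U, ¬ Cob S U (cup χ ω) := by
  obtain ⟨V, s, hi⟩ := exists_idx hU hχ h0
  obtain ⟨r, hr, h1, h2, h3⟩ := (nd_main hS hH hi).2.1
  obtain ⟨ω, hω, h4⟩ := exists_ext hi hr h1 h2
  refine ⟨ω, hω, fun hc => ?_⟩
  obtain ⟨x, hx, h5, h6⟩ := (cup_iff hi hω).1 hc
  exact h3 x hx (ext_homs (tw_mem hi hx) hr fun g hg => (h6 g hg).trans (h4 g hg)) h5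

theorem cob_codim (hS : Counts S) (hH : Hilb S) (hU : Opn S U) (hχ : χ ∈ homs S U)
    (hω : ω ∈ homs S U) (h : ¬ Cob S U (cup χ ω)) {ω' : G → ZMod 3} (hω' : ω' ∈ homs S U) :
    ∃ a : ZMod 3, Cob S U (cup χ (ω' - a • ω)) := by
  classical
  have h30 : ((3 : ℕ) : ZMod 3) = 0 := by decide
  have h0 : χ ≠ 0 := by
    rintro rfl
    apply h
    exact ⟨fun _ => 0, Sm1.const 0, fun g _ k _ => by simp [cup]⟩
  obtain ⟨V, s, hi⟩ := exists_idx hU hχ h0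
  have hres : ∀ η ∈ homs S U, tw s (fun g => if g ∈ V then η g else 0) = 0 ∧
      (fun g => if g ∈ V then η g else 0) (s ^ 3) = 0 := by
    intro η hη
    refine ⟨ext_homs (tw_mem hi (res_mem hi hη)) (homs S V).zero_mem fun g hg => ?_, ?_⟩
    · show (if s * g * s⁻¹ ∈ V then η (s * g * s⁻¹) else 0) - (if g ∈ V then η g else 0) = 0
      rw [if_pos hg, if_pos (hi.conj_mem hi.sU hg), hom_conj hη hi.sU (hi.le hg), sub_self]
    · simp only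
      rw [if_pos hi.cube_mem, hom_pow hη hi.sU, h30, zero_mul]
  obtain ⟨a, x, hx, h1, h2⟩ := (nd_main hS hH hi).2.2.1 _ (res_mem hi hω) _ (res_mem hi hω')
    (hres ω hω).1 (hres ω hω).2 (hres ω' hω').1 (hres ω' hω').2 (by
      intro x hx h1 h2
      apply h
      refine (cup_iff hi hω).2 ⟨x, hx, h2, fun g hg => ?_⟩
      rw [h1]
      exact if_pos hg)
  refine ⟨a, (cup_iff hi ((homs S U).sub_mem hω' ((homs S U).smul_mem a hω))).2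
    ⟨x, hx, h1, fun g hg => ?_⟩⟩
  rw [h2]
  show (if g ∈ V then ω' g else 0) - a * (if g ∈ V then ω g else 0) = ω' g - a * ω g
  rw [if_pos hg, if_pos hg]

theorem split (hS : Counts S) (hH : Hilb S) (hi : Idx S V U χ s) (hψ : ψ ∈ homs S V)
    (h1 : tw s (tw s ψ) = 0) (h2 : ψ (s ^ 3) = 0) (c : ZMod 3) :
    ∃ ω ∈ homs S U, ∃ η ∈ homs S V, η (s ^ 3) = c ∧ ∀ g ∈ V, ψ g = ω g + tw s η g := by
  obtain ⟨r, hr, η, hη, h3, h4, h5, h6⟩ := (nd_main hS hH hi).2.2.2 ψ hψ h1 h2 c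
  obtain ⟨ω, hω, h7⟩ := exists_ext hi hr h3 h4
  refine ⟨ω, hω, η, hη, h6, fun g hg => ?_⟩
  rw [h5, h7 g hg]
  rfl

end Pool.Agent.Work.MP_787500_nt.P3
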