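import Mathlib
import Pool.Agent.Work.MP_787500_nt.P3.A_Nondeg

/-!
# Module A_SYMB (size S): all cup products are multiples of one

`Counts S`, `Hilb S`, `U` open. Facts: (a) `Cob S U` is closed under sums and multiples by constants
(`Cob.comb`); (b) `cup χ ω + cup ω χ = δ (- χ ω)` on `U` (`z g = - (χ g * ω g)`, smooth);
(c) `cup χ (ω' - a • ω) = cup χ ω' - a cup χ ω`.

`symb_eq`: `χ, ω, χ', ω' ∈ homs S U`, `cup χ ω` not a coboundary. If `cup χ' ω'` is a coboundary take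
`a = 0`. Otherwise there is `η ∈ homs S U` with `cup χ η` and `cup χ' η` both not coboundaries: one of
`ω`, `ω'`, `ω + ω'` (if `cup χ' ω` is a coboundary and `cup χ ω'` is one, then `ω + ω'` works for both).
By `cob_codim` for `χ`, and since `cup χ η` is not a coboundary, modulo coboundaries
`cup χ η = a₁ cup χ ω` with `a₁ ≠ 0`; `cup χ' ω' = a₂ cup χ' η` (`cob_codim` for `χ'`);
`cup χ' η = - cup η χ'`, `cup χ η = - cup η χ`; `cup η χ' = a₃ cup η χ` (`cob_codim` for `η`, `cup η χ`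
is not a coboundary). So `cup χ' ω' = a₂ cup χ' η = - a₂ cup η χ' = - a₂ a₃ cup η χ = a₂ a₃ cup χ η =
a₁ a₂ a₃ cup χ ω`.
-/

set_option autoImplicit false

namespace Pool.Agent.Work.MP_787500_nt.P3

variable {G : Type*} [Group G] {S : Sys G} {U : Subgroup G}

theorem Cob.comb {f f' f'' : G → G → ZMod 3} (h : Cob S U f) (h' : Cob S U f') (a b : ZMod 3)
    (he : ∀ g ∈ U, ∀ k ∈ U, f'' g k = a * f g k + b * f' g k) : Cob S U f'' := by
  obtain ⟨z, ⟨W, hW, h1⟩, h2⟩ := h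
  obtain ⟨z', ⟨W', hW', h1'⟩, h2'⟩ := h'
  refine ⟨fun g => a * z g + b * z' g, ⟨W ⊓ W', S.inf hW hW', fun g w hw => ?_⟩,
    fun g hg k hk => ?_⟩
  · simp only
    rw [h1 g w hw.1, h1' g w hw.2]
  · simp only
    rw [he g hg k hk, h2 g hg k hk, h2' g hg k hk]
    ring

theorem cup_comm {χ ω : G → ZMod 3} (hχ : χ ∈ homs S U) (hω : ω ∈ homs S U) :
    Cob S U (fun g h => cup χ ω g h + cup ω χ g h) := by
  obtain ⟨⟨W, hW, h1⟩, -, h3⟩ := hχ
  obtain ⟨⟨W', hW', h1'⟩, -, h3'⟩ := hω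
  refine ⟨fun g => -(χ g * ω g), ⟨W ⊓ W', S.inf hW hW', fun g w hw => ?_⟩, fun g hg h hh => ?_⟩
  · simp only
    rw [h1 g w hw.1, h1' g w hw.2]
  · simp only [cup]
    rw [h3 g hg h hh, h3' g hg h hh]
    ring

theorem cup_swap {χ ω : G → ZMod 3} (hχ : χ ∈ homs S U) (hω : ω ∈ homs S U)
    (h : Cob S U (cup χ ω)) : Cob S U (cup ω χ) :=
  Cob.comb h (cup_comm hχ hω) (-1) 1 fun g _ k _ => by ring

theorem symb_eq (hS : Counts S) (hH : Hilb S) (hU : Opn S U) {χ ω χ' ω' : G → ZMod 3}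
    (hχ : χ ∈ homs S U) (hω : ω ∈ homs S U) (hχ' : χ' ∈ homs S U) (hω' : ω' ∈ homs S U)
    (h : ¬ Cob S U (cup χ ω)) :
    ∃ a : ZMod 3, Cob S U (fun g k => cup χ' ω' g k - a * cup χ ω g k) := by
  by_cases h' : Cob S U (cup χ' ω')
  · exact ⟨0, Cob.comb h' h' 1 0 fun g _ k _ => by ring⟩
  obtain ⟨η, hη, h1, h2⟩ : ∃ η ∈ homs S U, ¬ Cob S U (cup χ η) ∧ ¬ Cob S U (cup χ' η) := by
    by_cases ha : Cob S U (cup χ' ω)
    · by_cases hb : Cob S U (cup χ ω')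
      · refine ⟨ω + ω', add_mem hω hω', fun hc => h ?_, fun hc => h' ?_⟩
        · refine Cob.comb hc hb 1 (-1) fun g _ k _ => ?_
          simp only [cup, Pi.add_apply]
          ring
        · refine Cob.comb hc ha 1 (-1) fun g _ k _ => ?_
          simp only [cup, Pi.add_apply]
          ring
      · exact ⟨ω', hω', hb, h'⟩
    · exact ⟨ω, hω, h, ha⟩
  obtain ⟨a₁, c1⟩ := cob_codim hS hH hU hχ hω h hη
  obtain ⟨a₂, c2⟩ := cob_codim hS hH hU hχ' hη h2 hω'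
  obtain ⟨a₃, c3⟩ := cob_codim hS hH hU hη hχ (fun hc => h1 (cup_swap hη hχ hc)) hχ'
  have c4 := cup_comm hχ' hη
  have c5 := cup_comm hχ hη
  refine ⟨a₁ * a₂ * a₃, ?_⟩
  have d1 := Cob.comb c2 c4 1 a₂ (f'' := fun g k => cup χ' (ω' - a₂ • η) g k +
    a₂ * (cup χ' η g k + cup η χ' g k)) fun g _ k _ => by ring
  have d2 := Cob.comb c3 c5 (-a₂) (-(a₂ * a₃)) (f'' := fun g k =>
    -a₂ * (cup η (χ' - a₃ • χ) g k) - a₂ * a₃ * (cup χ η g k + cup η χ g k))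
      fun g _ k _ => by ring
  have d3 := Cob.comb d1 d2 1 1 (f'' := fun g k => (cup χ' (ω' - a₂ • η) g k +
    a₂ * (cup χ' η g k + cup η χ' g k)) + (-a₂ * (cup η (χ' - a₃ • χ) g k) -
      a₂ * a₃ * (cup χ η g k + cup η χ g k))) fun g _ k _ => by ring
  refine Cob.comb d3 c1 1 (a₂ * a₃) fun g _ k _ => ?_
  simp only [cup, Pi.sub_apply, Pi.smul_apply, smul_eq_mul]
  ring

end Pool.Agent.Work.MP_787500_nt.P3
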