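import Mathlib
import Pool.Agent.Work.MP_787500_nt.P3.A_Symb
import Pool.Agent.Work.MP_787500_nt.P3.A_Chain
import Pool.Agent.Work.MP_787500_nt.P3.A_ResKer
import Pool.Agent.Work.MP_787500_nt.P3.A_NotRes

/-!
# Module A_CLIMB (size M): every class is a cup product; the group has local type

`Three S`, `Counts S`, `Hilb S`. Claim by strong induction on `W.relIndex U`: for `W` in the system,
`W ≤ U`, `α` a smooth cocycle on `U` with `Cob S W α`, there are `χ, ω ∈ homs S U` with
`Cob S U (α - cup χ ω)`.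

If `W = U`: clear (`χ = ω = 0`). Otherwise take `χ ∈ homs S U`, `χ ≠ 0`, vanishing on `W`
(`exists_hom`), `ω₀ ∈ homs S U` with `¬ Cob S U (cup χ ω₀)` (`exists_not_cob`). `ω₀` is not a multiple of
`χ` (`cup_self`, `Cob.comb`), so `exists_idx_ker` gives `Idx S V U χ s` with `ω₀ s = 0`. `W ≤ V`.
`α` is a cocycle on `V` and by induction `α - cup χ' ω'` is a coboundary on `V`, `χ', ω' ∈ homs S V`.
(1) If `Cob S V α`: `res_cob` with `split`.
(2) If not, `cup χ' ω'` is not a coboundary on `V`. By `Hilb` (and `cup_self`) there is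
    `ψ ∈ homs S V` with `cor U χ s ψ = χ`. The restriction `ω₁` of `ω₀` to `V` (`res_mem`) is in
    `homs S V`. By `symb_eq` on `V`, `cup ψ ω₁ - a cup χ' ω'` is a coboundary on `V`, so
    `cup ψ ω₀ - a α` is a coboundary on `V` (`ω₁ = ω₀` there). `notres` (for the cocycle `a α`) gives
    `Cob S U (cup (cor U χ s ψ) ω₀)`, that is `Cob S U (cup χ ω₀)`: contradiction.

`climb`: start with `exists_cob`. `localType`: `nondeg` is `exists_not_cob` for `U = ⊤` (`Opn S ⊤` by
`S.ex`). `one`: `f = cup χ ω`, `f' = cup χ' ω'` modulo coboundaries, `cup χ ω` is not a coboundary;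
`symb_eq`.
-/

set_option autoImplicit false

namespace Pool.Agent.Work.MP_787500_nt.P3

variable {G : Type*} [Group G] {S : Sys G}

private theorem cl_key (h3 : Three S) (hS : Counts S) (hH : Hilb S) {W : Subgroup G}
    (hW : S.mem W) :
    ∀ n : ℕ, ∀ U : Subgroup G, W ≤ U → W.relIndex U ≤ n → ∀ α : G → G → ZMod 3, Coc S U α →
      Cob S W α → ∃ χ ∈ homs S U, ∃ ω ∈ homs S U, Cob S U (fun g h => α g h - cup χ ω g h) := by
  classical
  intro n
  induction n with
  | zero =>
    intro U hWU hn α hα hc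
    exfalso
    have h1 := Subgroup.relIndex_mul_index hWU
    have h2 := S.index hW
    have h4 : W.relIndex U = 0 := by omega
    rw [h4, zero_mul] at h1
    exact h2 h1.symm
  | succ n ih =>
    intro U hWU hn α hα hc
    by_cases hne : W = U
    · rw [← hne]
      exact ⟨0, (homs S W).zero_mem, 0, (homs S W).zero_mem,
        Cob.comb hc hc 1 0 fun g _ k _ => by simp [cup]⟩
    have hU : Opn S U := ⟨W, hW, hWU⟩
    obtain ⟨χ, hχ, h0, hχW⟩ := exists_hom h3 ⟨W, hW, le_rfl⟩ hWU hne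
    obtain ⟨ω₀, hω₀, hn0⟩ := exists_not_cob hS hH hU hχ h0
    have hmul : ∀ a : ZMod 3, ω₀ ≠ a • χ := by
      rintro a rfl
      apply hn0
      refine Cob.comb (cup_self hχ) (cup_self hχ) a 0 fun g _ k _ => ?_
      simp only [cup, Pi.smul_apply, smul_eq_mul]
      ring
    obtain ⟨V, s, hi, hωs⟩ := exists_idx_ker hU hχ h0 hω₀ hmul
    have hWV : W ≤ V := fun w hw => (hi.ker w (hWU hw)).2 (hχW w hw)
    have hlt := relIndex_lt hi hW hWV
    have hαV : Coc S V α :=
      ⟨hα.1, fun g hg h hh k hk => hα.2 g (hi.le hg) h (hi.le hh) k (hi.le hk)⟩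
    obtain ⟨χ', hχ', ω', hω', hc'⟩ := ih V hWV (by omega) α hαV hc
    by_cases hcV : Cob S V α
    · obtain ⟨ω, hω, h4⟩ := res_cob hi
        (fun ψ hψ h1 h2 c => split hS hH hi hψ h1 h2 c) hα hcV
      exact ⟨χ, hχ, ω, hω, h4⟩
    · exfalso
      have hn' : ¬ Cob S V (cup χ' ω') := by
        intro h
        exact hcV (Cob.comb hc' h 1 1 fun g _ k _ => by ring)
      obtain ⟨ψ, hψ, hψc⟩ := hH V U χ s hi χ hi.hom (cup_self hi.hom)
      have hω₁ := res_mem hi hω₀
      obtain ⟨a, ha⟩ := symb_eq hS hH hi.opn hχ' hω' hψ hω₁ hn'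
      apply hn0
      have hαa : Coc S U (fun g h => a * α g h) := by
        obtain ⟨⟨W', hW', h5⟩, h6⟩ := hα
        refine ⟨⟨W', hW', fun g h w hw w' hw' => ?_⟩, fun g hg h hh k hk => ?_⟩
        · simp only
          rw [h5 g h w hw w' hw']
        · simp only
          linear_combination a * h6 g hg h hh k hk
      have h7 : Cob S V (fun g h => cup ψ ω₀ g h - a * α g h) := by
        refine Cob.comb ha hc' 1 (-a) fun g _ k hk => ?_
        have h8 : (if k ∈ V then ω₀ k else 0) = ω₀ k := if_pos hk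
        simp only [cup]
        rw [h8]
        ring
      have h9 := notres hi hψ hω₀ hωs hαa h7
      rwa [hψc] at h9

theorem climb (h3 : Three S) (hS : Counts S) (hH : Hilb S) {U : Subgroup G} (hU : Opn S U)
    {α : G → G → ZMod 3} (hα : Coc S U α) :
    ∃ χ ∈ homs S U, ∃ ω ∈ homs S U, Cob S U (fun g h => α g h - cup χ ω g h) := by
  obtain ⟨W, hW, hWU, hc⟩ := exists_cob hU hα
  exact cl_key h3 hS hH hW _ U hWU le_rfl α hα hc

theorem localType (h3 : Three S) (hS : Counts S) (hH : Hilb S) : LocalType S := by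
  have hT : Opn S (⊤ : Subgroup G) := by
    obtain ⟨W, hW⟩ := S.ex
    exact ⟨W, hW, le_top⟩
  refine ⟨fun χ hχ h0 => exists_not_cob hS hH hT hχ h0, fun f f' hf hf' hn => ?_⟩
  obtain ⟨χ, hχ, ω, hω, h1⟩ := climb h3 hS hH hT hf
  obtain ⟨χ', hχ', ω', hω', h2⟩ := climb h3 hS hH hT hf'
  have hn' : ¬ Cob S ⊤ (cup χ ω) := by
    intro h
    exact hn (Cob.comb h1 h 1 1 fun g _ k _ => by ring)
  obtain ⟨a, ha⟩ := symb_eq hS hH hT hχ hω hχ' hω' hn'
  refine ⟨a, ?_⟩
  have h4 := Cob.comb h2 h1 1 (-a) (f'' := fun g k => (f' g k - cup χ' ω' g k) -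
    a * (f g k - cup χ ω g k)) fun g _ k _ => by ring
  exact Cob.comb h4 ha 1 1 fun g _ k _ => by ring

end Pool.Agent.Work.MP_787500_nt.P3
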