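import Mathlib
import Pool.Agent.Work.MP_787500_nt.P3.Defs

/-!
# Module B_MOD (size S): 3-adic cochains modulo 3

(Port of `PA/ModTwo.lean`.) Reduce modulo 3 with `PadicInt.toZMod` (`3 ∣ x ↔ toZMod x = 0`,
`PadicInt.ker_toZMod`). As `χ g = 1` modulo 3 (`IsChar3.red`), `CocMod S χ 1 f` says
`Coc S ⊤ (toZMod f)`, and `CobMod S χ 1 f` says `Cob S ⊤ (toZMod f)` (lift a smooth `z : G → ZMod 3` to
`ℤ_[3]` with values 0, 1, 2). Then use `LocalType.one`.
-/

set_option autoImplicit false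

namespace Pool.Agent.Work.MP_787500_nt.P3

variable {G : Type*} [Group G] {S : Sys G} {χ : G → ℤ_[3]}

private theorem modThree_iff (x : ℤ_[3]) :
    (3 : ℤ_[3]) ^ 1 ∣ x ↔ PadicInt.toZMod x = (0 : ZMod 3) := by
  rw [pow_one]
  have h1 : x ∈ RingHom.ker (PadicInt.toZMod (p := 3)) ↔ PadicInt.toZMod x = (0 : ZMod 3) :=
    RingHom.mem_ker
  rw [← h1, PadicInt.ker_toZMod, PadicInt.maximalIdeal_eq_span_p, Ideal.mem_span_singleton]
  norm_num

private theorem modThree_chi (hχ : IsChar3 S χ) (g : G) : PadicInt.toZMod (χ g) = (1 : ZMod 3) := by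
  have h := hχ.red g
  rw [← pow_one (3 : ℤ_[3]), modThree_iff, map_sub, map_one] at h
  exact sub_eq_zero.1 h

theorem cobMod_one_iff (hχ : IsChar3 S χ) {f : G → G → ℤ_[3]} :
    CobMod S χ 1 f ↔ Cob S ⊤ (fun g h => PadicInt.toZMod (f g h)) := by
  constructor
  · rintro ⟨z, ⟨W, hW, hz⟩, h⟩
    refine ⟨fun g => PadicInt.toZMod (z g), ⟨W, hW, fun g w hw => by simp only [hz g w hw]⟩,
      fun g _ k _ => ?_⟩
    have h1 := (modThree_iff _).1 (h g k)
    rw [dd, map_sub, map_sub, map_add, map_mul, modThree_chi hχ, one_mul] at h1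
    exact sub_eq_zero.1 h1
  · rintro ⟨z, ⟨W, hW, hz⟩, h⟩
    refine ⟨fun g => ((z g).val : ℤ_[3]), ⟨W, hW, fun g w hw => by simp only [hz g w hw]⟩,
      fun g k => ?_⟩
    have h3 : PadicInt.toZMod (f g k) = z g + z k - z (g * k) :=
      h g (Subgroup.mem_top g) k (Subgroup.mem_top k)
    rw [modThree_iff, dd, map_sub, map_sub, map_add, map_mul, modThree_chi hχ, one_mul, map_natCast,
      map_natCast, map_natCast, ZMod.natCast_zmod_val, ZMod.natCast_zmod_val,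
      ZMod.natCast_zmod_val, h3, sub_self]

theorem cocMod_one_iff (hχ : IsChar3 S χ) {f : G → G → ℤ_[3]} :
    CocMod S χ 1 f ↔ Coc S ⊤ (fun g h => PadicInt.toZMod (f g h)) := by
  constructor
  · rintro ⟨⟨W, hW, h1⟩, h2⟩
    refine ⟨⟨W, hW, fun g h w hw w' hw' => ?_⟩, fun g _ h _ k _ => ?_⟩
    · have h := (modThree_iff _).1 (h1 g h w hw w' hw')
      rw [map_sub] at h
      exact sub_eq_zero.1 h
    · have h := (modThree_iff _).1 (h2 g h k)
      rw [map_sub, map_add, map_add, map_mul, modThree_chi hχ, one_mul] at h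
      exact sub_eq_zero.1 h
  · rintro ⟨⟨W, hW, h1⟩, h2⟩
    refine ⟨⟨W, hW, fun g h w hw w' hw' => ?_⟩, fun g h k => ?_⟩
    · rw [modThree_iff, map_sub]
      exact sub_eq_zero.2 (h1 g h w hw w' hw')
    · rw [modThree_iff, map_sub, map_add, map_add, map_mul, modThree_chi hχ, one_mul]
      exact sub_eq_zero.2
        (h2 g (Subgroup.mem_top g) h (Subgroup.mem_top h) k (Subgroup.mem_top k))

theorem cobMod_one_sub (hL : LocalType S) (hχ : IsChar3 S χ) {f f' : G → G → ℤ_[3]}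
    (hf : CocMod S χ 1 f) (hf' : CocMod S χ 1 f') (h : ¬ CobMod S χ 1 f) :
    ∃ a : ℤ_[3], CobMod S χ 1 (fun g k => f' g k - a * f g k) := by
  rw [cobMod_one_iff hχ] at h
  obtain ⟨a, ha⟩ := hL.one _ _ ((cocMod_one_iff hχ).1 hf) ((cocMod_one_iff hχ).1 hf') h
  refine ⟨((a.val : ℕ) : ℤ_[3]), ?_⟩
  rw [cobMod_one_iff hχ]
  refine (congrArg (Cob S ⊤) ?_).mp ha
  funext g k
  simp only [map_sub, map_mul, map_natCast, ZMod.natCast_zmod_val]

end Pool.Agent.Work.MP_787500_nt.P3
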