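import Mathlib
import Pool.Agent.Work.MP_787500_nt.P3.B_Divide

/-!
# Module B_SEP (size M): a cocycle which is a coboundary modulo all `3 ^ n` is a coboundary

(Port of `PA/Sep.lean`, `2 → 3`.)
`X` a finite set such that every open subgroup containing `X` is `⊤`.
Uniqueness: let `z, z'` be functions, smooth modulo `3 ^ n` (constant modulo `3 ^ n` on cosets of a
member `W` of the system), with `3 ^ n ∣ f - dd χ z`, `3 ^ n ∣ f - dd χ z'` everywhere and
`3 ^ n ∣ z x - z' x` for `x ∈ X`. Then `3 ^ n ∣ z g - z' g` for all `g`: `y = z - z'` satisfies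
`y (g h) = y g + χ g * y h` modulo `3 ^ n`, so `{g | 3 ^ n ∣ y g}` is a subgroup; it contains `X`, and
the members `W` of the system for which `y` is constant modulo `3 ^ n` on cosets.
Compactness: for each `n` let `A n ⊆ (X → ℤ_[3])` be the set of `p` for which there is a smooth `z` with
`3 ^ n ∣ f - dd χ z` and `3 ^ n ∣ z x - p x` for `x ∈ X`. It is nonempty, decreasing in `n`, and closed.
`X → ℤ_[3]` is compact (`X` finite), so there is `p ∈ ⋂ A n`. Choose `z n` for `A n`; by uniqueness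
`3 ^ n ∣ z (n + 1) g - z n g`. Let `z g = lim z n g`, `3 ^ n ∣ z g - z n g`. Then `C1 S z` and
`f = dd χ z` (an element divisible by all `3 ^ n` is zero).
-/

set_option autoImplicit false

namespace Pool.Agent.Work.MP_787500_nt.P3

variable {G : Type*} [Group G] {S : Sys G} {χ : G → ℤ_[3]}

private theorem sep_dvd_iff (n : ℕ) (x : ℤ_[3]) :
    (3 : ℤ_[3]) ^ n ∣ x ↔ ‖x‖ ≤ (3 : ℝ) ^ (-n : ℤ) := by
  rw [← Ideal.mem_span_singleton]
  have := (PadicInt.norm_le_pow_iff_mem_span_pow x n).symm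
  simpa using this

private theorem sep_eq_zero {x : ℤ_[3]} (h : ∀ n : ℕ, (3 : ℤ_[3]) ^ n ∣ x) : x = 0 := by
  by_contra hx
  have hpos : 0 < ‖x‖ := norm_pos_iff.2 hx
  obtain ⟨n, hn⟩ := exists_pow_lt_of_lt_one hpos (by norm_num : (1 / 3 : ℝ) < 1)
  have h1 := (sep_dvd_iff n x).1 (h n)
  have h2 : (3 : ℝ) ^ (-n : ℤ) = (1 / 3) ^ n := by
    rw [zpow_neg, zpow_natCast, one_div, inv_pow]
  rw [h2] at h1
  exact absurd h1 (not_le.2 hn)

private theorem sep_uniq (hχ : IsChar S χ) {X : Finset G}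
    (hX : ∀ H : Subgroup G, Opn S H → (∀ g ∈ X, g ∈ H) → H = ⊤) {f : G → G → ℤ_[3]}
    (n : ℕ) {z z' : G → ℤ_[3]} (hz : Sm1 S z) (hz' : Sm1 S z')
    (h : ∀ g k, (3 : ℤ_[3]) ^ n ∣ f g k - dd χ z g k)
    (h' : ∀ g k, (3 : ℤ_[3]) ^ n ∣ f g k - dd χ z' g k)
    (hx : ∀ x ∈ X, (3 : ℤ_[3]) ^ n ∣ z x - z' x) (g : G) : (3 : ℤ_[3]) ^ n ∣ z g - z' g := by
  have hy : ∀ g k, (3 : ℤ_[3]) ^ n ∣
      (z g - z' g) + χ g * (z k - z' k) - (z (g * k) - z' (g * k)) := by
    intro g k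
    have := dvd_sub (h' g k) (h g k)
    have e : f g k - dd χ z' g k - (f g k - dd χ z g k) =
        (z g - z' g) + χ g * (z k - z' k) - (z (g * k) - z' (g * k)) := by
      simp only [dd]; ring
    rwa [e] at this
  have h1 : (3 : ℤ_[3]) ^ n ∣ z 1 - z' 1 := by
    have := hy 1 1
    rw [hχ.one, one_mul, mul_one, add_sub_cancel_right] at this
    exact this
  let H : Subgroup G :=
    { carrier := {g | (3 : ℤ_[3]) ^ n ∣ z g - z' g}
      mul_mem' := by
        intro a b ha hb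
        have h2 := hy a b
        have h3 : (3 : ℤ_[3]) ^ n ∣ (z a - z' a) + χ a * (z b - z' b) :=
          dvd_add ha (Dvd.dvd.mul_left hb _)
        have h4 := dvd_sub h3 h2
        rwa [sub_sub_cancel] at h4
      one_mem' := h1
      inv_mem' := by
        intro a ha
        have h2 := hy a a⁻¹
        rw [mul_inv_cancel] at h2
        have h3 : (3 : ℤ_[3]) ^ n ∣ χ a * (z a⁻¹ - z' a⁻¹) := by
          have h4 := dvd_sub (dvd_add h2 h1) ha
          have e : (z a - z' a) + χ a * (z a⁻¹ - z' a⁻¹) - (z 1 - z' 1) + (z 1 - z' 1) -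
              (z a - z' a) = χ a * (z a⁻¹ - z' a⁻¹) := by ring
          rwa [e] at h4
        have h5 : (3 : ℤ_[3]) ^ n ∣ χ a⁻¹ * (χ a * (z a⁻¹ - z' a⁻¹)) := Dvd.dvd.mul_left h3 _
        rw [← mul_assoc, ← hχ.mul, inv_mul_cancel, hχ.one, one_mul] at h5
        exact h5 }
  have hH : H = ⊤ := by
    refine hX H ?_ hx
    obtain ⟨W, hW, a⟩ := hz
    obtain ⟨W', hW', a'⟩ := hz'
    refine ⟨W ⊓ W', S.inf hW hW', fun w hw => ?_⟩
    show (3 : ℤ_[3]) ^ n ∣ z w - z' w
    have b := a 1 w hw.1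
    have b' := a' 1 w hw.2
    rw [one_mul] at b b'
    rw [b, b']
    exact h1
  have : g ∈ H := by rw [hH]; exact Subgroup.mem_top g
  exact this

private theorem sep_limit (a : ℕ → ℤ_[3]) (h : ∀ n, (3 : ℤ_[3]) ^ n ∣ a (n + 1) - a n) :
    ∃ l, ∀ n, (3 : ℤ_[3]) ^ n ∣ l - a n := by
  have hc : CauchySeq a := by
    refine cauchySeq_of_le_geometric (1 / 3) 1 (by norm_num) fun n => ?_
    rw [dist_comm, dist_eq_norm, one_mul]
    have := (sep_dvd_iff n _).1 (h n)
    have h2 : (3 : ℝ) ^ (-n : ℤ) = (1 / 3) ^ n := by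
      rw [zpow_neg, zpow_natCast, one_div, inv_pow]
    rwa [h2] at this
  obtain ⟨l, hl⟩ := cauchySeq_tendsto_of_complete hc
  have hstep : ∀ n m, (3 : ℤ_[3]) ^ n ∣ a (n + m) - a n := by
    intro n m
    induction m with
    | zero => simp
    | succ m ih =>
      have h1 := (pow_dvd_pow (3 : ℤ_[3]) (Nat.le_add_right n m)).trans (h (n + m))
      have := dvd_add h1 ih
      rw [sub_add_sub_cancel] at this
      exact this
  refine ⟨l, fun n => ?_⟩
  rw [sep_dvd_iff]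
  have ht : Filter.Tendsto (fun m => ‖a (n + m) - a n‖) Filter.atTop (nhds ‖l - a n‖) := by
    refine Filter.Tendsto.norm (Filter.Tendsto.sub_const ?_ _)
    have := hl.comp (Filter.tendsto_add_atTop_nat n)
    refine this.congr fun m => ?_
    simp only [Function.comp]
    rw [add_comm]
  exact le_of_tendsto' ht fun m => (sep_dvd_iff n _).1 (hstep n m)

theorem b2_of_forall (hχ : IsChar S χ) {X : Finset G}
    (hX : ∀ H : Subgroup G, Opn S H → (∀ g ∈ X, g ∈ H) → H = ⊤) {f : G → G → ℤ_[3]}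
    (hf : Z2 S χ f) (h : ∀ n, CobMod S χ n f) : B2 S χ f := by
  classical
  let A : ℕ → Set (X → ℤ_[3]) := fun n => {p | ∃ z : G → ℤ_[3], Sm1 S z ∧
    (∀ g k, (3 : ℤ_[3]) ^ n ∣ f g k - dd χ z g k) ∧ ∀ x : X, (3 : ℤ_[3]) ^ n ∣ z x - p x}
  have hne : ∀ n, (A n).Nonempty := by
    intro n
    obtain ⟨z, hz, h1⟩ := h n
    exact ⟨fun x => z x, z, hz, h1, fun x => by rw [sub_self]; exact dvd_zero _⟩
  have hdec : ∀ n, A (n + 1) ⊆ A n := by
    rintro n p ⟨z, hz, h1, h2⟩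
    have hd : (3 : ℤ_[3]) ^ n ∣ 3 ^ (n + 1) := pow_dvd_pow _ (Nat.le_succ n)
    exact ⟨z, hz, fun g k => hd.trans (h1 g k), fun x => hd.trans (h2 x)⟩
  have hcl : ∀ n, IsClosed (A n) := by
    intro n
    rw [← isOpen_compl_iff, isOpen_iff_forall_mem_open]
    intro p hp
    refine ⟨Set.pi Set.univ fun x => Metric.closedBall (p x) ((3 : ℝ) ^ (-n : ℤ)), ?_, ?_, ?_⟩
    · rintro q hq ⟨z, hz, h1, h2⟩
      refine hp ⟨z, hz, h1, fun x => ?_⟩
      have h3 : (3 : ℤ_[3]) ^ n ∣ q x - p x := by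
        rw [sep_dvd_iff, ← dist_eq_norm]
        exact hq x (Set.mem_univ x)
      have := dvd_add (h2 x) h3
      rwa [sub_add_sub_cancel] at this
    · refine isOpen_set_pi Set.finite_univ fun x _ => ?_
      exact IsUltrametricDist.isOpen_closedBall _ (by positivity)
    · intro x _
      exact Metric.mem_closedBall_self (by positivity)
  obtain ⟨p, hp⟩ := IsCompact.nonempty_iInter_of_sequence_nonempty_isCompact_isClosed A hdec hne
    (hcl 0).isCompact hcl
  rw [Set.mem_iInter] at hp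
  choose z hz h1 h2 using hp
  have hstep : ∀ g n, (3 : ℤ_[3]) ^ n ∣ z (n + 1) g - z n g := by
    intro g n
    have hd : (3 : ℤ_[3]) ^ n ∣ 3 ^ (n + 1) := pow_dvd_pow _ (Nat.le_succ n)
    refine sep_uniq hχ hX n (hz (n + 1)) (hz n) (fun g k => hd.trans (h1 (n + 1) g k)) (h1 n)
      (fun x hx => ?_) g
    have := dvd_sub (hd.trans (h2 (n + 1) ⟨x, hx⟩)) (h2 n ⟨x, hx⟩)
    rwa [sub_sub_sub_cancel_right] at this
  choose l hl using fun g => sep_limit (fun n => z n g) (hstep g)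
  have hC : C1 S l := by
    intro n
    obtain ⟨W, hW, h3⟩ := hz n
    refine ⟨W, hW, fun g w hw => ?_⟩
    have := dvd_sub (hl (g * w) n) (hl g n)
    simp only [h3 g w hw] at this
    rwa [sub_sub_sub_cancel_right] at this
  refine ⟨l, hC, ?_⟩
  funext g k
  refine sub_eq_zero.1 (sep_eq_zero fun n => ?_)
  have e : f g k - dd χ l g k = (f g k - dd χ (z n) g k) - ((l g - z n g) + χ g * (l k - z n k) -
      (l (g * k) - z n (g * k))) := by
    simp only [dd]; ring
  rw [e]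
  exact dvd_sub (h1 n g k) (dvd_sub (dvd_add (hl g n) (Dvd.dvd.mul_left (hl k n) _)) (hl (g * k) n))

end Pool.Agent.Work.MP_787500_nt.P3
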