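import Mathlib
import Pool.Agent.Work.MP_787500_nt.P3.Defs

/-!
# Module B_DESC (size M): a 2-cocycle which is a coboundary on a subgroup of index two

`H` of index two in `G`, `S'` a system on `H` whose members contain members of `S` inside `H`. All
functions have values in `E` (a field of characteristic zero), with the action `toE E (χ g)`, written `χ g`
here.

1. Let `f = dE z` on `H`, `z : H → E`, `N1 S' z`. Extend `z` by zero to `G`: `z₀`; it satisfies `N1 S z₀`
   (`W ≤ H`; `g w ∈ H ↔ g ∈ H`). Replace `f` by `f - dE χ z₀` (in `ZE S χ`): so `f = 0` on `H × H`.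
2. Let `τ ∉ H`. For `g ∈ G` and `t ∈ {1, τ}` let `t∗g ∈ {1, τ}` be the representative of the coset
   `g t H` and `b t g = (t∗g)⁻¹ g t ∈ H`. Then `b t (g k) = b (t∗k) g * b t k`, `(t∗k)∗g = t∗(g k)`, and
   `t ↦ t∗g` is a permutation of `{1, τ}`. Put `h g = Σ_t f g t` and `c g = Σ_t f (t∗g) (b t g)`.
   Cocycle identity at `(g, k, t)`: `χ g * f k t - f (g k) t = f g k - f g (k t)`, so
   `(dE h) g k = 2 f g k + Σ_t (f g t - f g (k t))`. At `(g, t∗k, b t k)`:
   `f g (k t) = f g (t∗k) + f (g (t∗k)) (b t k) - χ g * f (t∗k) (b t k)`. At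
   `(t∗(g k), b (t∗k) g, b t k)`, with `f = 0` on `H × H`:
   `f (g (t∗k)) (b t k) = f (t∗(g k)) (b t (g k)) - f (t∗(g k)) (b (t∗k) g)`. Summing over `t`:
   `dE h = 2 f + dE c`, so `f = dE ((h - c) / 2)`.
3. `N1 S h` is clear; `N1 S c`: for `w ∈ W` (normal, inside `H`) `t∗(g w) = t∗g` and
   `b t (g w) = b t g * (t⁻¹ w t)`.
(A sum over `{1, τ}` may be written out: for `g ∈ H`: `1∗g = 1`, `τ∗g = τ`; for `g ∉ H`: `1∗g = τ`,
`τ∗g = 1`.)
-/

set_option autoImplicit false

namespace Pool.Agent.Work.MP_787500_nt.P3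

variable {G : Type*} [Group G] {S : Sys G} {χ : G → ℤ_[3]}

private theorem desc_lin {E : Type*} [NormedField E] (a b : E) {z z' : G → E} (hz : N1 S z)
    (hz' : N1 S z') : N1 S (fun g => a * z g + b * z' g) := by
  intro ε hε
  have hpos : 0 < ‖a‖ + ‖b‖ + 1 := by positivity
  obtain ⟨W, hW, h⟩ := hz (ε / (‖a‖ + ‖b‖ + 1)) (by positivity)
  obtain ⟨W', hW', h'⟩ := hz' (ε / (‖a‖ + ‖b‖ + 1)) (by positivity)
  refine ⟨W ⊓ W', S.inf hW hW', fun g w hw => ?_⟩
  have h1 := h g w hw.1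
  have h2 := h' g w hw.2
  have e : a * z (g * w) + b * z' (g * w) - (a * z g + b * z' g) =
      a * (z (g * w) - z g) + b * (z' (g * w) - z' g) := by ring
  rw [e]
  have hq : 0 < ε / (‖a‖ + ‖b‖ + 1) := by positivity
  calc ‖a * (z (g * w) - z g) + b * (z' (g * w) - z' g)‖
      ≤ ‖a * (z (g * w) - z g)‖ + ‖b * (z' (g * w) - z' g)‖ := norm_add_le _ _
    _ = ‖a‖ * ‖z (g * w) - z g‖ + ‖b‖ * ‖z' (g * w) - z' g‖ := by rw [norm_mul, norm_mul]
    _ ≤ ‖a‖ * (ε / (‖a‖ + ‖b‖ + 1)) + ‖b‖ * (ε / (‖a‖ + ‖b‖ + 1)) :=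
        add_le_add (mul_le_mul_of_nonneg_left h1.le (norm_nonneg a))
          (mul_le_mul_of_nonneg_left h2.le (norm_nonneg b))
    _ < (‖a‖ + ‖b‖ + 1) * (ε / (‖a‖ + ‖b‖ + 1)) := by linarith
    _ = ε := by field_simp

private theorem desc_trans {E : Type*} [NormedField E] (t : G) {z : G → E} (hz : N1 S z) :
    N1 S (fun g => z (g * t)) := by
  intro ε hε
  obtain ⟨W, hW, h⟩ := hz ε hε
  refine ⟨W, hW, fun g w hw => ?_⟩
  have e : g * w * t = g * t * (t⁻¹ * w * t) := by group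
  have hm : t⁻¹ * w * t ∈ W := by
    have := (S.normal hW).conj_mem w hw t⁻¹
    rwa [inv_inv] at this
  simp only
  rw [e]
  exact h _ _ hm

private theorem desc_chi {E : Type*} [NormedField E] [NormedAlgebra ℚ_[3] E] (hχ : IsChar S χ) :
    N1 S (fun g => toE E (χ g)) := by
  intro ε hε
  obtain ⟨n, hn⟩ := exists_pow_lt_of_lt_one hε (show (1 / 3 : ℝ) < 1 by norm_num)
  obtain ⟨W, hW, h⟩ := hχ.cont n
  refine ⟨W, hW, fun g w hw => lt_of_le_of_lt ?_ hn⟩
  have h1 := h g w hw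
  have h2 := PadicInt.norm_le_pow_iff_mem_span_pow (χ (g * w) - χ g) n
  rw [Ideal.mem_span_singleton] at h2
  have h3 : ‖χ (g * w) - χ g‖ ≤ ((3 : ℕ) : ℝ) ^ (-n : ℤ) := h2.2 (by exact_mod_cast h1)
  simp only [toE]
  rw [← map_sub, norm_algebraMap', ← PadicInt.coe_sub, PadicInt.padic_norm_e_of_padicInt]
  refine h3.trans (le_of_eq ?_)
  rw [zpow_neg, zpow_natCast, one_div, inv_pow]
  norm_num

private theorem desc_core {H : Subgroup G} (h2 : H.index = 2)
    (hWH : ∃ W, S.mem W ∧ W ≤ H) {E : Type*} [NormedField E] [NormedAlgebra ℚ_[3] E]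
    {f : G → G → E}
    (hc : ∀ g h k, f g h + f (g * h) k = toE E (χ g) * f h k + f g (h * k))
    (hz : ∀ g ∈ H, ∀ h ∈ H, f g h = 0)
    (hN1 : ∀ t, N1 S (fun g => f g t)) (hN2 : ∀ t, N1 S (fun g => f t g)) :
    BE S χ f := by
  classical
  obtain ⟨W₀, hW₀, hW₀H⟩ := hWH
  have hτ : ∃ τ : G, τ ∉ H := by
    by_contra hcon
    push Not at hcon
    have : H = ⊤ := (Subgroup.eq_top_iff' H).2 hcon
    rw [this, Subgroup.index_top] at h2
    omega
  obtain ⟨τ, hτ⟩ := hτ
  have hmul : ∀ {a b : G}, a * b ∈ H ↔ (a ∈ H ↔ b ∈ H) := fun {a b} =>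
    Subgroup.mul_mem_iff_of_index_two h2
  have hinv : ∀ {a : G}, a⁻¹ ∈ H ↔ a ∈ H := fun {a} => H.inv_mem_iff
  let rep : G → G := fun x => if x ∈ H then 1 else τ
  have hrep : ∀ x, rep x ∈ H ↔ x ∈ H := by
    intro x
    by_cases hx : x ∈ H
    · simp only [rep, if_pos hx, hx, iff_true]
      exact H.one_mem
    · simp only [rep, if_neg hx, hx, iff_false]
      exact hτ
  have hrepc : ∀ x y, (x ∈ H ↔ y ∈ H) → rep x = rep y := by
    intro x y hxy
    by_cases hx : x ∈ H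
    · simp only [rep, if_pos hx, if_pos (hxy.1 hx)]
    · simp only [rep, if_neg hx, if_neg (fun hy => hx (hxy.2 hy))]
  let u : G → E := fun x => f (rep x) ((rep x)⁻¹ * x)
  have hu : N1 S u := by
    intro ε hε
    obtain ⟨W, hW, h⟩ := hN2 1 ε hε
    obtain ⟨W', hW', h'⟩ := hN2 τ ε hε
    refine ⟨W₀ ⊓ (W ⊓ W'), S.inf hW₀ (S.inf hW hW'), fun g w hw => ?_⟩
    have hr : rep (g * w) = rep g := by
      refine hrepc _ _ ?_
      rw [hmul]
      have : w ∈ H := hW₀H hw.1
      tauto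
    simp only [u]
    rw [hr, ← mul_assoc]
    by_cases hg : g ∈ H
    · have hr1 : rep g = 1 := by simp only [rep, if_pos hg]
      rw [hr1]
      exact h _ w hw.2.1
    · have hr1 : rep g = τ := by simp only [rep, if_neg hg]
      rw [hr1]
      exact h' _ w hw.2.2
  have hsum : ∀ (F : G → E) (k : G), F (rep k) + F (rep (k * τ)) = F 1 + F τ := by
    intro F k
    by_cases hk : k ∈ H
    · have h1 : rep k = 1 := by simp only [rep, if_pos hk]
      have h3 : rep (k * τ) = τ := by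
        have : ¬ (k * τ ∈ H) := by rw [hmul]; tauto
        simp only [rep, if_neg this]
      rw [h1, h3]
    · have h1 : rep k = τ := by simp only [rep, if_neg hk]
      have h3 : rep (k * τ) = 1 := by
        have : (k * τ ∈ H) := by rw [hmul]; tauto
        simp only [rep, if_pos this]
      rw [h1, h3, add_comm]
  -- the key identity
  have key : ∀ g x, f g x = f g (rep x) + u (g * x) - u (g * rep x) - toE E (χ g) * u x := by
    intro g x
    have hb : (rep x)⁻¹ * x ∈ H := by rw [hmul, hinv]; exact hrep x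
    have hb'' : (rep (g * rep x))⁻¹ * (g * rep x) ∈ H := by rw [hmul, hinv]; exact hrep _
    have e1 := hc g (rep x) ((rep x)⁻¹ * x)
    rw [mul_inv_cancel_left] at e1
    have e2 := hc (rep (g * rep x)) ((rep (g * rep x))⁻¹ * (g * rep x)) ((rep x)⁻¹ * x)
    rw [mul_inv_cancel_left, hz _ hb'' _ hb, mul_zero, zero_add] at e2
    have hr : rep (g * x) = rep (g * rep x) := by
      refine hrepc _ _ ?_
      rw [hmul, hmul, hrep]
    have e3 : (rep (g * rep x))⁻¹ * (g * rep x) * ((rep x)⁻¹ * x) =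
        (rep (g * x))⁻¹ * (g * x) := by
      rw [hr]
      group
    rw [e3] at e2
    simp only [u]
    rw [hr] at e2 ⊢
    linear_combination -e1 + e2
  have h20 : (2 : E) ≠ 0 := by
    have : (algebraMap ℚ_[3] E) 2 ≠ 0 := by
      rw [map_ne_zero_iff _ (algebraMap ℚ_[3] E).injective]
      norm_num
    rwa [map_ofNat] at this
  refine ⟨fun g => (1 / 2) * (1 * f g 1 + 1 * f g τ) + (-1 / 2) * (1 * u g + 1 * u (g * τ)),
    desc_lin _ _ (desc_lin _ _ (hN1 1) (hN1 τ)) (desc_lin _ _ hu (desc_trans τ hu)), ?_⟩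
  funext g k
  have a1 := hc g k 1
  have a2 := hc g k τ
  have k1 := key g (k * 1)
  have k2 := key g (k * τ)
  have s1 := hsum (fun x => f g x) k
  have s2 := hsum (fun x => u (g * x)) k
  simp only [mul_one] at a1 k1 s1 s2
  rw [← mul_assoc] at k2
  simp only [dE]
  field_simp
  linear_combination a1 + a2 + k1 + k2 + s1 - s2

theorem desc {H : Subgroup G} (h2 : H.index = 2) {S' : Sys H}
    (hS : ∀ W', S'.mem W' → ∃ W, S.mem W ∧ W ≤ H ∧ W.subgroupOf H ≤ W') (hχ : IsChar S χ)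
    {E : Type*} [NormedField E] [NormedAlgebra ℚ_[3] E] {f : G → G → E} (hf : ZE S χ f)
    (hb : BE S' (fun g : H => χ (g : G)) (fun g h : H => f (g : G) (h : G))) : BE S χ f := by
  classical
  obtain ⟨z, hz, hfz⟩ := hb
  let z₀ : G → E := fun g => if h : g ∈ H then z ⟨g, h⟩ else 0
  have hz₀H : ∀ g : H, z₀ (g : G) = z g := fun g => by
    simp only [z₀, dif_pos g.2]
  have hmul : ∀ {a b : G}, a * b ∈ H ↔ (a ∈ H ↔ b ∈ H) := fun {a b} =>
    Subgroup.mul_mem_iff_of_index_two h2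
  have hz₀ : N1 S z₀ := by
    intro ε hε
    obtain ⟨W', hW', h⟩ := hz ε hε
    obtain ⟨W, hW, hWH, hWW⟩ := hS W' hW'
    refine ⟨W, hW, fun g w hw => ?_⟩
    have hwH : w ∈ H := hWH hw
    by_cases hg : g ∈ H
    · have hgw : g * w ∈ H := H.mul_mem hg hwH
      have h1 := h ⟨g, hg⟩ ⟨w, hwH⟩ (hWW (Subgroup.mem_subgroupOf.2 hw))
      simp only [z₀, dif_pos hg, dif_pos hgw]
      exact h1
    · have hgw : ¬ (g * w ∈ H) := by rw [hmul]; tauto
      simp only [z₀, dif_neg hg, dif_neg hgw, sub_zero, norm_zero]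
      exact hε
  obtain ⟨W', hW'⟩ := S'.ex
  obtain ⟨W₀, hW₀, hW₀H, -⟩ := hS W' hW'
  have hB : BE S χ (fun g h => f g h - dE χ z₀ g h) := by
    refine desc_core h2 ⟨W₀, hW₀, hW₀H⟩ ?_ ?_ ?_ ?_
    · intro g h k
      have e1 := hf.2 g h k
      simp only [dE]
      have e2 : toE E (χ (g * h)) = toE E (χ g) * toE E (χ h) := by
        simp only [toE]
        rw [hχ.mul, PadicInt.coe_mul, map_mul]
      rw [e2, mul_assoc g h k]
      linear_combination e1
    · intro g hg h hh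
      have e1 : f g h = dE (fun g : H => χ (g : G)) z ⟨g, hg⟩ ⟨h, hh⟩ :=
        congrFun (congrFun hfz ⟨g, hg⟩) ⟨h, hh⟩
      rw [e1]
      simp only [dE]
      rw [← hz₀H ⟨g, hg⟩, ← hz₀H ⟨h, hh⟩, ← hz₀H (⟨g, hg⟩ * ⟨h, hh⟩)]
      simp only [Subgroup.coe_mul, sub_self]
    · intro t
      have n1 : N1 S (fun g => f g t) := by
        intro ε hε
        obtain ⟨W, hW, h⟩ := hf.1 ε hε
        refine ⟨W, hW, fun g w hw => ?_⟩
        have := h g t w hw 1 W.one_mem
        rwa [mul_one] at this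
      have n2 := desc_lin 1 (-1) n1 (desc_lin 1 1 hz₀
        (desc_lin (z₀ t) (-1) (desc_chi (E := E) hχ) (desc_trans t hz₀)))
      refine (congrArg (N1 S) ?_).mp n2
      funext g
      simp only [dE]
      ring
    · intro t
      have n1 : N1 S (fun g => f t g) := by
        intro ε hε
        obtain ⟨W, hW, h⟩ := hf.1 ε hε
        refine ⟨W, hW, fun g w hw => ?_⟩
        have := h t g 1 W.one_mem w hw
        rwa [mul_one] at this
      have n3 : N1 S (fun g => z₀ (t * g)) := by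
        intro ε hε
        obtain ⟨W, hW, h⟩ := hz₀ ε hε
        refine ⟨W, hW, fun g w hw => ?_⟩
        simp only
        rw [← mul_assoc]
        exact h _ w hw
      have n4 : N1 S (fun _ : G => z₀ t) := by
        intro ε hε
        obtain ⟨W, hW⟩ := S.ex
        exact ⟨W, hW, fun _ _ _ => by simpa using hε⟩
      have n2 := desc_lin 1 (-1) n1 (desc_lin 1 1 n4
        (desc_lin (toE E (χ t)) (-1) hz₀ n3))
      refine (congrArg (N1 S) ?_).mp n2
      funext g
      simp only [dE]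
      ring
  obtain ⟨y, hy, hfy⟩ := hB
  refine ⟨fun g => 1 * y g + 1 * z₀ g, desc_lin 1 1 hy hz₀, ?_⟩
  funext g h
  have e1 := congrFun (congrFun hfy g) h
  simp only [dE] at e1 ⊢
  linear_combination e1

end Pool.Agent.Work.MP_787500_nt.P3
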