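import Mathlib
import Pool.Agent.Work.MP_787500_nt.P3.Defs

/-!
# Module B_E (size M): extension of the invariant map to a finite extension

(Port of `PA/InvE.lean`, `2 → 3`.) `E` finite dimensional over `ℚ_[3]`, `e` a basis, `φ i : E → ℚ_[3]` the
coordinates (linear, hence continuous, so `N1`, `N2` are preserved by `φ i ∘`, via `‖φ i x‖ ≤ C ‖x‖`).
Note `toE E a * x = (a : ℚ_[3]) • x`. For `f` in `ZE` (values in `E`) all `φ i ∘ f` are in `ZE` (values in
`ℚ_[3]`). Put `inv' f = Σ i, algebraMap (inv (φ i ∘ f)) * e i`.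
-/

set_option autoImplicit false

namespace Pool.Agent.Work.MP_787500_nt.P3

namespace InvEAux

variable {G : Type*} [Group G] {S : Sys G} {χ : G → ℤ_[3]}

theorem toE_mul {E : Type*} [NormedField E] [NormedAlgebra ℚ_[3] E] (a : ℤ_[3]) (x : E) :
    toE E a * x = (a : ℚ_[3]) • x := by
  rw [toE, Algebra.smul_def]

section lin

variable {A B : Type*} [NormedField A] [NormedAlgebra ℚ_[3] A] [NormedField B]
  [NormedAlgebra ℚ_[3] B]

theorem N1_comp (L : A →L[ℚ_[3]] B) {z : G → A} (hz : N1 S z) : N1 S (fun g => L (z g)) := by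
  intro ε hε
  have hpos : 0 < ‖L‖ + 1 := by positivity
  obtain ⟨W, hW, h⟩ := hz (ε / (‖L‖ + 1)) (by positivity)
  refine ⟨W, hW, fun g w hw => ?_⟩
  have h1 := h g w hw
  calc ‖L (z (g * w)) - L (z g)‖ = ‖L (z (g * w) - z g)‖ := by rw [map_sub]
    _ ≤ ‖L‖ * ‖z (g * w) - z g‖ := L.le_opNorm _
    _ ≤ (‖L‖ + 1) * ‖z (g * w) - z g‖ := by
        have := norm_nonneg (z (g * w) - z g)
        nlinarith
    _ < (‖L‖ + 1) * (ε / (‖L‖ + 1)) := by
        exact mul_lt_mul_of_pos_left h1 hpos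
    _ = ε := by field_simp

theorem N2_comp (L : A →L[ℚ_[3]] B) {f : G → G → A} (hf : N2 S f) :
    N2 S (fun g h => L (f g h)) := by
  intro ε hε
  have hpos : 0 < ‖L‖ + 1 := by positivity
  obtain ⟨W, hW, h⟩ := hf (ε / (‖L‖ + 1)) (by positivity)
  refine ⟨W, hW, fun g k w hw w' hw' => ?_⟩
  have h1 := h g k w hw w' hw'
  calc ‖L (f (g * w) (k * w')) - L (f g k)‖ = ‖L (f (g * w) (k * w') - f g k)‖ := by rw [map_sub]
    _ ≤ ‖L‖ * ‖f (g * w) (k * w') - f g k‖ := L.le_opNorm _
    _ ≤ (‖L‖ + 1) * ‖f (g * w) (k * w') - f g k‖ := by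
        have := norm_nonneg (f (g * w) (k * w') - f g k)
        nlinarith
    _ < (‖L‖ + 1) * (ε / (‖L‖ + 1)) := by
        exact mul_lt_mul_of_pos_left h1 hpos
    _ = ε := by field_simp

theorem ZE_comp (L : A →L[ℚ_[3]] B) {f : G → G → A} (hf : ZE S χ f) :
    ZE S χ (fun g h => L (f g h)) := by
  refine ⟨N2_comp L hf.1, fun g h k => ?_⟩
  have h1 := hf.2 g h k
  rw [toE_mul] at h1 ⊢
  rw [← map_smul, ← map_add, ← map_add, h1]

theorem dE_comp (L : A →L[ℚ_[3]] B) (z : G → A) (g h : G) :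
    L (dE χ z g h) = dE χ (fun g => L (z g)) g h := by
  simp only [dE, toE_mul, map_sub, map_add, map_smul]

theorem BE_comp (L : A →L[ℚ_[3]] B) {f : G → G → A} (hf : BE S χ f) :
    BE S χ (fun g h => L (f g h)) := by
  obtain ⟨z, hz, rfl⟩ := hf
  refine ⟨fun g => L (z g), N1_comp L hz, ?_⟩
  funext g h
  exact dE_comp L z g h

end lin

section sums

variable {E : Type*} [NormedField E] [NormedAlgebra ℚ_[3] E]

theorem N1_add {z z' : G → E} (hz : N1 S z) (hz' : N1 S z') : N1 S (fun g => z g + z' g) := by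
  intro ε hε
  obtain ⟨W, hW, h⟩ := hz (ε / 2) (by positivity)
  obtain ⟨W', hW', h'⟩ := hz' (ε / 2) (by positivity)
  refine ⟨W ⊓ W', S.inf hW hW', fun g w hw => ?_⟩
  have e : z (g * w) + z' (g * w) - (z g + z' g) = (z (g * w) - z g) + (z' (g * w) - z' g) := by
    ring
  rw [e]
  calc _ ≤ ‖z (g * w) - z g‖ + ‖z' (g * w) - z' g‖ := norm_add_le _ _
    _ < ε / 2 + ε / 2 := add_lt_add (h g w hw.1) (h' g w hw.2)
    _ = ε := by ring

theorem N2_add {f f' : G → G → E} (hf : N2 S f) (hf' : N2 S f') :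
    N2 S (fun g h => f g h + f' g h) := by
  intro ε hε
  obtain ⟨W, hW, h⟩ := hf (ε / 2) (by positivity)
  obtain ⟨W', hW', h'⟩ := hf' (ε / 2) (by positivity)
  refine ⟨W ⊓ W', S.inf hW hW', fun g k w hw w' hw' => ?_⟩
  have e : f (g * w) (k * w') + f' (g * w) (k * w') - (f g k + f' g k) =
    (f (g * w) (k * w') - f g k) + (f' (g * w) (k * w') - f' g k) := by ring
  rw [e]
  calc _ ≤ ‖f (g * w) (k * w') - f g k‖ + ‖f' (g * w) (k * w') - f' g k‖ := norm_add_le _ _
    _ < ε / 2 + ε / 2 := add_lt_add (h g k w hw.1 w' hw'.1) (h' g k w hw.2 w' hw'.2)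
    _ = ε := by ring

theorem N1_zero : N1 S (fun _ => (0 : E)) := by
  intro ε hε
  obtain ⟨W, hW⟩ := S.ex
  exact ⟨W, hW, fun _ _ _ => by simpa using hε⟩

theorem N2_zero : N2 S (fun _ _ => (0 : E)) := by
  intro ε hε
  obtain ⟨W, hW⟩ := S.ex
  exact ⟨W, hW, fun _ _ _ _ _ _ => by simpa using hε⟩

theorem ZE_zero : ZE S χ (fun _ _ => (0 : E)) := ⟨N2_zero, fun _ _ _ => by simp⟩

theorem ZE_add {f f' : G → G → E} (hf : ZE S χ f) (hf' : ZE S χ f') :
    ZE S χ (fun g h => f g h + f' g h) := by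
  refine ⟨N2_add hf.1 hf'.1, fun g h k => ?_⟩
  have h1 := hf.2 g h k
  have h2 := hf'.2 g h k
  linear_combination h1 + h2

theorem N2_mul (a : E) {f : G → G → E} (hf : N2 S f) : N2 S (fun g h => a * f g h) := by
  intro ε hε
  have hpos : 0 < ‖a‖ + 1 := by positivity
  obtain ⟨W, hW, h⟩ := hf (ε / (‖a‖ + 1)) (by positivity)
  refine ⟨W, hW, fun g k w hw w' hw' => ?_⟩
  have h1 := h g k w hw w' hw'
  calc ‖a * f (g * w) (k * w') - a * f g k‖ = ‖a‖ * ‖f (g * w) (k * w') - f g k‖ := by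
        rw [← mul_sub, norm_mul]
    _ ≤ (‖a‖ + 1) * ‖f (g * w) (k * w') - f g k‖ := by
        have := norm_nonneg (f (g * w) (k * w') - f g k)
        nlinarith
    _ < (‖a‖ + 1) * (ε / (‖a‖ + 1)) := by
        exact mul_lt_mul_of_pos_left h1 hpos
    _ = ε := by field_simp

theorem ZE_mul (a : E) {f : G → G → E} (hf : ZE S χ f) : ZE S χ (fun g h => a * f g h) := by
  refine ⟨N2_mul a hf.1, fun g h k => ?_⟩
  have h1 := hf.2 g h k
  linear_combination a * h1

theorem ZE_sum {ι : Type*} (s : Finset ι) (M : ι → E) (F : ι → G → G → E)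
    (hF : ∀ i, ZE S χ (F i)) : ZE S χ (fun g h => ∑ i ∈ s, M i * F i g h) := by
  classical
  induction s using Finset.induction_on with
  | empty => simpa using (ZE_zero (S := S) (χ := χ) (E := E))
  | insert i s hi ih =>
    simp only [Finset.sum_insert hi]
    exact ZE_add (ZE_mul _ (hF i)) ih

theorem inv_zero {κ : G → G} {inv : (G → G → E) → E} (hinv : InvMap S E χ κ inv) :
    inv (fun _ _ => (0 : E)) = 0 := by
  have h := hinv.smul 0 (fun _ _ => (0 : E)) ZE_zero
  simpa using h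

theorem inv_sum {κ : G → G} {inv : (G → G → E) → E} (hinv : InvMap S E χ κ inv)
    {ι : Type*} (s : Finset ι) (M : ι → E) (F : ι → G → G → E) (hF : ∀ i, ZE S χ (F i)) :
    inv (fun g h => ∑ i ∈ s, M i * F i g h) = ∑ i ∈ s, M i * inv (F i) := by
  classical
  induction s using Finset.induction_on with
  | empty => simpa using inv_zero hinv
  | insert i s hi ih =>
    simp only [Finset.sum_insert hi]
    rw [hinv.add (fun g h => M i * F i g h) (fun g h => ∑ j ∈ s, M j * F j g h)
      (ZE_mul _ (hF i)) (ZE_sum s M F hF), hinv.smul _ _ (hF i), ih]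

theorem N1_sum {ι : Type*} (s : Finset ι) (z : ι → G → E) (hz : ∀ i, N1 S (z i)) :
    N1 S (fun g => ∑ i ∈ s, z i g) := by
  classical
  induction s using Finset.induction_on with
  | empty => simpa using (N1_zero (S := S) (E := E))
  | insert i s hi ih =>
    simp only [Finset.sum_insert hi]
    exact N1_add (hz i) ih

end sums

end InvEAux

open InvEAux

variable {G : Type*} [Group G] {S : Sys G} {χ : G → ℤ_[3]}

theorem exists_invMap_E (E : Type*) [NormedField E] [NormedAlgebra ℚ_[3] E]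
    [FiniteDimensional ℚ_[3] E] {κ : G → G} {inv : (G → G → ℚ_[3]) → ℚ_[3]}
    (hinv : InvMap S ℚ_[3] χ κ inv) :
    ∃ inv' : (G → G → E) → E, InvMap S E χ κ inv' := by
  classical
  let e := Module.finBasis ℚ_[3] E
  let φ : Fin (Module.finrank ℚ_[3] E) → (E →L[ℚ_[3]] ℚ_[3]) :=
    fun i => LinearMap.toContinuousLinearMap (e.coord i)
  have hφ : ∀ i x, φ i x = e.repr x i := fun i x => rfl
  have hrep : ∀ x : E, ∑ i, φ i x • e i = x := by
    intro x
    simp only [hφ]
    exact e.sum_repr x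
  refine ⟨fun f => ∑ i, inv (fun g h => φ i (f g h)) • e i, ?_, ?_, ?_, ?_⟩
  · intro f f' hf hf'
    rw [← Finset.sum_add_distrib]
    refine Finset.sum_congr rfl fun i _ => ?_
    rw [← add_smul, ← hinv.add _ _ (ZE_comp (φ i) hf) (ZE_comp (φ i) hf')]
    simp only [map_add]
  · intro a f hf
    have key : ∀ i, inv (fun g h => φ i (a * f g h)) =
        ∑ j, φ i (a * e j) * inv (fun g h => φ j (f g h)) := by
      intro i
      rw [← inv_sum hinv Finset.univ (fun j => φ i (a * e j)) (fun j g h => φ j (f g h))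
        (fun j => ZE_comp (φ j) hf)]
      congr 1
      funext g h
      conv_lhs => rw [← hrep (f g h)]
      rw [Finset.mul_sum, map_sum]
      refine Finset.sum_congr rfl fun j _ => ?_
      rw [mul_smul_comm, map_smul, smul_eq_mul, mul_comm]
    show ∑ i, inv (fun g h => φ i (a * f g h)) • e i =
      a * ∑ i, inv (fun g h => φ i (f g h)) • e i
    rw [Finset.mul_sum]
    have h1 : ∀ j, a * (inv (fun g h => φ j (f g h)) • e j) =
        ∑ i, (φ i (a * e j) * inv (fun g h => φ j (f g h))) • e i := by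
      intro j
      rw [mul_smul_comm]
      conv_lhs => rw [← hrep (a * e j)]
      rw [Finset.smul_sum]
      refine Finset.sum_congr rfl fun i _ => ?_
      rw [smul_smul, mul_comm]
    simp only [h1, key, Finset.sum_smul]
    exact Finset.sum_comm
  · intro f hf
    constructor
    · intro h0
      have hli := Fintype.linearIndependent_iff.1 e.linearIndependent _ h0
      have hB : ∀ i, BE S χ (fun g h => φ i (f g h)) := fun i =>
        (hinv.ker _ (ZE_comp (φ i) hf)).1 (hli i)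
      choose z hz hfz using hB
      let L : Fin (Module.finrank ℚ_[3] E) → (ℚ_[3] →L[ℚ_[3]] E) :=
        fun i => ContinuousLinearMap.smulRight (ContinuousLinearMap.id ℚ_[3] ℚ_[3]) (e i)
      have hL : ∀ i c, L i c = c • e i := fun i c => rfl
      refine ⟨fun g => ∑ i, L i (z i g), N1_sum _ _ fun i => N1_comp (L i) (hz i), ?_⟩
      funext g h
      have h2 : ∀ i, φ i (f g h) = dE χ (z i) g h := fun i => congrFun (congrFun (hfz i) g) h
      rw [← hrep (f g h)]
      simp only [dE, toE_mul, Finset.smul_sum, ← Finset.sum_add_distrib, ← Finset.sum_sub_distrib]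
      refine Finset.sum_congr rfl fun i _ => ?_
      rw [h2 i, dE, hL, hL, hL, toE_mul, sub_smul, add_smul, smul_smul, smul_eq_mul]
    · intro hB
      refine Finset.sum_eq_zero fun i _ => ?_
      rw [(hinv.ker _ (ZE_comp (φ i) hf)).2 (BE_comp (φ i) hB), zero_smul]
  · intro f hf
    refine Finset.sum_congr rfl fun i _ => ?_
    have := hinv.kap _ (ZE_comp (φ i) hf)
    rw [this]

end Pool.Agent.Work.MP_787500_nt.P3
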