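import Mathlib
import Pool.Agent.Work.MP_787500_nt.P3.B_Divide
import Pool.Agent.Work.MP_787500_nt.P3.B_E

/-!
# Module B_Q (size M): the invariant map with values in the field of 3-adic numbers

(Port of `PA/QTwo.lean`, `2 → 3`.) `E = ℚ_[3]`; `toE ℚ_[3] a = a`.
1. A function `f` with `N2 S f` is bounded: take `W` for `ε = 1`; `W` has finite index
   (`Sys.index`), so `f` takes, up to distance 1, finitely many values. So if `ZE S χ f` there is `k`
   with `3 ^ k * f g h` integral for all `g, h`: `3 ^ k f = f'` with `f' : G → G → ℤ_[3]`, and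
   `Z2 S χ f'` (`3 ^ n ∣ x ↔ ‖x‖ ≤ 3 ^ (-n)`, `PadicInt.norm_le_pow_iff_mem_span_pow`). Conversely
   `Z2` and `B2` go to `ZE` and `BE`; the same for one variable.
2. `hcyc` gives for `f` in `ZE` some `a` in `ℚ_[3]` with `f - a n0` in `BE`.
3. If `n0` (as a function with values in `ℚ_[3]`) is in `BE`, every `f` in `ZE` is in `BE`; take
   `inv = 0`. Otherwise the `a` in 2. is unique; let `inv f` be this `a` (and 0 for `f` not in `ZE`).
   Additivity, homogeneity and the kernel are clear (`BE` is a subspace). `kap`: by `hsign`,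
   `f ∘ κ - f` is in `BE` for `f` in `ZE` (and `f ∘ κ` is in `ZE`, by `hκ`).
-/

set_option autoImplicit false

namespace Pool.Agent.Work.MP_787500_nt.P3

namespace QThreeAux

open InvEAux

variable {G : Type*} [Group G] {S : Sys G} {χ : G → ℤ_[3]}

theorem dvd_iff (x : ℤ_[3]) (n : ℕ) : (3 : ℤ_[3]) ^ n ∣ x ↔ ‖x‖ ≤ (3 : ℝ) ^ (-n : ℤ) := by
  have h := PadicInt.norm_le_pow_iff_mem_span_pow x n
  rw [Ideal.mem_span_singleton] at h
  simpa using h.symm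

theorem toEQ (a : ℤ_[3]) : toE ℚ_[3] a = (a : ℚ_[3]) := rfl

theorem exists_pow_lt {ε : ℝ} (hε : 0 < ε) : ∃ n : ℕ, (3 : ℝ) ^ (-n : ℤ) < ε := by
  obtain ⟨n, hn⟩ := exists_pow_lt_of_lt_one hε (show (1 / 3 : ℝ) < 1 by norm_num)
  refine ⟨n, ?_⟩
  rw [zpow_neg, zpow_natCast]
  rwa [one_div, inv_pow] at hn

theorem C1.n1 {z : G → ℤ_[3]} (hz : C1 S z) : N1 S (fun g => (z g : ℚ_[3])) := by
  intro ε hε
  obtain ⟨n, hn⟩ := exists_pow_lt hε
  obtain ⟨W, hW, h⟩ := hz n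
  refine ⟨W, hW, fun g w hw => lt_of_le_of_lt ?_ hn⟩
  have h1 := (dvd_iff _ _).1 (h g w hw)
  rw [← PadicInt.coe_sub]
  exact h1

theorem C2.n2 {f : G → G → ℤ_[3]} (hf : C2 S f) : N2 S (fun g h => (f g h : ℚ_[3])) := by
  intro ε hε
  obtain ⟨n, hn⟩ := exists_pow_lt hε
  obtain ⟨W, hW, h⟩ := hf n
  refine ⟨W, hW, fun g k w hw w' hw' => lt_of_le_of_lt ?_ hn⟩
  have h1 := (dvd_iff _ _).1 (h g k w hw w' hw')
  rw [← PadicInt.coe_sub]
  exact h1

theorem Z2.ze {f : G → G → ℤ_[3]} (hf : Z2 S χ f) : ZE S χ (fun g h => (f g h : ℚ_[3])) := by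
  refine ⟨C2.n2 hf.1, fun g h k => ?_⟩
  have h1 := hf.2 g h k
  rw [toEQ]
  have h2 := congrArg (fun x : ℤ_[3] => (x : ℚ_[3])) h1
  simp only [PadicInt.coe_add, PadicInt.coe_mul] at h2
  exact h2

theorem B2.be {f : G → G → ℤ_[3]} (hf : B2 S χ f) : BE S χ (fun g h => (f g h : ℚ_[3])) := by
  obtain ⟨z, hz, rfl⟩ := hf
  refine ⟨fun g => (z g : ℚ_[3]), C1.n1 hz, ?_⟩
  funext g h
  simp only [dd, dE, toEQ]
  push_cast
  ring

section
variable {E : Type*} [NormedField E] [NormedAlgebra ℚ_[3] E]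

theorem N1_mul (a : E) {z : G → E} (hz : N1 S z) : N1 S (fun g => a * z g) := by
  intro ε hε
  have hpos : 0 < ‖a‖ + 1 := by positivity
  obtain ⟨W, hW, h⟩ := hz (ε / (‖a‖ + 1)) (by positivity)
  refine ⟨W, hW, fun g w hw => ?_⟩
  have h1 := h g w hw
  calc ‖a * z (g * w) - a * z g‖ = ‖a‖ * ‖z (g * w) - z g‖ := by
        rw [← mul_sub, norm_mul]
    _ ≤ (‖a‖ + 1) * ‖z (g * w) - z g‖ := by
        have := norm_nonneg (z (g * w) - z g)
        nlinarith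
    _ < (‖a‖ + 1) * (ε / (‖a‖ + 1)) := by
        exact mul_lt_mul_of_pos_left h1 hpos
    _ = ε := by field_simp

theorem BE_add {f f' : G → G → E} (hf : BE S χ f) (hf' : BE S χ f') :
    BE S χ (fun g h => f g h + f' g h) := by
  obtain ⟨z, hz, rfl⟩ := hf
  obtain ⟨z', hz', rfl⟩ := hf'
  refine ⟨_, N1_add hz hz', ?_⟩
  funext g h
  simp only [dE]
  ring

theorem BE_mul (a : E) {f : G → G → E} (hf : BE S χ f) : BE S χ (fun g h => a * f g h) := by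
  obtain ⟨z, hz, rfl⟩ := hf
  refine ⟨_, N1_mul a hz, ?_⟩
  funext g h
  simp only [dE]
  ring

theorem ZE_kap {κ : G → G} (hκ : IsInvol S χ κ) {f : G → G → E} (hf : ZE S χ f) :
    ZE S χ (fun g h => f (κ g) (κ h)) := by
  refine ⟨fun ε hε => ?_, fun g h k => ?_⟩
  · obtain ⟨W, hW, h⟩ := hf.1 ε hε
    obtain ⟨W', hW', h'⟩ := hκ.sys W hW
    refine ⟨W', hW', fun g k w hw w' hw' => ?_⟩
    show ‖f (κ (g * w)) (κ (k * w')) - f (κ g) (κ k)‖ < ε
    rw [hκ.mul, hκ.mul]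
    exact h _ _ _ (h' w hw) _ (h' w' hw')
  · have h1 := hf.2 (κ g) (κ h) (κ k)
    rw [← hκ.mul, ← hκ.mul, hκ.chi] at h1
    exact h1

end

theorem bounded {f : G → G → ℚ_[3]} (hf : N2 S f) : ∃ M : ℝ, ∀ g h, ‖f g h‖ ≤ M := by
  classical
  obtain ⟨W, hW, h⟩ := hf 1 one_pos
  have hfin : W.FiniteIndex := ⟨S.index hW⟩
  have : Finite (G ⧸ W) := inferInstance
  let v : (G ⧸ W) × (G ⧸ W) → ℝ := fun q => ‖f q.1.out q.2.out‖
  obtain ⟨M, hM⟩ := (Set.finite_range v).bddAbove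
  refine ⟨M + 1, fun g k => ?_⟩
  have h1 : ∀ g : G, ∃ w ∈ W, g = (QuotientGroup.mk g : G ⧸ W).out * w := by
    intro g
    obtain ⟨w, hw⟩ := QuotientGroup.mk_out_eq_mul W g
    refine ⟨(w : G)⁻¹, W.inv_mem w.2, ?_⟩
    rw [hw]
    group
  obtain ⟨w, hw, hg⟩ := h1 g
  obtain ⟨w', hw', hk'⟩ := h1 k
  have h2 := h (QuotientGroup.mk g : G ⧸ W).out (QuotientGroup.mk k : G ⧸ W).out w hw w' hw'
  rw [← hg, ← hk'] at h2
  have h3 : ‖f (QuotientGroup.mk g : G ⧸ W).out (QuotientGroup.mk k : G ⧸ W).out‖ ≤ M :=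
    hM ⟨(QuotientGroup.mk g, QuotientGroup.mk k), rfl⟩
  calc ‖f g k‖ = ‖(f g k - f (QuotientGroup.mk g : G ⧸ W).out (QuotientGroup.mk k : G ⧸ W).out) +
        f (QuotientGroup.mk g : G ⧸ W).out (QuotientGroup.mk k : G ⧸ W).out‖ := by ring_nf
    _ ≤ _ := norm_add_le _ _
    _ ≤ 1 + M := add_le_add h2.le h3
    _ = M + 1 := add_comm _ _

theorem clear {f : G → G → ℚ_[3]} (hf : ZE S χ f) :
    ∃ (k : ℕ) (f' : G → G → ℤ_[3]), Z2 S χ f' ∧ ∀ g h, 3 ^ k * f g h = (f' g h : ℚ_[3]) := by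
  obtain ⟨M, hM⟩ := bounded hf.1
  obtain ⟨k, hk⟩ := exists_pow_lt (show (0 : ℝ) < 1 / (|M| + 1) by positivity)
  have hn : ∀ x : ℚ_[3], ‖(3 : ℚ_[3]) ^ k * x‖ = (3 : ℝ) ^ (-k : ℤ) * ‖x‖ := by
    intro x
    rw [norm_mul, norm_pow]
    have h2 : ‖(3 : ℚ_[3])‖ = 3⁻¹ := by
      have := Padic.norm_p (p := 3)
      simpa using this
    rw [h2, zpow_neg, zpow_natCast, inv_pow]
  have hint : ∀ g h, ‖(3 : ℚ_[3]) ^ k * f g h‖ ≤ 1 := by
    intro g h
    rw [hn]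
    have h1 : ‖f g h‖ ≤ |M| + 1 := (hM g h).trans ((le_abs_self M).trans (by linarith))
    calc (3 : ℝ) ^ (-k : ℤ) * ‖f g h‖ ≤ (1 / (|M| + 1)) * (|M| + 1) :=
          mul_le_mul hk.le h1 (norm_nonneg _) (by positivity)
      _ = 1 := by
          have : (|M| + 1) ≠ 0 := by positivity
          field_simp
  let f' : G → G → ℤ_[3] := fun g h => ⟨3 ^ k * f g h, hint g h⟩
  have hf' : ∀ g h, 3 ^ k * f g h = (f' g h : ℚ_[3]) := fun _ _ => rfl
  refine ⟨k, f', ⟨fun n => ?_, fun g h l => ?_⟩, hf'⟩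
  · obtain ⟨W, hW, h⟩ := hf.1 ((3 : ℝ) ^ (-n : ℤ)) (by positivity)
    refine ⟨W, hW, fun g l w hw w' hw' => ?_⟩
    rw [dvd_iff, ← PadicInt.padic_norm_e_of_padicInt, PadicInt.coe_sub, ← hf', ← hf', ← mul_sub, hn]
    have h1 := (h g l w hw w' hw').le
    calc (3 : ℝ) ^ (-k : ℤ) * ‖f (g * w) (l * w') - f g l‖ ≤ 1 * (3 : ℝ) ^ (-n : ℤ) := by
          refine mul_le_mul ?_ h1 (norm_nonneg _) zero_le_one
          rw [zpow_neg, zpow_natCast]
          exact inv_le_one_of_one_le₀ (one_le_pow₀ (by norm_num))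
      _ = _ := one_mul _
  · apply PadicInt.ext
    push_cast
    rw [← hf', ← hf', ← hf', ← hf']
    have h1 := hf.2 g h l
    rw [toEQ] at h1
    linear_combination (3 : ℚ_[3]) ^ k * h1

end QThreeAux

open InvEAux QThreeAux

variable {G : Type*} [Group G] {S : Sys G} {χ : G → ℤ_[3]}

theorem exists_invMap_Q (hχ : IsChar S χ) {κ : G → G} (hκ : IsInvol S χ κ)
    {n0 : G → G → ℤ_[3]} (hn0 : Z2 S χ n0)
    (hcyc : ∀ f, Z2 S χ f → ∃ a : ℤ_[3], B2 S χ (fun g h => f g h - a * n0 g h))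
    (hsign : ∀ f, Z2 S χ f → ∃ k : ℕ, B2 S χ (fun g h => 3 ^ k * (f (κ g) (κ h) - f g h))) :
    ∃ inv : (G → G → ℚ_[3]) → ℚ_[3], InvMap S ℚ_[3] χ κ inv := by
  classical
  have hex : ∀ f : G → G → ℚ_[3], ZE S χ f →
      ∃ a : ℚ_[3], BE S χ (fun g h => f g h - a * (n0 g h : ℚ_[3])) := by
    intro f hf
    obtain ⟨k, f', hf', he⟩ := QThreeAux.clear hf
    obtain ⟨a, ha⟩ := hcyc f' hf'
    have h1 := BE_mul ((3 : ℚ_[3]) ^ k)⁻¹ (B2.be ha)
    refine ⟨((3 : ℚ_[3]) ^ k)⁻¹ * a, ?_⟩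
    convert h1 using 3 with g h
    push_cast
    rw [← he]
    have h2 : (3 : ℚ_[3]) ^ k ≠ 0 := pow_ne_zero _ three_ne_zero
    rw [mul_sub, ← mul_assoc, inv_mul_cancel₀ h2, one_mul, mul_assoc]
  have hkap : ∀ f : G → G → ℚ_[3], ZE S χ f →
      BE S χ (fun g h => f (κ g) (κ h) - f g h) := by
    intro f hf
    obtain ⟨k, f', hf', he⟩ := QThreeAux.clear hf
    obtain ⟨l, hl⟩ := hsign f' hf'
    have h1 := BE_mul (((3 : ℚ_[3]) ^ k)⁻¹ * ((3 : ℚ_[3]) ^ l)⁻¹) (B2.be hl)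
    convert h1 using 3 with g h
    have hc : ((3 : ℤ_[3]) : ℚ_[3]) = 3 := rfl
    rw [PadicInt.coe_mul, PadicInt.coe_pow, hc, PadicInt.coe_sub, ← he, ← he]
    have h2 : (3 : ℚ_[3]) ^ k ≠ 0 := pow_ne_zero _ three_ne_zero
    have h3 : (3 : ℚ_[3]) ^ l ≠ 0 := pow_ne_zero _ three_ne_zero
    rw [← mul_sub]
    have e : ((3 : ℚ_[3]) ^ k)⁻¹ * ((3 : ℚ_[3]) ^ l)⁻¹ * (3 ^ l * (3 ^ k * (f (κ g) (κ h) - f g h)))
      = (((3 : ℚ_[3]) ^ k)⁻¹ * (3 : ℚ_[3]) ^ k) * (((3 : ℚ_[3]) ^ l)⁻¹ * (3 : ℚ_[3]) ^ l) *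
        (f (κ g) (κ h) - f g h) := by ring
    rw [e, inv_mul_cancel₀ h2, inv_mul_cancel₀ h3, one_mul, one_mul]
  by_cases hN : BE S χ (fun g h => (n0 g h : ℚ_[3]))
  · have hall : ∀ f : G → G → ℚ_[3], ZE S χ f → BE S χ f := by
      intro f hf
      obtain ⟨a, ha⟩ := hex f hf
      have h1 := BE_add ha (BE_mul a hN)
      convert h1 using 3 with g h
      ring
    exact ⟨fun _ => 0, fun _ _ _ _ => by simp, fun _ _ _ => by simp,
      fun f hf => ⟨fun _ => hall f hf, fun _ => rfl⟩, fun _ _ => rfl⟩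
  · have huniq : ∀ (f : G → G → ℚ_[3]) (a b : ℚ_[3]),
        BE S χ (fun g h => f g h - a * (n0 g h : ℚ_[3])) →
        BE S χ (fun g h => f g h - b * (n0 g h : ℚ_[3])) → a = b := by
      intro f a b ha hb
      by_contra hab
      apply hN
      have hab' : b - a ≠ 0 := sub_ne_zero.2 (Ne.symm hab)
      have h1 := BE_mul (b - a)⁻¹ (BE_add ha (BE_mul (-1) hb))
      convert h1 using 3 with g h
      field_simp
      ring
    let inv : (G → G → ℚ_[3]) → ℚ_[3] := fun f => if hf : ZE S χ f then (hex f hf).choose else 0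
    have hinv : ∀ f, ZE S χ f → BE S χ (fun g h => f g h - inv f * (n0 g h : ℚ_[3])) := by
      intro f hf
      simp only [inv, dif_pos hf]
      exact (hex f hf).choose_spec
    refine ⟨inv, ?_, ?_, ?_, ?_⟩
    · intro f f' hf hf'
      refine huniq _ _ _ (hinv _ (ZE_add hf hf')) ?_
      have h1 := BE_add (hinv f hf) (hinv f' hf')
      convert h1 using 3 with g h
      ring
    · intro a f hf
      refine huniq _ _ _ (hinv _ (ZE_mul a hf)) ?_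
      have h1 := BE_mul a (hinv f hf)
      convert h1 using 3 with g h
      ring
    · intro f hf
      constructor
      · intro h0
        have h1 := hinv f hf
        rw [h0] at h1
        simpa using h1
      · intro hB
        refine huniq f _ _ (hinv f hf) ?_
        simpa using hB
    · intro f hf
      refine huniq _ _ _ (hinv _ (ZE_kap hκ hf)) ?_
      have h1 := BE_add (hinv f hf) (hkap f hf)
      convert h1 using 3 with g h
      ring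

end Pool.Agent.Work.MP_787500_nt.P3
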