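import Mathlib
import Pool.Agent.Work.MP_787500_nt.P3.C_Root

/-!
# Module C_CYC (size S-M): the cyclotomic character

(Compare `PA/CycK.lean`.) `cyc` is multiplicative. Continuity: for `n` let `ζ` be a primitive `3 ^ n`-th
root of unity; `InM ζ` (`InM.root` with `y = 1`, `SU.of_root`), let `W` be good, fixing `ζ`; for `w ∈ W`,
`cyc w` is 1 modulo `3 ^ n` (`cyclotomicCharacter.toZModPow`, `cyclotomicCharacter.spec`), and
`cyc (g w) - cyc g = cyc g * (cyc w - 1)`. `isChar_cycG`: for `g ∈ Gp K`, `cyc g` is 1 modulo 3 since `g`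
fixes the primitive cube root of unity `z3 K`. `cyc_root`: `g ζ = ζ ^ a` for `ζ ^ (3 ^ n) = 1`, `a` any
natural number congruent to `cyc g` modulo `3 ^ n`.
-/

set_option autoImplicit false

namespace Pool.Agent.Work.MP_787500_nt.P3

open IsDedekindDomain NumberField
open Pool.Agent.Work.MP_787500_nt.OddP (AbsGal IsBase)

universe u

variable {K : Type u} [Field K] [NumberField K]

private theorem cycK_mul (g h : AbsGal K) : cyc (g * h) = cyc g * cyc h := by
  have h1 : ((g * h : AbsGal K) : AlgebraicClosure K ≃+* AlgebraicClosure K) =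
      (g : AlgebraicClosure K ≃+* AlgebraicClosure K) * (h : AlgebraicClosure K ≃+* AlgebraicClosure K) := rfl
  unfold cyc
  rw [h1, map_mul, Units.val_mul]

private theorem cycK_one : cyc (1 : AbsGal K) = 1 := by
  have h1 : ((1 : AbsGal K) : AlgebraicClosure K ≃+* AlgebraicClosure K) = 1 := rfl
  unfold cyc
  rw [h1, map_one, Units.val_one]

private theorem cycK_spec (g : AbsGal K) {n : ℕ} {ζ : AlgebraicClosure K} (h : ζ ^ 3 ^ n = 1) :
    g ζ = ζ ^ (PadicInt.toZModPow n (cyc g)).val :=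
  cyclotomicCharacter.spec 3 (g : AlgebraicClosure K ≃+* AlgebraicClosure K) ζ h

private theorem cycK_prim (n : ℕ) : ∃ ζ : AlgebraicClosure K, IsPrimitiveRoot ζ (3 ^ n) :=
  HasEnoughRootsOfUnity.exists_primitiveRoot _ _

private theorem cycK_eq {g h : AbsGal K} {n : ℕ} {ζ : AlgebraicClosure K}
    (hζ : IsPrimitiveRoot ζ (3 ^ n)) (he : g ζ = h ζ) :
    PadicInt.toZModPow n (cyc g) = PadicInt.toZModPow n (cyc h) := by
  rw [cycK_spec g hζ.pow_eq_one, cycK_spec h hζ.pow_eq_one] at he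
  haveI : NeZero (3 ^ n) := ⟨by positivity⟩
  exact ZMod.val_injective _ (hζ.pow_inj (ZMod.val_lt _) (ZMod.val_lt _) he)

private theorem cycK_dvd {g h : AbsGal K} {n : ℕ}
    (h2 : PadicInt.toZModPow n (cyc g) = PadicInt.toZModPow n (cyc h)) :
    (3 : ℤ_[3]) ^ n ∣ cyc g - cyc h := by
  rw [← sub_eq_zero, ← map_sub, ← RingHom.mem_ker, PadicInt.ker_toZModPow,
    Ideal.mem_span_singleton] at h2
  exact_mod_cast h2

private theorem cycK_good {n : ℕ} {ζ : AlgebraicClosure K} (hζ : IsPrimitiveRoot ζ (3 ^ n)) :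
    ∃ W : Subgroup (AbsGal K), Good W ∧ ∀ w ∈ W, w ζ = ζ := by
  have h1 : InM (1 : AlgebraicClosure K) := by
    have := InM.base (K := K) (1 : K)
    rwa [map_one] at this
  exact InM.root (k := n) h1 (SUlem_one) hζ.pow_eq_one

private theorem cycK_cont (n : ℕ) : ∃ W : Subgroup (AbsGal K), Good W ∧
    ∀ g, ∀ w ∈ W, (3 : ℤ_[3]) ^ n ∣ cyc (g * w) - cyc g := by
  obtain ⟨ζ, hζ⟩ := cycK_prim (K := K) n
  obtain ⟨W, hW, hw⟩ := cycK_good hζ
  refine ⟨W, hW, fun g w hwW => ?_⟩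
  have h1 : (g * w) ζ = g ζ := by
    show g (w ζ) = g ζ
    rw [hw w hwW]
  exact cycK_dvd (cycK_eq hζ h1)

theorem isChar_cyc : IsChar (gSys K) (cyc (K := K)) :=
  ⟨cycK_one, cycK_mul, cycK_cont⟩

theorem isChar_cycG : IsChar3 (pSys K) (cycG (K := K)) := by
  refine ⟨⟨cycK_one, fun g h => cycK_mul (g : AbsGal K) (h : AbsGal K), fun n => ?_⟩, fun g => ?_⟩
  · obtain ⟨W, hW, h⟩ := cycK_cont (K := K) n
    exact ⟨_, pSys_mem hW, fun g w hw => h g w (Subgroup.mem_subgroupOf.1 hw)⟩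
  · have hz : IsPrimitiveRoot (z3 K) (3 ^ 1) := by
      rw [pow_one]
      exact z3_prim
    have h1 : (g : AbsGal K) (z3 K) = (1 : AbsGal K) (z3 K) := g.2
    have h2 := cycK_dvd (cycK_eq hz h1)
    rw [cycK_one, pow_one] at h2
    exact h2

theorem cyc_core {k : AbsGal K} (hk : k ∈ core K) : cyc k = 1 := by
  refine PadicInt.ext_of_toZModPow.mp fun n => ?_
  obtain ⟨ζ, hζ⟩ := cycK_prim (K := K) n
  obtain ⟨W, hW, hw⟩ := cycK_good hζ
  have h1 : k ∈ W := (Subgroup.mem_sInf.1 hk) W hW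
  have h2 : k ζ = (1 : AbsGal K) ζ := hw k h1
  have h3 := cycK_eq hζ h2
  rw [h3, cycK_one]

end Pool.Agent.Work.MP_787500_nt.P3
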