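import Mathlib
import Pool.Agent.Work.MP_787500_nt.P3.A_SymbKer
import Pool.Agent.Work.MP_787500_nt.P3.A_Cor
import Pool.Agent.Work.MP_787500_nt.P3.C_Counts

/-!
# Module C_HILB (size M): if a cup product vanishes then the second character is a transfer

`Idx (pSys K) V U χ s`, `Ω = AlgebraicClosure K`, `ζ = z3 K` (fixed by `Gp K`; `zp`).
`exists_norm`: `β ≠ 0`, `InM β`, `SU β`, `β ^ 3` fixed by `U`, `ω = act3 U β`, `Cob U (cup χ ω)`. By `cup_iff`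
there is `ψ ∈ homs V` with `ψ (s ^ 3) = 0` and `ψ (s g s⁻¹) - ψ g = ω g` on `V`. By `exists_su` (for `V`)
`ψ = act3 V Y`, `SU Y`, `InM Y`, `g Y = zp (ψ g) Y` on `V`. Let `x = Y / s⁻¹ Y * β`. For `g ∈ V`:
`g (s⁻¹ Y) = s⁻¹ ((s g s⁻¹) Y) = zp (ψ (s g s⁻¹)) s⁻¹ Y`, so
`g x = zp (ψ g - ψ (s g s⁻¹) + ω g) x = x`. And
`x * s x * s (s x) = (s (s Y)) / (s⁻¹ Y) * (zp (ω s)) ^ 3 * β ^ 3 = β ^ 3`, because
`s (s Y) = s ^ 3 (s⁻¹ Y) = s⁻¹ (s ^ 3 Y) = zp (ψ (s ^ 3)) s⁻¹ Y = s⁻¹ Y`.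
(`s β = zp (ω s) β`, `s (s β) = zp (2 ω s) β`.) `InM x`, `SU x` (`InM.gal`, `SU.map`).

`hilbK`: given `ω ∈ homs U`, `ω = act3 U β` (`exists_su`), `x` as above; `X ^ 3 = x`, `InM X`
(`InM.cbrt`), `ξ = act3 V X ∈ homs V` (`act3_mem`). Let `Z = X * s⁻¹ X * s⁻¹ (s⁻¹ X)`;
`Z ^ 3 = x * s⁻¹ x * s⁻² x = β ^ 3` (`s⁻¹ x = s (s x)` as `s ^ 3 ∈ V` fixes `x`), so `Z = zp i * β`
(`exists_zp`). For `g ∈ U`, `j : ZMod 3`, `j' = j + χ g`, `a = s ^ j g (s ^ j')⁻¹ ∈ V` (`tr_mem`):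
`g ((s ^ j')⁻¹ X) = (s ^ j)⁻¹ (a X) = zp (ξ a) (s ^ j)⁻¹ X`. Multiply over `j` (`j ↦ j'` is a bijection):
`g Z = zp (cor U χ s ξ g) Z`. And `g Z / Z = g β / β = zp (ω g)`. So `cor U χ s ξ = ω` on `U`; off `U` both
are zero.
-/

set_option autoImplicit false

namespace Pool.Agent.Work.MP_787500_nt.P3

open IsDedekindDomain NumberField
open Pool.Agent.Work.MP_787500_nt.OddP (AbsGal IsBase)

universe u

variable {K : Type u} [Field K] [NumberField K]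

theorem exists_norm (hK : IsBase 3 K) {V U : Subgroup (Gp K)} {χ : Gp K → ZMod 3} {s : Gp K}
    (hi : Idx (pSys K) V U χ s) {β : AlgebraicClosure K} (hβ : SU β) (hβM : InM β)
    (hfix : ∀ g ∈ U, (g : AbsGal K) (β ^ 3) = β ^ 3) (hc : Cob (pSys K) U (cup χ (act3 U β))) :
    ∃ x : AlgebraicClosure K, SU x ∧ InM x ∧ (∀ g ∈ V, (g : AbsGal K) x = x) ∧
      x * (s : AbsGal K) x * (s : AbsGal K) ((s : AbsGal K) x) = β ^ 3 := by
  have hω := act3_mem hi.opnU hβ.1 hβM hfix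
  obtain ⟨ψ, hψ, hψ3, hψt⟩ := (cup_iff hi hω).1 hc
  obtain ⟨Y, hYsu, hYM, hYfix, hψY⟩ := exists_su hK hi.opn hψ
  have hY : ∀ g ∈ V, (g : AbsGal K) Y = zp K (ψ g) * Y := by
    intro g hg
    rw [hψY]
    exact act3_spec hYfix hg
  have hcomp : ∀ (g h : Gp K) (z : AlgebraicClosure K),
      (g : AbsGal K) ((h : AbsGal K) z) = ((g * h : Gp K) : AbsGal K) z := fun g h z => rfl
  have hcancel : ∀ z : AlgebraicClosure K, (s : AbsGal K) (((s⁻¹ : Gp K) : AbsGal K) z) = z := by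
    intro z
    rw [hcomp, mul_inv_cancel]
    rfl
  have hYi0 : ((s⁻¹ : Gp K) : AbsGal K) Y ≠ 0 := (map_ne_zero _).2 hYsu.1
  have hsY0 : (s : AbsGal K) Y ≠ 0 := (map_ne_zero _).2 hYsu.1
  have hgYi : ∀ g ∈ V, (g : AbsGal K) (((s⁻¹ : Gp K) : AbsGal K) Y) =
      zp K (ψ (s * g * s⁻¹)) * ((s⁻¹ : Gp K) : AbsGal K) Y := by
    intro g hg
    have h1 : s * g * s⁻¹ ∈ V := hi.conj_mem hi.sU hg
    rw [hcomp, show g * s⁻¹ = s⁻¹ * (s * g * s⁻¹) by group, ← hcomp, hY _ h1, map_mul,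
      gal_zp (s⁻¹ : Gp K).2]
  refine ⟨Y / ((s⁻¹ : Gp K) : AbsGal K) Y * β, ?_, ?_, ?_, ?_⟩
  · rw [div_eq_mul_inv]
    exact (hYsu.mul (hYsu.map ((s⁻¹ : Gp K) : AbsGal K).toRingEquiv.toRingHom).inv).mul hβ
  · rw [div_eq_mul_inv]
    exact (hYM.mul (hYM.gal _).inv).mul hβM
  · intro g hg
    have h1 : tw s ψ g = act3 U β g := hψt g hg
    have h2 : ψ (s * g * s⁻¹) = ψ g + act3 U β g := by
      rw [← h1]
      show ψ (s * g * s⁻¹) = ψ g + (ψ (s * g * s⁻¹) - ψ g)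
      ring
    rw [map_mul, map_div₀, hY g hg, hgYi g hg, act3_spec hfix (hi.le hg), h2, zp_add]
    have hz1 := zp_ne_zero (K := K) (ψ g)
    have hz2 := zp_ne_zero (K := K) (act3 U β g)
    field_simp
  · have e1 : (s : AbsGal K) (Y / ((s⁻¹ : Gp K) : AbsGal K) Y * β) =
        (s : AbsGal K) Y / Y * (zp K (act3 U β s) * β) := by
      rw [map_mul, map_div₀, hcancel, act3_spec hfix hi.sU]
    have e2 : (s : AbsGal K) ((s : AbsGal K) Y) = ((s⁻¹ : Gp K) : AbsGal K) Y := by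
      have h1 : s * s = s⁻¹ * s ^ 3 := by
        rw [pow_succ' s 2, inv_mul_cancel_left, pow_two]
      rw [hcomp, h1, ← hcomp, hY _ hi.cube_mem, hψ3, zp_zero, one_mul]
    have e3 : (s : AbsGal K) ((s : AbsGal K) (Y / ((s⁻¹ : Gp K) : AbsGal K) Y * β)) =
        ((s⁻¹ : Gp K) : AbsGal K) Y / (s : AbsGal K) Y *
          (zp K (act3 U β s) * (zp K (act3 U β s) * β)) := by
      rw [e1, map_mul, map_div₀, map_mul, gal_zp s.2, act3_spec hfix hi.sU, e2]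
    rw [e3, e1]
    have h3 := zp_pow_three (K := K) (act3 U β s)
    have hY0 := hYsu.1
    field_simp
    linear_combination β ^ 3 * h3

theorem hilbK (hK : IsBase 3 K) : Hilb (pSys K) := by
  classical
  intro V U χ s hi ω hω hc
  obtain ⟨β, hβ, hβM, hβfix, hωβ⟩ := exists_su hK hi.opnU hω
  obtain ⟨x, hxsu, hxM, hxfix, hxn⟩ := exists_norm hK hi hβ hβM hβfix (by rw [← hωβ]; exact hc)
  obtain ⟨X, hX⟩ := IsAlgClosed.exists_pow_nat_eq x (n := 3) (by norm_num)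
  have hXM : InM X := InM.cbrt hxM hxsu hX
  have hX0 : X ≠ 0 := by
    rintro rfl
    rw [zero_pow (by norm_num)] at hX
    exact hxsu.1 hX.symm
  have hXfix : ∀ g ∈ V, (g : AbsGal K) (X ^ 3) = X ^ 3 := by
    intro g hg
    rw [hX, hxfix g hg]
  refine ⟨act3 V X, act3_mem hi.opn hX0 hXM hXfix, ?_⟩
  have hcomp : ∀ (g h : Gp K) (z : AlgebraicClosure K),
      (g : AbsGal K) ((h : AbsGal K) z) = ((g * h : Gp K) : AbsGal K) z := fun g h z => rfl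
  let Xj : ZMod 3 → AlgebraicClosure K := fun j => (((s ^ j.val)⁻¹ : Gp K) : AbsGal K) X
  have hZ3 : (∏ j : ZMod 3, Xj j) ^ 3 = β ^ 3 := by
    have h3 : ∀ F : ZMod 3 → AlgebraicClosure K, ∏ j : ZMod 3, F j = F 0 * F 1 * F 2 := fun F =>
      Fin.prod_univ_three F
    have hx3 : ((s ^ 3 : Gp K) : AbsGal K) x = x := hxfix _ hi.cube_mem
    have e0 : Xj 0 ^ 3 = x := by
      show ((((s ^ (0 : ZMod 3).val)⁻¹ : Gp K) : AbsGal K) X) ^ 3 = x
      rw [ZMod.val_zero, pow_zero, inv_one, ← map_pow, hX]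
      rfl
    have e1 : Xj 1 ^ 3 = (s : AbsGal K) ((s : AbsGal K) x) := by
      show ((((s ^ (1 : ZMod 3).val)⁻¹ : Gp K) : AbsGal K) X) ^ 3 = _
      rw [show (1 : ZMod 3).val = 1 from rfl, pow_one, ← map_pow, hX]
      conv_lhs => rw [← hx3]
      rw [hcomp, hcomp]
      congr 2
      rw [pow_succ' s 2, inv_mul_cancel_left, pow_two]
    have e2 : Xj 2 ^ 3 = (s : AbsGal K) x := by
      show ((((s ^ (2 : ZMod 3).val)⁻¹ : Gp K) : AbsGal K) X) ^ 3 = _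
      rw [show (2 : ZMod 3).val = 2 from rfl, ← map_pow, hX]
      conv_lhs => rw [← hx3]
      rw [hcomp]
      congr 2
      group
    rw [h3, mul_pow, mul_pow, e0, e1, e2, ← hxn]
    ring
  obtain ⟨i, hZ⟩ := exists_zp (K := K) hβ.1 hZ3
  funext g
  by_cases hg : g ∈ U
  · have hcor : cor U χ s (act3 V X) g =
        ∑ j : ZMod 3, act3 V X (s ^ j.val * g * (s ^ (j + χ g).val)⁻¹) := if_pos hg
    have hgX : ∀ j : ZMod 3, (g : AbsGal K) (Xj (j + χ g)) =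
        zp K (act3 V X (s ^ j.val * g * (s ^ (j + χ g).val)⁻¹)) * Xj j := by
      intro j
      show (g : AbsGal K) ((((s ^ (j + χ g).val)⁻¹ : Gp K) : AbsGal K) X) =
        _ * (((s ^ j.val)⁻¹ : Gp K) : AbsGal K) X
      have ha := tr_mem hi hg j
      rw [hcomp, show g * (s ^ (j + χ g).val)⁻¹ =
        (s ^ j.val)⁻¹ * (s ^ j.val * g * (s ^ (j + χ g).val)⁻¹) by group, ← hcomp,
        act3_spec hXfix ha, map_mul, gal_zp ((s ^ j.val)⁻¹ : Gp K).2]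
    have h1 : (g : AbsGal K) (∏ j : ZMod 3, Xj j) =
        zp K (cor U χ s (act3 V X) g) * ∏ j : ZMod 3, Xj j := by
      have hre : ∏ j : ZMod 3, Xj j = ∏ j : ZMod 3, Xj (j + χ g) :=
        (Equiv.prod_comp (Equiv.addRight (χ g)) Xj).symm
      rw [hcor, ← zp_sum, ← Finset.prod_mul_distrib]
      conv_lhs => rw [hre]
      rw [map_prod]
      exact Finset.prod_congr rfl fun j _ => hgX j
    have h2 : (g : AbsGal K) (∏ j : ZMod 3, Xj j) = zp K (ω g) * ∏ j : ZMod 3, Xj j := by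
      rw [hZ, map_mul, gal_zp g.2, hωβ, act3_spec hβfix hg]
      ring
    have hZ0 : ∏ j : ZMod 3, Xj j ≠ 0 := by
      rw [hZ]
      exact mul_ne_zero (zp_ne_zero _) hβ.1
    exact zp_injective (mul_right_cancel₀ hZ0 (h1.symm.trans h2))
  · have hcor : cor U χ s (act3 V X) g = 0 := if_neg hg
    rw [hcor, hωβ, act3_off hg]

end Pool.Agent.Work.MP_787500_nt.P3
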