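import Mathlib
import Pool.Agent.Work.MP_787500_nt.P3.C_Sys

/-!
# Module C_KAP (size S-M): the involution of the Galois group

(Compare `PA/KapK.lean`.) `κ σ = c σ c`, `c` an involutive ring automorphism of
`Ω = AlgebraicClosure K`.
* multiplicative, involutive: clear from `hκ`.
* `kappa_gp`: `c (z3)` is a primitive cube root of unity, `z3` or `z3 ^ 2`, so `σ` fixes it iff `σ` fixes
  `z3`; hence `κ σ ∈ Gp K ↔ σ ∈ Gp K`.
* continuous: for `σ₀` and `x ∈ Ω`, `{σ | κ σ x = κ σ₀ x} = {σ | σ (c x) = σ₀ (c x)}` is open.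
* `Good`: for `W` good, `W' = {g | κ g ∈ W}` is good: normal, open, inside `Gp K`,
  `κ (g ^ (3 ^ k)) = (κ g) ^ (3 ^ k)`; inertia: `c` induces a ring automorphism `c'` of `𝓞 Ω`; if
  `g ∈ Q.inertia` then `κ g ∈ (c' Q).inertia` (`κ g (c x) - c x = c (g x - x)`), where `c' Q = Q.map c'` or
  `Q.comap c'.symm`, a prime ideal not containing 3.
* `cyc (κ g) = cyc g`: for a `3 ^ n`-th root of unity `ζ`, `c ζ` is one as well and
  `κ g ζ = c (g (c ζ)) = c ((c ζ) ^ a) = ζ ^ a` where `a` is the exponent of `g` modulo `3 ^ n`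
  (`cyclotomicCharacter.spec`, uniqueness; `PadicInt.ext_of_toZModPow`).
* `isInvolG`: the same for `resG κ` on `Gp K`.
-/

set_option autoImplicit false

namespace Pool.Agent.Work.MP_787500_nt.P3

open IsDedekindDomain NumberField
open Pool.Agent.Work.MP_787500_nt.OddP (AbsGal IsBase)

universe u

variable {K : Type u} [Field K] [NumberField K]

private theorem kapK_mul {c : AlgebraicClosure K ≃+* AlgebraicClosure K} (h2 : ∀ x, c (c x) = x)
    {κ : AbsGal K → AbsGal K}
    (hκ : ∀ (σ : AbsGal K) (x : AlgebraicClosure K), κ σ x = c (σ (c x))) (g h : AbsGal K) :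
    κ (g * h) = κ g * κ h := by
  ext x
  show κ (g * h) x = κ g (κ h x)
  rw [hκ, hκ, hκ, h2]
  rfl

private theorem kapK_inv {c : AlgebraicClosure K ≃+* AlgebraicClosure K} (h2 : ∀ x, c (c x) = x)
    {κ : AbsGal K → AbsGal K}
    (hκ : ∀ (σ : AbsGal K) (x : AlgebraicClosure K), κ σ x = c (σ (c x))) (g : AbsGal K) :
    κ (κ g) = g := by
  ext x
  rw [hκ, hκ, h2, h2]

/-- the involution as a homomorphism -/
private noncomputable def kapKHom {c : AlgebraicClosure K ≃+* AlgebraicClosure K} (h2 : ∀ x, c (c x) = x)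
    {κ : AbsGal K → AbsGal K}
    (hκ : ∀ (σ : AbsGal K) (x : AlgebraicClosure K), κ σ x = c (σ (c x))) :
    AbsGal K →* AbsGal K := MonoidHom.mk' κ (kapK_mul h2 hκ)

theorem kappa_continuous {c : AlgebraicClosure K ≃+* AlgebraicClosure K} (h2 : ∀ x, c (c x) = x)
    {κ : AbsGal K → AbsGal K}
    (hκ : ∀ (σ : AbsGal K) (x : AlgebraicClosure K), κ σ x = c (σ (c x))) : Continuous κ := by
  show Continuous (kapKHom h2 hκ)
  apply continuous_of_continuousAt_one
  rw [ContinuousAt, map_one]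
  intro s hs
  obtain ⟨F, hF, hFs⟩ := (krullTopology_mem_nhds_one_iff K (AlgebraicClosure K) s).1 hs
  obtain ⟨α, hα⟩ := Field.exists_primitive_element K F
  have hop : (MulAction.stabilizer (AbsGal K) (c (α : AlgebraicClosure K)) : Set (AbsGal K)) ∈
      nhds (1 : AbsGal K) :=
    (stabilizer_isOpen_of_isIntegral (K := K) (c (α : AlgebraicClosure K))).mem_nhds
      (Subgroup.one_mem _)
  refine Filter.mem_map.2 (Filter.mem_of_superset hop fun σ hσ => hFs ?_)
  have h1 : κ σ (α : AlgebraicClosure K) = α := by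
    have h3 : σ (c (α : AlgebraicClosure K)) = c (α : AlgebraicClosure K) := hσ
    rw [hκ, h3, h2]
  have h4 : F ≤ IntermediateField.fixedField (Subgroup.zpowers (κ σ)) := by
    have h5 : F = IntermediateField.adjoin K {(α : AlgebraicClosure K)} := by
      have := congrArg (IntermediateField.lift) hα
      rw [IntermediateField.lift_adjoin_simple, IntermediateField.lift_top] at this
      exact this.symm
    rw [h5, IntermediateField.adjoin_simple_le_iff, IntermediateField.mem_fixedField_iff]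
    intro f hf
    have h6 : f ∈ MulAction.stabilizer (AbsGal K) (α : AlgebraicClosure K) :=
      (Subgroup.zpowers_le.2 h1) hf
    exact h6
  rw [IntermediateField.le_iff_le] at h4
  exact h4 (Subgroup.mem_zpowers _)

private theorem kapK_gp_aux {c : AlgebraicClosure K ≃+* AlgebraicClosure K} (h2 : ∀ x, c (c x) = x)
    {κ : AbsGal K → AbsGal K}
    (hκ : ∀ (σ : AbsGal K) (x : AlgebraicClosure K), κ σ x = c (σ (c x))) {g : AbsGal K}
    (hg : g ∈ Gp K) : κ g ∈ Gp K := by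
  have h3 : (c (z3 K)) ^ 3 = 1 := by rw [← map_pow, z3_pow_three, map_one]
  obtain ⟨i, -, hi⟩ := (z3_prim (K := K)).eq_pow_of_pow_eq_one h3
  rw [mem_Gp] at hg ⊢
  rw [hκ, ← hi, map_pow, hg, hi, h2]

theorem kappa_gp {c : AlgebraicClosure K ≃+* AlgebraicClosure K} (h2 : ∀ x, c (c x) = x)
    {κ : AbsGal K → AbsGal K}
    (hκ : ∀ (σ : AbsGal K) (x : AlgebraicClosure K), κ σ x = c (σ (c x))) (g : AbsGal K) :
    κ g ∈ Gp K ↔ g ∈ Gp K := by
  constructor
  · intro h
    have := kapK_gp_aux h2 hκ h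
    rwa [kapK_inv h2 hκ] at this
  · exact kapK_gp_aux h2 hκ

theorem resG_coe {c : AlgebraicClosure K ≃+* AlgebraicClosure K} (h2 : ∀ x, c (c x) = x)
    {κ : AbsGal K → AbsGal K}
    (hκ : ∀ (σ : AbsGal K) (x : AlgebraicClosure K), κ σ x = c (σ (c x))) (g : Gp K) :
    ((resG κ g : Gp K) : AbsGal K) = κ g := by
  have h : κ g ∈ Gp K := (kappa_gp h2 hκ g).2 g.2
  unfold resG
  rw [dif_pos h]

private theorem kapK_good {c : AlgebraicClosure K ≃+* AlgebraicClosure K} (h2 : ∀ x, c (c x) = x)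
    {κ : AbsGal K → AbsGal K}
    (hκ : ∀ (σ : AbsGal K) (x : AlgebraicClosure K), κ σ x = c (σ (c x))) {W : Subgroup (AbsGal K)}
    (hW' : Good W) : Good (W.comap (kapKHom h2 hκ)) := by
  have hn := hW'.normal
  refine ⟨inferInstance, hW'.isOpen.preimage (kappa_continuous h2 hκ), ?_, ?_, ?_⟩
  · intro g hg
    exact (kappa_gp h2 hκ g).1 (hW'.le hg)
  · intro g hg
    obtain ⟨k, hk⟩ := hW'.pow (κ g) ((kappa_gp h2 hκ g).2 hg)
    refine ⟨k, ?_⟩
    rw [Subgroup.mem_comap, map_pow]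
    exact hk
  · intro Q hQ hQ2 g hg
    let C : 𝓞 (AlgebraicClosure K) ≃+* 𝓞 (AlgebraicClosure K) :=
      RingOfIntegers.mapRingEquiv c
    have hC : ∀ x : 𝓞 (AlgebraicClosure K), ((C x : 𝓞 (AlgebraicClosure K)) :
        AlgebraicClosure K) = c x := fun x => rfl
    have hmem : κ g ∈ (Q.comap (C : 𝓞 (AlgebraicClosure K) →+* 𝓞 (AlgebraicClosure K))).inertia
        (AbsGal K) := by
      intro x
      show (C : 𝓞 (AlgebraicClosure K) →+* 𝓞 (AlgebraicClosure K)) (κ g • x - x) ∈ Q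
      have h3 : (C : 𝓞 (AlgebraicClosure K) →+* 𝓞 (AlgebraicClosure K)) (κ g • x - x) =
          g • C x - C x := by
        rw [map_sub]
        congr 1
        apply RingOfIntegers.ext
        show c (κ g (x : AlgebraicClosure K)) = g (c (x : AlgebraicClosure K))
        rw [hκ, h2]
      rw [h3]
      exact hg (C x)
    refine hW'.inertia _ (Ideal.comap_isPrime _ _) ?_ hmem
    intro h4
    apply hQ2
    have h5 : (C : 𝓞 (AlgebraicClosure K) →+* 𝓞 (AlgebraicClosure K)) 3 ∈ Q := h4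
    rwa [map_ofNat] at h5

theorem isInvol {c : AlgebraicClosure K ≃+* AlgebraicClosure K} (h2 : ∀ x, c (c x) = x)
    {κ : AbsGal K → AbsGal K}
    (hκ : ∀ (σ : AbsGal K) (x : AlgebraicClosure K), κ σ x = c (σ (c x))) :
    IsInvol (gSys K) cyc κ := by
  refine ⟨kapK_mul h2 hκ, kapK_inv h2 hκ, ?_, ?_⟩
  · intro W hW
    exact ⟨W.comap (kapKHom h2 hκ), kapK_good h2 hκ hW, fun g hg => hg⟩
  · intro g
    refine PadicInt.ext_of_toZModPow.mp fun n => ?_
    obtain ⟨ζ, hζ⟩ : ∃ ζ : AlgebraicClosure K, IsPrimitiveRoot ζ (3 ^ n) :=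
      HasEnoughRootsOfUnity.exists_primitiveRoot _ _
    have hspec : ∀ (g : AbsGal K) (x : AlgebraicClosure K), x ^ 3 ^ n = 1 →
        g x = x ^ (PadicInt.toZModPow n (cyc g)).val := fun g x hx =>
      cyclotomicCharacter.spec 3 (g : AlgebraicClosure K ≃+* AlgebraicClosure K) x hx
    have h3 := hspec (κ g) ζ hζ.pow_eq_one
    have h4 : (c ζ) ^ 3 ^ n = 1 := by rw [← map_pow, hζ.pow_eq_one, map_one]
    rw [hκ, hspec g (c ζ) h4, map_pow, h2] at h3
    haveI : NeZero (3 ^ n) := ⟨by positivity⟩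
    exact (ZMod.val_injective _ (hζ.pow_inj (ZMod.val_lt _) (ZMod.val_lt _) h3)).symm

theorem isInvolG {c : AlgebraicClosure K ≃+* AlgebraicClosure K} (h2 : ∀ x, c (c x) = x)
    {κ : AbsGal K → AbsGal K}
    (hκ : ∀ (σ : AbsGal K) (x : AlgebraicClosure K), κ σ x = c (σ (c x))) :
    IsInvol (pSys K) cycG (resG κ) := by
  refine ⟨fun g h => ?_, fun g => ?_, ?_, fun g => ?_⟩
  · apply Subtype.ext
    rw [resG_coe h2 hκ, Subgroup.coe_mul, Subgroup.coe_mul, resG_coe h2 hκ, resG_coe h2 hκ,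
      kapK_mul h2 hκ]
  · apply Subtype.ext
    rw [resG_coe h2 hκ, resG_coe h2 hκ, kapK_inv h2 hκ]
  · rintro _ ⟨W, hW, rfl⟩
    refine ⟨_, pSys_mem (kapK_good h2 hκ hW), fun g hg => ?_⟩
    rw [Subgroup.mem_subgroupOf] at hg ⊢
    rw [resG_coe h2 hκ]
    exact hg
  · show cyc ((resG κ g : Gp K) : AbsGal K) = cyc (g : AbsGal K)
    rw [resG_coe h2 hκ]
    exact (isInvol h2 hκ).chi g

end Pool.Agent.Work.MP_787500_nt.P3
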