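import Mathlib
import Pool.Agent.Work.MP_787500_nt.P3.C_Sys

/-!
Ninth roots of unity: definitions (fixed, do not change).
-/

set_option autoImplicit false

namespace Pool.Agent.Work.MP_787500_nt.P3

open IsDedekindDomain NumberField
open Pool.Agent.Work.MP_787500_nt.OddP (AbsGal IsBase)

universe u

variable (K : Type u) [Field K]

/-- a cube root of `z3 K` -/
noncomputable def z9 : AlgebraicClosure K :=
  Classical.choose (IsAlgClosed.exists_pow_nat_eq (z3 K) (n := 3) (by norm_num))

theorem z9_pow : z9 K ^ 3 = z3 K :=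
  Classical.choose_spec (IsAlgClosed.exists_pow_nat_eq (z3 K) (n := 3) (by norm_num))

/-- the three conjugates of `(1 - z9) (1 - z9⁻¹)` -/
noncomputable def ee (j : ZMod 3) : AlgebraicClosure K :=
  (1 - zp K j * z9 K) * (1 - (zp K j * z9 K)⁻¹)

variable {K}

/-- the action on `z9 K`, as a homomorphism from `Gp K` to `ZMod 3` -/
noncomputable def psi9 (g : Gp K) : ZMod 3 := act3 ⊤ (z9 K) g

end Pool.Agent.Work.MP_787500_nt.P3
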