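import Mathlib
import Pool.Agent.Work.MP_787500_nt.P3.C_NDefs

/-!
# Module C_CONJ (size S-M): a complex conjugation

(Compare `PA/ConjA.lean`.) `c` an involution of `Ω = AlgebraicClosure K`, `c a ≠ a` for some `a ∈ K`. Put
`s = a - c a ≠ 0`, `c s = -s`. Let `R = {x | c x = x}` (a subfield). Let `i ^ 2 = -1`.
(1) `c i = -i`: `c i = ± i`. Suppose `c i = i`. Let `t ^ 2 = s`. Then `(c t) ^ 2 = -s = (i t) ^ 2`, so
    `c t = ± i t` and `t = c (c t) = (± i) (± i) t = - t`, so `t = 0`: contradiction.
(2) `-1` is not the square of an element of `R` (`± i ∉ R`).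
(3) A sum of two squares of `R` is a square of `R`: `x² + y² = (x + i y) (x - i y) = z * c z`; let
    `w ^ 2 = z`; then `z * c z = (w * c w) ^ 2` and `w * c w ∈ R`.
(4) `c (z3) = z3 ^ 2`: `c z3` is `z3` or `z3 ^ 2`. Suppose `c z3 = z3`; `w = 2 z3 + 1 ∈ R`, `w ^ 2 = -3`, and
    `3 = 1² + 1² + 1² = u ^ 2` with `u ∈ R`, `u ≠ 0`, so `-1 = (w / u) ^ 2`: contradiction.
(5) `c (z9) = z9⁻¹`: `(c z9) ^ 3 = z3 ^ 2 = z3⁻¹`, so `c z9 = z3 ^ i * z9⁻¹`; apply `c`:
    `z9 = z3 ^ (-i) * (z3 ^ i * z9⁻¹)⁻¹ = z3 ^ (-2 i) * z9`, so `3 ∣ 2 i`.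
(6) `conj_norm`: `K` is totally complex of degree 2 over `ℚ`, `b ∈ K`, `b ≠ 0`. If `b ∈ ℚ`:
    `b * c b = b ^ 2`. Otherwise `b` has a minimal polynomial `X ^ 2 - T X + N` over `ℚ`, with negative
    discriminant (a real root would give a real embedding of `K = ℚ (b)`), so `N > 0`; `c b` is a root
    and `c b ≠ b` (else `c` is trivial on `K = ℚ (b)`), so `b * c b = N`.
-/

set_option autoImplicit false

namespace Pool.Agent.Work.MP_787500_nt.P3

open IsDedekindDomain NumberField
open Pool.Agent.Work.MP_787500_nt.OddP (AbsGal IsBase)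

universe u

variable {K : Type u} [Field K] [NumberField K]

private theorem cj_charZero : CharZero (AlgebraicClosure K) :=
  charZero_of_injective_algebraMap (algebraMap K (AlgebraicClosure K)).injective

private theorem cj_sq_cases {x y : AlgebraicClosure K} (h : x ^ 2 = y ^ 2) : x = y ∨ x = -y :=
  sq_eq_sq_iff_eq_or_eq_neg.1 h

private theorem cj_imI {c : AlgebraicClosure K ≃+* AlgebraicClosure K} (hc : IsConj c)
    {i : AlgebraicClosure K} (hi : i ^ 2 = -1) : c i = -i := by
  have hz := cj_charZero (K := K)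
  obtain ⟨a, ha⟩ := hc.ne
  set s : AlgebraicClosure K := algebraMap K (AlgebraicClosure K) a -
    c (algebraMap K (AlgebraicClosure K) a) with hs
  have hs0 : s ≠ 0 := sub_ne_zero.2 (Ne.symm ha)
  have hcs : c s = -s := by
    rw [hs, map_sub, hc.sq]
    ring
  have h1 : (c i) ^ 2 = i ^ 2 := by
    rw [← map_pow, hi, map_neg, map_one]
  rcases cj_sq_cases h1 with h | h
  · exfalso
    obtain ⟨t, ht⟩ := IsAlgClosed.exists_pow_nat_eq s (n := 2) (by norm_num)
    have h2 : (c t) ^ 2 = (i * t) ^ 2 := by
      rw [← map_pow, ht, hcs, mul_pow, hi, ht]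
      ring
    have h3 : c (i * t) = i * c t := by rw [map_mul, h]
    have h4 : t = -t := by
      rcases cj_sq_cases h2 with h5 | h5
      · have h6 := hc.sq t
        rw [h5, h3, h5, ← mul_assoc, ← sq, hi] at h6
        linear_combination -h6
      · have h6 := hc.sq t
        rw [h5, map_neg, h3, h5] at h6
        have h7 : -(i * -(i * t)) = i ^ 2 * t := by ring
        rw [h7, hi] at h6
        linear_combination -h6
    have h5 : t = 0 := by
      have : (2 : AlgebraicClosure K) * t = 0 := by linear_combination h4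
      rcases mul_eq_zero.1 this with h6 | h6
      · norm_num at h6
      · exact h6
    rw [h5] at ht
    apply hs0
    rw [← ht]
    ring
  · exact h

/-- a square of a real element -/
private def cj_RS (c : AlgebraicClosure K ≃+* AlgebraicClosure K) (x : AlgebraicClosure K) : Prop :=
  ∃ u, c u = u ∧ u ^ 2 = x

private theorem cj_neg_one {c : AlgebraicClosure K ≃+* AlgebraicClosure K} (hc : IsConj c) :
    ¬ cj_RS c (-1) := by
  have hz := cj_charZero (K := K)
  rintro ⟨u, hu, h⟩
  have h1 := cj_imI hc h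
  rw [hu] at h1
  have h2 : (2 : AlgebraicClosure K) * u = 0 := by linear_combination h1
  rcases mul_eq_zero.1 h2 with h6 | h6
  · norm_num at h6
  · rw [h6] at h
    norm_num at h

private theorem cj_add {c : AlgebraicClosure K ≃+* AlgebraicClosure K} (hc : IsConj c)
    {x y : AlgebraicClosure K} (hx : cj_RS c x) (hy : cj_RS c y) : cj_RS c (x + y) := by
  obtain ⟨i, hi⟩ := IsAlgClosed.exists_pow_nat_eq (-1 : AlgebraicClosure K) (n := 2) (by norm_num)
  obtain ⟨u, hu, rfl⟩ := hx
  obtain ⟨v, hv, rfl⟩ := hy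
  obtain ⟨w, hw⟩ := IsAlgClosed.exists_pow_nat_eq (u + i * v) (n := 2) (by norm_num)
  refine ⟨w * c w, ?_, ?_⟩
  · rw [map_mul, hc.sq]
    ring
  · rw [mul_pow, ← map_pow, hw, map_add, map_mul, cj_imI hc hi, hu, hv]
    linear_combination -v ^ 2 * hi

private theorem cj_one {c : AlgebraicClosure K ≃+* AlgebraicClosure K} : cj_RS c 1 :=
  ⟨1, map_one c, by ring⟩

theorem conj_z3 {c : AlgebraicClosure K ≃+* AlgebraicClosure K} (hc : IsConj c) :
    c (z3 K) = z3 K ^ 2 := by
  have hz := cj_charZero (K := K)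
  have hspec := z3_spec K
  have h1 : c (z3 K) ^ 2 + c (z3 K) + 1 = 0 := by
    have := congrArg c hspec
    rw [map_add, map_add, map_pow, map_one, map_zero] at this
    exact this
  have h2 : (c (z3 K) - z3 K) * (c (z3 K) - z3 K ^ 2) = 0 := by
    linear_combination h1 + (z3 K - 1 - c (z3 K)) * hspec
  rcases mul_eq_zero.1 h2 with h3 | h3
  · exfalso
    have h4 : c (z3 K) = z3 K := sub_eq_zero.1 h3
    set w := 2 * z3 K + 1 with hw
    have hcw : c w = w := by rw [hw, map_add, map_mul, map_ofNat, map_one, h4]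
    have hw2 : w ^ 2 = -3 := by rw [hw]; linear_combination 4 * hspec
    obtain ⟨u, hu, hu2⟩ := cj_add hc (cj_add hc cj_one cj_one) cj_one
    have hu3 : u ^ 2 = 3 := by rw [hu2]; norm_num
    have hu0 : u ≠ 0 := by
      rintro rfl
      norm_num at hu3
    apply cj_neg_one hc
    refine ⟨w / u, by rw [map_div₀, hcw, hu], ?_⟩
    rw [div_pow, hw2, hu3]
    norm_num
  · exact sub_eq_zero.1 h3

theorem conj_zp {c : AlgebraicClosure K ≃+* AlgebraicClosure K} (hc : IsConj c) (a : ZMod 3) :
    c (zp K a) = zp K (-a) := by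
  have h3 := z3_pow_three K
  have hc3 : ∀ a : ZMod 3, a = 0 ∨ a = 1 ∨ a = 2 := by decide
  show c (z3 K ^ a.val) = z3 K ^ (-a).val
  rw [map_pow, conj_z3 hc]
  rcases hc3 a with rfl | rfl | rfl
  · show (z3 K ^ 2) ^ 0 = z3 K ^ 0
    rw [pow_zero, pow_zero]
  · show (z3 K ^ 2) ^ 1 = z3 K ^ 2
    rw [pow_one]
  · show (z3 K ^ 2) ^ 2 = z3 K ^ 1
    linear_combination z3 K * h3

theorem conj_z9 {c : AlgebraicClosure K ≃+* AlgebraicClosure K} (hc : IsConj c) :
    c (z9 K) = (z9 K)⁻¹ := by
  have hz := cj_charZero (K := K)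
  have h3 := z3_pow_three K
  have h9 := z9_pow K
  have hz0 : z9 K ≠ 0 := by
    intro h0
    rw [h0, zero_pow (by norm_num)] at h9
    exact z3_ne_zero h9.symm
  have hprim := z3_prim (K := K)
  have h1 : (c (z9 K) * z9 K) ^ 3 = 1 := by
    rw [mul_pow, ← map_pow, h9, conj_z3 hc]
    linear_combination h3
  obtain ⟨i, hi, h2⟩ := hprim.eq_pow_of_pow_eq_one h1
  -- apply the conjugation again
  have h4 : c (c (z9 K) * z9 K) = c (z9 K) * z9 K := by
    rw [map_mul, hc.sq, mul_comm]
  rw [← h2, map_pow, conj_z3 hc, ← pow_mul] at h4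
  have h5 : i = 0 := by
    have h6 : z3 K ^ (2 * i) = z3 K ^ i := h4
    interval_cases i
    · rfl
    · exfalso
      have h7 : z3 K * (z3 K - 1) = 0 := by linear_combination h6
      rcases mul_eq_zero.1 h7 with h8 | h8
      · exact z3_ne_zero h8
      · exact z3_ne_one (sub_eq_zero.1 h8)
    · exfalso
      have h7 : z3 K * (z3 K - 1) = 0 := by linear_combination z3 K * h3 - h6
      rcases mul_eq_zero.1 h7 with h8 | h8
      · exact z3_ne_zero h8
      · exact z3_ne_one (sub_eq_zero.1 h8)
  rw [h5, pow_zero] at h2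
  exact eq_inv_of_mul_eq_one_left h2.symm

theorem conj_norm (hK : IsBase 3 K) {c : AlgebraicClosure K ≃+* AlgebraicClosure K}
    (hc : IsConj c) {b : K} (hb : b ≠ 0) :
    ∃ N : ℚ, 0 < N ∧ algebraMap K (AlgebraicClosure K) b * c (algebraMap K (AlgebraicClosure K) b) =
      (N : AlgebraicClosure K) := by
  have hz := cj_charZero (K := K)
  by_cases hrat : ∃ q : ℚ, b = (q : K)
  · obtain ⟨q, rfl⟩ := hrat
    refine ⟨q ^ 2, ?_, ?_⟩
    · have : q ≠ 0 := by
        rintro rfl
        apply hb
        norm_num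
      positivity
    · rw [map_ratCast, map_ratCast]
      push_cast
      ring
  · -- a quadratic equation
    have hfin : FiniteDimensional ℚ K := inferInstance
    -- `1, b` is a basis
    have hli : LinearIndependent ℚ ![(1 : K), b] := by
      rw [LinearIndependent.pair_iff]
      intro x y hxy
      have hy : y = 0 := by
        by_contra hy
        apply hrat
        refine ⟨-x / y, ?_⟩
        have h2 : (y : K) ≠ 0 := by exact_mod_cast hy
        push_cast
        rw [eq_div_iff h2]
        rw [Algebra.smul_def, Algebra.smul_def] at hxy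
        simp only [eq_ratCast, mul_one] at hxy
        linear_combination hxy
      subst hy
      refine ⟨?_, rfl⟩
      rw [zero_smul, add_zero, Algebra.smul_def, mul_one] at hxy
      exact (map_eq_zero _).1 hxy
    have hspan : Submodule.span ℚ (Set.range ![(1 : K), b]) = ⊤ := by
      apply hli.span_eq_top_of_card_eq_finrank'
      rw [hK.deg]
      simp
    have hmem : ∀ x : K, ∃ p q : ℚ, x = (p : K) + (q : K) * b := by
      intro x
      have h1 : x ∈ Submodule.span ℚ (Set.range ![(1 : K), b]) := by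
        rw [hspan]
        trivial
      have hr : Set.range ![(1 : K), b] = {1, b} := by
        simp [Matrix.range_cons, Set.pair_comm]
      rw [hr, Submodule.mem_span_pair] at h1
      obtain ⟨p, q, hpq⟩ := h1
      refine ⟨p, q, ?_⟩
      rw [← hpq, Algebra.smul_def, Algebra.smul_def]
      simp
    obtain ⟨p, q, hpq⟩ := hmem (b ^ 2)
    -- completing the square: s = b - q / 2, s ^ 2 = D
    set D : ℚ := p + q ^ 2 / 4 with hD
    set s : K := b - (q : K) / 2 with hs
    have hs2 : s ^ 2 = (D : K) := by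
      rw [hs, hD]
      push_cast
      linear_combination hpq
    -- `D < 0`
    have hDneg : D < 0 := by
      by_contra hcon
      push Not at hcon
      -- a real embedding
      let w : InfinitePlace K := Classical.choice (inferInstance : Nonempty (InfinitePlace K))
      have hw : w.IsComplex := hK.cplx.isComplex w
      rw [InfinitePlace.isComplex_iff] at hw
      apply hw
      rw [ComplexEmbedding.isReal_iff]
      ext x
      obtain ⟨x1, x2, hx⟩ := hmem x
      have hφs : (w.embedding s) ^ 2 = ((D : ℝ) : ℂ) := by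
        rw [← map_pow, hs2, map_ratCast]
        push_cast
        rfl
      have hreal : starRingEnd ℂ (w.embedding s) = w.embedding s := by
        have h1 : (w.embedding s) ^ 2 = ((Real.sqrt (D : ℝ) : ℝ) : ℂ) ^ 2 := by
          rw [hφs, ← Complex.ofReal_pow, Real.sq_sqrt (by exact_mod_cast hcon)]
        rcases sq_eq_sq_iff_eq_or_eq_neg.1 h1 with h2 | h2
        · rw [h2, Complex.conj_ofReal]
        · rw [h2, map_neg, Complex.conj_ofReal]
      have hb' : b = s + (q : K) / 2 := by rw [hs]; ring
      rw [ComplexEmbedding.conjugate_coe_eq, hx, hb']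
      simp only [map_add, map_mul, map_div₀, map_ratCast, map_ofNat, hreal]
    -- the conjugate of `s`
    have hs0 : s ≠ 0 := by
      intro h0
      rw [h0] at hs2
      have : (D : K) = 0 := by rw [← hs2]; ring
      have hD0 : D = 0 := by exact_mod_cast this
      rw [hD0] at hDneg
      exact lt_irrefl _ hDneg
    have hcs : c (algebraMap K (AlgebraicClosure K) s) = -algebraMap K (AlgebraicClosure K) s := by
      have h1 : (c (algebraMap K (AlgebraicClosure K) s)) ^ 2 =
          (algebraMap K (AlgebraicClosure K) s) ^ 2 := by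
        rw [← map_pow, ← map_pow, hs2, map_ratCast, map_ratCast]
      rcases cj_sq_cases h1 with h2 | h2
      · exfalso
        obtain ⟨a, ha⟩ := hc.ne
        apply ha
        obtain ⟨x1, x2, hx⟩ := hmem a
        have hb' : b = s + (q : K) / 2 := by rw [hs]; ring
        rw [hx, hb']
        simp only [map_add, map_mul, map_div₀, map_ratCast, map_ofNat, h2]
      · exact h2
    refine ⟨q ^ 2 / 4 - D, ?_, ?_⟩
    · have := sq_nonneg q
      linarith
    · have hb' : b = s + (q : K) / 2 := by rw [hs]; ring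
      have hs2' : (algebraMap K (AlgebraicClosure K) s) ^ 2 = (D : AlgebraicClosure K) := by
        rw [← map_pow, hs2, map_ratCast]
      rw [hb']
      simp only [map_add, map_div₀, map_ratCast, map_ofNat, hcs]
      push_cast
      linear_combination -hs2'

end Pool.Agent.Work.MP_787500_nt.P3
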