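import Mathlib
import Pool.Agent.Work.MP_787500_nt.P3.C_NDefs
import Pool.Agent.Work.MP_787500_nt.P3.C_Act

/-!
# Module C_NINE (size M): the cubic field of conductor 9

`ζ = z3 K`, `zp j = ζ ^ j`, `z = z9 K`, `z ^ 3 = ζ`; `ee j = (1 - ζ ^ j z) (1 - (ζ ^ j z)⁻¹)
= 2 - ζ ^ j z - ζ ^ (-j) z⁻¹`.
* `su_z9`, `inM_z9`: `z ^ 9 = 1`; `InM.root` or `InM.cbrt` from `InM.z3`.
* `psi9_mem`: `act3_mem` for `U = ⊤` (`Opn (pSys K) ⊤`); `z9_gal`: `act3_spec`.
* `gal_ee`: for `g ∈ Gp K`: `g (ζ ^ j z) = ζ ^ j zp (psi9 g) z = zp (j + psi9 g) z`.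
* `ee_prod`: `∏ (1 - ζ ^ j z) = 1 - z ^ 3 = 1 - ζ`, `∏ (1 - (ζ ^ j z)⁻¹) = 1 - ζ⁻¹`, and
  `(1 - ζ) (1 - ζ⁻¹) = 3`. `ee_sum`: `6 - z (1 + ζ + ζ ^ 2) - … = 6`. `ee_pair`: 9 (expand; for example
  from `(Σ ee)² = Σ ee² + 2 pairs` or directly, using `ζ ^ 2 + ζ + 1 = 0`, `z ^ 3 = ζ`; write
  `z⁻¹ = z ^ 2 ζ ^ 2`).
* `su_ee`: `ee j` is integral (`1 - root of unity`), and `ee j * (product of the other two) = 3`, so
  `SU`; `inM_ee`.
* `ee_inj`: the three are different (`ee i = ee j` means `(x - y) (1 - 1 / (x y)) = 0` for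
  `x = ζ ^ i z`, `y = ζ ^ j z`; `x y` is `ζ ^ k z ^ 2 ≠ 1`, as `z ^ 6 = ζ ^ 2 ≠ 1`).
* `psi9_ne`: `psi9 ≠ 0`. Suppose `psi9 = 0`: every `g ∈ Gp K` fixes `z`, so `ee 0`. `Gp K` has index at
  most 2 in `AbsGal K` (`Gp_mul_iff`), so `ee 0` has at most two conjugates over `K`. But
  `X ^ 3 - 6 X ^ 2 + 9 X - 3` (roots `ee j`) is irreducible over `K`: it is an Eisenstein polynomial at
  the prime `P` with `P * P' = (3)`, `P ≠ P'` (`IsBase.gold`; `3 ∉ P ^ 2`); contradiction.
  (`exists_gal_ee`: irreducible of degree 3, so `ee 0` has three conjugates.)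
* `span_ee`: an element `y ∈ AlgebraicClosure K` fixed by all `g ∈ AbsGal K` with `g (ee 0) = ee 0` is
  `A + B ee 0 + C ee 0 ^ 2` with `A, B, C ∈ K` (infinite Galois correspondence: `y ∈ K (ee 0)`; the
  powers 1, `ee 0`, `ee 0 ^ 2` span `K (ee 0)`, since `ee 0` is a root of a monic cubic polynomial).
-/

set_option autoImplicit false

namespace Pool.Agent.Work.MP_787500_nt.P3

open IsDedekindDomain NumberField
open Pool.Agent.Work.MP_787500_nt.OddP (AbsGal IsBase)

universe u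

variable {K : Type u} [Field K] [NumberField K]

private theorem n9_charZero : CharZero (AlgebraicClosure K) :=
  charZero_of_injective_algebraMap (algebraMap K (AlgebraicClosure K)).injective

theorem z9_ne_zero : z9 K ≠ 0 := by
  intro h0
  have h := z9_pow K
  rw [h0, zero_pow (by norm_num)] at h
  exact z3_ne_zero h.symm

private theorem n9_pow9 : z9 K ^ 9 = 1 := by
  calc z9 K ^ 9 = (z9 K ^ 3) ^ 3 := by ring
    _ = 1 := by rw [z9_pow, z3_pow_three]

private theorem n9_phi : z9 K ^ 6 + z9 K ^ 3 + 1 = 0 := by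
  have h := z3_spec K
  rw [← z9_pow] at h
  linear_combination h

theorem su_z9 : SU (z9 K) := by
  have := n9_charZero (K := K)
  exact SU.of_root (n := 9) (by norm_num) n9_pow9

private theorem n9_su_z3 : SU (z3 K) := by
  have := n9_charZero (K := K)
  exact SU.of_root (n := 3) (by norm_num) (z3_pow_three K)

theorem inM_z9 : InM (z9 K) := InM.cbrt InM.z3 n9_su_z3 (z9_pow K)

private theorem n9_opn : Opn (pSys K) (⊤ : Subgroup (Gp K)) := by
  obtain ⟨W, hW⟩ := (pSys K).ex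
  exact ⟨W, hW, le_top⟩

private theorem n9_fix : ∀ g ∈ (⊤ : Subgroup (Gp K)), (g : AbsGal K) (z9 K ^ 3) = z9 K ^ 3 := by
  intro g _
  rw [z9_pow]
  exact g.2

theorem psi9_mem : psi9 (K := K) ∈ homs (pSys K) ⊤ :=
  act3_mem n9_opn z9_ne_zero inM_z9 n9_fix

theorem z9_gal (g : Gp K) : (g : AbsGal K) (z9 K) = zp K (psi9 g) * z9 K :=
  act3_spec n9_fix (Subgroup.mem_top g)

theorem gal_ee (g : Gp K) (j : ZMod 3) : (g : AbsGal K) (ee K j) = ee K (j + psi9 g) := by
  unfold ee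
  have h1 : (g : AbsGal K) (zp K j * z9 K) = zp K (j + psi9 g) * z9 K := by
    rw [map_mul, gal_zp g.2, z9_gal, zp_add, mul_assoc]
  rw [map_mul, map_sub, map_sub, map_one, map_inv₀, h1]

private theorem n9_ee0 : ee K 0 = (1 - z9 K) * (1 - z9 K ^ 8) := by
  have h9 := n9_pow9 (K := K)
  have hinv : (z9 K)⁻¹ = z9 K ^ 8 := by
    apply inv_eq_of_mul_eq_one_right
    linear_combination h9
  rw [ee, zp_zero, one_mul, hinv]

private theorem n9_ee1 : ee K 1 = (1 - z9 K ^ 4) * (1 - z9 K ^ 5) := by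
  have h9 := n9_pow9 (K := K)
  have h1 : zp K 1 * z9 K = z9 K ^ 4 := by
    show z3 K ^ 1 * z9 K = _
    rw [pow_one, ← z9_pow]
    ring
  have hinv : (z9 K ^ 4)⁻¹ = z9 K ^ 5 := by
    apply inv_eq_of_mul_eq_one_right
    linear_combination h9
  rw [ee, h1, hinv]

private theorem n9_ee2 : ee K 2 = (1 - z9 K ^ 7) * (1 - z9 K ^ 2) := by
  have h9 := n9_pow9 (K := K)
  have h1 : zp K 2 * z9 K = z9 K ^ 7 := by
    show z3 K ^ 2 * z9 K = _
    rw [← z9_pow]
    ring
  have hinv : (z9 K ^ 7)⁻¹ = z9 K ^ 2 := by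
    apply inv_eq_of_mul_eq_one_right
    linear_combination h9
  rw [ee, h1, hinv]

theorem ee_prod : ee K 0 * ee K 1 * ee K 2 = 3 := by
  rw [n9_ee0, n9_ee1, n9_ee2]
  have h := n9_phi (K := K)
  generalize z9 K = z at h ⊢
  linear_combination ((-2)*z^0 + (-1)*z^1 + (-1)*z^2 + (3)*z^3 + (1)*z^5 + (1)*z^6 + (-1)*z^8 +
    (-1)*z^9 + (-1)*z^10 + (-1)*z^11 + (2)*z^12 + (-1)*z^13 + (1)*z^15 + (1)*z^16 + (-1)*z^19 +
    (-1)*z^20 + (1)*z^21) * h

theorem ee_sum : ee K 0 + ee K 1 + ee K 2 = 6 := by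
  rw [n9_ee0, n9_ee1, n9_ee2]
  have h := n9_phi (K := K)
  generalize z9 K = z at h ⊢
  linear_combination ((-3)*z^0 + (-1)*z^1 + (-1)*z^2 + (3)*z^3) * h

theorem ee_pair : ee K 0 * ee K 1 + ee K 0 * ee K 2 + ee K 1 * ee K 2 = 9 := by
  rw [n9_ee0, n9_ee1, n9_ee2]
  have h := n9_phi (K := K)
  generalize z9 K = z at h ⊢
  linear_combination ((-6)*z^0 + (-2)*z^1 + (-2)*z^2 + (7)*z^3 + (1)*z^5 + (1)*z^6 + (1)*z^7 +
    (-2)*z^9 + (-2)*z^10 + (-2)*z^11 + (3)*z^12) * h

theorem ee_inj : Function.Injective (ee K) := by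
  have hz := n9_charZero (K := K)
  intro i j hij
  set x := zp K i * z9 K with hx
  set y := zp K j * z9 K with hy
  have hx0 : x ≠ 0 := mul_ne_zero (zp_ne_zero _) z9_ne_zero
  have hy0 : y ≠ 0 := mul_ne_zero (zp_ne_zero _) z9_ne_zero
  have h1 : (1 - x) * (1 - x⁻¹) = (1 - y) * (1 - y⁻¹) := hij
  have h2 : (x - y) * (x * y - 1) = 0 := by
    have h3 : x * x⁻¹ = 1 := mul_inv_cancel₀ hx0
    have h4 : y * y⁻¹ = 1 := mul_inv_cancel₀ hy0
    linear_combination (-(x * y)) * h1 + (y * (x - 1)) * h3 - (x * (y - 1)) * h4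
  rcases mul_eq_zero.1 h2 with h3 | h3
  · have h4 : zp K i * z9 K = zp K j * z9 K := sub_eq_zero.1 h3
    exact zp_injective (mul_right_cancel₀ z9_ne_zero h4)
  · exfalso
    have h4 : x * y = 1 := sub_eq_zero.1 h3
    have h5 : (x * y) ^ 3 = z3 K ^ 2 := by
      have h6 := zp_pow_three (K := K) i
      have h7 := zp_pow_three (K := K) j
      calc (x * y) ^ 3 = (zp K i ^ 3 * zp K j ^ 3) * (z9 K ^ 3) ^ 2 := by rw [hx, hy]; ring
        _ = z3 K ^ 2 := by rw [h6, h7, z9_pow]; ring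
    rw [h4, one_pow] at h5
    have h6 := z3_spec K
    rw [← h5] at h6
    have h7 : z3 K = -2 := by linear_combination h6
    rw [h7] at h5
    norm_num at h5

private theorem n9_int {x : AlgebraicClosure K} (h : x ^ 9 = 1) : IsIntegral ℤ x := by
  apply IsIntegral.of_pow (n := 9) (by norm_num)
  rw [h]
  exact isIntegral_one

private theorem n9_ee_int (j : ZMod 3) : IsIntegral ℤ (ee K j) := by
  have h1 : (zp K j * z9 K) ^ 9 = 1 := by
    have h6 := zp_pow_three (K := K) j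
    calc (zp K j * z9 K) ^ 9 = (zp K j ^ 3) ^ 3 * z9 K ^ 9 := by ring
      _ = 1 := by rw [h6, n9_pow9]; ring
  have h2 : ((zp K j * z9 K)⁻¹) ^ 9 = 1 := by rw [inv_pow, h1, inv_one]
  exact (isIntegral_one.sub (n9_int h1)).mul (isIntegral_one.sub (n9_int h2))

private theorem n9_cases : ∀ j : ZMod 3, j = 0 ∨ j = 1 ∨ j = 2 := by decide

private theorem n9_su_aux {x y : AlgebraicClosure K} (hx : IsIntegral ℤ x) (hy : IsIntegral ℤ y)
    (h : x * y = 3) : SU x := by
  have hz := n9_charZero (K := K)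
  have h3 : (3 : AlgebraicClosure K) ≠ 0 := by norm_num
  have hx0 : x ≠ 0 := by
    rintro rfl
    rw [zero_mul] at h
    exact h3 h.symm
  refine ⟨hx0, ⟨0, by rwa [pow_zero, one_mul]⟩, ⟨1, ?_⟩⟩
  have : (3 : AlgebraicClosure K) ^ 1 * x⁻¹ = y := by
    rw [pow_one, ← h]
    field_simp
  rw [this]
  exact hy

theorem su_ee (j : ZMod 3) : SU (ee K j) := by
  have h := ee_prod (K := K)
  rcases n9_cases j with rfl | rfl | rfl
  · exact n9_su_aux (n9_ee_int 0) ((n9_ee_int 1).mul (n9_ee_int 2)) (by linear_combination h)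
  · exact n9_su_aux (n9_ee_int 1) ((n9_ee_int 0).mul (n9_ee_int 2)) (by linear_combination h)
  · exact n9_su_aux (n9_ee_int 2) ((n9_ee_int 0).mul (n9_ee_int 1)) (by linear_combination h)

theorem inM_ee (j : ZMod 3) : InM (ee K j) := by
  have h1 : InM (1 : AlgebraicClosure K) := by
    have := InM.base (K := K) 1
    rwa [map_one] at this
  have h2 : InM (zp K j * z9 K) := (InM.z3.pow j.val).mul inM_z9
  have h3 : ee K j = (1 + -(zp K j * z9 K)) * (1 + -(zp K j * z9 K)⁻¹) := by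
    rw [ee]
    ring
  rw [h3]
  exact (h1.add h2.neg).mul (h1.add h2.inv.neg)

/-- the minimal polynomial, over the integers of `K` -/
private noncomputable def n9_f (K : Type u) [Field K] [NumberField K] : Polynomial (𝓞 K) :=
  Polynomial.X ^ 3 - 6 * Polynomial.X ^ 2 + 9 * Polynomial.X - 3

private theorem n9_f_eq : n9_f K = Polynomial.X ^ 3 + (Polynomial.C (-6) * Polynomial.X ^ 2 +
    Polynomial.C 9 * Polynomial.X + Polynomial.C (-3)) := by
  unfold n9_f
  simp only [map_neg, map_ofNat]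
  ring

private theorem n9_f_deg : (n9_f K).natDegree = 3 := by
  rw [n9_f_eq]
  compute_degree!

private theorem n9_f_monic : (n9_f K).Monic := by
  rw [n9_f_eq]
  monicity!

private theorem n9_irred (hK : IsBase 3 K) :
    Irreducible ((n9_f K).map (algebraMap (𝓞 K) K)) := by
  obtain ⟨P, P', -, -, -, -, hP, hP', hne, hPP, -⟩ := hK.gold
  have h30 : Ideal.span {((3 : ℕ) : 𝓞 K)} ≠ ⊥ := by
    rw [Ne, Ideal.span_singleton_eq_bot]
    norm_num
  have hP0 : P ≠ ⊥ := by
    rintro rfl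
    rw [Ideal.bot_mul] at hPP
    exact h30 hPP.symm
  have hP'0 : P' ≠ ⊥ := by
    rintro rfl
    rw [Ideal.mul_bot] at hPP
    exact h30 hPP.symm
  have h3P : (3 : 𝓞 K) ∈ P := by
    have h1 : ((3 : ℕ) : 𝓞 K) ∈ P * P' := by
      rw [hPP]
      exact Ideal.mem_span_singleton_self _
    exact_mod_cast Ideal.mul_le_left h1
  have h3P2 : (3 : 𝓞 K) ∉ P ^ 2 := by
    intro h1
    have h2 : Ideal.span {((3 : ℕ) : 𝓞 K)} ≤ P ^ 2 := by
      rw [Ideal.span_singleton_le_iff_mem]
      exact_mod_cast h1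
    rw [← hPP] at h2
    have h3 : P * P ∣ P * P' := by
      rw [Ideal.dvd_iff_le, ← sq]
      exact h2
    have h4 : P ∣ P' := (mul_dvd_mul_iff_left hP0).1 h3
    have h5 : P' ≤ P := Ideal.dvd_iff_le.1 h4
    have hP'm : P'.IsMaximal := hP'.isMaximal hP'0
    exact hne (hP'm.eq_of_le hP.ne_top h5).symm
  have hE : (n9_f K).IsEisensteinAt P := by
    refine ⟨?_, ?_, ?_⟩
    · rw [n9_f_monic.leadingCoeff]
      exact (Ideal.ne_top_iff_one P).1 hP.ne_top
    · intro n hn
      rw [n9_f_deg] at hn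
      interval_cases n
      · have : (n9_f K).coeff 0 = -3 := by rw [n9_f_eq]; simp [Polynomial.coeff_X, Polynomial.coeff_C]
        rw [this]
        exact P.neg_mem h3P
      · have : (n9_f K).coeff 1 = 3 * 3 := by
          rw [n9_f_eq]
          simp [Polynomial.coeff_X, Polynomial.coeff_C]
          norm_num
        rw [this]
        exact P.mul_mem_left _ h3P
      · have : (n9_f K).coeff 2 = -2 * 3 := by
          rw [n9_f_eq]
          simp [Polynomial.coeff_X, Polynomial.coeff_C]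
          norm_num
        rw [this]
        exact P.mul_mem_left _ h3P
    · have : (n9_f K).coeff 0 = -3 := by rw [n9_f_eq]; simp [Polynomial.coeff_X, Polynomial.coeff_C]
      rw [this]
      intro h1
      exact h3P2 (by simpa using (P ^ 2).neg_mem h1)
  have hirr : Irreducible (n9_f K) := hE.irreducible hP n9_f_monic.isPrimitive (by
    rw [n9_f_deg]; norm_num)
  exact (n9_f_monic.irreducible_iff_irreducible_map_fraction_map).1 hirr

private theorem n9_root (j : ZMod 3) :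
    Polynomial.aeval (ee K j) ((n9_f K).map (algebraMap (𝓞 K) K)) = 0 := by
  have h1 := ee_sum (K := K)
  have h2 := ee_pair (K := K)
  have h3 := ee_prod (K := K)
  have h4 : ee K j ^ 3 - 6 * ee K j ^ 2 + 9 * ee K j - 3 = 0 := by
    have h5 : (ee K j - ee K 0) * (ee K j - ee K 1) * (ee K j - ee K 2) = 0 := by
      rcases n9_cases j with rfl | rfl | rfl
      · ring
      · ring
      · ring
    linear_combination h5 + ee K j ^ 2 * h1 - ee K j * h2 + h3
  unfold n9_f
  simp only [Polynomial.map_sub, Polynomial.map_add, Polynomial.map_mul, Polynomial.map_pow,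
    Polynomial.map_X, Polynomial.map_ofNat, map_sub, map_add, map_mul, map_pow, Polynomial.aeval_X,
    map_ofNat]
  exact h4

private theorem n9_minpoly (hK : IsBase 3 K) (j : ZMod 3) :
    (n9_f K).map (algebraMap (𝓞 K) K) = minpoly K (ee K j) :=
  minpoly.eq_of_irreducible_of_monic (n9_irred hK) (n9_root j) (n9_f_monic.map _)

theorem psi9_ne (hK : IsBase 3 K) : psi9 (K := K) ≠ 0 := by
  intro h0
  have hz := n9_charZero (K := K)
  have hconj : ∀ j : ZMod 3, ∃ g : AbsGal K, g (ee K 0) = ee K j := by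
    intro j
    have h1 : IsConjRoot K (ee K 0) (ee K j) := by
      show minpoly K (ee K 0) = minpoly K (ee K j)
      rw [← n9_minpoly hK, ← n9_minpoly hK]
    obtain ⟨σ, hσ⟩ := (isConjRoot_iff_exists_algEquiv (K := K) (L := AlgebraicClosure K)).1 h1
    refine ⟨σ⁻¹, ?_⟩
    rw [← hσ]
    exact σ.symm_apply_apply _
  have hfix : ∀ g : AbsGal K, g ∈ Gp K → g (ee K 0) = ee K 0 := by
    intro g hg
    have h1 := gal_ee (⟨g, hg⟩ : Gp K) 0
    rw [h0, Pi.zero_apply, add_zero] at h1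
    exact h1
  obtain ⟨g1, hg1⟩ := hconj 1
  obtain ⟨g2, hg2⟩ := hconj 2
  have h1 : g1 ∉ Gp K := by
    intro h
    have := hfix g1 h
    rw [hg1] at this
    exact absurd (ee_inj this) (by decide)
  have h2 : g2 ∉ Gp K := by
    intro h
    have := hfix g2 h
    rw [hg2] at this
    exact absurd (ee_inj this) (by decide)
  have h3 : g1⁻¹ * g2 ∈ Gp K := by
    rw [Gp_mul_iff, inv_mem_iff]
    exact ⟨fun h => absurd h h1, fun h => absurd h h2⟩
  have h4 := hfix _ h3
  rw [AlgEquiv.mul_apply, hg2] at h4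
  have h5 : ee K 2 = ee K 1 := by
    have h6 := congrArg g1 h4
    rw [hg1] at h6
    rw [← h6]
    exact (g1.apply_symm_apply _).symm
  exact absurd (ee_inj h5) (by decide)

theorem span_ee {y : AlgebraicClosure K} (h : ∀ g : AbsGal K, g (ee K 0) = ee K 0 → g y = y) :
    ∃ A B C : K, y = algebraMap K (AlgebraicClosure K) A +
      algebraMap K (AlgebraicClosure K) B * ee K 0 +
      algebraMap K (AlgebraicClosure K) C * ee K 0 ^ 2 := by
  have hgal : IsGalois K (AlgebraicClosure K) := inferInstance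
  have hy : y ∈ IntermediateField.adjoin K {ee K 0} := by
    rw [← InfiniteGalois.fixedField_fixingSubgroup (IntermediateField.adjoin K {ee K 0})]
    rintro ⟨g, hg⟩
    apply h
    have h1 := (IntermediateField.mem_fixingSubgroup_iff _ _).1 hg
    exact h1 _ (IntermediateField.mem_adjoin_simple_self K _)
  have halg : IsAlgebraic K (ee K 0) := Algebra.IsAlgebraic.isAlgebraic _
  have hy' : y ∈ (IntermediateField.adjoin K {ee K 0}).toSubalgebra := hy
  rw [IntermediateField.adjoin_simple_toSubalgebra_of_isAlgebraic halg,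
    Algebra.adjoin_singleton_eq_range_aeval] at hy'
  obtain ⟨p, hp⟩ := hy'
  have hp' : Polynomial.aeval (ee K 0) p = y := hp
  set F := (n9_f K).map (algebraMap (𝓞 K) K) with hF
  have hFm : F.Monic := n9_f_monic.map _
  have hFd : F.natDegree = 3 := by
    rw [hF, n9_f_monic.natDegree_map]
    exact n9_f_deg
  have h1 : Polynomial.aeval (ee K 0) (p %ₘ F) = y := by
    rw [Polynomial.aeval_modByMonic_eq_self_of_root (n9_root 0), hp']
  have h2 : (p %ₘ F).natDegree < 3 := by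
    rw [← hFd]
    exact Polynomial.natDegree_modByMonic_lt p hFm (by
      intro h3
      rw [h3, Polynomial.natDegree_one] at hFd
      omega)
  rw [Polynomial.aeval_eq_sum_range' h2] at h1
  refine ⟨(p %ₘ F).coeff 0, (p %ₘ F).coeff 1, (p %ₘ F).coeff 2, ?_⟩
  rw [← h1, Finset.sum_range_succ, Finset.sum_range_succ, Finset.sum_range_succ,
    Finset.sum_range_zero, Algebra.smul_def, Algebra.smul_def, Algebra.smul_def]
  ring

end Pool.Agent.Work.MP_787500_nt.P3
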