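import Mathlib

/-!
# Module C_NORMF (size M): unit norms from the cubic field of conductor 9 are ± 1 modulo 9

`v` a valuation on `K` with values in `ℤᵐ⁰`, `v 3 = exp (-1)`, every `x` with `v x ≤ 1` is congruent to a
rational integer modulo the maximal ideal (so the residue field has three elements: for `v x ≤ 1`,
`v (x ^ 3 - x) < 1`). Let
`N = A³ + 3 B³ + 9 C³ + 6 A² B + 18 A² C + 9 A B² + 45 A C² + 18 B² C + 27 B C² + 45 A B C`, `v N = 1`.
Write additively `a = log v A` etc. (`≤` reversed: use the order `o = - log v`, `o 3 = 1`, `o N = 0`). The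
three leading terms have orders `3 o(A)`, `3 o(B) + 1`, `3 o(C) + 2`, different modulo 3; all the other
terms have order strictly larger than the minimum `m` of these three (weighted mean: for example
`6 A² B`: `1 + 2 o(A) + o(B) > (2 * 3 o(A) + (3 o(B) + 1)) / 3 ≥ m`; `18 A² C`:
`2 + 2 o(A) + o(C) > 2 o(A) + o(C) + 2/3`; `9 A B²`, `45 A C²` (`2 > 4/3`), `18 B² C` (`2 > 4/3`), `27 B C²`
(`3 > 5/3`), `45 A B C` (`2 > 1`)). So `o N = m`, and `m = 0` gives `o A = 0`, `o B ≥ 0`, `o C ≥ 0` (zero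
values of `A, B, C`: the same with infinite order). Then modulo 9 (`v ≤ exp (-2)`):
`N = A³ + 3 (B³ + 2 A² B) = A³ + 3 B (B² - A²) + 9 A² B` and `B (B² - A²)` has `v < 1` (`A² = 1`,
`B³ = B` in the residue field; `A` is a unit), so `v (N - A³) ≤ exp (-2)`; and `A = ± 1 + 3 x` with
`v x ≤ 1` (`A` is congruent to an integer; `v y < 1` implies `v y ≤ exp (-1) = v 3`), so
`A³ = ± 1` modulo 9.
Finally, if `N = b ^ 2` with `v b = 1`: `b = ± 1 + 3 y`, so `b ^ 2` is 1 modulo 3, hence not `-1`, so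
`b ^ 2` is 1 modulo 9.
-/

set_option autoImplicit false

namespace Pool.Agent.Work.MP_787500_nt.P3

open WithZero

private theorem nf_key {M s p q r x : ℤᵐ⁰} (hM : 0 < M) (hs : s < 1) (hp : p ≤ M) (hq : q ≤ M)
    (hr : r ≤ M) (h : x ^ 3 ≤ s * (p * q * r)) : x < M := by
  have h1 : s * (p * q * r) ≤ s * (M * M * M) := by gcongr
  have hM3 : 0 < M * M * M := by positivity
  have h2 : s * (M * M * M) < 1 * (M * M * M) := mul_lt_mul_of_pos_right hs hM3
  have h3 : x ^ 3 < M ^ 3 := by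
    calc x ^ 3 ≤ s * (p * q * r) := h
      _ ≤ s * (M * M * M) := h1
      _ < 1 * (M * M * M) := h2
      _ = M ^ 3 := by rw [one_mul, pow_succ, pow_succ, pow_one]
  exact lt_of_pow_lt_pow_left₀ 3 zero_le h3

private theorem nf_exp {y : ℤᵐ⁰} (h : y < 1) : y ≤ exp (-1 : ℤ) := by
  rcases eq_or_ne y 0 with rfl | hy
  · exact zero_le
  · rw [← exp_log hy] at h ⊢
    rw [← exp_zero, exp_lt_exp] at h
    rw [exp_le_exp]
    omega

private theorem nf_ge {y : ℤᵐ⁰} (h : 1 < y) : exp (1 : ℤ) ≤ y := by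
  have hy : y ≠ 0 := by
    rintro rfl
    exact not_lt_zero h
  rw [← exp_log hy] at h ⊢
  rw [← exp_zero, exp_lt_exp] at h
  rw [exp_le_exp]
  omega

private theorem nf_cube {x y : ℤᵐ⁰} {n : ℤ} (hy : y ≠ 0) (h : x ^ 3 = exp n * y ^ 3) :
    ∃ k : ℤ, n = 3 * k := by
  have hx : x ≠ 0 := by
    rintro rfl
    rw [zero_pow (by norm_num)] at h
    exact mul_ne_zero exp_ne_zero (pow_ne_zero 3 hy) h.symm
  have h1 := congrArg log h
  rw [log_pow, log_mul exp_ne_zero (pow_ne_zero 3 hy), log_pow, log_exp] at h1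
  refine ⟨log x - log y, ?_⟩
  simp only [nsmul_eq_mul, Nat.cast_ofNat] at h1
  linarith

private theorem nf_int {K : Type*} [Field K] (v : Valuation K ℤᵐ⁰) (n : ℤ) : v (n : K) ≤ 1 := by
  have hnat : ∀ m : ℕ, v (m : K) ≤ 1 := by
    intro m
    induction m with
    | zero => simp
    | succ m ih =>
      rw [Nat.cast_succ]
      exact (v.map_add _ _).trans (max_le ih (by rw [map_one]))
  rcases Int.eq_nat_or_neg n with ⟨m, rfl | rfl⟩
  · simpa using hnat m
  · rw [Int.cast_neg, Valuation.map_neg]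
    simpa using hnat m

theorem norm_nine {K : Type*} [Field K] (v : Valuation K ℤᵐ⁰) (h3 : v 3 = exp (-1 : ℤ))
    (hres : ∀ x : K, v x ≤ 1 → ∃ a : ℤ, v (x - a) < 1) {A B C b : K} (hb : v b = 1)
    (h : b ^ 2 = A ^ 3 + 3 * B ^ 3 + 9 * C ^ 3 + 6 * A ^ 2 * B + 18 * A ^ 2 * C + 9 * A * B ^ 2 +
      45 * A * C ^ 2 + 18 * B ^ 2 * C + 27 * B * C ^ 2 + 45 * A * B * C) :
    v (b ^ 2 - 1) ≤ exp (-2 : ℤ) := by
  set t : ℤᵐ⁰ := exp (-1 : ℤ) with ht
  have ht1 : t < 1 := by rw [ht, ← exp_zero, exp_lt_exp]; norm_num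
  have ht0 : 0 < t := exp_pos
  have htt : t * t = exp (-2 : ℤ) := by rw [ht, ← exp_add]; norm_num
  have ht2 : t * t < 1 := by
    rw [htt, ← exp_zero, exp_lt_exp]; norm_num
  have hint : ∀ n : ℤ, v (n : K) ≤ 1 := nf_int v
  have hintN : ∀ n : ℕ, v (n : K) ≤ 1 := fun n => by simpa using hint n
  have h2 : v 2 = 1 := by
    apply le_antisymm
    · exact_mod_cast hintN 2
    · by_contra hcon
      push Not at hcon
      have : v (3 - 2) < 1 := (v.map_sub _ _).trans_lt (max_lt (by rw [h3]; exact ht1) hcon)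
      rw [show (3 : K) - 2 = 1 by norm_num, map_one] at this
      exact lt_irrefl _ this
  have h5 : v 5 ≤ 1 := by exact_mod_cast hintN 5
  have h9 : v 9 = t * t := by rw [show (9 : K) = 3 * 3 by norm_num, map_mul, h3]
  have h6 : v 6 = t := by rw [show (6 : K) = 2 * 3 by norm_num, map_mul, h3, h2, one_mul]
  have h18 : v 18 = t * t := by
    rw [show (18 : K) = 2 * 9 by norm_num, map_mul, h9, h2, one_mul]
  have h27 : v 27 = t * t * t := by rw [show (27 : K) = 9 * 3 by norm_num, map_mul, h9, h3]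
  have h45 : v 45 ≤ t * t := by
    rw [show (45 : K) = 5 * 9 by norm_num, map_mul, h9]
    exact mul_le_of_le_one_left zero_le h5
  -- cubes modulo the maximal ideal
  have hcubeint : ∀ a : ℤ, v (((a : K)) ^ 3 - a) ≤ t := by
    intro a
    have hdvd : (3 : ℤ) ∣ a ^ 3 - a := by
      have : a % 3 = 0 ∨ a % 3 = 1 ∨ a % 3 = 2 := by omega
      rcases this with h0 | h0 | h0 <;>
        · obtain ⟨k, hk⟩ : ∃ k : ℤ, a = 3 * k + a % 3 := ⟨a / 3, by omega⟩
          rw [h0] at hk
          rw [hk]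
          ring_nf
          omega
    obtain ⟨k, hk⟩ := hdvd
    have e : ((a : K)) ^ 3 - a = 3 * (k : K) := by exact_mod_cast congrArg (Int.cast : ℤ → K) hk
    rw [e, map_mul, h3]
    exact mul_le_of_le_one_right zero_le (hint k)
  have hfr : ∀ x : K, v x ≤ 1 → v (x ^ 3 - x) < 1 := by
    intro x hx
    obtain ⟨a, ha⟩ := hres x hx
    have e : x ^ 3 - x = (x - a) * (x ^ 2 + x * a + a ^ 2) - (x - a) + (((a : K)) ^ 3 - a) := by
      ring
    have h7 : v (x ^ 2 + x * a + a ^ 2) ≤ 1 := by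
      refine (v.map_add _ _).trans (max_le ((v.map_add _ _).trans (max_le ?_ ?_)) ?_)
      · rw [map_pow]
        exact pow_le_one₀ zero_le hx
      · rw [map_mul]
        exact mul_le_one₀ hx zero_le (hint a)
      · rw [map_pow]
        exact pow_le_one₀ zero_le (hint a)
    rw [e]
    refine (v.map_add _ _).trans_lt (max_lt ((v.map_sub _ _).trans_lt (max_lt ?_ ha))
      ((hcubeint a).trans_lt ht1))
    rw [map_mul]
    exact mul_lt_one_of_lt_of_le ha h7
  -- the leading terms
  set α := v A with hα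
  set β := v B with hβ
  set γ := v C with hγ
  set P := α ^ 3 with hP
  set Q := t * β ^ 3 with hQ
  set R := t * t * γ ^ 3 with hR
  set M := max P (max Q R) with hM
  have hPM : P ≤ M := le_max_left _ _
  have hQM : Q ≤ M := (le_max_left _ _).trans (le_max_right _ _)
  have hRM : R ≤ M := (le_max_right _ _).trans (le_max_right _ _)
  have hM0 : 0 < M := by
    rcases (zero_le : 0 ≤ M).eq_or_lt with h0 | h0
    · exfalso
      have hP0 : P = 0 := le_zero_iff.1 (h0 ▸ hPM)
      have hQ0 : Q = 0 := le_zero_iff.1 (h0 ▸ hQM)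
      have hR0 : R = 0 := le_zero_iff.1 (h0 ▸ hRM)
      have hA : A = 0 := by
        have : α = 0 := pow_eq_zero_iff (n := 3) (by norm_num) |>.1 hP0
        exact (map_eq_zero v).1 this
      have hB : B = 0 := by
        have : β ^ 3 = 0 := (mul_eq_zero.1 hQ0).resolve_left ht0.ne'
        have : β = 0 := pow_eq_zero_iff (n := 3) (by norm_num) |>.1 this
        exact (map_eq_zero v).1 this
      have hC : C = 0 := by
        have : γ ^ 3 = 0 := (mul_eq_zero.1 hR0).resolve_left (mul_ne_zero ht0.ne' ht0.ne')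
        have : γ = 0 := pow_eq_zero_iff (n := 3) (by norm_num) |>.1 this
        exact (map_eq_zero v).1 this
      rw [hA, hB, hC] at h
      have hb2 : b ^ 2 = 0 := by rw [h]; ring
      have hb0 : b = 0 := pow_eq_zero_iff (n := 2) (by norm_num) |>.1 hb2
      rw [hb0, map_zero] at hb
      exact zero_ne_one hb
    · exact h0
  -- the remaining terms are smaller than `M`
  have t3 : t * t * t < 1 := by
    calc t * t * t < 1 * 1 := mul_lt_mul'' ht2 ht1 zero_le zero_le
      _ = 1 := one_mul 1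
  have t4 : t * t * (t * t) < 1 := by
    calc t * t * (t * t) < 1 * 1 := mul_lt_mul'' ht2 ht2 zero_le zero_le
      _ = 1 := one_mul 1
  have r1 : v (6 * A ^ 2 * B) < M := by
    apply nf_key hM0 ht2 hPM hPM hQM
    rw [map_mul, map_mul, map_pow, h6]
    apply le_of_eq
    simp only [hP, hQ, hα, hβ, pow_succ, pow_zero, one_mul]
    ac_rfl
  have r2 : v (18 * A ^ 2 * C) < M := by
    apply nf_key hM0 t4 hPM hPM hRM
    rw [map_mul, map_mul, map_pow, h18]
    apply le_of_eq
    simp only [hP, hR, hα, hγ, pow_succ, pow_zero, one_mul]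
    ac_rfl
  have r3 : v (9 * A * B ^ 2) < M := by
    apply nf_key hM0 t4 hPM hQM hQM
    rw [map_mul, map_mul, map_pow, h9]
    apply le_of_eq
    simp only [hP, hQ, hα, hβ, pow_succ, pow_zero, one_mul]
    ac_rfl
  have r4 : v (45 * A * C ^ 2) < M := by
    apply nf_key hM0 ht2 hPM hRM hRM
    rw [map_mul, map_mul, map_pow]
    calc (v 45 * v A * v C ^ 2) ^ 3 ≤ (t * t * v A * v C ^ 2) ^ 3 := by gcongr
      _ = _ := by
        simp only [hP, hR, hα, hγ, pow_succ, pow_zero, one_mul]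
        ac_rfl
  have r5 : v (18 * B ^ 2 * C) < M := by
    apply nf_key hM0 ht2 hQM hQM hRM
    rw [map_mul, map_mul, map_pow, h18]
    apply le_of_eq
    simp only [hQ, hR, hβ, hγ, pow_succ, pow_zero, one_mul]
    ac_rfl
  have r6 : v (27 * B * C ^ 2) < M := by
    apply nf_key hM0 t4 hQM hRM hRM
    rw [map_mul, map_mul, map_pow, h27]
    apply le_of_eq
    simp only [hQ, hR, hβ, hγ, pow_succ, pow_zero, one_mul]
    ac_rfl
  have r7 : v (45 * A * B * C) < M := by
    apply nf_key hM0 t3 hPM hQM hRM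
    rw [map_mul, map_mul, map_mul]
    calc (v 45 * v A * v B * v C) ^ 3 ≤ (t * t * v A * v B * v C) ^ 3 := by gcongr
      _ = _ := by
        simp only [hP, hQ, hR, hα, hβ, hγ, pow_succ, pow_zero, one_mul]
        ac_rfl
  set S := 6 * A ^ 2 * B + 18 * A ^ 2 * C + 9 * A * B ^ 2 + 45 * A * C ^ 2 + 18 * B ^ 2 * C +
    27 * B * C ^ 2 + 45 * A * B * C with hS
  have rS : v S < M := by
    rw [hS]
    refine (v.map_add _ _).trans_lt (max_lt ?_ r7)
    refine (v.map_add _ _).trans_lt (max_lt ?_ r6)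
    refine (v.map_add _ _).trans_lt (max_lt ?_ r5)
    refine (v.map_add _ _).trans_lt (max_lt ?_ r4)
    refine (v.map_add _ _).trans_lt (max_lt ?_ r3)
    exact (v.map_add _ _).trans_lt (max_lt r1 r2)
  have vP : v (A ^ 3) = P := map_pow v A 3
  have vQ : v (3 * B ^ 3) = Q := by rw [map_mul, map_pow, h3]
  have vR : v (9 * C ^ 3) = R := by rw [map_mul, map_pow, h9]
  have hvN : v (b ^ 2) = 1 := by rw [map_pow, hb, one_pow]
  have hN : b ^ 2 = A ^ 3 + 3 * B ^ 3 + 9 * C ^ 3 + S := by rw [h, hS]; ring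
  -- the three leading values are different unless zero
  have dPQ : P = Q → P = 0 := by
    intro h0
    by_contra hne
    have hβ0 : β ≠ 0 := by
      intro h8
      rw [hQ, h8, zero_pow (by norm_num), mul_zero] at h0
      exact hne h0
    obtain ⟨k, hk⟩ := nf_cube hβ0 h0
    omega
  have dPR : P = R → P = 0 := by
    intro h0
    by_contra hne
    have hγ0 : γ ≠ 0 := by
      intro h8
      rw [hR, h8, zero_pow (by norm_num), mul_zero] at h0
      exact hne h0
    rw [hR, htt] at h0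
    obtain ⟨k, hk⟩ := nf_cube hγ0 h0
    omega
  have dQR : Q = R → Q = 0 := by
    intro h0
    by_contra hne
    have hγ0 : γ ≠ 0 := by
      intro h8
      rw [hR, h8, zero_pow (by norm_num), mul_zero] at h0
      exact hne h0
    rw [hQ, hR, mul_assoc] at h0
    have h1 := mul_left_cancel₀ ht0.ne' h0
    obtain ⟨k, hk⟩ := nf_cube hγ0 h1
    omega
  -- `M = 1`, attained by `P`
  have hcaseQ : M = Q → Q ≠ 1 := by
    intro _ h1
    have h8 : (1 : ℤᵐ⁰) ^ 3 = exp (-1 : ℤ) * β ^ 3 := by rw [one_pow, ← h1]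
    have hβ0 : β ≠ 0 := by
      intro h9
      rw [h9, zero_pow (by norm_num), mul_zero, one_pow] at h8
      exact one_ne_zero h8
    obtain ⟨k, hk⟩ := nf_cube hβ0 h8
    omega
  have hcaseR : M = R → R ≠ 1 := by
    intro _ h1
    have h8 : (1 : ℤᵐ⁰) ^ 3 = exp (-2 : ℤ) * γ ^ 3 := by rw [one_pow, ← htt]; exact h1.symm
    have hγ0 : γ ≠ 0 := by
      intro h9
      rw [h9, zero_pow (by norm_num), mul_zero, one_pow] at h8
      exact one_ne_zero h8
    obtain ⟨k, hk⟩ := nf_cube hγ0 h8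
    omega
  have hM1 : M = 1 ∧ P = 1 := by
    rcases max_choice P (max Q R) with hc | hc
    · -- `M = P`
      have hMP : M = P := hc
      have hQ' : Q < M := lt_of_le_of_ne hQM (fun h0 => hM0.ne' (by
        rw [hMP]; exact dPQ (by rw [← hMP, h0])))
      have hR' : R < M := lt_of_le_of_ne hRM (fun h0 => hM0.ne' (by
        rw [hMP]; exact dPR (by rw [← hMP, h0])))
      have h8 : v (b ^ 2) = M := by
        rw [hN, add_assoc, add_assoc]
        have h9 : v (3 * B ^ 3 + (9 * C ^ 3 + S)) < v (A ^ 3) := by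
          rw [vP, ← hMP]
          exact (v.map_add _ _).trans_lt (max_lt (by rw [vQ]; exact hQ')
            ((v.map_add _ _).trans_lt (max_lt (by rw [vR]; exact hR') rS)))
        rw [Valuation.map_add_eq_of_lt_left _ h9, vP, hMP]
      rw [hvN] at h8
      exact ⟨h8.symm, by rw [← hMP]; exact h8.symm⟩
    · rcases max_choice Q R with hc' | hc'
      · exfalso
        have hMQ : M = Q := by rw [hM, hc, hc']
        have hP' : P < M := lt_of_le_of_ne hPM (fun h0 => hM0.ne' (by
          rw [← h0]; exact dPQ (by rw [h0, hMQ])))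
        have hR' : R < M := lt_of_le_of_ne hRM (fun h0 => hM0.ne' (by
          rw [hMQ]; exact dQR (by rw [← hMQ, h0])))
        have h8 : v (b ^ 2) = M := by
          have e : b ^ 2 = 3 * B ^ 3 + (A ^ 3 + (9 * C ^ 3 + S)) := by rw [hN]; ring
          rw [e]
          have h9 : v (A ^ 3 + (9 * C ^ 3 + S)) < v (3 * B ^ 3) := by
            rw [vQ, ← hMQ]
            exact (v.map_add _ _).trans_lt (max_lt (by rw [vP]; exact hP')
              ((v.map_add _ _).trans_lt (max_lt (by rw [vR]; exact hR') rS)))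
          rw [Valuation.map_add_eq_of_lt_left _ h9, vQ, hMQ]
        rw [hvN] at h8
        exact hcaseQ hMQ (by rw [← hMQ]; exact h8.symm)
      · exfalso
        have hMR : M = R := by rw [hM, hc, hc']
        have hP' : P < M := lt_of_le_of_ne hPM (fun h0 => hM0.ne' (by
          rw [← h0]; exact dPR (by rw [h0, hMR])))
        have hQ' : Q < M := lt_of_le_of_ne hQM (fun h0 => hM0.ne' (by
          rw [← h0]; exact dQR (by rw [h0, hMR])))
        have h8 : v (b ^ 2) = M := by
          have e : b ^ 2 = 9 * C ^ 3 + (A ^ 3 + (3 * B ^ 3 + S)) := by rw [hN]; ring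
          rw [e]
          have h9 : v (A ^ 3 + (3 * B ^ 3 + S)) < v (9 * C ^ 3) := by
            rw [vR, ← hMR]
            exact (v.map_add _ _).trans_lt (max_lt (by rw [vP]; exact hP')
              ((v.map_add _ _).trans_lt (max_lt (by rw [vQ]; exact hQ') rS)))
          rw [Valuation.map_add_eq_of_lt_left _ h9, vR, hMR]
        rw [hvN] at h8
        exact hcaseR hMR (by rw [← hMR]; exact h8.symm)
  obtain ⟨hM1, hP1⟩ := hM1
  have hα1 : v A = 1 := (pow_eq_one_iff.1 hP1).resolve_right (by norm_num)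
  have hβ1 : v B ≤ 1 := by
    by_contra hcon
    push Not at hcon
    have h8 := nf_ge hcon
    have h9 : t * (exp (1 : ℤ)) ^ 3 ≤ Q := by
      rw [hQ]
      gcongr
    have h10 : (1 : ℤᵐ⁰) < t * (exp (1 : ℤ)) ^ 3 := by
      rw [ht, ← exp_nsmul, ← exp_add, ← exp_zero, exp_lt_exp]
      norm_num
    exact absurd (h10.trans_le (h9.trans (hQM.trans hM1.le))) (lt_irrefl _)
  have hγ1 : v C ≤ 1 := by
    by_contra hcon
    push Not at hcon
    have h8 := nf_ge hcon
    have h9 : t * t * (exp (1 : ℤ)) ^ 3 ≤ R := by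
      rw [hR]
      gcongr
    have h10 : (1 : ℤᵐ⁰) < t * t * (exp (1 : ℤ)) ^ 3 := by
      rw [htt, ← exp_nsmul, ← exp_add, ← exp_zero, exp_lt_exp]
      norm_num
    exact absurd (h10.trans_le (h9.trans (hRM.trans hM1.le))) (lt_irrefl _)
  -- modulo 9
  have hA2 : v (A ^ 2 - 1) < 1 := by
    have h8 := hfr A hα1.le
    have e : A ^ 3 - A = A * (A ^ 2 - 1) := by ring
    rwa [e, map_mul, hα1, one_mul] at h8
  have hmod : v (b ^ 2 - A ^ 3) ≤ t * t := by
    have e : b ^ 2 - A ^ 3 = 3 * ((B ^ 3 - B) - B * (A ^ 2 - 1)) + (9 * (A ^ 2 * B) + 9 * C ^ 3 +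
        18 * (A ^ 2 * C) + 9 * (A * B ^ 2) + 45 * (A * C ^ 2) + 18 * (B ^ 2 * C) +
        27 * (B * C ^ 2) + 45 * (A * B * C)) := by
      rw [h]
      ring
    have hle : ∀ c x : K, v c ≤ t * t → v x ≤ 1 → v (c * x) ≤ t * t := by
      intro c x hc hx
      rw [map_mul]
      calc v c * v x ≤ t * t * 1 := by gcongr
        _ = t * t := mul_one _
    have m2 : ∀ x y : K, v x ≤ 1 → v y ≤ 1 → v (x * y) ≤ 1 := by
      intro x y hx hy
      rw [map_mul]
      exact mul_le_one₀ hx zero_le hy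
    have p2 : ∀ (x : K) (n : ℕ), v x ≤ 1 → v (x ^ n) ≤ 1 := by
      intro x n hx
      rw [map_pow]
      exact pow_le_one₀ zero_le hx
    have h27' : v 27 ≤ t * t := by
      rw [h27]
      exact mul_le_of_le_one_right zero_le ht1.le
    rw [e]
    refine (v.map_add _ _).trans (max_le ?_ ?_)
    · rw [map_mul, h3]
      have h8 : v ((B ^ 3 - B) - B * (A ^ 2 - 1)) < 1 := by
        refine (v.map_sub _ _).trans_lt (max_lt (hfr B hβ1) ?_)
        rw [map_mul, mul_comm]
        exact mul_lt_one_of_lt_of_le hA2 hβ1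
      have h9 := nf_exp h8
      gcongr
    · refine (v.map_add _ _).trans (max_le ?_ (hle _ _ h45 (m2 _ _ (m2 _ _ hα1.le hβ1) hγ1)))
      refine (v.map_add _ _).trans (max_le ?_ (hle _ _ h27' (m2 _ _ hβ1 (p2 _ _ hγ1))))
      refine (v.map_add _ _).trans (max_le ?_ (hle _ _ h18.le (m2 _ _ (p2 _ _ hβ1) hγ1)))
      refine (v.map_add _ _).trans (max_le ?_ (hle _ _ h45 (m2 _ _ hα1.le (p2 _ _ hγ1))))
      refine (v.map_add _ _).trans (max_le ?_ (hle _ _ h9.le (m2 _ _ hα1.le (p2 _ _ hβ1))))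
      refine (v.map_add _ _).trans (max_le ?_ (hle _ _ h18.le (m2 _ _ (p2 _ _ hα1.le) hγ1)))
      exact (v.map_add _ _).trans (max_le (hle _ _ h9.le (m2 _ _ (p2 _ _ hα1.le) hβ1))
        (hle _ _ h9.le (p2 _ _ hγ1)))
  have hbb : v (b ^ 2 - 1) < 1 := by
    have h8 := hfr b hb.le
    have e : b ^ 3 - b = b * (b ^ 2 - 1) := by ring
    rwa [e, map_mul, hb, one_mul] at h8
  -- `A` is 1 or -1
  have hprod : v (A - 1) < 1 ∨ v (A + 1) < 1 := by
    by_contra hcon
    push Not at hcon
    obtain ⟨c1, c2⟩ := hcon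
    have e : A ^ 2 - 1 = (A - 1) * (A + 1) := by ring
    rw [e, map_mul] at hA2
    have : (1 : ℤᵐ⁰) ≤ v (A - 1) * v (A + 1) := one_le_mul_of_one_le_of_one_le c1 c2
    exact absurd (this.trans_lt hA2) (lt_irrefl _)
  rcases hprod with hA1 | hA1
  · have h8 : v (A ^ 3 - 1) ≤ t * t := by
      have e : A ^ 3 - 1 = (A - 1) * ((A - 1) * (A - 1) + 3 * A) := by ring
      have h9 := nf_exp hA1
      rw [e, map_mul]
      have h10 : v ((A - 1) * (A - 1) + 3 * A) ≤ t := by
        refine (v.map_add _ _).trans (max_le ?_ ?_)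
        · rw [map_mul]
          calc v (A - 1) * v (A - 1) ≤ t * 1 := by gcongr
            _ = t := mul_one t
        · rw [map_mul, h3, hα1, mul_one]
      gcongr
    have e : b ^ 2 - 1 = (b ^ 2 - A ^ 3) + (A ^ 3 - 1) := by ring
    rw [e, ← htt]
    exact (v.map_add _ _).trans (max_le hmod h8)
  · exfalso
    have h8 : v (A ^ 3 + 1) ≤ t * t := by
      have e : A ^ 3 + 1 = (A + 1) * ((A + 1) * (A + 1) - 3 * A) := by ring
      have h9 := nf_exp hA1
      rw [e, map_mul]
      have h10 : v ((A + 1) * (A + 1) - 3 * A) ≤ t := by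
        refine (v.map_sub _ _).trans (max_le ?_ ?_)
        · rw [map_mul]
          calc v (A + 1) * v (A + 1) ≤ t * 1 := by gcongr
            _ = t := mul_one t
        · rw [map_mul, h3, hα1, mul_one]
      gcongr
    have h11 : v (b ^ 2 + 1) < 1 := by
      have e : b ^ 2 + 1 = (b ^ 2 - A ^ 3) + (A ^ 3 + 1) := by ring
      rw [e]
      exact ((v.map_add _ _).trans (max_le hmod h8)).trans_lt ht2
    have h12 : v 2 < 1 := by
      have e : (2 : K) = (b ^ 2 + 1) - (b ^ 2 - 1) := by ring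
      rw [e]
      exact (v.map_sub _ _).trans_lt (max_lt h11 hbb)
    rw [h2] at h12
    exact lt_irrefl _ h12

end Pool.Agent.Work.MP_787500_nt.P3
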