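import Mathlib
import Pool.Agent.Work.MP_787500_nt.P3.C_Nine
import Pool.Agent.Work.MP_787500_nt.P3.C_NormF
import Pool.Agent.Work.MP_787500_nt.P3.C_Hilb
import Pool.Agent.Work.MP_787500_nt.P3.C_Two
import Pool.Agent.Work.MP_787500_nt.P3.A_Symb

/-!
# Module C_NONCOB (size M-L): a nonzero cup product

Let `v` be a place of `K` above 3, `v'` and the data `BD 3 K v v'` from `base_data` (`H67_Base.lean`):
`hg'` gives `a ∈ Kˣ` with valuation 1 at all places different from `v'`, and `a ^ 2 ∉ SU v`, i.e.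
`v (a ^ 2 - 1) > exp (-2)` (`OddP.Gen.SU` in `H67_GenC.lean`); `hpv`: `v 3 = exp (-1)`; `hres`.
`b = a`, as an element of `K`: `SU b` (`su_iff`). Let `t ^ 3 = b`: `InM t` (`InM.cbrt`), `SU t`.

Claim: `¬ Cob ⊤ (cup psi9 (act3 ⊤ t))`. Suppose it is a coboundary. `psi9 ≠ 0` (`psi9_ne`), so
`exists_idx` gives `Idx (pSys K) V ⊤ psi9 s`. `exists_norm` (`β = t`): `x` fixed by `V`,
`x * s x * s (s x) = b`. `V` is the set of the `g ∈ Gp K` with `g z9 = z9` (`z9_gal`); as `z9 ^ 3 = z3` it is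
`{g ∈ AbsGal K | g z9 = z9}`; it is normal in `AbsGal K` (`g z9` is a power of `z9`, `z9 ^ 9 = 1`, and these
commute).
Choose `τ₀ ∉ Gp K` (`gp_index` or `exists_dec_notMem`): `τ₀ z3 = z3⁻¹`, so `τ₀ z9 = zp i * z9⁻¹`, and
`τ = s ^ i τ₀` satisfies `τ z9 = z9⁻¹` (`s z9⁻¹ = zp (-1) z9⁻¹`). `τ ^ 2` and the commutator of `s` and `τ` fix
`z9`. Let `y = x * τ x`. `y` is fixed by `V` (`τ⁻¹ V τ = V`) and by `τ` (`τ ^ 2 ∈ V`). If `g (ee 0) = ee 0` then
`g z9 = z9` or `g z9 = z9⁻¹` (from `g z9 + (g z9)⁻¹ = z9 + z9⁻¹`), so `g ∈ V` or `g = (g τ⁻¹) τ` with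
`g τ⁻¹ ∈ V`: `g y = y`. `span_ee`: `y = A + B ee 0 + C (ee 0) ^ 2`; with `s (ee 0) = ee 1`,
`s (ee 1) = ee 2` (`gal_ee`, `psi9 s = 1`): `y * s y * s (s y) = ∏_j (A + B ee j + C (ee j) ^ 2)`, which is
the polynomial in `norm_nine` by `ee_sum`, `ee_pair`, `ee_prod` (elementary symmetric functions 6, 9, 3).
On the other hand `y * s y * s (s y) = b * τ b = b ^ 2`: `s (τ x) = τ (s x)` etc. since `s τ` and `τ s` differ
by an element of `V`. So `b ^ 2 = N (A, B, C)` in `K`, and `norm_nine` gives `v (b ^ 2 - 1) ≤ exp (-2)`: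
contradiction.

`noncob`: `cup (act3 ⊤ t) psi9` is not a coboundary either (`cup_comm`, `Cob.comb` in `A_Symb.lean`).
-/

set_option autoImplicit false

namespace Pool.Agent.Work.MP_787500_nt.P3

open IsDedekindDomain NumberField
open Pool.Agent.Work.MP_787500_nt.OddP (AbsGal IsBase)

universe u

variable {K : Type u} [Field K] [NumberField K]

private theorem nc_alg {Ω : Type*} [Field Ω] {A B C p q r : Ω} (h1 : p + q + r = 6)
    (h2 : p * q + p * r + q * r = 9) (h3 : p * q * r = 3) :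
    (A + B * p + C * p ^ 2) * (A + B * q + C * q ^ 2) * (A + B * r + C * r ^ 2) =
      A ^ 3 + 3 * B ^ 3 + 9 * C ^ 3 + 6 * A ^ 2 * B + 18 * A ^ 2 * C + 9 * A * B ^ 2 +
      45 * A * C ^ 2 + 18 * B ^ 2 * C + 27 * B * C ^ 2 + 45 * A * B * C := by
  have key : (A + B * p + C * p ^ 2) * (A + B * q + C * q ^ 2) * (A + B * r + C * r ^ 2) =
      A ^ 3 + A ^ 2 * B * (p + q + r) +
      A ^ 2 * C * ((p + q + r) ^ 2 - 2 * (p * q + p * r + q * r)) +
      A * B ^ 2 * (p * q + p * r + q * r) +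
      A * C ^ 2 * ((p * q + p * r + q * r) ^ 2 - 2 * (p + q + r) * (p * q * r)) +
      B ^ 3 * (p * q * r) + C ^ 3 * (p * q * r) ^ 2 +
      B ^ 2 * C * ((p + q + r) * (p * q * r)) +
      B * C ^ 2 * ((p * q + p * r + q * r) * (p * q * r)) +
      A * B * C * ((p + q + r) * (p * q + p * r + q * r) - 3 * (p * q * r)) := by
    ring
  rw [key, h1, h2, h3]
  ring

/-- the core of the argument: an element fixed by the stabilizer of `z9` whose norm is `b` -/
private theorem nc_core {s τ : AbsGal K} {x : AlgebraicClosure K} {b : K}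
    (hs : s (z9 K) = zp K 1 * z9 K) (hsG : s ∈ Gp K) (hτ : τ (z9 K) = (z9 K)⁻¹)
    (hse : ∀ j, s (ee K j) = ee K (j + 1))
    (hx : ∀ h : AbsGal K, h (z9 K) = z9 K → h x = x)
    (hN : x * s x * s (s x) = algebraMap K (AlgebraicClosure K) b) :
    ∃ A B C : K, b ^ 2 = A ^ 3 + 3 * B ^ 3 + 9 * C ^ 3 + 6 * A ^ 2 * B + 18 * A ^ 2 * C +
      9 * A * B ^ 2 + 45 * A * C ^ 2 + 18 * B ^ 2 * C + 27 * B * C ^ 2 + 45 * A * B * C := by
  have hz0 : z9 K ≠ 0 := z9_ne_zero
  have hτ' : τ⁻¹ (z9 K)⁻¹ = z9 K := by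
    rw [← hτ]
    exact τ.symm_apply_apply _
  have hτ'' : τ⁻¹ (z9 K) = (z9 K)⁻¹ := by
    have h := congrArg (fun w => w⁻¹) hτ'
    simp only [← map_inv₀, inv_inv] at h
    exact h
  -- elements with the same value at `z9`
  have heq : ∀ h1 h2 : AbsGal K, h1 (z9 K) = h2 (z9 K) → h1 x = h2 x := by
    intro h1 h2 h
    have h3 : (h2⁻¹ * h1) x = x := hx _ (by
      rw [AlgEquiv.mul_apply, h]
      exact h2.symm_apply_apply _)
    rw [AlgEquiv.mul_apply] at h3
    have h4 := congrArg h2 h3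
    rwa [show h2 (h2⁻¹ (h1 x)) = h1 x from h2.apply_symm_apply _] at h4
  have hτz3 : τ (z3 K) = (z3 K)⁻¹ := by
    rw [← z9_pow, map_pow, hτ, inv_pow]
  have hτzp : ∀ a : ZMod 3, τ (zp K a) = (zp K a)⁻¹ := by
    intro a
    rw [zp, map_pow, hτz3, inv_pow]
  have hszp : ∀ a : ZMod 3, s (zp K a) = zp K a := fun a => gal_zp hsG a
  let y : AlgebraicClosure K := x * τ x
  have hyV : ∀ h : AbsGal K, h (z9 K) = z9 K → h y = y := by
    intro h hh
    show h (x * τ x) = x * τ x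
    rw [map_mul, hx h hh]
    congr 1
    have h1 := heq (h * τ) τ (by rw [AlgEquiv.mul_apply, hτ, map_inv₀, hh])
    exact h1
  have hyτ : τ y = y := by
    show τ (x * τ x) = x * τ x
    rw [map_mul]
    have h1 := hx (τ * τ) (by rw [AlgEquiv.mul_apply, hτ, map_inv₀, hτ, inv_inv])
    rw [AlgEquiv.mul_apply] at h1
    rw [h1, mul_comm]
  have hee0 : ee K 0 = 2 - z9 K - (z9 K)⁻¹ := by
    rw [ee, zp_zero, one_mul]
    have : z9 K * (z9 K)⁻¹ = 1 := mul_inv_cancel₀ hz0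
    linear_combination this
  have hyg : ∀ g : AbsGal K, g (ee K 0) = ee K 0 → g y = y := by
    intro g hg
    rw [hee0, map_sub, map_sub, map_inv₀, map_ofNat] at hg
    have hw0 : g (z9 K) ≠ 0 := by
      intro h
      exact hz0 (g.injective (by rw [h, map_zero]))
    have h1 : (g (z9 K) - z9 K) * (g (z9 K) - (z9 K)⁻¹) = 0 := by
      have h2 : z9 K * (z9 K)⁻¹ = 1 := mul_inv_cancel₀ hz0
      have h3 : g (z9 K) * (g (z9 K))⁻¹ = 1 := mul_inv_cancel₀ hw0
      linear_combination g (z9 K) * (-1 : AlgebraicClosure K) * hg + h2 - h3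
    rcases mul_eq_zero.1 h1 with h2 | h2
    · exact hyV g (sub_eq_zero.1 h2)
    · have h3 : (g * τ⁻¹) y = y := hyV _ (by
        rw [AlgEquiv.mul_apply, hτ'', map_inv₀, sub_eq_zero.1 h2, inv_inv])
      rw [AlgEquiv.mul_apply] at h3
      have h4 : τ⁻¹ y = y := by
        conv_lhs => rw [← hyτ]
        exact τ.symm_apply_apply _
      rwa [h4] at h3
  obtain ⟨A, B, C, hABC⟩ := span_ee hyg
  refine ⟨A, B, C, ?_⟩
  have h01 : s (ee K 0) = ee K 1 := by rw [hse, zero_add]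
  have h12 : s (ee K 1) = ee K 2 := by rw [hse]; rfl
  have hsy : s y = algebraMap K _ A + algebraMap K _ B * ee K 1 +
      algebraMap K _ C * ee K 1 ^ 2 := by
    rw [hABC]
    simp only [map_add, map_mul, map_pow, AlgEquiv.commutes, h01]
  have hssy : s (s y) = algebraMap K _ A + algebraMap K _ B * ee K 2 +
      algebraMap K _ C * ee K 2 ^ 2 := by
    rw [hsy]
    simp only [map_add, map_mul, map_pow, AlgEquiv.commutes, h12]
  have hcomm1 : s (τ x) = τ (s x) := by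
    have := heq (s * τ) (τ * s) (by
      rw [AlgEquiv.mul_apply, AlgEquiv.mul_apply, hτ, map_inv₀, hs, map_mul, hτzp, hτ, mul_inv])
    exact this
  have hcomm2 : s (s (τ x)) = τ (s (s x)) := by
    have := heq (s * s * τ) (τ * s * s) (by
      simp only [AlgEquiv.mul_apply, hτ, map_inv₀, hs, map_mul, hτzp, hszp, mul_inv])
    exact this
  have hprod : y * s y * s (s y) = algebraMap K (AlgebraicClosure K) b ^ 2 := by
    show x * τ x * s (x * τ x) * s (s (x * τ x)) = _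
    rw [map_mul, map_mul, hcomm2, hcomm1]
    have h1 : τ x * τ (s x) * τ (s (s x)) = algebraMap K (AlgebraicClosure K) b := by
      rw [← map_mul, ← map_mul, hN, AlgEquiv.commutes]
    calc x * τ x * (s x * τ (s x)) * (s (s x) * τ (s (s x)))
        = (x * s x * s (s x)) * (τ x * τ (s x) * τ (s (s x))) := by ring
      _ = _ := by rw [hN, h1, sq]
  rw [hssy, hsy, hABC, nc_alg ee_sum ee_pair ee_prod] at hprod
  apply (algebraMap K (AlgebraicClosure K)).injective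
  rw [map_pow, ← hprod]
  simp only [map_add, map_mul, map_pow, map_ofNat]

theorem noncob (hK : IsBase 3 K) :
    ∃ (b : K) (t : AlgebraicClosure K), t ^ 3 = algebraMap K (AlgebraicClosure K) b ∧ SU t ∧
      InM t ∧ ¬ Cob (pSys K) ⊤ (cup (act3 ⊤ t) psi9) := by
  have hc0 : CharZero (AlgebraicClosure K) :=
    charZero_of_injective_algebraMap (algebraMap K (AlgebraicClosure K)).injective
  obtain ⟨P, hPp, hP⟩ := exists_prime_three K
  obtain ⟨v, hv, h3v⟩ := OddP.exists_place (p := 3) (K := K) P (by exact_mod_cast hP)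
  obtain ⟨v', hb⟩ := OddP.base_data hK h3v
  obtain ⟨a, m, -, hoff, -, hnot⟩ := hb.hg'
  have hval : ∀ u : HeightOneSpectrum (𝓞 K), u ≠ v' → u.valuation K (a : K) = 1 := by
    intro u hu
    have h1 := OddP.Gen.exp_ordU u a
    rw [hoff u hu] at h1
    rw [← h1]
    rfl
  have h3v' : (3 : 𝓞 K) ∈ v'.asIdeal := by
    have h1 := hb.hpv'
    have h2 : v'.valuation K (algebraMap (𝓞 K) K 3) < 1 := by
      rw [map_ofNat]
      have h3 : v'.valuation K (3 : K) = WithZero.exp (-1 : ℤ) := by exact_mod_cast h1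
      rw [h3, ← WithZero.exp_zero, WithZero.exp_lt_exp]
      norm_num
    exact (v'.valuation_lt_one_iff_mem _).1 h2
  have hsu : SU (a : K) := su_iff.2 ⟨a.ne_zero, fun u hu => hval u fun h => hu (h ▸ h3v')⟩
  obtain ⟨t, ht⟩ := IsAlgClosed.exists_pow_nat_eq (algebraMap K (AlgebraicClosure K) (a : K))
    (n := 3) (by norm_num)
  have hsu' : SU (algebraMap K (AlgebraicClosure K) (a : K)) := hsu.map _
  have htu : SU t := SU.of_pow (n := 3) (by norm_num) (by rw [ht]; exact hsu')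
  have htM : InM t := InM.cbrt (InM.base (a : K)) hsu' ht
  refine ⟨a, t, ht, htu, htM, fun hc => hnot ?_⟩
  have hU : Opn (pSys K) ⊤ := ⟨(pSys K).ex.choose, (pSys K).ex.choose_spec, le_top⟩
  have hfix : ∀ g ∈ (⊤ : Subgroup (Gp K)), (g : AbsGal K) (t ^ 3) = t ^ 3 := by
    intro g _
    rw [ht, AlgEquiv.commutes]
  have hmem : act3 ⊤ t ∈ homs (pSys K) ⊤ := act3_mem hU htu.1 htM hfix
  have hc' : Cob (pSys K) ⊤ (cup psi9 (act3 ⊤ t)) :=
    Cob.comb (cup_comm psi9_mem hmem) hc 1 (-1) (fun g _ k _ => by ring)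
  obtain ⟨V, s, hi⟩ := exists_idx hU psi9_mem (psi9_ne hK)
  obtain ⟨x, -, -, hxV, hxN⟩ := exists_norm hK hi htu htM hfix hc'
  have hsψ : psi9 s = 1 := hi.sχ
  have hs : (s : AbsGal K) (z9 K) = zp K 1 * z9 K := by rw [z9_gal, hsψ]
  have hx : ∀ h : AbsGal K, h (z9 K) = z9 K → h x = x := by
    intro h hh
    have hG : h ∈ Gp K := by
      rw [mem_Gp, ← z9_pow, map_pow, hh]
    refine hxV ⟨h, hG⟩ ((hi.ker ⟨h, hG⟩ (Subgroup.mem_top _)).2 ?_)
    have h1 := z9_gal (⟨h, hG⟩ : Gp K)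
    have h2 : zp K (psi9 (⟨h, hG⟩ : Gp K)) * z9 K = zp K 0 * z9 K := by
      rw [← h1, zp_zero, one_mul]
      exact hh
    exact zp_injective (mul_right_cancel₀ z9_ne_zero h2)
  -- an element inverting `z9`
  obtain ⟨τ₀, -, hτ₀⟩ := exists_dec_notMem hK P hP
  have hτz : τ₀ (z3 K) = z3 K ^ 2 := by
    rcases gal_z3 τ₀ with h | h
    · exact absurd h hτ₀
    · exact h
  have hz3 : z3 K ^ 2 = (z3 K)⁻¹ := by
    apply eq_inv_of_mul_eq_one_left
    rw [← pow_succ, z3_pow_three]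
  obtain ⟨i, hi'⟩ := exists_zp (x := τ₀ (z9 K)) (y := (z9 K)⁻¹) (inv_ne_zero z9_ne_zero) (by
    rw [← map_pow, z9_pow, hτz, hz3, inv_pow, z9_pow])
  have hsn : ∀ n : ℕ, ((s : AbsGal K) ^ n) (z9 K) = zp K (n : ZMod 3) * z9 K := by
    intro n
    induction n with
    | zero => rw [pow_zero, Nat.cast_zero, zp_zero, one_mul]; rfl
    | succ n ih =>
      rw [pow_succ', AlgEquiv.mul_apply, ih, map_mul, gal_zp s.2, hs, ← mul_assoc, ← zp_add]
      push_cast
      rfl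
  have hτ : ((s : AbsGal K) ^ i.val * τ₀) (z9 K) = (z9 K)⁻¹ := by
    rw [AlgEquiv.mul_apply, hi', map_mul, map_inv₀, hsn, gal_zp (Subgroup.pow_mem _ s.2 _),
      ZMod.natCast_zmod_val, mul_inv, ← mul_assoc, mul_inv_cancel₀ (zp_ne_zero i), one_mul]
  obtain ⟨A, B, C, hN⟩ := nc_core (b := (a : K)) hs s.2 hτ
    (fun j => by rw [gal_ee, hsψ]) hx (by rw [hxN, ht])
  have hva : v.valuation K (a : K) = 1 := hval v hb.ne
  have h3' : v.valuation K (3 : K) = WithZero.exp (-1 : ℤ) := by exact_mod_cast hb.hpv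
  have h := norm_nine (v.valuation K) h3' hb.hres hva hN
  show v.valuation K (((a ^ (3 - 1) : Kˣ) : K) - 1) ≤ WithZero.exp (-2 : ℤ)
  rw [Units.val_pow_eq_pow_val]
  exact h

end Pool.Agent.Work.MP_787500_nt.P3
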