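import Mathlib
import Pool.Agent.Work.MP_787500_nt.P3.C_Nine

/-!
# Module C_NORMCOB (size S-M): 3 is a norm from the cubic field, explicitly

(Compare `PA/NormCob.lean`.) `r j` with `r j ^ 3 = ee j` (`IsAlgClosed`), `r j ≠ 0`, `InM (r j)`
(`InM.cbrt`). For `g ∈ Gp K`: `(g (r j)) ^ 3 = ee (j + psi9 g) = r (j + psi9 g) ^ 3`, so
`g (r j) = zp (m j g) * r (j + psi9 g)` (`exists_zp`), and `m j (g h) = m (j + psi9 h) g + m j h` (apply `g` to
`h (r j) = ...`, `zp_injective`). `m j` is smooth (a good subgroup fixing all `r j`, and `z9`).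
Let `R = ∏ j, r j`, `R ^ 3 = ∏ ee j = 3`, and `g R = zp (M g) R` with `M g = Σ j, m j g` (reindex).
Let `z0 g = Σ j, j * m j g`. Then
`z0 g + z0 h - z0 (g h) = Σ j, j m j g - Σ j, j m (j + psi9 h) g = psi9 h * M g` (substitute
`j → j - psi9 h` in the second sum).
Now `T ^ 3 = 3 ^ j = (R ^ j) ^ 3`, so `T = zp a * R ^ j`, and `g T = zp (j * M g) T`, so
`k g = j * M g` (`zp_injective`). Take `z = j * z0`.
-/

set_option autoImplicit false

namespace Pool.Agent.Work.MP_787500_nt.P3

open IsDedekindDomain NumberField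
open Pool.Agent.Work.MP_787500_nt.OddP (AbsGal IsBase)

universe u

variable {K : Type u} [Field K] [NumberField K]

private theorem ncb_charZero : CharZero (AlgebraicClosure K) :=
  charZero_of_injective_algebraMap (algebraMap K (AlgebraicClosure K)).injective

/-- the abstract computation modulo 3 -/
private theorem ncb_sum (m : ZMod 3 → ZMod 3) (b : ZMod 3) :
    ∑ j, j * m j - ∑ j, j * m (j + b) = b * ∑ j, m j := by
  have h : ∑ j, j * m j = ∑ j, (j + b) * m (j + b) :=
    (Equiv.sum_comp (Equiv.addRight b) (fun j => j * m j)).symm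
  have h' : ∑ j, m j = ∑ j, m (j + b) :=
    (Equiv.sum_comp (Equiv.addRight b) m).symm
  rw [h, h', ← Finset.sum_sub_distrib, Finset.mul_sum]
  exact Finset.sum_congr rfl fun j _ => by ring

theorem norm_cob {T : AlgebraicClosure K} {j : ℤ} (hT : T ^ 3 = (3 : AlgebraicClosure K) ^ j)
    {k : Gp K → ZMod 3} (hk : ∀ g : Gp K, (g : AbsGal K) T = zp K (k g) * T) :
    Cob (pSys K) ⊤ (cup k psi9) := by
  have hz := ncb_charZero (K := K)
  have h3 : (3 : AlgebraicClosure K) ≠ 0 := by norm_num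
  have hroot : ∀ i : ZMod 3, ∃ x, x ^ 3 = ee K i := fun i =>
    IsAlgClosed.exists_pow_nat_eq (ee K i) (n := 3) (by norm_num)
  choose r hr using hroot
  have hr0 : ∀ i, r i ≠ 0 := by
    intro i h
    apply (su_ee (K := K) i).1
    rw [← hr i, h]
    ring
  have hM : ∀ i, InM (r i) := fun i => InM.cbrt (inM_ee i) (su_ee i) (hr i)
  have hm : ∀ (i : ZMod 3) (g : Gp K), ∃ a : ZMod 3,
      (g : AbsGal K) (r i) = zp K a * r (i + psi9 g) := by
    intro i g
    apply exists_zp (hr0 _)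
    rw [← map_pow, hr, gal_ee, hr]
  choose m hm using hm
  have hpsi := psi9_mem (K := K)
  have hpmul : ∀ g h : Gp K, psi9 (g * h) = psi9 g + psi9 h := fun g h =>
    hpsi.2.2 g (Subgroup.mem_top _) h (Subgroup.mem_top _)
  have hmul : ∀ (i : ZMod 3) (g h : Gp K), m i (g * h) = m (i + psi9 h) g + m i h := by
    intro i g h
    have h1 : ((g * h : Gp K) : AbsGal K) (r i) = (g : AbsGal K) ((h : AbsGal K) (r i)) := rfl
    rw [hm, hm i h, map_mul, gal_zp g.2, hm (i + psi9 h) g, hpmul] at h1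
    have h3 : i + (psi9 g + psi9 h) = i + psi9 h + psi9 g := by ring
    rw [h3, ← mul_assoc, ← zp_add] at h1
    have h4 := zp_injective (mul_right_cancel₀ (hr0 _) h1)
    rw [h4, add_comm]
  -- smoothness
  have hsm : ∀ i, Sm1 (pSys K) (m i) := by
    intro i
    obtain ⟨W, hW, hWr⟩ := hM i
    obtain ⟨W', hW', hψ⟩ := hpsi.1
    refine ⟨W.subgroupOf (Gp K) ⊓ W', (pSys K).inf (pSys_mem hW) hW', fun g w hw => ?_⟩
    have h1 : ((g * w : Gp K) : AbsGal K) (r i) = (g : AbsGal K) ((w : AbsGal K) (r i)) := rfl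
    rw [hWr (w : AbsGal K) (Subgroup.mem_subgroupOf.1 hw.1), hm, hm i g, hψ g w hw.2] at h1
    exact zp_injective (mul_right_cancel₀ (hr0 _) h1)
  have hprod : ∏ i, ee K i = 3 := by
    have : (Finset.univ : Finset (ZMod 3)) = {0, 1, 2} := by decide
    rw [this, Finset.prod_insert (by decide), Finset.prod_insert (by decide),
      Finset.prod_singleton, ← mul_assoc]
    exact ee_prod
  obtain ⟨a, ha⟩ : ∃ a : ZMod 3, T = zp K a * (∏ i, r i) ^ j := by
    apply exists_zp
    · exact zpow_ne_zero _ (Finset.prod_ne_zero_iff.2 fun i _ => hr0 i)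
    · rw [hT, ← zpow_natCast, ← zpow_mul, mul_comm j, zpow_mul, zpow_natCast,
        ← Finset.prod_pow, Finset.prod_congr rfl (fun i _ => hr i), hprod]
  have hR : ∀ g : Gp K, (g : AbsGal K) (∏ i, r i) = zp K (∑ i, m i g) * ∏ i, r i := by
    intro g
    rw [map_prod, Finset.prod_congr rfl (fun i _ => hm i g), Finset.prod_mul_distrib, zp_sum]
    congr 1
    exact Equiv.prod_comp (Equiv.addRight (psi9 g)) r
  have hipz : ∀ (b : ZMod 3), zp K b ^ j = zp K ((j : ZMod 3) * b) := by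
    intro b
    obtain ⟨n, rfl | rfl⟩ := j.eq_nat_or_neg
    · rw [zpow_natCast, zp_pow, Int.cast_natCast]
    · rw [zpow_neg, zpow_natCast, zp_pow]
      rw [inv_eq_iff_eq_inv]
      apply (mul_eq_one_iff_eq_inv₀ (zp_ne_zero _)).1
      rw [← zp_add]
      have : ((n : ℕ) : ZMod 3) * b + ((-(n : ℤ) : ℤ) : ZMod 3) * b = 0 := by
        push_cast
        ring
      rw [this, zp_zero]
  have hT0 : T ≠ 0 := by
    rintro rfl
    rw [zero_pow (by norm_num)] at hT
    exact zpow_ne_zero j h3 hT.symm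
  have hkg : ∀ g, k g = (j : ZMod 3) * ∑ i, m i g := by
    intro g
    have h1 := hk g
    have h4 : (g : AbsGal K) T = zp K ((j : ZMod 3) * ∑ i, m i g) * T := by
      rw [ha, map_mul, map_zpow₀, hR, mul_zpow, gal_zp g.2, hipz]
      ring
    rw [h4] at h1
    exact zp_injective (mul_right_cancel₀ hT0 h1.symm)
  refine ⟨fun g => (j : ZMod 3) * ∑ i, i * m i g, ?_, ?_⟩
  · choose V hV hVm using hsm
    refine ⟨V 0 ⊓ (V 1 ⊓ V 2), (pSys K).inf (hV 0) ((pSys K).inf (hV 1) (hV 2)),
      fun g w hw => ?_⟩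
    have h3 : ∀ i : ZMod 3, m i (g * w) = m i g := by
      have hc : ∀ i : ZMod 3, i = 0 ∨ i = 1 ∨ i = 2 := by decide
      intro i
      rcases hc i with rfl | rfl | rfl
      · exact hVm 0 g w hw.1
      · exact hVm 1 g w hw.2.1
      · exact hVm 2 g w hw.2.2
    simp only [h3]
  · intro g _ h _
    have h4 : ∑ i, i * m i (g * h) = ∑ i, i * m (i + psi9 h) g + ∑ i, i * m i h := by
      rw [← Finset.sum_add_distrib]
      exact Finset.sum_congr rfl fun i _ => by rw [hmul]; ring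
    have h5 := ncb_sum (fun i => m i g) (psi9 h)
    show k g * psi9 h = ((j : ZMod 3) * ∑ i, i * m i g) +
      ((j : ZMod 3) * ∑ i, i * m i h) -
      ((j : ZMod 3) * ∑ i, i * m i (g * h))
    rw [h4, hkg]
    linear_combination -(j : ZMod 3) * h5

end Pool.Agent.Work.MP_787500_nt.P3
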