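import Mathlib
import Pool.Agent.Work.MP_787500_nt.P3.C_NonCob
import Pool.Agent.Work.MP_787500_nt.P3.C_NormCob
import Pool.Agent.Work.MP_787500_nt.P3.C_Conj
import Pool.Agent.Work.MP_787500_nt.P3.C_Kap
import Pool.Agent.Work.MP_787500_nt.P3.C_Cyc
import Pool.Agent.Work.MP_787500_nt.P3.B_Mod
import Pool.Agent.Work.MP_787500_nt.P3.A_Symb

/-!
# Module C_KAPPA (size M): a class modulo 3 which is invariant under the involution

(Compare `PA/KappaP.lean`.) `b, t` from `noncob`; `χ = act3 ⊤ t ∈ homs ⊤`, `ψ = psi9`. Let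
`k0 g h = (χ g).val * (ψ h).val`, in `ℤ_[3]`; `toZMod (k0 g h) = χ g * ψ h`.
* `CocMod cycG 1 k0`: `cocMod_one_iff` (`B_Mod.lean`) with `isChar_cycG`; the cup product of two smooth
  homomorphisms is a smooth cocycle. `¬ CobMod cycG 1 k0`: `cobMod_one_iff` and `noncob`.
* `ψ (resG κ g) = ψ g`: `κ g z9 = c (g (c z9)) = c (g z9⁻¹) = c ((zp (ψ g) z9)⁻¹) = zp (ψ g) z9`
  (`conj_z9`, `conj_zp`, `resG_coe`).
* Let `T = t * c t`. `T ^ 3 = b * c b = N`, a positive rational number (`conj_norm`), and `SU N`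
  (`SU.map`, `SU.mul`), so `N = 3 ^ j` (`rat_su`; `SU.of_map` for `ℚ → Ω`). For `g ∈ Gp K`:
  `g (c t) = c (κ g t) = c (zp (χ (κ g)) t) = zp (- χ (κ g)) * c t`, so `g T = zp (χ g - χ (κ g)) T`. By
  `norm_cob`: `Cob ⊤ (cup (χ - χ ∘ κ) ψ)`.
* `toZMod (k0 (κ g) (κ h) - k0 g h) = χ (κ g) ψ h - χ g ψ h`: use `cobMod_one_iff` with the negative.
-/

set_option autoImplicit false

namespace Pool.Agent.Work.MP_787500_nt.P3

open IsDedekindDomain NumberField
open Pool.Agent.Work.MP_787500_nt.OddP (AbsGal IsBase)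

universe u

variable {K : Type u} [Field K] [NumberField K]

private theorem kap_coc {G : Type*} [Group G] {S : Sys G} {χ ψ : G → ZMod 3}
    (hχ : χ ∈ homs S ⊤) (hψ : ψ ∈ homs S ⊤) : Coc S ⊤ (cup χ ψ) := by
  obtain ⟨⟨W, hW, h1⟩, -, h2⟩ := hχ
  obtain ⟨⟨W', hW', h1'⟩, -, h2'⟩ := hψ
  refine ⟨⟨W ⊓ W', S.inf hW hW', fun g h w hw w' hw' => ?_⟩, fun g _ h _ k _ => ?_⟩
  · show χ (g * w) * ψ (h * w') = χ g * ψ h
    rw [h1 g w hw.1, h1' h w' hw'.2]
  · show χ g * ψ h + χ (g * h) * ψ k = χ h * ψ k + χ g * ψ (h * k)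
    rw [h2 g trivial h trivial, h2' h trivial k trivial]
    ring

theorem exists_k0 (hK : IsBase 3 K) {c : AlgebraicClosure K ≃+* AlgebraicClosure K}
    (hc : IsConj c) {κ : AbsGal K → AbsGal K}
    (hκ : ∀ (σ : AbsGal K) (x : AlgebraicClosure K), κ σ x = c (σ (c x))) :
    ∃ k0 : Gp K → Gp K → ℤ_[3], CocMod (pSys K) cycG 1 k0 ∧ ¬ CobMod (pSys K) cycG 1 k0 ∧
      CobMod (pSys K) cycG 1 (fun g h => k0 (resG κ g) (resG κ h) - k0 g h) := by
  have hc0 : CharZero (AlgebraicClosure K) :=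
    charZero_of_injective_algebraMap (algebraMap K (AlgebraicClosure K)).injective
  obtain ⟨b, t, ht, htu, htM, hnc⟩ := noncob hK
  have hU : Opn (pSys K) ⊤ := ⟨(pSys K).ex.choose, (pSys K).ex.choose_spec, le_top⟩
  have hfix : ∀ g ∈ (⊤ : Subgroup (Gp K)), (g : AbsGal K) (t ^ 3) = t ^ 3 := by
    intro g _
    rw [ht, AlgEquiv.commutes]
  have hmem : act3 ⊤ t ∈ homs (pSys K) ⊤ := act3_mem hU htu.1 htM hfix
  have hb0 : b ≠ 0 := by
    rintro rfl
    rw [map_zero] at ht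
    exact htu.1 (pow_eq_zero_iff (by norm_num) |>.1 ht)
  let k0 : Gp K → Gp K → ℤ_[3] := fun g h =>
    ((act3 ⊤ t g).val : ℤ_[3]) * ((psi9 h).val : ℤ_[3])
  have hred : ∀ g h, PadicInt.toZMod (k0 g h) = act3 ⊤ t g * psi9 h := by
    intro g h
    show PadicInt.toZMod (((act3 ⊤ t g).val : ℤ_[3]) * ((psi9 h).val : ℤ_[3])) = _
    rw [map_mul, map_natCast, map_natCast, ZMod.natCast_zmod_val, ZMod.natCast_zmod_val]
  have hχc := isChar_cycG (K := K)
  -- invariance of `psi9`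
  have hψκ : ∀ g : Gp K, psi9 (resG κ g) = psi9 g := by
    intro g
    have h1 := z9_gal (resG κ g)
    rw [resG_coe hc.sq hκ, hκ, conj_z9 hc, map_inv₀, z9_gal, mul_inv, map_mul, map_inv₀, map_inv₀,
      conj_z9 hc, inv_inv, conj_zp hc] at h1
    have h2 := mul_right_cancel₀ (z9_ne_zero (K := K)) h1
    have h3 : (zp K (-psi9 g))⁻¹ = zp K (psi9 g) := by
      apply inv_eq_of_mul_eq_one_right
      rw [← zp_add, neg_add_cancel, zp_zero]
    rw [h3] at h2
    exact (zp_injective h2).symm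
  -- the norm
  have hbb : SU (algebraMap K (AlgebraicClosure K) b) := by
    rw [← ht]
    exact htu.pow 3
  obtain ⟨N, hN0, hN⟩ := conj_norm hK hc hb0
  have hNsu : SU N := by
    apply SU.of_map (algebraMap ℚ (AlgebraicClosure K))
    rw [eq_ratCast, ← hN]
    exact hbb.mul (hbb.map c.toRingHom)
  obtain ⟨j, hj⟩ := rat_su hN0 hNsu
  have hT : (t * c t) ^ 3 = (3 : AlgebraicClosure K) ^ j := by
    rw [mul_pow, ← map_pow, ht, hN, hj]
    push_cast
    rfl
  have hk : ∀ g : Gp K, (g : AbsGal K) (t * c t) =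
      zp K (act3 ⊤ t g - act3 ⊤ t (resG κ g)) * (t * c t) := by
    intro g
    have h1 : (κ g) t = zp K (act3 ⊤ t (resG κ g)) * t := by
      have := act3_spec hfix (Subgroup.mem_top (resG κ g))
      rwa [resG_coe hc.sq hκ] at this
    have h2 : (g : AbsGal K) (c t) = zp K (-act3 ⊤ t (resG κ g)) * c t := by
      rw [hκ] at h1
      have h3 := congrArg c h1
      rw [hc.sq, map_mul, conj_zp hc] at h3
      exact h3
    rw [map_mul, act3_spec hfix (Subgroup.mem_top g), h2, sub_eq_add_neg, zp_add]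
    ring
  have hcob := norm_cob hT hk
  refine ⟨k0, ?_, ?_, ?_⟩
  · rw [cocMod_one_iff hχc]
    have h1 : (fun g h => PadicInt.toZMod (k0 g h)) = cup (act3 ⊤ t) psi9 := by
      funext g h
      exact hred g h
    rw [h1]
    exact kap_coc hmem psi9_mem
  · rw [cobMod_one_iff hχc]
    have h1 : (fun g h => PadicInt.toZMod (k0 g h)) = cup (act3 ⊤ t) psi9 := by
      funext g h
      exact hred g h
    rw [h1]
    exact hnc
  · rw [cobMod_one_iff hχc]
    refine Cob.comb hcob hcob (-1) 0 (fun g _ h _ => ?_)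
    show PadicInt.toZMod (k0 (resG κ g) (resG κ h) - k0 g h) =
      -1 * ((act3 ⊤ t g - act3 ⊤ t (resG κ g)) * psi9 h) +
        0 * ((act3 ⊤ t g - act3 ⊤ t (resG κ g)) * psi9 h)
    rw [map_sub, hred, hred, hψκ]
    ring

end Pool.Agent.Work.MP_787500_nt.P3
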