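import Mathlib
import Pool.Agent.Work.MP_787500_nt.P3.C_Counts
import Pool.Agent.Work.MP_787500_nt.P3.C_Hilb
import Pool.Agent.Work.MP_787500_nt.P3.C_Kappa
import Pool.Agent.Work.MP_787500_nt.P3.C_Cyc
import Pool.Agent.Work.MP_787500_nt.P3.C_Kap
import Pool.Agent.Work.MP_787500_nt.P3.C_Surj
import Pool.Agent.Work.MP_787500_nt.P3.A_Climb
import Pool.Agent.Work.MP_787500_nt.P3.A_Gens
import Pool.Agent.Work.MP_787500_nt.P3.B_Cyclic
import Pool.Agent.Work.MP_787500_nt.P3.B_Sign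
import Pool.Agent.Work.MP_787500_nt.P3.B_Q
import Pool.Agent.Work.MP_787500_nt.P3.B_E
import Pool.Agent.Work.MP_787500_nt.P3.B_Desc

/-!
The invariant map (assembly).
-/

set_option autoImplicit false

namespace Pool.Agent.Work.MP_787500_nt.P3

open IsDedekindDomain NumberField
open Pool.Agent.Work.MP_787500_nt.OddP (AbsGal IsBase)

universe u

variable {K : Type u} [Field K] [NumberField K]

theorem opn_top_pSys : Opn (pSys K) ⊤ :=
  ⟨(pSys K).ex.choose, (pSys K).ex.choose_spec, le_top⟩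

/-- restriction of cochains to `Gp K` preserves cocycles -/
theorem ZE.res {E : Type*} [NormedField E] [NormedAlgebra ℚ_[3] E]
    {f : AbsGal K → AbsGal K → E} (hf : ZE (gSys K) cyc f) :
    ZE (pSys K) cycG (fun g h : Gp K => f (g : AbsGal K) (h : AbsGal K)) := by
  refine ⟨fun ε hε => ?_, fun g h k => hf.2 g h k⟩
  obtain ⟨W, hW, h⟩ := hf.1 ε hε
  exact ⟨_, pSys_mem hW, fun g h' w hw w' hw' => h g h' w (Subgroup.mem_subgroupOf.1 hw) w'
    (Subgroup.mem_subgroupOf.1 hw')⟩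

theorem exists_invG (hK : IsBase 3 K)
    {c : AlgebraicClosure K ≃+* AlgebraicClosure K} (hc : IsConj c) {κ : AbsGal K → AbsGal K}
    (hκ : ∀ (σ : AbsGal K) (x : AlgebraicClosure K), κ σ x = c (σ (c x)))
    (E : Type*) [NormedField E] [NormedAlgebra ℚ_[3] E] [FiniteDimensional ℚ_[3] E] :
    ∃ inv : (Gp K → Gp K → E) → E, InvMap (pSys K) E cycG (resG κ) inv := by
  have hS := countsK hK
  have hH := hilbK hK
  have hL := localType three_pSys hS hH
  have hχ := isChar_cycG (K := K)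
  have hi := isInvolG hc.sq hκ
  obtain ⟨X, hX⟩ := exists_gens (S := pSys K) three_pSys (hS ⊤ opn_top_pSys).1
  obtain ⟨n0, hn0, hcyc, htriv⟩ := cyclic hL hχ hX
  obtain ⟨inv, hinv⟩ := exists_invMap_Q hχ.toIsChar hi hn0 hcyc
    (fun f hf => sign hL hχ hi hn0 hcyc htriv (exists_k0 hK hc hκ) hf)
  exact exists_invMap_E E hinv

theorem exists_inv (hK : IsBase 3 K)
    {c : AlgebraicClosure K ≃+* AlgebraicClosure K} (hc : IsConj c) {κ : AbsGal K → AbsGal K}
    (hκ : ∀ (σ : AbsGal K) (x : AlgebraicClosure K), κ σ x = c (σ (c x)))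
    (E : Type*) [NormedField E] [NormedAlgebra ℚ_[3] E] [FiniteDimensional ℚ_[3] E] :
    ∃ inv : (AbsGal K → AbsGal K → E) → E, InvMap (gSys K) E cyc κ inv := by
  obtain ⟨inv, hinv⟩ := exists_invG hK hc hκ E
  refine ⟨fun f => inv (fun g h : Gp K => f (g : AbsGal K) (h : AbsGal K)), ?_, ?_, ?_, ?_⟩
  · intro f f' hf hf'
    exact hinv.add _ _ hf.res hf'.res
  · intro a f hf
    exact hinv.smul a _ hf.res
  · intro f hf
    rw [hinv.ker _ hf.res]
    constructor
    · intro hb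
      exact desc (gp_index hK) (fun W' hW' => pSys_le hW') isChar_cyc hf hb
    · rintro ⟨z, hz, rfl⟩
      refine ⟨fun g => z g, fun ε hε => ?_, rfl⟩
      obtain ⟨W, hW, h⟩ := hz ε hε
      exact ⟨_, pSys_mem hW, fun g w hw => h g w (Subgroup.mem_subgroupOf.1 hw)⟩
  · intro f hf
    have h1 := hinv.kap _ hf.res
    have h2 : (fun g h : Gp K => f (κ (g : AbsGal K)) (κ (h : AbsGal K))) =
        fun g h : Gp K => f ((resG κ g : Gp K) : AbsGal K) ((resG κ h : Gp K) : AbsGal K) := by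
      funext g h
      rw [resG_coe hc.sq hκ, resG_coe hc.sq hκ]
    rw [h2]
    exact h1

end Pool.Agent.Work.MP_787500_nt.P3
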