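import Mathlib
import Pool.Agent.Work.MP_787500_nt.Gn.Final
import Pool.Agent.Work.MP_787500_nt.P3.C_Sys

/-!
Parity of Selmer groups, `p = 3`: everything after the invariant map (proved; the folder `Gn` contains
the generic part). `par3` takes the results of the blocks C and D as hypotheses.
-/

set_option autoImplicit false

namespace Pool.Agent.Work.MP_787500_nt.P3

open IsDedekindDomain NumberField Matrix
open Pool.Agent.Work.MP_787500_nt.OddP (AbsGal IsBase)
open Pool.Agent.Work.MP_787500_nt.Gn (GoodG ConjDual Setup Base)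

universe u

section defs

variable {K : Type u} [Field K]

/-- The value in `E` of the 3-adic cyclotomic character. -/
noncomputable def cycloThree (E : Type*) [NormedField E] [NormedAlgebra ℚ_[3] E] (σ : AbsGal K) : E :=
  algebraMap ℚ_[3] E (algebraMap ℤ_[3] ℚ_[3]
    (cyclotomicCharacter (AlgebraicClosure K) 3 σ.toRingEquiv : ℤ_[3]ˣ))

/-- The union of the inertia groups of all primes not above 3. -/
def ramOffThree (K : Type u) [Field K] : Set (AbsGal K) :=
  {σ | ∃ Q : Ideal (𝓞 (AlgebraicClosure K)), Q.IsPrime ∧ (3 : 𝓞 (AlgebraicClosure K)) ∉ Q ∧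
    σ ∈ Q.inertia (AbsGal K)}

theorem cycloThree_eq (E : Type*) [NormedField E] [NormedAlgebra ℚ_[3] E] (σ : AbsGal K) :
    cycloThree E σ = toE E (cyc σ) := rfl

end defs

variable {K : Type u} [Field K] [NumberField K]
variable {E : Type*} [NormedField E] [NormedAlgebra ℚ_[3] E] {n : ℕ}

theorem good_iff {W : Subgroup (AbsGal K)} : Good W ↔ GoodG 3 (Gp K) (ramOffThree K) W := by
  constructor
  · intro h
    exact ⟨h.normal, h.isOpen, h.le, h.pow, fun σ ⟨Q, hQ, hQ3, hσ⟩ => h.inertia Q hQ hQ3 hσ⟩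
  · intro h
    exact ⟨h.normal, h.isOpen, h.le, h.pow, fun Q hQ hQ3 σ hσ => h.inertia σ ⟨Q, hQ, hQ3, hσ⟩⟩

theorem n1_iff {A : Type*} [NormedAddCommGroup A] {z : AbsGal K → A} :
    N1 (gSys K) z ↔ Gn.N1 (GoodG 3 (Gp K) (ramOffThree K)) z :=
  forall_congr' fun _ => imp_congr_right fun _ => exists_congr fun _ => and_congr_left fun _ =>
    good_iff

theorem ze_iff {f : AbsGal K → AbsGal K → E} :
    ZE (gSys K) cyc f ↔ Gn.ZE (GoodG 3 (Gp K) (ramOffThree K)) (cycloThree E) f :=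
  and_congr_left fun _ => forall_congr' fun _ => imp_congr_right fun _ => exists_congr fun _ =>
    and_congr_left fun _ => good_iff

theorem be_iff {f : AbsGal K → AbsGal K → E} :
    BE (gSys K) cyc f ↔ Gn.BE (GoodG 3 (Gp K) (ramOffThree K)) (cycloThree E) f :=
  exists_congr fun _ => and_congr_left fun _ => n1_iff

theorem invMap_gn {κ : AbsGal K → AbsGal K} {inv : (AbsGal K → AbsGal K → E) → E}
    (h : InvMap (gSys K) E cyc κ inv) :
    Gn.InvMap (GoodG 3 (Gp K) (ramOffThree K)) (cycloThree E) κ inv :=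
  ⟨fun f f' hf hf' => h.add f f' (ze_iff.2 hf) (ze_iff.2 hf'),
    fun a f hf => h.smul a f (ze_iff.2 hf),
    fun f hf => (h.ker f (ze_iff.2 hf)).trans be_iff,
    fun f hf => h.kap f (ze_iff.2 hf)⟩

theorem isInvol_gn {κ : AbsGal K → AbsGal K} (h : IsInvol (gSys K) cyc κ) :
    Gn.IsInvol (GoodG 3 (Gp K) (ramOffThree K)) (cycloThree E) κ := by
  refine ⟨h.mul, h.inv, fun W hW => ?_, fun g => ?_⟩
  · obtain ⟨W', hW', h1⟩ := h.sys W (good_iff.2 hW)
    exact ⟨W', good_iff.1 hW', h1⟩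
  · rw [cycloThree_eq, cycloThree_eq, h.chi]

theorem core_gn : Gn.core 3 (Gp K) (ramOffThree K) = core K := by
  rw [Gn.core, core]
  congr 1
  ext W
  exact good_iff.symm

theorem base_gn : Base (Gp K) (ramOffThree K) := by
  refine ⟨Gp_normal, Gp_isOpen, (good_iff.1 Good.gp).inertia, fun g σ hσ => ?_⟩
  obtain ⟨Q, hQ, hQ3, h⟩ := hσ
  let C : 𝓞 (AlgebraicClosure K) ≃+* 𝓞 (AlgebraicClosure K) :=
    MulSemiringAction.toRingEquiv (AbsGal K) (𝓞 (AlgebraicClosure K)) g
  have hC : ∀ x, C x = g • x := fun x => rfl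
  refine ⟨Q.comap (C : 𝓞 (AlgebraicClosure K) →+* 𝓞 (AlgebraicClosure K)),
    Ideal.comap_isPrime _ _, ?_, ?_⟩
  · intro h3
    apply hQ3
    have h5 : (C : 𝓞 (AlgebraicClosure K) →+* 𝓞 (AlgebraicClosure K)) 3 ∈ Q := h3
    rwa [map_ofNat] at h5
  · intro x
    show (C : 𝓞 (AlgebraicClosure K) →+* 𝓞 (AlgebraicClosure K)) ((g⁻¹ * σ * g) • x - x) ∈ Q
    have h3 : (C : 𝓞 (AlgebraicClosure K) →+* 𝓞 (AlgebraicClosure K)) ((g⁻¹ * σ * g) • x - x) =
        σ • (g • x) - g • x := by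
      show C _ = _
      rw [hC, smul_sub, smul_smul, smul_smul]
      congr 2
      group
    rw [h3]
    exact h (g • x)

/-- Parity of Selmer groups, `p = 3`, from the results of the blocks C and D. -/
theorem par3 [FiniteDimensional ℚ_[3] E] (D : Subgroup (AbsGal K))
    (hclosed : IsClosed (D : Set (AbsGal K)))
    (hmul : ∀ {W : Subgroup (AbsGal K)}, Good W → ∀ g, ∃ d ∈ D, d⁻¹ * g ∈ W)
    (hlg : ∀ {U : Subgroup (Gp K)}, Opn (pSys K) U → ∀ lam : AbsGal K → ZMod 3,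
      (∀ g ∈ D ⊓ U.map (Gp K).subtype, ∀ h ∈ D ⊓ U.map (Gp K).subtype,
        lam (g * h) = lam g + lam h) →
      (∃ U' : Subgroup (AbsGal K), IsOpen (U' : Set (AbsGal K)) ∧
        ∀ g ∈ D ⊓ U.map (Gp K).subtype ⊓ U', lam g = 0) →
      ∃ ψ ∈ homs (pSys K) U, ∀ g : Gp K, g ∈ U → (g : AbsGal K) ∈ D → lam g = ψ g)
    (X : Finset (Gp K))
    (hX : ∀ H : Subgroup (Gp K), Opn (pSys K) H → (∀ g ∈ X, g ∈ H) → H = ⊤)
    (hidx : (Gp K).index = 2)
    (hχ : IsChar (gSys K) (cyc (K := K))) (hχc : ∀ k ∈ core K, cyc k = 1)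
    {κ : AbsGal K → AbsGal K} (hi : IsInvol (gSys K) cyc κ) (hκ : Continuous κ)
    {inv : (AbsGal K → AbsGal K → E) → E} (hinv : InvMap (gSys K) E cyc κ inv)
    {ρ : AbsGal K →* Matrix (Fin n) (Fin n) E} {b : Matrix (Fin n) (Fin n) E}
    (hρ : ConjDual 3 (Gp K) (ramOffThree K) (cycloThree E) κ ρ b) :
    Parity.ParityBound (ramOffThree K) (cycloThree E) κ ρ b D := by
  classical
  have hp3 : Fact (Nat.Prime 3) := ⟨Nat.prime_three⟩
  have hS : Setup 3 (Gp K) (ramOffThree K) D := by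
    refine ⟨base_gn, fun O hO => ?_, hclosed, fun W hW => hmul (good_iff.2 hW), ?_⟩
    · obtain ⟨F, hF1, hF2⟩ := (krullTopology_mem_nhds_one_iff K (AlgebraicClosure K) _).1 hO
      exact ⟨F.fixingSubgroup, IntermediateField.fixingSubgroup_isOpen F, hF2⟩
    · intro W hW lam hadd hcont
      have hWle : W ≤ Gp K := hW.le
      have hmap : (W.subgroupOf (Gp K)).map (Gp K).subtype = W := by
        rw [Subgroup.subgroupOf_map_subtype, inf_eq_left.2 hWle]
      obtain ⟨ψ, ⟨⟨W₁, hW₁, h1⟩, h2, h3⟩, hψ⟩ := hlg (U := W.subgroupOf (Gp K))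
        ⟨_, pSys_mem (good_iff.2 hW), le_rfl⟩ lam (by rwa [hmap]) (by rwa [hmap])
      obtain ⟨W₂, hW₂, rfl⟩ := hW₁
      refine ⟨fun g => if hg : g ∈ Gp K then ψ ⟨g, hg⟩ else 0, ⟨W₂, good_iff.1 hW₂, ?_⟩, ?_⟩
      · intro g hg
        have hgG : g ∈ Gp K := hW₂.le hg
        simp only [dif_pos hgG]
        have h4 := h1 1 ⟨g, hgG⟩ (Subgroup.mem_subgroupOf.2 hg)
        rw [one_mul] at h4
        have h5 := h3 1 (one_mem _) 1 (one_mem _)
        rw [mul_one] at h5
        rw [h4]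
        exact left_eq_add.1 h5
      · rintro g ⟨hgD, hgW⟩
        have hgG : g ∈ Gp K := hWle hgW
        simp only [dif_pos hgG]
        exact hψ ⟨g, hgG⟩ (Subgroup.mem_subgroupOf.2 hgW) hgD
  obtain ⟨t, ht⟩ : ∃ t : AbsGal K, t ∉ Gp K := by
    by_contra hcon
    push Not at hcon
    have : Gp K = ⊤ := (Subgroup.eq_top_iff' _).2 hcon
    rw [this, Subgroup.index_top] at hidx
    exact absurd hidx (by norm_num)
  have hT : ∀ W, GoodG 3 (Gp K) (ramOffThree K) W →
      Subgroup.closure ((insert t (X.image (Gp K).subtype) : Finset (AbsGal K)) :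
        Set (AbsGal K)) ⊔ W = ⊤ := by
    intro W hW
    set Cl := Subgroup.closure ((insert t (X.image (Gp K).subtype) : Finset (AbsGal K)) :
      Set (AbsGal K)) ⊔ W with hCl
    have hWle : W ≤ Gp K := hW.le
    have h1 : Cl.subgroupOf (Gp K) = ⊤ := by
      refine hX _ ⟨_, pSys_mem (good_iff.2 hW), ?_⟩ fun g hg => ?_
      · intro x hx
        exact Subgroup.mem_subgroupOf.2 ((le_sup_right : W ≤ Cl) (Subgroup.mem_subgroupOf.1 hx))
      · refine Subgroup.mem_subgroupOf.2 ((le_sup_left : _ ≤ Cl) (Subgroup.subset_closure ?_))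
        rw [Finset.coe_insert]
        exact Set.mem_insert_of_mem _ (Finset.mem_coe.2 (Finset.mem_image_of_mem _ hg))
    have h2 : Gp K ≤ Cl := by
      intro g hg
      have : (⟨g, hg⟩ : Gp K) ∈ Cl.subgroupOf (Gp K) := by rw [h1]; trivial
      exact Subgroup.mem_subgroupOf.1 this
    have h3 : t ∈ Cl := by
      refine (le_sup_left : _ ≤ Cl) (Subgroup.subset_closure ?_)
      rw [Finset.coe_insert]
      exact Set.mem_insert _ _
    rw [Subgroup.eq_top_iff']
    intro g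
    by_cases hg : g ∈ Gp K
    · exact h2 hg
    · have h4 : t⁻¹ * g ∈ Gp K := by
        rw [Gp_mul_iff, inv_mem_iff]
        tauto
      have := Cl.mul_mem h3 (h2 h4)
      rwa [mul_inv_cancel_left] at this
  refine Gn.parity hS (fun g h => ?_) (fun k hk => ?_) _ hT (isInvol_gn hi) hκ
    (invMap_gn hinv) hρ
  · rw [cycloThree_eq, cycloThree_eq, cycloThree_eq, hχ.mul]
    simp only [toE, PadicInt.coe_mul, map_mul]
  · rw [core_gn] at hk
    rw [cycloThree_eq, hχc k hk]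
    simp only [toE, PadicInt.coe_one, map_one]

end Pool.Agent.Work.MP_787500_nt.P3
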