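import Mathlib
import Pool.Agent.Work.MP_787500_nt.P3.E_Main

/-!
The hypothesis on the representation in the final statement (`p = 3`), and its link with `par3`.

Text of the final theorem, to be put in `Pool/Agent/Results/MP_787500_nt/SelmerParityThree.lean` when
the blocks C and D are proved:

theorem result (K : Type u) [Field K] [NumberField K] (hK : IsBase 3 K)
    (P : Ideal (𝓞 (AlgebraicClosure K))) (hP : P.IsPrime) (hP3 : (3 : 𝓞 (AlgebraicClosure K)) ∈ P)
    (c : AlgebraicClosure K ≃+* AlgebraicClosure K) (hc : ∀ x, c (c x) = x)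
    (hcK : ∃ a : K, c (algebraMap K (AlgebraicClosure K) a) ≠ algebraMap K (AlgebraicClosure K) a)
    (κ : AbsGal K → AbsGal K)
    (hκ : ∀ (σ : AbsGal K) (x : AlgebraicClosure K), κ σ x = c (σ (c x)))
    (E : Type w) [NormedField E] [NormedAlgebra ℚ_[3] E] [FiniteDimensional ℚ_[3] E] (n : ℕ)
    (ρ : AbsGal K →* Matrix (Fin n) (Fin n) E) (b : Matrix (Fin n) (Fin n) E)
    (hρ : IsConjDual κ ρ b) :
    Parity.ParityBound (ramOffThree K) (cycloThree E) κ ρ b (dec P)
-/

set_option autoImplicit false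

namespace Pool.Agent.Work.MP_787500_nt.P3

open IsDedekindDomain NumberField Matrix
open Pool.Agent.Work.MP_787500_nt.OddP (AbsGal IsBase)
open Pool.Agent.Work.MP_787500_nt.Gn (ConjDual)

universe u

variable {K : Type u} [Field K]
variable {E : Type*} [NormedField E] [NormedAlgebra ℚ_[3] E] {n : ℕ}

/-- `ρ` is a continuous representation of the absolute Galois group of `K` on `E ^ n`, unramified at all
primes not above 3; the powers `ρ (σ ^ 3 ^ k)` tend to 1 for every `σ` that fixes the cube roots of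
unity; and `b` is the matrix of a symmetric bilinear form with
`b (ρ σ x) (ρ (κ σ) y) = χ σ * b x y`, where `χ` is the 3-adic cyclotomic character. -/
structure IsConjDual (κ : AbsGal K → AbsGal K) (ρ : AbsGal K →* Matrix (Fin n) (Fin n) E)
    (b : Matrix (Fin n) (Fin n) E) : Prop where
  cont : Continuous ρ
  proThree : ∀ σ : AbsGal K, (∀ z : AlgebraicClosure K, z ^ 3 = 1 → σ z = z) →
    Filter.Tendsto (fun k : ℕ => ρ (σ ^ 3 ^ k)) Filter.atTop (nhds 1)
  unram : ∀ σ ∈ ramOffThree K, ρ σ = 1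
  symm : bᵀ = b
  dual : ∀ σ, (ρ σ)ᵀ * b * ρ (κ σ) = cycloThree E σ • b

theorem IsConjDual.gn [NumberField K] {κ : AbsGal K → AbsGal K}
    {ρ : AbsGal K →* Matrix (Fin n) (Fin n) E} {b : Matrix (Fin n) (Fin n) E}
    (h : IsConjDual κ ρ b) : ConjDual 3 (Gp K) (ramOffThree K) (cycloThree E) κ ρ b := by
  refine ⟨h.cont, fun σ hσ => h.proThree σ fun z hz => ?_, h.unram, h.symm, h.dual⟩
  obtain ⟨i, _, rfl⟩ := (z3_prim (K := K)).eq_pow_of_pow_eq_one hz
  rw [map_pow, mem_Gp.1 hσ]

end Pool.Agent.Work.MP_787500_nt.P3
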