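import Mathlib
import Pool.Agent.Work.MP_787500_nt.P3.B_Cyclic

/-!
# Module B_SIGN (size S-M): the involution acts trivially on the second cohomology, up to torsion

(Simpler than `PA/Sign.lean`.) Notation: `f ~ f'` if `f - f'` is in `B2`; `B2` is closed under addition,
under multiplication by elements of `ℤ_[3]`, and under `f ↦ f ∘ κ := fun g h => f (κ g) (κ h)`
(`dd χ z ∘ κ = dd χ (z ∘ κ)` because `χ (κ g) = χ g` and `κ` is multiplicative; `IsInvol.sys` for the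
continuity), and `Z2` is closed under `∘ κ` as well; the same for `CocMod`, `CobMod`.
If `CobMod S χ 1 n0` then all `f` in `Z2` are in `B2` and the claim is clear with `k = 0`. So assume
`¬ CobMod S χ 1 n0`. Let `n0 ∘ κ ~ a0 n0`. Then `n0 = n0 ∘ κ ∘ κ ~ a0² n0`, so `(a0² - 1) n0 ~ 0`.
(i) If `a0² ≠ 1`: write `a0² - 1 = 3 ^ k * unit`; `3 ^ k n0 ~ 0`, hence `3 ^ k f ~ 0` for all `f` in
    `Z2`, and `3 ^ k (f ∘ κ - f) ~ 0`.
(ii) `a0 = 1`: `f ~ a n0` gives `f ∘ κ ~ a (n0 ∘ κ) ~ a n0 ~ f`; `k = 0`.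
(iii) `a0 = -1`: contradiction. Work modulo `CobMod S χ 1`. `k0` from `hS`; by `cobMod_one_sub`
    `n0 ≈ a k0`, so `n0 ∘ κ ≈ a (k0 ∘ κ) ≈ a k0 ≈ n0`; but `n0 ∘ κ ≈ - n0` (`B2.cobMod`). So `2 n0 ≈ 0`,
    and `n0 = 3 n0 - 2 n0 ≈ 0`: contradiction.
-/

set_option autoImplicit false

namespace Pool.Agent.Work.MP_787500_nt.P3

variable {G : Type*} [Group G] {S : Sys G} {χ : G → ℤ_[3]}

private lemma sg_c1_lin (a b : ℤ_[3]) {z z' : G → ℤ_[3]} (hz : C1 S z) (hz' : C1 S z') :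
    C1 S (fun g => a * z g + b * z' g) := by
  intro n
  obtain ⟨W, hW, h1⟩ := hz n
  obtain ⟨W', hW', h1'⟩ := hz' n
  refine ⟨W ⊓ W', S.inf hW hW', fun g w hw => ?_⟩
  have e : a * z (g * w) + b * z' (g * w) - (a * z g + b * z' g)
      = a * (z (g * w) - z g) + b * (z' (g * w) - z' g) := by ring
  simp only
  rw [e]
  exact dvd_add (Dvd.dvd.mul_left (h1 g w hw.1) a) (Dvd.dvd.mul_left (h1' g w hw.2) b)

private lemma sg_c1_kap {κ : G → G} (hκ : IsInvol S χ κ) {z : G → ℤ_[3]} (hz : C1 S z) :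
    C1 S (fun g => z (κ g)) := by
  intro n
  obtain ⟨W, hW, h1⟩ := hz n
  obtain ⟨W', hW', h2⟩ := hκ.sys W hW
  refine ⟨W', hW', fun g w hw => ?_⟩
  simp only
  rw [hκ.mul]
  exact h1 _ _ (h2 w hw)

private lemma sg_dd_kap {κ : G → G} (hκ : IsInvol S χ κ) (z : G → ℤ_[3]) (g h : G) :
    dd χ (fun g => z (κ g)) g h = dd χ z (κ g) (κ h) := by
  simp only [dd]
  rw [hκ.mul, hκ.chi]

private lemma sg_b2_lin (a b : ℤ_[3]) {f f' : G → G → ℤ_[3]} (hf : B2 S χ f) (hf' : B2 S χ f') :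
    B2 S χ (fun g h => a * f g h + b * f' g h) := by
  obtain ⟨z, hz, rfl⟩ := hf
  obtain ⟨z', hz', rfl⟩ := hf'
  refine ⟨fun g => a * z g + b * z' g, sg_c1_lin a b hz hz', ?_⟩
  funext g h
  simp only [dd]
  ring

private lemma sg_b2_kap {κ : G → G} (hκ : IsInvol S χ κ) {f : G → G → ℤ_[3]} (hf : B2 S χ f) :
    B2 S χ (fun g h => f (κ g) (κ h)) := by
  obtain ⟨z, hz, rfl⟩ := hf
  refine ⟨fun g => z (κ g), sg_c1_kap hκ hz, ?_⟩
  funext g h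
  exact (sg_dd_kap hκ z g h).symm

private lemma sg_b2_congr {f f' : G → G → ℤ_[3]} (hf : B2 S χ f) (h : ∀ g k, f' g k = f g k) :
    B2 S χ f' := by
  have : f' = f := by
    funext g k
    exact h g k
  rw [this]
  exact hf

private lemma sg_z2_kap {κ : G → G} (hκ : IsInvol S χ κ) {f : G → G → ℤ_[3]} (hf : Z2 S χ f) :
    Z2 S χ (fun g h => f (κ g) (κ h)) := by
  refine ⟨fun n => ?_, fun g h k => ?_⟩
  · obtain ⟨W, hW, h1⟩ := hf.1 n
    obtain ⟨W', hW', h2⟩ := hκ.sys W hW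
    refine ⟨W', hW', fun g h w hw w' hw' => ?_⟩
    simp only
    rw [hκ.mul, hκ.mul]
    exact h1 _ _ _ (h2 w hw) _ (h2 w' hw')
  · have := hf.2 (κ g) (κ h) (κ k)
    rw [hκ.chi, ← hκ.mul, ← hκ.mul] at this
    exact this

private lemma sg_z2_sub {f f' : G → G → ℤ_[3]} (hf : Z2 S χ f) (hf' : Z2 S χ f') :
    Z2 S χ (fun g h => f g h - f' g h) := by
  refine ⟨fun n => ?_, fun g h k => ?_⟩
  · obtain ⟨W, hW, h1⟩ := hf.1 n
    obtain ⟨W', hW', h1'⟩ := hf'.1 n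
    refine ⟨W ⊓ W', S.inf hW hW', fun g h w hw w' hw' => ?_⟩
    have e : f (g * w) (h * w') - f' (g * w) (h * w') - (f g h - f' g h)
        = (f (g * w) (h * w') - f g h) - (f' (g * w) (h * w') - f' g h) := by ring
    simp only
    rw [e]
    exact dvd_sub (h1 g h w hw.1 w' hw'.1) (h1' g h w hw.2 w' hw'.2)
  · have e1 := hf.2 g h k
    have e2 := hf'.2 g h k
    linear_combination e1 - e2

private lemma sg_sm_lin (a b : ℤ_[3]) {z z' : G → ℤ_[3]} (hz : Sm1 S z) (hz' : Sm1 S z') :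
    Sm1 S (fun g => a * z g + b * z' g) := by
  obtain ⟨W, hW, h1⟩ := hz
  obtain ⟨W', hW', h1'⟩ := hz'
  refine ⟨W ⊓ W', S.inf hW hW', fun g w hw => ?_⟩
  simp only
  rw [h1 g w hw.1, h1' g w hw.2]

private lemma sg_cm_lin {n : ℕ} (a b : ℤ_[3]) {f f' : G → G → ℤ_[3]} (hf : CobMod S χ n f)
    (hf' : CobMod S χ n f') : CobMod S χ n (fun g h => a * f g h + b * f' g h) := by
  obtain ⟨z, hz, h1⟩ := hf
  obtain ⟨z', hz', h1'⟩ := hf'
  refine ⟨fun g => a * z g + b * z' g, sg_sm_lin a b hz hz', fun g h => ?_⟩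
  have e : a * f g h + b * f' g h - dd χ (fun g => a * z g + b * z' g) g h
      = a * (f g h - dd χ z g h) + b * (f' g h - dd χ z' g h) := by
    simp only [dd]
    ring
  rw [e]
  exact dvd_add (Dvd.dvd.mul_left (h1 g h) a) (Dvd.dvd.mul_left (h1' g h) b)

private lemma sg_cm_kap {n : ℕ} {κ : G → G} (hκ : IsInvol S χ κ) {f : G → G → ℤ_[3]}
    (hf : CobMod S χ n f) : CobMod S χ n (fun g h => f (κ g) (κ h)) := by
  obtain ⟨z, ⟨W, hW, h0⟩, h1⟩ := hf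
  refine ⟨fun g => z (κ g), ?_, fun g h => ?_⟩
  · obtain ⟨W', hW', h2⟩ := hκ.sys W hW
    refine ⟨W', hW', fun g w hw => ?_⟩
    simp only
    rw [hκ.mul]
    exact h0 _ _ (h2 w hw)
  · rw [sg_dd_kap hκ]
    exact h1 _ _

private lemma sg_cm_congr {n : ℕ} {f f' : G → G → ℤ_[3]} (hf : CobMod S χ n f)
    (h : ∀ g k, (3 : ℤ_[3]) ^ n ∣ f' g k - f g k) : CobMod S χ n f' := by
  obtain ⟨z, hz, h1⟩ := hf
  refine ⟨z, hz, fun g k => ?_⟩
  have e : f' g k - dd χ z g k = (f' g k - f g k) + (f g k - dd χ z g k) := by ring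
  rw [e]
  exact dvd_add (h g k) (h1 g k)

private theorem sg_three (hL : LocalType S) (hχ : IsChar3 S χ) {κ : G → G} (hκ : IsInvol S χ κ)
    {n0 : G → G → ℤ_[3]} (hn0 : Z2 S χ n0) (hnc : ¬ CobMod S χ 1 n0)
    (hS : ∃ k0 : G → G → ℤ_[3], CocMod S χ 1 k0 ∧ ¬ CobMod S χ 1 k0 ∧
      CobMod S χ 1 (fun g h => k0 (κ g) (κ h) - k0 g h))
    (hD : B2 S χ (fun g h => n0 (κ g) (κ h) + n0 g h)) : False := by
  obtain ⟨k0, hk0, hk1, hk2⟩ := hS
  have hD2 := hD.cobMod hχ.toIsChar 1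
  obtain ⟨a, ha⟩ := cobMod_one_sub hL hχ hk0 (hn0.cocMod 1) hk1
  have haκ := sg_cm_kap hκ ha
  have c1 := sg_cm_lin 1 (-1) hD2 haκ
  have c2 := sg_cm_lin 1 (-a) c1 hk2
  have c3 := sg_cm_lin 1 1 c2 ha
  refine hnc (sg_cm_congr (sg_cm_lin (-1) 0 c3 c3) fun g k => ⟨n0 g k, ?_⟩)
  ring

theorem sign (hL : LocalType S) (hχ : IsChar3 S χ) {κ : G → G} (hκ : IsInvol S χ κ)
    {n0 : G → G → ℤ_[3]} (hn0 : Z2 S χ n0)
    (hcyc : ∀ f, Z2 S χ f → ∃ a : ℤ_[3], B2 S χ (fun g h => f g h - a * n0 g h))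
    (htriv : CobMod S χ 1 n0 → ∀ f, Z2 S χ f → B2 S χ f)
    (hS : ∃ k0 : G → G → ℤ_[3], CocMod S χ 1 k0 ∧ ¬ CobMod S χ 1 k0 ∧
      CobMod S χ 1 (fun g h => k0 (κ g) (κ h) - k0 g h))
    {f : G → G → ℤ_[3]} (hf : Z2 S χ f) :
    ∃ k : ℕ, B2 S χ (fun g h => 3 ^ k * (f (κ g) (κ h) - f g h)) := by
  have hfκ := sg_z2_kap hκ hf
  by_cases hn : CobMod S χ 1 n0
  · refine ⟨0, sg_b2_congr (htriv hn _ (sg_z2_sub hfκ hf)) fun g k => ?_⟩
    rw [pow_zero, one_mul]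
  obtain ⟨a0, hD⟩ := hcyc _ (sg_z2_kap hκ hn0)
  have hDκ := sg_b2_kap hκ hD
  have hsq : B2 S χ (fun g h => (a0 ^ 2 - 1) * n0 g h) := by
    refine sg_b2_congr (sg_b2_lin (-1) (-a0) hDκ hD) fun g k => ?_
    rw [hκ.inv, hκ.inv]
    ring
  obtain ⟨a, hE⟩ := hcyc f hf
  by_cases h1 : a0 ^ 2 - 1 = 0
  · have h2 : a0 = 1 ∨ a0 = -1 := by
      have h3 : (a0 - 1) * (a0 + 1) = 0 := by linear_combination h1
      rcases mul_eq_zero.1 h3 with h | h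
      · exact Or.inl (sub_eq_zero.1 h)
      · exact Or.inr (eq_neg_of_add_eq_zero_left h)
    rcases h2 with rfl | rfl
    · refine ⟨0, ?_⟩
      have c1 := sg_b2_lin 1 (-1) (sg_b2_kap hκ hE) hE
      refine sg_b2_congr (sg_b2_lin 1 a c1 hD) fun g k => ?_
      ring
    · exfalso
      refine sg_three hL hχ hκ hn0 hn hS (sg_b2_congr hD fun g k => ?_)
      ring
  · refine ⟨(a0 ^ 2 - 1).valuation, ?_⟩
    set x := a0 ^ 2 - 1 with hx
    have hspec := PadicInt.unitCoeff_spec h1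
    set u := PadicInt.unitCoeff h1 with hu
    have hpn : B2 S χ (fun g h => (3 : ℤ_[3]) ^ x.valuation * n0 g h) := by
      refine sg_b2_congr (sg_b2_lin (↑u⁻¹) 0 hsq hsq) fun g k => ?_
      have hui : (↑u⁻¹ : ℤ_[3]) * ↑u = 1 := u.inv_mul
      have h3 : (↑u⁻¹ : ℤ_[3]) * x = 3 ^ x.valuation := by
        conv_lhs => rw [hspec]
        rw [← mul_assoc, hui, one_mul]
        norm_num
      linear_combination -n0 g k * h3
    have hpf : B2 S χ (fun g h => (3 : ℤ_[3]) ^ x.valuation * f g h) := by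
      refine sg_b2_congr (sg_b2_lin (3 ^ x.valuation) a hE hpn) fun g k => ?_
      ring
    refine sg_b2_congr (sg_b2_lin 1 (-1) (sg_b2_kap hκ hpf) hpf) fun g k => ?_
    ring

end Pool.Agent.Work.MP_787500_nt.P3
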